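import Pool.Agent.Lib.EEQ.Defs

/-! Basic facts on primitives of `L²(0,∞)` functions and on the truncated nonlinearity. -/

open Real Set MeasureTheory Filter Topology

namespace MPee

theorem Adm.mono {A A' : ℝ} {w : ℝ → ℝ} (h : Adm A w) (hA : A ≤ A') : Adm A' w :=
  ⟨h.mem, h.le.trans hA⟩

theorem Adm.int_sq {A : ℝ} {w : ℝ → ℝ} (h : Adm A w) :
    IntegrableOn (fun t => w t ^ 2) (Ioi 0) := h.mem.integrable_sq

theorem Adm.nonneg {A : ℝ} {w : ℝ → ℝ} (h : Adm A w) : 0 ≤ A :=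
  (integral_nonneg fun t => sq_nonneg (w t)).trans h.le

theorem Adm.aesm {A : ℝ} {w : ℝ → ℝ} (h : Adm A w) :
    AEStronglyMeasurable w (volume.restrict (Ioi 0)) := h.mem.1

theorem Adm.memLp_Ioc {A : ℝ} {w : ℝ → ℝ} (h : Adm A w) {s t : ℝ} (hs : 0 ≤ s) :
    MemLp w 2 (volume.restrict (Ioc s t)) :=
  h.mem.mono_measure (Measure.restrict_mono (fun _ hx => lt_of_le_of_lt hs hx.1) le_rfl)

theorem Adm.intervalIntegrable {A : ℝ} {w : ℝ → ℝ} (h : Adm A w) {a b : ℝ} (ha : 0 ≤ a)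
    (hb : 0 ≤ b) : IntervalIntegrable w volume a b := by
  constructor
  · exact (h.memLp_Ioc ha).integrable (by norm_num)
  · exact (h.memLp_Ioc hb).integrable (by norm_num)

theorem Adm.prim_sub {A : ℝ} {w : ℝ → ℝ} (h : Adm A w) {s t : ℝ} (hs : 0 ≤ s) (ht : 0 ≤ t) :
    prim w t - prim w s = ∫ r in s..t, w r := by
  unfold prim
  have := intervalIntegral.integral_add_adjacent_intervals
    (h.intervalIntegrable le_rfl hs) (h.intervalIntegrable hs ht)
  linarith

/-- Cauchy-Schwarz on an interval. -/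
theorem Adm.prim_sub_sq {A : ℝ} {w : ℝ → ℝ} (h : Adm A w) {s t : ℝ} (hs : 0 ≤ s) (hst : s ≤ t) :
    (prim w t - prim w s) ^ 2 ≤ (∫ r in Ioc s t, w r ^ 2) * (t - s) := by
  rw [h.prim_sub hs (hs.trans hst), intervalIntegral.integral_of_le hst]
  rcases eq_or_lt_of_le hst with h0 | h0
  · simp [h0]
  have hi : Integrable w (volume.restrict (Ioc s t)) := (h.memLp_Ioc hs).integrable (by norm_num)
  have hi2 : Integrable (fun r => w r ^ 2) (volume.restrict (Ioc s t)) :=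
    (h.memLp_Ioc hs).integrable_sq
  set I := ∫ r in Ioc s t, w r with hI
  set c := I / (t - s) with hc
  have hts : 0 < t - s := by linarith
  have h1 : 0 ≤ ∫ r in Ioc s t, (w r - c) ^ 2 := integral_nonneg fun r => sq_nonneg _
  have h2 : ∫ r in Ioc s t, (w r - c) ^ 2 = (∫ r in Ioc s t, w r ^ 2) - 2 * c * I + c ^ 2 * (t - s) := by
    have e : (fun r => (w r - c) ^ 2) = fun r => w r ^ 2 - 2 * c * w r + c ^ 2 := by
      funext r; ring
    have hc2 : Integrable (fun _ : ℝ => c ^ 2) (volume.restrict (Ioc s t)) := integrable_const _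
    have hi3 : Integrable (fun r => 2 * c * w r) (volume.restrict (Ioc s t)) := hi.const_mul _
    have e1 : ∫ r in Ioc s t, (w r ^ 2 - 2 * c * w r + c ^ 2) =
        (∫ r in Ioc s t, (w r ^ 2 - 2 * c * w r)) + ∫ r in Ioc s t, c ^ 2 :=
      integral_add (hi2.sub hi3) hc2
    have e2 : ∫ r in Ioc s t, (w r ^ 2 - 2 * c * w r) =
        (∫ r in Ioc s t, w r ^ 2) - ∫ r in Ioc s t, 2 * c * w r := integral_sub hi2 hi3
    rw [e, e1, e2, integral_const_mul, ← hI]
    simp [hst]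
    ring
  rw [h2] at h1
  have h3 : c * (t - s) = I := by rw [hc]; field_simp
  nlinarith

theorem Adm.int_Ioc_le {A : ℝ} {w : ℝ → ℝ} (h : Adm A w) {s t : ℝ} (hs : 0 ≤ s) :
    ∫ r in Ioc s t, w r ^ 2 ≤ A := by
  refine le_trans ?_ h.le
  apply setIntegral_mono_set h.int_sq
  · exact Eventually.of_forall fun r => sq_nonneg _
  · have : Ioc s t ⊆ Ioi 0 := fun x hx => lt_of_le_of_lt hs hx.1
    exact this.eventuallyLE

theorem prim_zero (w : ℝ → ℝ) : prim w 0 = 0 := by simp [prim]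

theorem Adm.prim_sq {A : ℝ} {w : ℝ → ℝ} (h : Adm A w) {t : ℝ} (ht : 0 ≤ t) :
    prim w t ^ 2 ≤ A * t := by
  have h1 := h.prim_sub_sq le_rfl ht
  rw [prim_zero, sub_zero, sub_zero] at h1
  exact h1.trans (mul_le_mul_of_nonneg_right (h.int_Ioc_le le_rfl) ht)

theorem Adm.prim_sub_abs {A : ℝ} {w : ℝ → ℝ} (h : Adm A w) {s t : ℝ} (hs : 0 ≤ s) (ht : 0 ≤ t) :
    |prim w t - prim w s| ≤ √(A * |t - s|) := by
  wlog hst : s ≤ t generalizing s t
  · rw [abs_sub_comm, abs_sub_comm t s]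
    exact this ht hs (le_of_not_ge hst)
  apply Real.abs_le_sqrt
  rw [abs_of_nonneg (by linarith)]
  exact (h.prim_sub_sq hs hst).trans
    (mul_le_mul_of_nonneg_right (h.int_Ioc_le hs) (by linarith))

theorem Adm.prim_cont {A : ℝ} {w : ℝ → ℝ} (h : Adm A w) : ContinuousOn (prim w) (Ici 0) := by
  intro s hs
  rw [ContinuousWithinAt, tendsto_iff_norm_sub_tendsto_zero]
  have h1 : Tendsto (fun t => √(A * |t - s|)) (𝓝[Ici 0] s) (𝓝 0) := by
    have : Continuous fun t : ℝ => √(A * |t - s|) := by fun_prop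
    have h2 := this.tendsto s
    simp only [sub_self, abs_zero, mul_zero, Real.sqrt_zero] at h2
    exact h2.mono_left nhdsWithin_le_nhds
  refine squeeze_zero' (Eventually.of_forall fun t => norm_nonneg _) ?_ h1
  filter_upwards [self_mem_nhdsWithin] with t ht
  exact h.prim_sub_abs hs ht

theorem HH_cont {G f : ℝ → ℝ} (h : GData G f) (V : ℝ) : Continuous (HH G V) := by
  have hG : Continuous G := continuous_iff_continuousAt.2 fun v => (h.der v).continuousAt
  unfold HH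
  fun_prop

theorem GData.contG {G f : ℝ → ℝ} (h : GData G f) : Continuous G :=
  continuous_iff_continuousAt.2 fun v => (h.der v).continuousAt

theorem Far.strictMonoOn {G f : ℝ → ℝ} {V0 θ : ℝ} (hf : Far G f V0 θ) (h : GData G f) :
    StrictMonoOn G (Ici V0) := by
  apply strictMonoOn_of_deriv_pos (convex_Ici V0) h.contG.continuousOn
  intro x hx
  rw [interior_Ici] at hx
  rw [(h.der x).deriv]
  exact hf.fpos x hx.le

theorem HH_mono {G f : ℝ → ℝ} {V0 θ : ℝ} (h : GData G f) (hf : Far G f V0 θ) {V : ℝ}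
    (hV : V0 ≤ V) : Monotone (HH G V) := by
  intro a b hab
  unfold HH
  have := (hf.strictMonoOn h).monotoneOn (show max a V ∈ Ici V0 from hV.trans (le_max_right _ _))
    (show max b V ∈ Ici V0 from hV.trans (le_max_right _ _)) (max_le_max_right V hab)
  linarith

theorem HH_of_le {G : ℝ → ℝ} {V v : ℝ} (hv : v ≤ V) : HH G V v = 0 := by
  unfold HH; rw [max_eq_right hv, sub_self]

theorem HH_of_ge {G : ℝ → ℝ} {V v : ℝ} (hv : V ≤ v) : HH G V v = G v - G V := by
  unfold HH; rw [max_eq_left hv]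

theorem HH_nonneg {G f : ℝ → ℝ} {V0 θ : ℝ} (h : GData G f) (hf : Far G f V0 θ) {V : ℝ}
    (hV : V0 ≤ V) (v : ℝ) : 0 ≤ HH G V v := by
  rcases le_total v V with h1 | h1
  · rw [HH_of_le h1]
  · have := HH_mono h hf hV h1
    rwa [HH_of_le le_rfl] at this

theorem HH_le {G f : ℝ → ℝ} {V0 θ : ℝ} (h : GData G f) (hf : Far G f V0 θ) {V : ℝ}
    (hV : V0 ≤ V) (v : ℝ) : HH G V v ≤ exp (v ^ 2) := by
  rcases le_total v V with h1 | h1
  · rw [HH_of_le h1]; positivity
  · rw [HH_of_ge h1]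
    have := hf.le_exp v (hV.trans h1)
    have := h.pos V
    linarith

theorem aesm_comp_prim {A : ℝ} {w H : ℝ → ℝ} (hw : Adm A w) (hH : Continuous H) :
    AEStronglyMeasurable (fun t => exp (-t) * H (prim w t)) (volume.restrict (Ioi 0)) := by
  apply ContinuousOn.aestronglyMeasurable _ measurableSet_Ioi
  have h1 : ContinuousOn (prim w) (Ioi 0) := hw.prim_cont.mono Ioi_subset_Ici_self
  exact (by fun_prop : Continuous fun t : ℝ => exp (-t)).continuousOn.mul (hH.comp_continuousOn h1)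

/-- domination: `e^{-t} H(φ) ≤ e^{-(1-A)t}` -/
theorem exp_HH_le {G f : ℝ → ℝ} {V0 θ : ℝ} (h : GData G f) (hf : Far G f V0 θ) {V : ℝ}
    (hV : V0 ≤ V) {A : ℝ} {w : ℝ → ℝ} (hw : Adm A w) {t : ℝ} (ht : 0 ≤ t) :
    exp (-t) * HH G V (prim w t) ≤ exp (-((1 - A) * t)) := by
  have h1 := HH_le h hf hV (prim w t)
  have h2 : exp (prim w t ^ 2) ≤ exp (A * t) := exp_le_exp.2 (hw.prim_sq ht)
  calc exp (-t) * HH G V (prim w t) ≤ exp (-t) * exp (A * t) :=
        mul_le_mul_of_nonneg_left (h1.trans h2) (exp_pos _).le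
    _ = _ := by rw [← exp_add]; congr 1; ring

theorem exp_HH_nonneg {G f : ℝ → ℝ} {V0 θ : ℝ} (h : GData G f) (hf : Far G f V0 θ) {V : ℝ}
    (hV : V0 ≤ V) (w : ℝ → ℝ) (t : ℝ) : 0 ≤ exp (-t) * HH G V (prim w t) :=
  mul_nonneg (exp_pos _).le (HH_nonneg h hf hV _)

theorem int_exp_neg {a : ℝ} (ha : 0 < a) : IntegrableOn (fun t : ℝ => exp (-(a * t))) (Ioi 0) := by
  simpa using exp_neg_integrableOn_Ioi 0 ha

theorem int_HH {G f : ℝ → ℝ} {V0 θ : ℝ} (h : GData G f) (hf : Far G f V0 θ) {V : ℝ}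
    (hV : V0 ≤ V) {A : ℝ} (hA : A < 1) {w : ℝ → ℝ} (hw : Adm A w) :
    IntegrableOn (fun t => exp (-t) * HH G V (prim w t)) (Ioi 0) := by
  refine Integrable.mono' (int_exp_neg (by linarith : 0 < 1 - A)) (aesm_comp_prim hw (HH_cont h V)) ?_
  filter_upwards [ae_restrict_mem measurableSet_Ioi] with t ht
  rw [Real.norm_eq_abs, abs_of_nonneg (exp_HH_nonneg h hf hV w t)]
  exact exp_HH_le h hf hV hw (le_of_lt ht)

theorem HH_der {G f : ℝ → ℝ} (h : GData G f) {V v : ℝ} (hv : V < v) :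
    HasDerivAt (HH G V) (f v) v := by
  have h1 : HasDerivAt (fun v => G v - G V) (f v) v := (h.der v).sub_const _
  refine h1.congr_of_eventuallyEq ?_
  filter_upwards [eventually_gt_nhds hv] with y hy
  exact HH_of_ge hy.le

end MPee
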