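import Pool.Agent.Lib.EEQ.Basic

/-! MP_ee476b_an, Q2, case I: the structure `MinSol` (statement of helper8's skeleton). -/

open Real Set MeasureTheory Filter Topology

namespace MPee

/-- `H` continuous, `C¹`, bounded, derivative `q` bounded; a minimiser of `½E - l ∫ e^{-t} H(φ)`
gives a `C²` profile. The field `min` is the minimality, used for cutting arguments. -/
structure MinSol (H q : ℝ → ℝ) (l : ℝ) (w : ℝ → ℝ) : Prop where
  adm : ∃ A, Adm A w
  cont : ContinuousOn w (Ici 0)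
  eqn : ∀ s, 0 ≤ s → w s = l * ∫ t in Ioi s, exp (-t) * q (prim w t)
  min : ∀ A w', Adm A w' → (∫ t in Ioi (0:ℝ), w t ^ 2) / 2 - l * ∫ t in Ioi (0:ℝ), exp (-t) * H (prim w t)
    ≤ (∫ t in Ioi (0:ℝ), w' t ^ 2) / 2 - l * ∫ t in Ioi (0:ℝ), exp (-t) * H (prim w' t)

end MPee
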