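import Pool.Agent.Lib.EEQ.Weak
import Pool.Agent.Lib.EEQ.MinDefs

/-! Case I, first part: existence of a minimiser of `½ E - l ∫ e^{-t} H(φ)` and its
Euler-Lagrange equation. -/

open Real Set MeasureTheory Filter Topology

namespace MPee

namespace C1

/-- the functional -/
noncomputable def JJ (H : ℝ → ℝ) (l : ℝ) (w : ℝ → ℝ) : ℝ :=
  (∫ t in Ioi (0:ℝ), w t ^ 2) / 2 - l * ∫ t in Ioi (0:ℝ), exp (-t) * H (prim w t)

theorem int_exp1 : IntegrableOn (fun t : ℝ => exp (-t)) (Ioi 0) := by
  have := int_exp_neg (a := 1) one_pos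
  simpa using this

theorem int_exp1_val : ∫ t in Ioi (0:ℝ), exp (-t) = 1 := integral_exp_neg_Ioi_zero

theorem int_bdd {H : ℝ → ℝ} {B A : ℝ} {w : ℝ → ℝ} (hw : Adm A w) (hHc : Continuous H)
    (hH : ∀ v, |H v| ≤ B) : IntegrableOn (fun t => exp (-t) * H (prim w t)) (Ioi 0) := by
  refine Integrable.mono' (int_exp1.const_mul B) (aesm_comp_prim hw hHc) ?_
  filter_upwards with t
  rw [Real.norm_eq_abs, abs_mul, abs_of_pos (exp_pos _), mul_comm]
  exact mul_le_mul_of_nonneg_right (hH _) (exp_pos _).le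

theorem abs_int_le {H : ℝ → ℝ} {B : ℝ} (w : ℝ → ℝ) (hH : ∀ v, |H v| ≤ B) :
    |∫ t in Ioi (0:ℝ), exp (-t) * H (prim w t)| ≤ B := by
  have h1 : ‖∫ t in Ioi (0:ℝ), exp (-t) * H (prim w t)‖ ≤ ∫ t in Ioi (0:ℝ), B * exp (-t) := by
    refine norm_integral_le_of_norm_le (int_exp1.const_mul B) ?_
    filter_upwards with t
    rw [Real.norm_eq_abs, abs_mul, abs_of_pos (exp_pos _), mul_comm]
    exact mul_le_mul_of_nonneg_right (hH _) (exp_pos _).le
  rw [integral_const_mul, int_exp1_val, mul_one] at h1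
  exact h1

theorem adm_zero : Adm 0 (fun _ => (0:ℝ)) := by
  constructor
  · exact MemLp.zero'
  · simp

/-- existence of a minimiser -/
theorem exists_minimiser {H : ℝ → ℝ} (hHc : Continuous H) {B : ℝ} (hH : ∀ v, |H v| ≤ B) {l : ℝ}
    (hl : 0 < l) : ∃ R v, Adm R v ∧ ∀ A w', Adm A w' → JJ H l v ≤ JJ H l w' := by
  have hB : 0 ≤ B := (abs_nonneg _).trans (hH 0)
  set S : Set ℝ := {x | ∃ A w, Adm A w ∧ JJ H l w = x} with hS
  have hSne : S.Nonempty := ⟨_, 0, _, adm_zero, rfl⟩
  have hlow : ∀ w : ℝ → ℝ, -(l * B) ≤ JJ H l w := by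
    intro w
    have h1 := (abs_le.1 (abs_int_le w hH)).2
    have h2 : 0 ≤ ∫ t in Ioi (0:ℝ), w t ^ 2 := integral_nonneg fun t => sq_nonneg (w t)
    have h3 := mul_le_mul_of_nonneg_left h1 hl.le
    unfold JJ
    linarith
  have hSb : BddBelow S := ⟨-(l * B), by rintro x ⟨A, w, -, rfl⟩; exact hlow w⟩
  set m : ℝ := sInf S with hm
  have hseq : ∀ n : ℕ, ∃ w, (∃ A, Adm A w) ∧ JJ H l w < m + 1 / ((n : ℝ) + 1) := by
    intro n
    have hpos : (0:ℝ) < 1 / ((n : ℝ) + 1) := by positivity
    obtain ⟨x, ⟨A, w, hw, rfl⟩, hx⟩ := exists_lt_of_csInf_lt hSne (lt_add_of_pos_right m hpos)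
    exact ⟨w, ⟨A, hw⟩, hx⟩
  choose w hw hJ using hseq
  have hEle : ∀ n, ∫ t in Ioi (0:ℝ), w n t ^ 2 ≤ 2 * (m + 1 + l * B) := by
    intro n
    have h1 := hJ n
    have h2 := mul_le_mul_of_nonneg_left (abs_le.1 (abs_int_le (w n) hH)).2 hl.le
    have h3 : 1 / ((n : ℝ) + 1) ≤ 1 := by
      rw [div_le_one (by positivity)]
      have : (0:ℝ) ≤ n := Nat.cast_nonneg n
      linarith
    unfold JJ at h1
    linarith
  obtain ⟨σ, v, hσ, hv, hpt, hE⟩ := weak_compact w fun n =>
    (⟨(hw n).choose_spec.mem, hEle n⟩ : Adm (2 * (m + 1 + l * B)) (w n))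
  -- convergence of the nonlinear part
  have hN : Tendsto (fun k => ∫ t in Ioi (0:ℝ), exp (-t) * H (prim (w (σ k)) t)) atTop
      (𝓝 (∫ t in Ioi (0:ℝ), exp (-t) * H (prim v t))) := by
    refine tendsto_integral_of_dominated_convergence (fun t => B * exp (-t)) ?_
      (int_exp1.const_mul B) ?_ ?_
    · intro k
      exact aesm_comp_prim (hw (σ k)).choose_spec hHc
    · intro k
      filter_upwards with t
      rw [Real.norm_eq_abs, abs_mul, abs_of_pos (exp_pos _), mul_comm]
      exact mul_le_mul_of_nonneg_right (hH _) (exp_pos _).le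
    · filter_upwards [ae_restrict_mem measurableSet_Ioi] with t ht
      exact ((hHc.tendsto _).comp (hpt t (le_of_lt ht))).const_mul _
  set Nv : ℝ := ∫ t in Ioi (0:ℝ), exp (-t) * H (prim v t) with hNv
  have hlim : Tendsto (fun k => 2 * (m + 1 / ((σ k : ℝ) + 1)) +
      2 * l * ∫ t in Ioi (0:ℝ), exp (-t) * H (prim (w (σ k)) t)) atTop
      (𝓝 (2 * (m + 0) + 2 * l * Nv)) := by
    have h1 : Tendsto (fun k => 1 / ((σ k : ℝ) + 1)) atTop (𝓝 0) :=
      (tendsto_one_div_add_atTop_nhds_zero_nat (𝕜 := ℝ)).comp hσ.tendsto_atTop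
    exact ((h1.const_add m).const_mul 2).add (hN.const_mul (2 * l))
  have hEv : ∫ t in Ioi (0:ℝ), v t ^ 2 ≤ 2 * (m + 0) + 2 * l * Nv := by
    refine le_of_forall_pos_le_add fun ε hε => ?_
    refine hE _ (Eventually.frequently ?_)
    filter_upwards [hlim.eventually (gt_mem_nhds (lt_add_of_pos_right _ hε))] with k hk
    refine le_trans ?_ hk.le
    have h1 := (hJ (σ k)).le
    unfold JJ at h1
    linarith
  refine ⟨_, v, hv, fun A w' hw' => ?_⟩
  have h1 : m ≤ JJ H l w' := csInf_le hSb ⟨A, w', hw', rfl⟩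
  refine le_trans ?_ h1
  unfold JJ
  rw [← hNv]
  linarith

/-! ### the tail integral -/

section tail

variable {q : ℝ → ℝ} {B R : ℝ} {v : ℝ → ℝ}

/-- `K(s) = ∫_s^∞ e^{-t} q(φ)` -/
noncomputable def KK (q v : ℝ → ℝ) (s : ℝ) : ℝ := ∫ t in Ioi s, exp (-t) * q (prim v t)

theorem int_tail (hv : Adm R v) (hq : Continuous q) (hqB : ∀ v, |q v| ≤ B) {s : ℝ} (hs : 0 ≤ s) :
    IntegrableOn (fun t => exp (-t) * q (prim v t)) (Ioi s) :=
  (int_bdd hv hq hqB).mono_set (Ioi_subset_Ioi hs)

theorem KK_abs (hqB : ∀ v, |q v| ≤ B) (s : ℝ) : |KK q v s| ≤ B * exp (-s) := by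
  have hi : IntegrableOn (fun t : ℝ => exp (-t)) (Ioi s) := by
    have := exp_neg_integrableOn_Ioi s one_pos
    simpa using this
  have h1 : ‖∫ t in Ioi s, exp (-t) * q (prim v t)‖ ≤ ∫ t in Ioi s, B * exp (-t) := by
    refine norm_integral_le_of_norm_le (hi.const_mul B) ?_
    filter_upwards with t
    rw [Real.norm_eq_abs, abs_mul, abs_of_pos (exp_pos _), mul_comm]
    exact mul_le_mul_of_nonneg_right (hqB _) (exp_pos _).le
  rw [integral_const_mul, integral_exp_neg_Ioi] at h1
  exact h1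

theorem KK_sub (hv : Adm R v) (hq : Continuous q) (hqB : ∀ v, |q v| ≤ B) {s s' : ℝ} (hs : 0 ≤ s)
    (hss : s ≤ s') : |KK q v s - KK q v s'| ≤ B * (s' - s) := by
  have h1 : KK q v s = (∫ t in Ioc s s', exp (-t) * q (prim v t)) + KK q v s' := by
    unfold KK
    rw [← setIntegral_union (Ioc_disjoint_Ioi le_rfl) measurableSet_Ioi
      ((int_tail hv hq hqB hs).mono_set Ioc_subset_Ioi_self)
      (int_tail hv hq hqB (hs.trans hss)), Ioc_union_Ioi_eq_Ioi hss]
  rw [h1, add_sub_cancel_right]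
  have h2 : ‖∫ t in Ioc s s', exp (-t) * q (prim v t)‖ ≤ B * (volume.real (Ioc s s')) := by
    refine norm_setIntegral_le_of_norm_le_const measure_Ioc_lt_top fun t ht => ?_
    rw [Real.norm_eq_abs, abs_mul, abs_of_pos (exp_pos _)]
    have h3 : exp (-t) ≤ 1 := by
      rw [exp_le_one_iff]
      linarith [ht.1]
    calc exp (-t) * |q (prim v t)| ≤ 1 * B :=
          mul_le_mul h3 (hqB _) (abs_nonneg _) zero_le_one
      _ = B := one_mul B
  rw [Real.volume_real_Ioc_of_le hss] at h2
  exact h2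

theorem KK_cont (hv : Adm R v) (hq : Continuous q) (hqB : ∀ v, |q v| ≤ B) :
    ContinuousOn (KK q v) (Ici 0) := by
  intro s hs
  rw [ContinuousWithinAt, tendsto_iff_norm_sub_tendsto_zero]
  have h1 : Tendsto (fun t => B * |t - s|) (𝓝[Ici 0] s) (𝓝 0) := by
    have : Continuous fun t : ℝ => B * |t - s| := by fun_prop
    have h2 := this.tendsto s
    simp only [sub_self, abs_zero, mul_zero] at h2
    exact h2.mono_left nhdsWithin_le_nhds
  refine squeeze_zero' (Eventually.of_forall fun t => norm_nonneg _) ?_ h1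
  filter_upwards [self_mem_nhdsWithin] with t ht
  rw [Real.norm_eq_abs]
  rcases le_total s t with h | h
  · rw [abs_sub_comm, abs_of_nonneg (by linarith : 0 ≤ t - s)]
    exact KK_sub hv hq hqB hs h
  · rw [abs_sub_comm t s, abs_of_nonneg (by linarith : 0 ≤ s - t)]
    exact KK_sub hv hq hqB ht h

theorem KK_memLp (hv : Adm R v) (hq : Continuous q) (hqB : ∀ v, |q v| ≤ B) :
    MemLp (KK q v) 2 mh := by
  have hm : AEStronglyMeasurable (KK q v) mh :=
    ((KK_cont hv hq hqB).mono Ioi_subset_Ici_self).aestronglyMeasurable measurableSet_Ioi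
  have hexp : MemLp (fun s : ℝ => B * exp (-s)) 2 mh := by
    rw [memLp_two_iff_integrable_sq (by fun_prop)]
    have h1 : (fun s : ℝ => (B * exp (-s)) ^ 2) = fun s => B ^ 2 * exp (-(2 * s)) := by
      funext s
      rw [mul_pow, ← exp_nat_mul]
      congr 2
      push_cast
      ring
    rw [h1]
    exact (int_exp_neg two_pos).const_mul (B ^ 2)
  refine hexp.mono hm ?_
  filter_upwards with s
  rw [Real.norm_eq_abs, Real.norm_eq_abs]
  exact (KK_abs hqB s).trans (le_abs_self _)

/-- Fubini: `∫ e^{-t} q(φ) ∫_0^t d = ∫ d K`. -/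
theorem fubini (hv : Adm R v) (hq : Continuous q) (hqB : ∀ v, |q v| ≤ B) {D : ℝ} {d : ℝ → ℝ}
    (hd : Adm D d) :
    ∫ t in Ioi (0:ℝ), exp (-t) * q (prim v t) * prim d t =
      ∫ s in Ioi (0:ℝ), d s * KK q v s := by
  have hB : 0 ≤ B := (abs_nonneg _).trans (hqB 0)
  set F : ℝ → ℝ → ℝ := fun t s => {p : ℝ × ℝ | p.2 < p.1}.indicator
    (fun p : ℝ × ℝ => (exp (-p.1) * q (prim v p.1)) * d p.2) (t, s) with hF
  have hFpos : ∀ t s : ℝ, s < t → F t s = exp (-t) * q (prim v t) * d s := fun t s hst =>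
    indicator_of_mem (show (t, s) ∈ {p : ℝ × ℝ | p.2 < p.1} from hst) _
  have hFneg : ∀ t s : ℝ, ¬ s < t → F t s = 0 := fun t s hst =>
    indicator_of_notMem (show (t, s) ∉ {p : ℝ × ℝ | p.2 < p.1} from hst) _
  have hmeas1 : AEStronglyMeasurable (fun p : ℝ × ℝ => exp (-p.1) * q (prim v p.1)) (mh.prod mh) :=
    (aesm_comp_prim hv hq).comp_fst
  have hmeas2 : AEStronglyMeasurable (fun p : ℝ × ℝ => d p.2) (mh.prod mh) := hd.aesm.comp_snd
  have hset : MeasurableSet {p : ℝ × ℝ | p.2 < p.1} := measurableSet_lt measurable_snd measurable_fst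
  have hmeasF : AEStronglyMeasurable (Function.uncurry F) (mh.prod mh) := by
    have : Function.uncurry F = {p : ℝ × ℝ | p.2 < p.1}.indicator
        (fun p : ℝ × ℝ => (exp (-p.1) * q (prim v p.1)) * d p.2) := by
      funext p
      rfl
    rw [this]
    exact (hmeas1.mul hmeas2).indicator hset
  have hg1 : Integrable (fun t : ℝ => B * exp (-(1 / 2 * t))) mh :=
    (int_exp_neg (by norm_num : (0:ℝ) < 1 / 2)).const_mul B
  have hg2 : Integrable (fun s : ℝ => exp (-(1 / 2 * s)) * |d s|) mh := by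
    have h1 : MemLp (fun s : ℝ => exp (-(1 / 2 * s))) 2 mh := by
      rw [memLp_two_iff_integrable_sq (by fun_prop)]
      have h2 : (fun s : ℝ => exp (-(1 / 2 * s)) ^ 2) = fun s => exp (-s) := by
        funext s
        rw [← exp_nat_mul]
        congr 1
        push_cast
        ring
      rw [h2]
      exact int_exp1
    exact h1.integrable_mul hd.mem.abs
  have hint : Integrable (Function.uncurry F) (mh.prod mh) := by
    refine Integrable.mono' (hg1.mul_prod hg2) hmeasF ?_
    filter_upwards with p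
    obtain ⟨t, s⟩ := p
    show ‖F t s‖ ≤ B * exp (-(1 / 2 * t)) * (exp (-(1 / 2 * s)) * |d s|)
    by_cases hst : s < t
    · rw [hFpos t s hst, Real.norm_eq_abs, abs_mul, abs_mul, abs_of_pos (exp_pos _)]
      have h1 : exp (-t) ≤ exp (-(1 / 2 * t)) * exp (-(1 / 2 * s)) := by
        rw [← exp_add, exp_le_exp]
        linarith
      calc exp (-t) * |q (prim v t)| * |d s|
          ≤ (exp (-(1 / 2 * t)) * exp (-(1 / 2 * s))) * B * |d s| := by
            gcongr
            exact hqB _
        _ = _ := by ring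
    · rw [hFneg t s hst, norm_zero]
      positivity
  have hswap := integral_integral_swap hint
  have hleft : ∫ t, ∫ s, F t s ∂mh ∂mh = ∫ t in Ioi (0:ℝ), exp (-t) * q (prim v t) * prim d t := by
    refine setIntegral_congr_fun measurableSet_Ioi fun t ht => ?_
    have ht0 : (0:ℝ) < t := ht
    have e1 : (fun s => F t s) = (Iio t).indicator (fun s => (exp (-t) * q (prim v t)) * d s) := by
      funext s
      by_cases hst : s < t
      · rw [hFpos t s hst, indicator_of_mem (show s ∈ Iio t from hst)]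
      · rw [hFneg t s hst, indicator_of_notMem (show s ∉ Iio t from hst)]
    show ∫ s, F t s ∂mh = _
    rw [e1, integral_indicator measurableSet_Iio]
    unfold mh
    rw [Measure.restrict_restrict measurableSet_Iio, integral_const_mul]
    congr 1
    unfold prim
    rw [intervalIntegral.integral_of_le ht0.le]
    have e2 : Iio t ∩ Ioi 0 = Ioo 0 t := by
      ext x; simp [and_comm]
    rw [e2]
    exact (integral_Ioc_eq_integral_Ioo).symm
  have hright : ∫ s, ∫ t, F t s ∂mh ∂mh = ∫ s in Ioi (0:ℝ), d s * KK q v s := by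
    refine setIntegral_congr_fun measurableSet_Ioi fun s hs => ?_
    have hs0 : (0:ℝ) < s := hs
    have e1 : (fun t => F t s) = (Ioi s).indicator (fun t => d s * (exp (-t) * q (prim v t))) := by
      funext t
      by_cases hst : s < t
      · rw [hFpos t s hst, indicator_of_mem (show t ∈ Ioi s from hst)]
        ring
      · rw [hFneg t s hst, indicator_of_notMem (show t ∉ Ioi s from hst)]
    show ∫ t, F t s ∂mh = _
    rw [e1, integral_indicator measurableSet_Ioi]
    unfold mh
    rw [Measure.restrict_restrict measurableSet_Ioi, integral_const_mul]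
    have e2 : Ioi s ∩ Ioi 0 = Ioi s := by
      ext x
      simp only [mem_inter_iff, mem_Ioi]
      constructor
      · exact fun h => h.1
      · exact fun h => ⟨h, hs0.trans h⟩
    rw [e2]
    rfl
  rw [← hleft, ← hright]
  exact hswap

end tail

end C1

open C1 in
theorem exists_minSol {H q : ℝ → ℝ} (hd : ∀ v, HasDerivAt H (q v) v) (hq : Continuous q)
    {B : ℝ} (hH : ∀ v, |H v| ≤ B) (hqB : ∀ v, |q v| ≤ B) {l : ℝ} (hl : 0 < l) :
    ∃ w, MinSol H q l w := by
  have hHc : Continuous H := continuous_iff_continuousAt.2 fun v => (hd v).continuousAt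
  have hB : 0 ≤ B := (abs_nonneg _).trans (hH 0)
  obtain ⟨R, v, hv, hmin⟩ := exists_minimiser hHc hH hl
  -- the direction
  set K : ℝ → ℝ := KK q v with hK
  have hKm : MemLp K 2 mh := KK_memLp hv hq hqB
  set d : ℝ → ℝ := fun s => v s - l * K s with hd'
  have hdm : MemLp d 2 mh := hv.mem.sub (hKm.const_mul l)
  have hdA : Adm (∫ s in Ioi (0:ℝ), d s ^ 2) d := ⟨hdm, le_rfl⟩
  have hvd : Integrable (fun s => v s * d s) mh := hv.mem.integrable_mul hdm
  have hKd : Integrable (fun s => d s * K s) mh := hdm.integrable_mul hKm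
  have hd2 : Integrable (fun s => d s ^ 2) mh := hdm.integrable_sq
  have hv2 : Integrable (fun s => v s ^ 2) mh := hv.mem.integrable_sq
  set P : ℝ := ∫ s in Ioi (0:ℝ), v s * d s with hP
  set Q : ℝ := ∫ s in Ioi (0:ℝ), d s ^ 2 with hQ
  set E : ℝ := ∫ s in Ioi (0:ℝ), v s ^ 2 with hE
  -- the perturbed function
  have hadm : ∀ ε : ℝ, MemLp (fun s => v s - ε * d s) 2 mh := fun ε =>
    hv.mem.sub (hdm.const_mul ε)
  have hprim : ∀ ε : ℝ, ∀ t, 0 ≤ t →
      prim (fun s => v s - ε * d s) t = prim v t - ε * prim d t := by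
    intro ε t ht
    unfold prim
    rw [intervalIntegral.integral_sub (hv.intervalIntegrable le_rfl ht)
      ((hdA.intervalIntegrable le_rfl ht).const_mul ε), intervalIntegral.integral_const_mul]
  have henergy : ∀ ε : ℝ, ∫ s in Ioi (0:ℝ), (v s - ε * d s) ^ 2 = E - 2 * ε * P + ε ^ 2 * Q := by
    intro ε
    have e1 : (fun s => (v s - ε * d s) ^ 2) =
        fun s => v s ^ 2 - 2 * ε * (v s * d s) + ε ^ 2 * d s ^ 2 := by
      funext s; ring
    have i1 : Integrable (fun s => 2 * ε * (v s * d s)) mh := hvd.const_mul (2 * ε)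
    have i2 : Integrable (fun s => ε ^ 2 * d s ^ 2) mh := hd2.const_mul (ε ^ 2)
    have e2 : ∫ s in Ioi (0:ℝ), (v s ^ 2 - 2 * ε * (v s * d s) + ε ^ 2 * d s ^ 2) =
        (∫ s in Ioi (0:ℝ), (v s ^ 2 - 2 * ε * (v s * d s))) + ∫ s in Ioi (0:ℝ), ε ^ 2 * d s ^ 2 :=
      integral_add (hv2.sub i1) i2
    have e3 : ∫ s in Ioi (0:ℝ), (v s ^ 2 - 2 * ε * (v s * d s)) =
        (∫ s in Ioi (0:ℝ), v s ^ 2) - ∫ s in Ioi (0:ℝ), 2 * ε * (v s * d s) := integral_sub hv2 i1
    rw [e1, e2, e3, integral_const_mul, integral_const_mul]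
  -- derivative of the nonlinear part
  have hψ : ∀ t, 0 ≤ t → |prim d t| ≤ Q + 1 + t := by
    intro t ht
    have h1 := hdA.prim_sq ht
    have hQ0 : 0 ≤ Q := hdA.nonneg
    apply abs_le_of_sq_le_sq _ (by linarith)
    nlinarith
  have hbi : Integrable (fun t : ℝ => B * (exp (-t) * (Q + 1 + t))) mh := by
    have h1 : Integrable (fun t : ℝ => exp (-t) * (Q + 1 + t)) mh := by
      have h2 : Integrable (fun t : ℝ => exp (-t) * t) mh := by
        have := Real.GammaIntegral_convergent (s := 2) two_pos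
        refine this.congr_fun (fun t ht => ?_) measurableSet_Ioi
        norm_num
      have h3 : (fun t : ℝ => exp (-t) * (Q + 1 + t)) =
          fun t => (Q + 1) * exp (-t) + exp (-t) * t := by
        funext t; ring
      rw [h3]
      exact (int_exp1.const_mul (Q + 1)).add h2
    exact h1.const_mul B
  have hpc : ContinuousOn (prim v) (Ioi 0) := hv.prim_cont.mono Ioi_subset_Ici_self
  have hdc : ContinuousOn (prim d) (Ioi 0) := hdA.prim_cont.mono Ioi_subset_Ici_self
  have hexpc : ContinuousOn (fun t : ℝ => exp (-t)) (Ioi 0) :=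
    (by fun_prop : Continuous fun t : ℝ => exp (-t)).continuousOn
  have hder := hasDerivAt_integral_of_dominated_loc_of_deriv_le (μ := mh) (𝕜 := ℝ)
    (F := fun ε t => exp (-t) * H (prim v t - ε * prim d t))
    (F' := fun ε t => exp (-t) * (q (prim v t - ε * prim d t) * (-prim d t)))
    (x₀ := 0) (s := Set.univ) (bound := fun t => B * (exp (-t) * (Q + 1 + t))) univ_mem
    (Eventually.of_forall fun ε => by
      refine ContinuousOn.aestronglyMeasurable ?_ measurableSet_Ioi
      exact hexpc.mul (hHc.comp_continuousOn (hpc.sub (continuousOn_const.mul hdc))))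
    (by
      have h := int_bdd hv hHc hH
      simp only [zero_mul, sub_zero]
      exact h)
    (by
      refine ContinuousOn.aestronglyMeasurable ?_ measurableSet_Ioi
      exact hexpc.mul ((hq.comp_continuousOn (hpc.sub (continuousOn_const.mul hdc))).mul hdc.neg))
    (by
      filter_upwards [ae_restrict_mem measurableSet_Ioi] with t ht ε _
      have ht0 : (0:ℝ) ≤ t := le_of_lt ht
      rw [Real.norm_eq_abs, abs_mul, abs_mul, abs_neg, abs_of_pos (exp_pos _)]
      calc exp (-t) * (|q (prim v t - ε * prim d t)| * |prim d t|)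
          ≤ exp (-t) * (B * (Q + 1 + t)) := by
            gcongr
            · exact hqB _
            · exact hψ t ht0
        _ = B * (exp (-t) * (Q + 1 + t)) := by ring)
    hbi
    (by
      filter_upwards with t ε _
      have h1 : HasDerivAt (fun ε : ℝ => prim v t - ε * prim d t) (-prim d t) ε := by
        simpa using ((hasDerivAt_id ε).mul_const (prim d t)).const_sub (prim v t)
      exact ((hd _).comp ε h1).const_mul (exp (-t)))
  -- the function of `ε` has a minimum at `0`
  have hderJ : HasDerivAt (fun ε : ℝ => (E - 2 * ε * P + ε ^ 2 * Q) / 2 -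
      l * ∫ t, exp (-t) * H (prim v t - ε * prim d t) ∂mh)
      (-P - l * ∫ t, exp (-t) * (q (prim v t - 0 * prim d t) * (-prim d t)) ∂mh) 0 := by
    have h1 : HasDerivAt (fun ε : ℝ => (E - 2 * ε * P + ε ^ 2 * Q) / 2) (-P) 0 := by
      have h2 : HasDerivAt (fun ε : ℝ => E - 2 * ε * P + ε ^ 2 * Q) (-(2 * P)) 0 := by
        have ha : HasDerivAt (fun ε : ℝ => 2 * ε * P) (2 * P) 0 := by
          simpa using ((hasDerivAt_id (0:ℝ)).const_mul 2).mul_const P
        have hb : HasDerivAt (fun ε : ℝ => ε ^ 2 * Q) 0 0 := by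
          simpa using ((hasDerivAt_id (0:ℝ)).pow 2).mul_const Q
        have hc := (ha.const_sub E).fun_add hb
        rw [add_zero] at hc
        exact hc
      have h3 := h2.div_const 2
      have e : -(2 * P) / 2 = -P := by ring
      rw [e] at h3
      exact h3
    exact h1.sub (hder.2.const_mul l)
  have hJeq : ∀ ε : ℝ, JJ H l (fun s => v s - ε * d s) = (E - 2 * ε * P + ε ^ 2 * Q) / 2 -
      l * ∫ t, exp (-t) * H (prim v t - ε * prim d t) ∂mh := by
    intro ε
    unfold JJ
    rw [henergy]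
    congr 2
    refine setIntegral_congr_fun measurableSet_Ioi fun t ht => ?_
    have ht0 : (0:ℝ) ≤ t := le_of_lt ht
    show exp (-t) * H (prim (fun s => v s - ε * d s) t) = exp (-t) * H (prim v t - ε * prim d t)
    rw [hprim ε t ht0]
  have hloc : IsLocalMin (fun ε : ℝ => (E - 2 * ε * P + ε ^ 2 * Q) / 2 -
      l * ∫ t, exp (-t) * H (prim v t - ε * prim d t) ∂mh) 0 := by
    refine Eventually.of_forall fun ε => ?_
    have h0 := hJeq 0
    have h1 := hJeq ε
    simp only at h0 h1 ⊢
    rw [← h0, ← h1]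
    have e0 : (fun s => v s - 0 * d s) = v := by funext s; ring
    rw [e0]
    exact hmin _ _ ⟨hadm ε, le_rfl⟩
  have hzero := hloc.hasDerivAt_eq_zero hderJ
  have hfub := fubini hv hq hqB hdA
  have e1 : ∫ t, exp (-t) * (q (prim v t - 0 * prim d t) * (-prim d t)) ∂mh =
      -∫ s in Ioi (0:ℝ), d s * K s := by
    rw [hK, ← hfub, ← integral_neg]
    refine integral_congr_ae (Eventually.of_forall fun t => ?_)
    simp only [zero_mul, sub_zero]
    ring
  rw [e1] at hzero
  have hQ0 : Q = 0 := by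
    have e2 : Q = P - l * ∫ s in Ioi (0:ℝ), d s * K s := by
      rw [hQ, hP, ← integral_const_mul, ← integral_sub hvd (hKd.const_mul l)]
      refine integral_congr_ae (Eventually.of_forall fun s => ?_)
      simp only [hd']
      ring
    rw [e2]
    linarith
  have hae : d =ᵐ[mh] 0 := by
    have h1 := (integral_eq_zero_iff_of_nonneg (μ := mh) (fun s => sq_nonneg (d s)) hd2).1 hQ0
    filter_upwards [h1] with s hs
    exact pow_eq_zero_iff two_ne_zero |>.1 hs
  have hvK : v =ᵐ[mh] fun s => l * K s := by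
    filter_upwards [hae] with s hs
    have : v s - l * K s = 0 := hs
    linarith
  -- the representative
  have hpw : ∀ t, 0 ≤ t → prim (fun s => l * K s) t = prim v t := by
    intro t ht
    unfold prim
    rw [intervalIntegral.integral_of_le ht, intervalIntegral.integral_of_le ht]
    refine integral_congr_ae ?_
    have h1 : v =ᵐ[volume.restrict (Ioc 0 t)] fun s => l * K s :=
      ae_restrict_of_ae_restrict_of_subset (fun x (hx : x ∈ Ioc 0 t) => hx.1) hvK
    exact h1.symm
  have hwE : ∫ t in Ioi (0:ℝ), (l * K t) ^ 2 = E := by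
    refine integral_congr_ae ?_
    filter_upwards [hvK] with t ht
    rw [ht]
  have hwN : ∫ t in Ioi (0:ℝ), exp (-t) * H (prim (fun s => l * K s) t) =
      ∫ t in Ioi (0:ℝ), exp (-t) * H (prim v t) := by
    refine setIntegral_congr_fun measurableSet_Ioi fun t ht => ?_
    have ht0 : (0:ℝ) ≤ t := le_of_lt ht
    show exp (-t) * H (prim (fun s => l * K s) t) = exp (-t) * H (prim v t)
    rw [hpw t ht0]
  refine ⟨fun s => l * K s, ⟨⟨E, hKm.const_mul l, hwE.le⟩, ?_, ?_, ?_⟩⟩
  · exact continuousOn_const.mul (KK_cont hv hq hqB)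
  · intro s hs
    congr 1
    refine setIntegral_congr_fun measurableSet_Ioi fun t ht => ?_
    have ht0 : (0:ℝ) ≤ t := hs.trans (le_of_lt ht)
    show exp (-t) * q (prim v t) = exp (-t) * q (prim (fun s => l * K s) t)
    rw [hpw t ht0]
  · intro A w' hw'
    have h1 := hmin A w' hw'
    unfold JJ at h1
    rw [hwE, hwN]
    exact h1

end MPee
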