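import Pool.Agent.Lib.EEQ.Cut32
import Pool.Agent.Lib.EEQ.CaseOne

/-! MP_ee476b_an, Q2, case I: the minimiser of the clamped functional is a solution (helper32). -/

open Real Set MeasureTheory Filter Topology

namespace MPee

namespace CI

/-- projection to `[0,b]` -/
noncomputable def clam (b v : ℝ) : ℝ := max 0 (min v b)

theorem clam_nonneg (b v : ℝ) : 0 ≤ clam b v := le_max_left _ _

theorem clam_le {b : ℝ} (hb : 0 < b) (v : ℝ) : clam b v ≤ b := max_le hb.le (min_le_right _ _)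

theorem clam_eq {b v : ℝ} (h0 : 0 ≤ v) (h1 : v ≤ b) : clam b v = v := by
  unfold clam; rw [min_eq_left h1, max_eq_right h0]

theorem clam_of_le {b v : ℝ} (h : v ≤ 0) : clam b v = 0 := by
  unfold clam; exact max_eq_left ((min_le_left _ _).trans h)

theorem clam_of_ge {b v : ℝ} (hb : 0 < b) (h : b ≤ v) : clam b v = b := by
  unfold clam; rw [min_eq_right h, max_eq_right hb.le]

theorem clam_cont (b : ℝ) : Continuous (clam b) := by unfold clam; fun_prop

theorem clam_lip (b u v : ℝ) : |clam b u - clam b v| ≤ |u - v| := by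
  unfold clam
  have h1 := abs_max_sub_max_le_max 0 (min u b) 0 (min v b)
  have h2 := abs_min_sub_min_le_max u b v b
  simp only [sub_self, abs_zero] at h1 h2
  have h3 : max 0 |min u b - min v b| = |min u b - min v b| := max_eq_right (abs_nonneg _)
  have h4 : max |u - v| 0 = |u - v| := max_eq_left (abs_nonneg _)
  linarith

theorem clam_der {G f : ℝ → ℝ} (h : GData G f) {b : ℝ} (hb : 0 < b) (hfb : f b = 0) (v : ℝ) :
    HasDerivAt (fun v => G (clam b v)) (f (clam b v)) v := by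
  by_cases hv : 0 < v ∧ v < b
  · have h1 := h.der v
    rw [clam_eq hv.1.le hv.2.le]
    refine h1.congr_of_eventuallyEq ?_
    filter_upwards [Ioo_mem_nhds hv.1 hv.2] with y hy
    rw [clam_eq hy.1.le hy.2.le]
  · have h0 : f (clam b v) = 0 := by
      rw [not_and_or, not_lt, not_lt] at hv
      rcases hv with hv | hv
      · rw [clam_of_le hv, h.f0]
      · rw [clam_of_ge hb hv, hfb]
    have h1 := h.der (clam b v)
    rw [h0] at h1 ⊢
    rw [hasDerivAt_iff_isLittleO] at h1 ⊢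
    simp only [smul_zero, sub_zero] at h1 ⊢
    have h2 : (fun y => G (clam b y) - G (clam b v)) =o[𝓝 v] fun y => clam b y - clam b v :=
      h1.comp_tendsto ((clam_cont b).tendsto v)
    refine h2.trans_isBigO ?_
    exact Asymptotics.IsBigO.of_bound 1 (Eventually.of_forall fun y => by
      simpa using clam_lip b y v)

theorem clam_bound {G f : ℝ → ℝ} (h : GData G f) {b : ℝ} (hb : 0 < b) :
    ∃ B, (∀ v, |G (clam b v)| ≤ B) ∧ ∀ v, |f (clam b v)| ≤ B := by
  obtain ⟨B1, h1⟩ := (isCompact_Icc (a := (0:ℝ)) (b := b)).exists_bound_of_continuousOn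
    h.contG.continuousOn
  obtain ⟨B2, h2⟩ := (isCompact_Icc (a := (0:ℝ)) (b := b)).exists_bound_of_continuousOn
    h.cont.continuousOn
  refine ⟨max B1 B2, fun v => ?_, fun v => ?_⟩
  · exact (h1 _ ⟨clam_nonneg b v, clam_le hb v⟩).trans (le_max_left _ _)
  · exact (h2 _ ⟨clam_nonneg b v, clam_le hb v⟩).trans (le_max_right _ _)

/-- intermediate value -/
theorem hit {p : ℝ → ℝ} (hp : ContinuousOn p (Ici 0)) {s t c : ℝ} (hs : 0 ≤ s) (hst : s ≤ t)
    (h1 : p s ≤ c) (h2 : c ≤ p t) : ∃ r ∈ Icc s t, p r = c := by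
  have := intermediate_value_Icc hst (hp.mono (fun x hx => hs.trans hx.1 : Icc s t ⊆ Ici 0))
  exact this ⟨h1, h2⟩

theorem hit' {p : ℝ → ℝ} (hp : ContinuousOn p (Ici 0)) {s t c : ℝ} (hs : 0 ≤ s) (hst : s ≤ t)
    (h1 : c ≤ p s) (h2 : p t ≤ c) : ∃ r ∈ Icc s t, p r = c := by
  have := intermediate_value_Icc' hst (hp.mono (fun x hx => hs.trans hx.1 : Icc s t ⊆ Ici 0))
  exact this ⟨h2, h1⟩

/-- last time before `t0` at the level `c` -/
theorem last_hit {p : ℝ → ℝ} (hp : ContinuousOn p (Ici 0)) {s t0 c : ℝ} (hs : 0 ≤ s)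
    (hst : s ≤ t0) (h1 : c ≤ p s) (h2 : p t0 ≤ c) :
    ∃ t1 ∈ Icc s t0, p t1 = c ∧ ∀ t ∈ Icc t1 t0, p t ≤ c := by
  have hc : IsCompact (Icc s t0 ∩ p ⁻¹' {c}) := by
    have hcl : IsClosed (Icc s t0 ∩ p ⁻¹' {c}) :=
      (hp.mono (fun x hx => hs.trans hx.1 : Icc s t0 ⊆ Ici 0)).preimage_isClosed_of_isClosed
        isClosed_Icc isClosed_singleton
    exact isCompact_Icc.of_isClosed_subset hcl inter_subset_left
  obtain ⟨r, hr, hr2⟩ := hit' hp hs hst h1 h2
  obtain ⟨t1, ht1, hmax⟩ := hc.exists_isGreatest ⟨r, hr, hr2⟩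
  refine ⟨t1, ht1.1, ht1.2, fun t ht => ?_⟩
  by_contra hlt
  rw [not_le] at hlt
  obtain ⟨r', hr', hr2'⟩ := hit' hp (hs.trans (ht1.1.1.trans ht.1)) ht.2 hlt.le h2
  have h3 : r' ≤ t1 := hmax ⟨⟨ht1.1.1.trans (ht.1.trans hr'.1), hr'.2⟩, hr2'⟩
  have h4 : t = t1 := le_antisymm (hr'.1.trans h3) ht.1
  rw [h4, show p t1 = c from ht1.2] at hlt
  exact lt_irrefl _ hlt

/-- first time after `t0` at the level `c` -/
theorem first_hit {p : ℝ → ℝ} (hp : ContinuousOn p (Ici 0)) {s t0 c : ℝ} (ht0 : 0 ≤ t0)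
    (hst : t0 ≤ s) (h1 : c ≤ p s) (h2 : p t0 ≤ c) :
    ∃ t1 ∈ Icc t0 s, p t1 = c ∧ ∀ t ∈ Icc t0 t1, p t ≤ c := by
  have hc : IsCompact (Icc t0 s ∩ p ⁻¹' {c}) := by
    have hcl : IsClosed (Icc t0 s ∩ p ⁻¹' {c}) :=
      (hp.mono (fun x hx => ht0.trans hx.1 : Icc t0 s ⊆ Ici 0)).preimage_isClosed_of_isClosed
        isClosed_Icc isClosed_singleton
    exact isCompact_Icc.of_isClosed_subset hcl inter_subset_left
  obtain ⟨r, hr, hr2⟩ := hit hp ht0 hst h2 h1
  obtain ⟨t1, ht1, hmin⟩ := hc.exists_isLeast ⟨r, hr, hr2⟩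
  refine ⟨t1, ht1.1, ht1.2, fun t ht => ?_⟩
  by_contra hlt
  rw [not_le] at hlt
  obtain ⟨r', hr', hr2'⟩ := hit hp ht0 ht.1 h2 hlt.le
  have h3 : t1 ≤ r' := hmin ⟨⟨hr'.1, hr'.2.trans (ht.2.trans ht1.1.2)⟩, hr2'⟩
  have h4 : t = t1 := le_antisymm ht.2 (h3.trans hr'.2)
  rw [h4, show p t1 = c from ht1.2] at hlt
  exact lt_irrefl _ hlt

section
variable {G f : ℝ → ℝ} {b l : ℝ} {w : ℝ → ℝ}

theorem clam_top (hb : 0 < b) (hrec : ∀ v ∈ Ico 0 b, G v < G b) (v : ℝ) :
    G (clam b v) ≤ G b := by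
  rcases lt_or_eq_of_le (clam_le hb v) with h | h
  · exact (hrec _ ⟨clam_nonneg b v, h⟩).le
  · rw [h]

theorem one_le (h : GData G f) (hb : 0 < b) (hrec : ∀ v ∈ Ico 0 b, G v < G b) (hl : 0 < l)
    (M : MinSol (fun v => G (clam b v)) (fun v => f (clam b v)) l w) {t : ℝ} (ht : 0 ≤ t) :
    prim w t ≤ b := by
  obtain ⟨A, hA⟩ := M.adm
  obtain ⟨B, hB, -⟩ := clam_bound h hb
  by_contra hlt
  rw [not_le] at hlt
  obtain ⟨r, hr, hr2⟩ := hit hA.prim_cont le_rfl ht (by rw [prim_zero]; exact hb.le) hlt.le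
  have := M.cutInf hl (h.contG.comp (clam_cont b)) hB hr.1 (fun s _ => by
    simp only [hr2]
    rw [clam_of_ge hb le_rfl]
    exact clam_top hb hrec _) t hr.2
  linarith

theorem nonneg_one (h : GData G f) (hb : 0 < b) (hl : 0 < l)
    (M : MinSol (fun v => G (clam b v)) (fun v => f (clam b v)) l w) {t0 : ℝ} (ht0 : 0 ≤ t0) :
    0 ≤ prim w t0 := by
  obtain ⟨A, hA⟩ := M.adm
  obtain ⟨B, hB, -⟩ := clam_bound h hb
  by_contra hlt
  rw [not_le] at hlt
  obtain ⟨t1, ht1, h1, h1'⟩ := last_hit hA.prim_cont le_rfl ht0 (c := 0)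
    (by rw [prim_zero]) hlt.le
  by_cases hex : ∃ s, t0 ≤ s ∧ 0 ≤ prim w s
  · obtain ⟨s, hs, hs2⟩ := hex
    obtain ⟨t2, ht2, h2, h2'⟩ := first_hit hA.prim_cont ht0 hs (c := 0) hs2 hlt.le
    have h3 := M.cutFin hl (h.contG.comp (clam_cont b)) hB ht1.1 (ht1.2.trans ht2.1)
      (by rw [h1, h2]) (fun t ht => by
        have h4 : prim w t ≤ 0 := by
          rcases le_total t t0 with h5 | h5
          · exact h1' t ⟨ht.1, h5⟩
          · exact h2' t ⟨h5, ht.2⟩
        simp only [h1]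
        rw [clam_of_le h4, clam_of_le le_rfl]) t0 ⟨ht1.2, ht2.1⟩
    linarith
  · push Not at hex
    have h3 := M.cutInf hl (h.contG.comp (clam_cont b)) hB ht1.1 (fun t ht => by
        have h4 : prim w t ≤ 0 := by
          rcases le_total t t0 with h5 | h5
          · exact h1' t ⟨ht, h5⟩
          · exact (hex t h5).le
        simp only [h1]
        rw [clam_of_le h4, clam_of_le le_rfl]) t0 ht1.2
    linarith

/-- the value of the clamped function along the profile -/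
theorem clam_prim (h : GData G f) (hb : 0 < b) (hrec : ∀ v ∈ Ico 0 b, G v < G b) (hl : 0 < l)
    (M : MinSol (fun v => G (clam b v)) (fun v => f (clam b v)) l w) {t : ℝ} (ht : 0 ≤ t) :
    clam b (prim w t) = prim w t :=
  clam_eq (nonneg_one h hb hl M ht) (one_le h hb hrec hl M ht)

theorem mu_lim (h : GData G f) (hb : 0 < b) (hl : 0 < l)
    (M : MinSol (fun v => G (clam b v)) (fun v => f (clam b v)) l w) :
    Tendsto (prim w) atTop (𝓝 (∫ t in Ioi (0:ℝ), w t)) := by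
  obtain ⟨B, -, hqB⟩ := clam_bound h hb
  exact M.lim hl hqB

theorem mu_nonneg (h : GData G f) (hb : 0 < b) (hl : 0 < l)
    (M : MinSol (fun v => G (clam b v)) (fun v => f (clam b v)) l w) :
    0 ≤ ∫ t in Ioi (0:ℝ), w t :=
  ge_of_tendsto (mu_lim h hb hl M) ((eventually_ge_atTop 0).mono fun _ ht =>
    nonneg_one h hb hl M ht)

theorem mu_le_b (h : GData G f) (hb : 0 < b) (hrec : ∀ v ∈ Ico 0 b, G v < G b) (hl : 0 < l)
    (M : MinSol (fun v => G (clam b v)) (fun v => f (clam b v)) l w) :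
    ∫ t in Ioi (0:ℝ), w t ≤ b :=
  le_of_tendsto (mu_lim h hb hl M) ((eventually_ge_atTop 0).mono fun _ ht =>
    one_le h hb hrec hl M ht)

theorem prim_le_mu (h : GData G f) (hb : 0 < b) (hrec : ∀ v ∈ Ico 0 b, G v < G b) (hl : 0 < l)
    (M : MinSol (fun v => G (clam b v)) (fun v => f (clam b v)) l w) {t0 : ℝ} (ht0 : 0 ≤ t0) :
    prim w t0 ≤ ∫ t in Ioi (0:ℝ), w t := by
  obtain ⟨A, hA⟩ := M.adm
  obtain ⟨B, hB, -⟩ := clam_bound h hb
  have hlim := mu_lim h hb hl M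
  set mu := ∫ t in Ioi (0:ℝ), w t with hmu
  by_contra hlt
  rw [not_le] at hlt
  obtain ⟨T, hT⟩ := eventually_atTop.1 (hlim.eventually_lt_const hlt)
  have hne : t0 ∈ Icc (0:ℝ) (max t0 T) := ⟨ht0, le_max_left _ _⟩
  obtain ⟨ts, hts, hmax⟩ := (isCompact_Icc (a := (0:ℝ)) (b := max t0 T)).exists_isMaxOn
    ⟨t0, hne⟩ (hA.prim_cont.mono fun x hx => hx.1)
  have hmax0 : ∀ t, 0 ≤ t → prim w t ≤ prim w ts := by
    intro t ht
    rcases le_total t (max t0 T) with h1 | h1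
    · exact hmax (show t ∈ Icc (0:ℝ) (max t0 T) from ⟨ht, h1⟩)
    · exact (hT t ((le_max_right _ _).trans h1)).le.trans (hmax hne)
  have hS : mu < prim w ts := hlt.trans_le (hmax hne)
  have hS0 : 0 ≤ prim w ts := nonneg_one h hb hl M hts.1
  obtain ⟨m, hm, hmm⟩ := (isCompact_Icc (a := (0:ℝ)) (b := prim w ts)).exists_isMaxOn
    ⟨0, le_rfl, hS0⟩ h.contG.continuousOn
  obtain ⟨r, hr, hr2⟩ := hit hA.prim_cont le_rfl hts.1 (c := m) (by rw [prim_zero]; exact hm.1) hm.2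
  have h3 := M.cutInf hl (h.contG.comp (clam_cont b)) hB hr.1 (fun t ht => by
    have ht0 : 0 ≤ t := hr.1.trans ht
    rw [clam_prim h hb hrec hl M ht0, clam_prim h hb hrec hl M hr.1, hr2]
    exact hmm (show prim w t ∈ Icc 0 (prim w ts) from
      ⟨nonneg_one h hb hl M ht0, hmax0 t ht0⟩))
  have h4 : mu = m := by
    refine tendsto_nhds_unique hlim ?_
    refine tendsto_const_nhds.congr' ?_
    filter_upwards [eventually_ge_atTop r] with t ht
    rw [h3 t ht, hr2]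
  have h5 := h3 ts hr.2
  linarith

theorem G_le_mu (h : GData G f) (hb : 0 < b) (hrec : ∀ v ∈ Ico 0 b, G v < G b) (hl : 0 < l)
    (M : MinSol (fun v => G (clam b v)) (fun v => f (clam b v)) l w) {v : ℝ} (hv : 0 ≤ v)
    (hv2 : v ≤ ∫ t in Ioi (0:ℝ), w t) : G v ≤ G (∫ t in Ioi (0:ℝ), w t) := by
  obtain ⟨A, hA⟩ := M.adm
  obtain ⟨B, hB, -⟩ := clam_bound h hb
  have hlim := mu_lim h hb hl M
  have hle := fun {t : ℝ} (ht : 0 ≤ t) => prim_le_mu h hb hrec hl M ht
  set mu := ∫ t in Ioi (0:ℝ), w t with hmu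
  obtain ⟨m, hm, hmm⟩ := (isCompact_Icc (a := (0:ℝ)) (b := mu)).exists_isMaxOn
    ⟨v, hv, hv2⟩ h.contG.continuousOn
  have hvm : G v ≤ G m := hmm (show v ∈ Icc 0 mu from ⟨hv, hv2⟩)
  refine hvm.trans ?_
  by_contra hlt
  rw [not_le] at hlt
  have hmlt : m < mu := by
    rcases lt_or_eq_of_le hm.2 with h1 | h1
    · exact h1
    · rw [h1] at hlt; exact absurd hlt (lt_irrefl _)
  obtain ⟨T, hT⟩ := eventually_atTop.1 (hlim.eventually_const_lt hmlt)
  have hT0 : (0:ℝ) ≤ max 0 T := le_max_left _ _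
  obtain ⟨r, hr, hr2⟩ := hit hA.prim_cont le_rfl hT0 (c := m)
    (by rw [prim_zero]; exact hm.1) (hT _ (le_max_right _ _)).le
  have h3 := M.cutInf hl (h.contG.comp (clam_cont b)) hB hr.1 (fun t ht => by
    have ht0 : 0 ≤ t := hr.1.trans ht
    rw [clam_prim h hb hrec hl M ht0, clam_prim h hb hrec hl M hr.1, hr2]
    exact hmm (show prim w t ∈ Icc 0 mu from
      ⟨nonneg_one h hb hl M ht0, hle ht0⟩))
  have h4 : mu = m := by
    refine tendsto_nhds_unique hlim ?_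
    refine tendsto_const_nhds.congr' ?_
    filter_upwards [eventually_ge_atTop r] with t ht
    rw [h3 t ht, hr2]
  linarith

theorem N_le (h : GData G f) (hb : 0 < b) (hrec : ∀ v ∈ Ico 0 b, G v < G b) (hl : 0 < l)
    (M : MinSol (fun v => G (clam b v)) (fun v => f (clam b v)) l w) :
    ∫ t in Ioi (0:ℝ), exp (-t) * G (clam b (prim w t)) ≤ G (∫ t in Ioi (0:ℝ), w t) := by
  obtain ⟨A, hA⟩ := M.adm
  obtain ⟨B, hB, -⟩ := clam_bound h hb
  set mu := ∫ t in Ioi (0:ℝ), w t with hmu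
  have h1 : ∫ t in Ioi (0:ℝ), exp (-t) * G (clam b (prim w t)) ≤
      ∫ t in Ioi (0:ℝ), exp (-t) * G mu := by
    refine setIntegral_mono_on (int_bdd hA (h.contG.comp (clam_cont b)) hB)
      (int_exp.mul_const _) measurableSet_Ioi ?_
    intro t ht
    have ht0 : (0:ℝ) ≤ t := le_of_lt ht
    rw [clam_prim h hb hrec hl M ht0]
    exact mul_le_mul_of_nonneg_left (G_le_mu h hb hrec hl M (nonneg_one h hb hl M ht0)
      (prim_le_mu h hb hrec hl M ht0)) (exp_pos _).le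
  rw [integral_mul_const, integral_exp_neg_Ioi_zero, one_mul] at h1
  exact h1

/-- competitor -/
theorem le_N (h : GData G f) (hb : 0 < b) {τ : ℝ} (hτ : 0 < τ)
    (hτG : τ * G b = 1 / 2)
    (M : MinSol (fun v => G (clam b v)) (fun v => f (clam b v)) (b ^ 2 / τ) w) :
    G b - 1 ≤ ∫ t in Ioi (0:ℝ), exp (-t) * G (clam b (prim w t)) := by
  obtain ⟨B, hB, -⟩ := clam_bound h hb
  have hl : 0 < b ^ 2 / τ := by positivity
  set w0 : ℝ → ℝ := (Ioc 0 τ).indicator (fun _ => b / τ) with hw0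
  have hmem : MemLp w0 2 (volume.restrict (Ioi (0:ℝ))) := by
    rw [hw0, memLp_indicator_iff_restrict measurableSet_Ioc,
      Measure.restrict_restrict measurableSet_Ioc,
      inter_eq_self_of_subset_left (Ioc_subset_Ioi_self : Ioc 0 τ ⊆ Ioi 0)]
    exact memLp_const _
  have hsq : ∀ t, w0 t ^ 2 = (Ioc 0 τ).indicator (fun _ => (b / τ) ^ 2) t := by
    intro t
    by_cases ht : t ∈ Ioc 0 τ
    · rw [hw0, indicator_of_mem ht, indicator_of_mem ht]
    · rw [hw0, indicator_of_notMem ht, indicator_of_notMem ht]; norm_num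
  have hE : ∫ t in Ioi (0:ℝ), w0 t ^ 2 = b ^ 2 / τ := by
    simp_rw [hsq]
    rw [setIntegral_indicator measurableSet_Ioc,
      inter_eq_self_of_subset_right (Ioc_subset_Ioi_self : Ioc 0 τ ⊆ Ioi 0), setIntegral_const]
    simp only [Real.volume_real_Ioc, smul_eq_mul, sub_zero]
    rw [max_eq_left hτ.le]
    field_simp
  have hadm : Adm (b ^ 2 / τ) w0 := ⟨hmem, hE.le⟩
  have hprim : ∀ t, τ ≤ t → prim w0 t = b := by
    intro t ht
    unfold prim
    rw [intervalIntegral.integral_of_le (hτ.le.trans ht), hw0,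
      setIntegral_indicator measurableSet_Ioc,
      inter_eq_self_of_subset_right (Ioc_subset_Ioc_right ht : Ioc 0 τ ⊆ Ioc 0 t),
      setIntegral_const]
    simp only [Real.volume_real_Ioc, smul_eq_mul, sub_zero]
    rw [max_eq_left hτ.le]
    field_simp
  have hint := int_bdd hadm (h.contG.comp (clam_cont b)) hB
  simp only [Function.comp_apply] at hint
  have hN : exp (-τ) * G b ≤ ∫ t in Ioi (0:ℝ), exp (-t) * G (clam b (prim w0 t)) := by
    have h1 : ∫ t in Ioi τ, exp (-t) * G (clam b (prim w0 t)) = exp (-τ) * G b := by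
      rw [← integral_exp_neg_Ioi, ← integral_mul_const]
      refine setIntegral_congr_fun measurableSet_Ioi fun t ht => ?_
      rw [hprim t (le_of_lt ht), clam_of_ge hb le_rfl]
    rw [← h1]
    refine setIntegral_mono_set hint ?_ (Ioi_subset_Ioi hτ.le).eventuallyLE
    exact Eventually.of_forall fun t => mul_nonneg (exp_pos _).le (h.pos _).le
  have hmin := M.min _ _ hadm
  rw [hE] at hmin
  have hE0 : 0 ≤ ∫ t in Ioi (0:ℝ), w t ^ 2 := integral_nonneg fun t => sq_nonneg _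
  set N := ∫ t in Ioi (0:ℝ), exp (-t) * G (clam b (prim w t)) with hNd
  set N0 := ∫ t in Ioi (0:ℝ), exp (-t) * G (clam b (prim w0 t)) with hN0d
  have h2 : b ^ 2 / τ * (N0 - 1 / 2) ≤ b ^ 2 / τ * N := by linarith
  have h3 : N0 - 1 / 2 ≤ N := le_of_mul_le_mul_left h2 hl
  have h4 : 1 - τ ≤ exp (-τ) := by linarith [add_one_le_exp (-τ)]
  have h5 : (1 - τ) * G b ≤ exp (-τ) * G b := mul_le_mul_of_nonneg_right h4 (h.pos b).le
  linarith

/-- lower bound for the energy -/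
theorem energy_ge (h : GData G f) {C1 : ℝ} (hC1 : ∀ v ∈ Icc (0:ℝ) 1, G v ≤ C1) (hb : 0 < b)
    (hrec : ∀ v ∈ Ico 0 b, G v < G b) (hbig : 2 * C1 + 2 < G b) (hl : 0 < l)
    (M : MinSol (fun v => G (clam b v)) (fun v => f (clam b v)) l w)
    (hN : G b - 1 ≤ ∫ t in Ioi (0:ℝ), exp (-t) * G (clam b (prim w t))) :
    G b / 2 - C1 ≤ ∫ t in Ioi (0:ℝ), w t ^ 2 := by
  obtain ⟨A, hA⟩ := M.adm
  obtain ⟨B, hB, -⟩ := clam_bound h hb
  have hE0 : 0 ≤ ∫ t in Ioi (0:ℝ), w t ^ 2 := integral_nonneg fun t => sq_nonneg _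
  have hAE : Adm (∫ t in Ioi (0:ℝ), w t ^ 2) w := ⟨hA.mem, le_rfl⟩
  set E := ∫ t in Ioi (0:ℝ), w t ^ 2 with hEd
  have hC0 : 0 < C1 := (h.pos 0).trans_le (hC1 0 ⟨le_rfl, zero_le_one⟩)
  have key : ∀ y, 0 < y → y ≤ 1 → E * y ≤ 1 → y * (G b / 2 - C1) ≤ 1 := by
    intro y hy hy1 hEy
    have hint := int_bdd hA (h.contG.comp (clam_cont b)) hB
    simp only [Function.comp_apply] at hint
    have h1 : (∫ t in Ioi (0:ℝ), exp (-t) * G (clam b (prim w t))) =
        (∫ t in Ioc 0 y, exp (-t) * G (clam b (prim w t))) +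
          ∫ t in Ioi y, exp (-t) * G (clam b (prim w t)) := by
      rw [← setIntegral_union (Ioc_disjoint_Ioi le_rfl) measurableSet_Ioi
        (hint.mono_set Ioc_subset_Ioi_self) (hint.mono_set (Ioi_subset_Ioi hy.le)),
        Ioc_union_Ioi_eq_Ioi hy.le]
    have h2 : ∫ t in Ioc 0 y, exp (-t) * G (clam b (prim w t)) ≤ (1 - exp (-y)) * C1 := by
      have h3 : ∫ t in Ioc 0 y, exp (-t) * C1 = (1 - exp (-y)) * C1 := by
        rw [integral_mul_const, ← intervalIntegral.integral_of_le hy.le]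
        congr 1
        have h4 : (∫ t in Ioi (0:ℝ), exp (-t)) = (∫ t in Ioc 0 y, exp (-t)) +
            ∫ t in Ioi y, exp (-t) := by
          rw [← setIntegral_union (Ioc_disjoint_Ioi le_rfl) measurableSet_Ioi
            (int_exp.mono_set Ioc_subset_Ioi_self) int_exp, Ioc_union_Ioi_eq_Ioi hy.le]
        rw [integral_exp_neg_Ioi_zero, integral_exp_neg_Ioi] at h4
        rw [intervalIntegral.integral_of_le hy.le]
        linarith
      rw [← h3]
      refine setIntegral_mono_on (hint.mono_set Ioc_subset_Ioi_self)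
        ((int_exp.mono_set Ioc_subset_Ioi_self).mul_const _) measurableSet_Ioc ?_
      intro t ht
      refine mul_le_mul_of_nonneg_left ?_ (exp_pos _).le
      have ht0 : 0 ≤ t := ht.1.le
      have h5 : prim w t ^ 2 ≤ 1 := (hAE.prim_sq ht0).trans
        ((mul_le_mul_of_nonneg_left ht.2 hE0).trans hEy)
      have h6 := nonneg_one h hb hl M ht0
      rw [clam_prim h hb hrec hl M ht0]
      exact hC1 _ ⟨h6, by nlinarith⟩
    have h3 : ∫ t in Ioi y, exp (-t) * G (clam b (prim w t)) ≤ exp (-y) * G b := by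
      rw [← integral_exp_neg_Ioi, ← integral_mul_const]
      refine setIntegral_mono_on (hint.mono_set (Ioi_subset_Ioi hy.le))
        (int_exp.mul_const _) measurableSet_Ioi ?_
      intro t ht
      exact mul_le_mul_of_nonneg_left (clam_top hb hrec _) (exp_pos _).le
    rw [h1] at hN
    have h4 : (1 - exp (-y)) * (G b - C1) ≤ 1 := by nlinarith
    have h5 : y / 2 ≤ 1 - exp (-y) := by
      have h6 : exp (-y) * (1 + y) ≤ 1 := by
        have h7 : exp (-y) * exp y = 1 := by rw [← exp_add]; simp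
        rw [← h7]
        exact mul_le_mul_of_nonneg_left (by linarith [add_one_le_exp y]) (exp_pos _).le
      have h8 : 0 < exp (-y) := exp_pos _
      nlinarith
    have h6 : y / 2 * (G b - C1) ≤ (1 - exp (-y)) * (G b - C1) :=
      mul_le_mul_of_nonneg_right h5 (by linarith)
    nlinarith
  by_cases hE1 : E ≤ 1
  · have := key 1 one_pos le_rfl (by linarith)
    linarith
  · rw [not_le] at hE1
    have hEp : 0 < E := by linarith
    have h1 := key (1 / E) (by positivity) (by rw [div_le_one hEp]; exact hE1.le)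
      (by rw [mul_one_div_cancel hEp.ne'])
    rw [one_div_mul_eq_div, div_le_one hEp] at h1
    exact h1

/-- a profile returning to `0` vanishes up to that time -/
theorem zero_before (h : GData G f) (hb : 0 < b) (hrec : ∀ v ∈ Ico 0 b, G v < G b) (hl : 0 < l)
    (M : MinSol (fun v => G (clam b v)) (fun v => f (clam b v)) l w) {t0 : ℝ} (ht0 : 0 ≤ t0)
    (h0 : prim w t0 = 0) : ∀ t ∈ Icc 0 t0, prim w t = 0 := by
  obtain ⟨A, hA⟩ := M.adm
  obtain ⟨B, hB, -⟩ := clam_bound h hb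
  have hcont : ContinuousOn (fun t => G (prim w t)) (Icc 0 t0) :=
    h.contG.comp_continuousOn (hA.prim_cont.mono fun x hx => hx.1)
  obtain ⟨t1, ht1, hmax⟩ := (isCompact_Icc (a := (0:ℝ)) (b := t0)).exists_isMaxOn
    ⟨t0, ht0, le_rfl⟩ hcont
  have hmax' : ∀ t ∈ Icc 0 t0, G (prim w t) ≤ G (prim w t1) := fun t ht => hmax ht
  have hx0 : 0 ≤ prim w t1 := nonneg_one h hb hl M ht1.1
  have hGx : ∀ v ∈ Icc 0 (prim w t1), G v ≤ G (prim w t1) := by
    intro v hv
    obtain ⟨r, hr, hr2⟩ := hit hA.prim_cont le_rfl ht1.1 (c := v)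
      (by rw [prim_zero]; exact hv.1) hv.2
    rw [← hr2]
    exact hmax' r ⟨hr.1, hr.2.trans ht1.2⟩
  have hx : prim w t1 = 0 := by
    by_cases hex : ∃ s, t0 ≤ s ∧ prim w t1 ≤ prim w s
    · obtain ⟨s, hs, hs2⟩ := hex
      obtain ⟨t2, ht2, h2, h2'⟩ := first_hit hA.prim_cont ht0 hs hs2 (by rw [h0]; exact hx0)
      have h3 := M.cutFin hl (h.contG.comp (clam_cont b)) hB ht1.1 (ht1.2.trans ht2.1) h2
        (fun t ht => by
          have ht' : 0 ≤ t := ht1.1.trans ht.1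
          rw [clam_prim h hb hrec hl M ht', clam_prim h hb hrec hl M ht1.1]
          rcases le_total t t0 with h5 | h5
          · exact hmax' t ⟨ht', h5⟩
          · exact hGx _ ⟨nonneg_one h hb hl M ht', h2' t ⟨h5, ht.2⟩⟩) t0 ⟨ht1.2, ht2.1⟩
      rw [← h3, h0]
    · push Not at hex
      have h3 := M.cutInf hl (h.contG.comp (clam_cont b)) hB ht1.1
        (fun t ht => by
          have ht' : 0 ≤ t := ht1.1.trans ht
          rw [clam_prim h hb hrec hl M ht', clam_prim h hb hrec hl M ht1.1]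
          rcases le_total t t0 with h5 | h5
          · exact hmax' t ⟨ht', h5⟩
          · exact hGx _ ⟨nonneg_one h hb hl M ht', (hex t h5).le⟩) t0 ht1.2
      rw [← h3, h0]
  intro t ht
  have h3 := M.cutFin hl (h.contG.comp (clam_cont b)) hB le_rfl ht0 (by rw [h0, prim_zero])
    (fun t ht => by
      rw [clam_prim h hb hrec hl M ht.1, clam_prim h hb hrec hl M le_rfl]
      have := hmax' t ht
      rwa [hx, ← prim_zero w] at this) t ht
  rw [h3, prim_zero]

theorem prim_pos (h : GData G f) (hb : 0 < b) (hrec : ∀ v ∈ Ico 0 b, G v < G b) (hl : 0 < l)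
    (M : MinSol (fun v => G (clam b v)) (fun v => f (clam b v)) l w)
    (hN : G 0 < ∫ t in Ioi (0:ℝ), exp (-t) * G (clam b (prim w t))) {t0 : ℝ} (ht0 : 0 < t0) :
    0 < prim w t0 := by
  obtain ⟨A, hA⟩ := M.adm
  obtain ⟨B, hB, -⟩ := clam_bound h hb
  by_contra hlt
  have h0 : prim w t0 = 0 := le_antisymm (not_lt.1 hlt) (nonneg_one h hb hl M ht0.le)
  have hz := zero_before h hb hrec hl M ht0.le h0
  -- the shift
  have hpre : (fun x : ℝ => x + t0) ⁻¹' Ioi t0 = Ioi 0 := by ext x; simp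
  have hmp : MeasurePreserving (fun x : ℝ => x + t0) (volume.restrict (Ioi 0))
      (volume.restrict (Ioi t0)) := by
    have := (measurePreserving_add_right (volume : Measure ℝ) t0).restrict_preimage
      (measurableSet_Ioi : MeasurableSet (Ioi t0))
    rwa [hpre] at this
  have hsh : ∀ g : ℝ → ℝ, ∫ t in Ioi (0:ℝ), g (t + t0) = ∫ t in Ioi t0, g t := fun g =>
    hmp.integral_comp (measurableEmbedding_addRight t0) g
  have hmem : MemLp (fun t => w (t + t0)) 2 (volume.restrict (Ioi 0)) := by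
    have h1 : MemLp w 2 (volume.restrict (Ioi t0)) :=
      hA.mem.mono_measure (Measure.restrict_mono (Ioi_subset_Ioi ht0.le) le_rfl)
    exact h1.comp_measurePreserving hmp
  have hE : ∫ t in Ioi (0:ℝ), w (t + t0) ^ 2 ≤ ∫ t in Ioi (0:ℝ), w t ^ 2 := by
    rw [hsh (fun t => w t ^ 2)]
    exact setIntegral_mono_set hA.int_sq (Eventually.of_forall fun t => sq_nonneg _)
      (Ioi_subset_Ioi ht0.le).eventuallyLE
  have hadm : Adm A (fun t => w (t + t0)) := ⟨hmem, hE.trans hA.le⟩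
  have hprim : ∀ t, 0 ≤ t → prim (fun t => w (t + t0)) t = prim w (t + t0) := by
    intro t ht
    have h1 := hA.prim_sub ht0.le (by linarith : 0 ≤ t + t0)
    rw [h0, sub_zero] at h1
    rw [h1]
    unfold prim
    rw [intervalIntegral.integral_comp_add_right, zero_add]
  have hmin := M.min A _ hadm
  set J := ∫ t in Ioi t0, exp (-t) * G (clam b (prim w t)) with hJ
  have hNs : ∫ t in Ioi (0:ℝ), exp (-t) * G (clam b (prim (fun t => w (t + t0)) t)) =
      exp t0 * J := by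
    rw [hJ, ← hsh (fun t => exp (-t) * G (clam b (prim w t))), ← integral_const_mul]
    refine setIntegral_congr_fun measurableSet_Ioi fun t ht => ?_
    rw [hprim t (le_of_lt ht), ← mul_assoc, ← exp_add]
    congr 2
    ring
  have hint := int_bdd hA (h.contG.comp (clam_cont b)) hB
  simp only [Function.comp_apply] at hint
  have hNw : ∫ t in Ioi (0:ℝ), exp (-t) * G (clam b (prim w t)) =
      (1 - exp (-t0)) * G 0 + J := by
    rw [← Ioc_union_Ioi_eq_Ioi ht0.le, setIntegral_union (Ioc_disjoint_Ioi le_rfl)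
      measurableSet_Ioi (hint.mono_set Ioc_subset_Ioi_self)
      (hint.mono_set (Ioi_subset_Ioi ht0.le))]
    congr 1
    have h1 : ∫ t in Ioc 0 t0, exp (-t) * G (clam b (prim w t)) =
        ∫ t in Ioc 0 t0, exp (-t) * G 0 := by
      refine setIntegral_congr_fun measurableSet_Ioc fun t ht => ?_
      rw [hz t ⟨ht.1.le, ht.2⟩, clam_of_le le_rfl]
    rw [h1, integral_mul_const]
    congr 1
    have h4 : (∫ t in Ioi (0:ℝ), exp (-t)) = (∫ t in Ioc 0 t0, exp (-t)) +
        ∫ t in Ioi t0, exp (-t) := by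
      rw [← setIntegral_union (Ioc_disjoint_Ioi le_rfl) measurableSet_Ioi
        (int_exp.mono_set Ioc_subset_Ioi_self) int_exp, Ioc_union_Ioi_eq_Ioi ht0.le]
    rw [integral_exp_neg_Ioi_zero, integral_exp_neg_Ioi] at h4
    linarith
  rw [hNs, hNw] at hmin
  rw [hNw] at hN
  have h2 : l * (exp t0 * J) ≤ l * ((1 - exp (-t0)) * G 0 + J) := by linarith
  have h3 : exp t0 * J ≤ (1 - exp (-t0)) * G 0 + J := le_of_mul_le_mul_left h2 hl
  have h4 : exp (-t0) * exp t0 = 1 := by rw [← exp_add]; simp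
  have h5 : 1 < exp t0 := by rw [← Real.exp_zero]; exact exp_lt_exp.2 ht0
  have h6 : (exp t0 - 1) * (J - exp (-t0) * G 0) ≤ 0 := by
    have : (exp t0 - 1) * (J - exp (-t0) * G 0) =
      exp t0 * J - J - (exp (-t0) * exp t0 - exp (-t0)) * G 0 := by ring
    rw [this, h4]
    linarith
  have h7 : 0 < J - exp (-t0) * G 0 := by linarith
  have h8 : 0 < exp t0 - 1 := by linarith
  linarith [mul_pos h8 h7]

/-- the solution of case I from a minimiser -/
theorem caseI_of_min (h : GData G f) {C1 : ℝ} (hC1 : ∀ v ∈ Icc (0:ℝ) 1, G v ≤ C1)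
    (hb : 0 < b) (hrec : ∀ v ∈ Ico 0 b, G v < G b) (hbig : 2 * C1 + 2 < G b)
    {τ : ℝ} (hτ : 0 < τ) (hτG : τ * G b = 1 / 2)
    (M : MinSol (fun v => G (clam b v)) (fun v => f (clam b v)) (b ^ 2 / τ) w) :
    ∃ l mu ph w, HalfSol f l mu ph w ∧ mu ≤ b ∧ G b - 1 ≤ G mu ∧
      G b / 2 - C1 ≤ ∫ t in Ioi (0:ℝ), w t ^ 2 := by
  have hl : 0 < b ^ 2 / τ := by positivity
  obtain ⟨A, hA⟩ := M.adm
  obtain ⟨B, hB, hqB⟩ := clam_bound h hb
  have hN := le_N h hb hτ hτG M
  have hG0 : G 0 ≤ C1 := hC1 0 ⟨le_rfl, zero_le_one⟩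
  have hC0 : 0 < C1 := (h.pos 0).trans_le hG0
  refine ⟨b ^ 2 / τ, ∫ t in Ioi (0:ℝ), w t, prim w, w, ?_, mu_le_b h hb hrec hl M,
    hN.trans (N_le h hb hrec hl M), energy_ge h hC1 hb hrec hbig hl M hN⟩
  exact {
    l_pos := hl
    zero := prim_zero w
    cont := hA.prim_cont
    der := fun t ht => M.prim_der ht
    der2 := fun t ht => by
      have := M.w_der (h.cont.comp (clam_cont b)) hqB ht
      rwa [clam_prim h hb hrec hl M ht.le] at this
    pos := fun t ht => prim_pos h hb hrec hl M (by linarith) ht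
    le := fun t ht => prim_le_mu h hb hrec hl M ht.le
    lim := mu_lim h hb hl M
    wlim := M.wlim hl hqB }

end

end CI

/-- case I -/
theorem caseI {G f : ℝ → ℝ} (h : GData G f) {C1 : ℝ} (hC1 : ∀ v ∈ Icc (0:ℝ) 1, G v ≤ C1) {b : ℝ}
    (hb : 0 < b) (hfb : f b = 0) (hrec : ∀ v ∈ Ico 0 b, G v < G b) (hbig : 2 * C1 + 2 < G b) :
    ∃ l mu ph w, HalfSol f l mu ph w ∧ mu ≤ b ∧ G b - 1 ≤ G mu ∧
      G b / 2 - C1 ≤ ∫ t in Ioi (0:ℝ), w t ^ 2 := by
  have hGb := h.pos b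
  have hτ : 0 < 1 / (2 * G b) := by positivity
  have hτG : 1 / (2 * G b) * G b = 1 / 2 := by field_simp
  obtain ⟨B, hB, hqB⟩ := CI.clam_bound h hb
  obtain ⟨w, M⟩ := exists_minSol (CI.clam_der h hb hfb) (h.cont.comp (CI.clam_cont b)) hB hqB
    (by positivity : 0 < b ^ 2 / (1 / (2 * G b)))
  exact CI.caseI_of_min h hC1 hb hrec hbig hτ hτG M

end MPee
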