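import Pool.Agent.Lib.EEQ.MinDefs

/-! MP_ee476b_an, Q2, case I: regularity of minimisers and the cutting lemma (helper32). -/

open Real Set MeasureTheory Filter Topology

namespace MPee

theorem int_exp {s : ℝ} : IntegrableOn (fun t : ℝ => exp (-t)) (Ioi s) := by
  simpa using integrableOn_exp_neg_Ioi s

/-- integrability of bounded functions of the profile -/
theorem int_bdd {A B : ℝ} {w H : ℝ → ℝ} (hw : Adm A w) (hH : Continuous H)
    (hB : ∀ v, |H v| ≤ B) : IntegrableOn (fun t => exp (-t) * H (prim w t)) (Ioi 0) := by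
  refine Integrable.mono' (int_exp.const_mul B) (aesm_comp_prim hw hH) ?_
  refine Eventually.of_forall fun t => ?_
  rw [norm_mul, Real.norm_eq_abs, Real.norm_eq_abs, abs_of_pos (exp_pos _), mul_comm]
  exact mul_le_mul_of_nonneg_right (hB _) (exp_pos _).le

/-- integral over `Ioi s` as a difference -/
theorem prim_indicator {A : ℝ} {w : ℝ → ℝ} (hw : Adm A w) {S : Set ℝ} (hS : MeasurableSet S)
    {t : ℝ} (ht : 0 ≤ t) :
    prim (Sᶜ.indicator w) t = prim w t - ∫ r in Ioc 0 t ∩ S, w r := by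
  unfold prim
  rw [intervalIntegral.integral_of_le ht, intervalIntegral.integral_of_le ht,
    setIntegral_indicator hS.compl]
  have hi : IntegrableOn w (Ioc 0 t) := (hw.memLp_Ioc le_rfl).integrable (by norm_num)
  have := integral_inter_add_sdiff hS hi
  rw [sdiff_eq] at this
  linarith

theorem int_Ioc_prim {A : ℝ} {w : ℝ → ℝ} (hw : Adm A w) {s t : ℝ} (hs : 0 ≤ s) (hst : s ≤ t) :
    ∫ r in Ioc s t, w r = prim w t - prim w s := by
  rw [hw.prim_sub hs (hs.trans hst), intervalIntegral.integral_of_le hst]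

section
variable {H q : ℝ → ℝ} {l B : ℝ} {w : ℝ → ℝ}

/-- general cutting lemma -/
theorem MinSol.cut (M : MinSol H q l w) (hl : 0 < l) (hH : Continuous H) (hB : ∀ v, |H v| ≤ B)
    {S : Set ℝ} (hS : MeasurableSet S)
    (hc : ∀ t, 0 < t → H (prim w t) ≤ H (prim (Sᶜ.indicator w) t)) :
    ∀ᵐ t ∂(volume.restrict (Ioi (0:ℝ))), t ∈ S → w t = 0 := by
  obtain ⟨A, hA⟩ := M.adm
  have hsq : ∀ t, (Sᶜ.indicator w t) ^ 2 = Sᶜ.indicator (fun t => w t ^ 2) t := by
    intro t
    by_cases ht : t ∈ S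
    · have : t ∉ Sᶜ := fun h => h ht
      simp [indicator_of_notMem this]
    · have : t ∈ Sᶜ := ht
      simp [indicator_of_mem this]
  have hsum : ∀ t, w t ^ 2 = Sᶜ.indicator (fun t => w t ^ 2) t + S.indicator (fun t => w t ^ 2) t := by
    intro t
    have := congrFun (indicator_compl_add_self S (fun t => w t ^ 2)) t
    simpa using this.symm
  have hi1 : IntegrableOn (Sᶜ.indicator (fun t => w t ^ 2)) (Ioi 0) := hA.int_sq.indicator hS.compl
  have hi2 : IntegrableOn (S.indicator (fun t => w t ^ 2)) (Ioi 0) := hA.int_sq.indicator hS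
  have hnn2 : ∀ t, 0 ≤ S.indicator (fun t => w t ^ 2) t :=
    fun t => indicator_nonneg (fun _ _ => sq_nonneg _) t
  have hE : ∫ t in Ioi (0:ℝ), w t ^ 2 = (∫ t in Ioi (0:ℝ), (Sᶜ.indicator w t) ^ 2) +
      ∫ t in Ioi (0:ℝ), S.indicator (fun t => w t ^ 2) t := by
    simp_rw [hsq]
    rw [← integral_add hi1 hi2]
    exact integral_congr_ae (Eventually.of_forall hsum)
  have hI2 : 0 ≤ ∫ t in Ioi (0:ℝ), S.indicator (fun t => w t ^ 2) t := integral_nonneg hnn2
  have hadm : Adm A (Sᶜ.indicator w) := by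
    refine ⟨hA.mem.indicator hS.compl, ?_⟩
    have := hA.le
    linarith
  have hmin := M.min A _ hadm
  have hN : ∫ t in Ioi (0:ℝ), exp (-t) * H (prim w t) ≤
      ∫ t in Ioi (0:ℝ), exp (-t) * H (prim (Sᶜ.indicator w) t) := by
    refine setIntegral_mono_on (int_bdd hA hH hB) (int_bdd hadm hH hB) measurableSet_Ioi ?_
    intro t ht
    exact mul_le_mul_of_nonneg_left (hc t ht) (exp_pos _).le
  have h0 : ∫ t in Ioi (0:ℝ), S.indicator (fun t => w t ^ 2) t = 0 := by
    have := mul_le_mul_of_nonneg_left hN hl.le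
    linarith
  have hae := (integral_eq_zero_iff_of_nonneg (fun t => hnn2 t) hi2).1 h0
  filter_upwards [hae] with t ht hS
  rw [indicator_of_mem hS] at ht
  simpa using ht

/-- cutting at a finite interval -/
theorem MinSol.cutFin (M : MinSol H q l w) (hl : 0 < l) (hH : Continuous H)
    (hB : ∀ v, |H v| ≤ B) {t1 t2 : ℝ} (h1 : 0 ≤ t1) (h12 : t1 ≤ t2)
    (he : prim w t2 = prim w t1) (hc : ∀ t ∈ Icc t1 t2, H (prim w t) ≤ H (prim w t1)) :
    ∀ t ∈ Icc t1 t2, prim w t = prim w t1 := by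
  obtain ⟨A, hA⟩ := M.adm
  have hae := M.cut hl hH hB (S := Ioc t1 t2) measurableSet_Ioc ?_
  · intro t ht
    have h3 : prim w t - prim w t1 = ∫ r in Ioc t1 t, w r := (int_Ioc_prim hA h1 ht.1).symm
    have h4 : ∫ r in Ioc t1 t, w r = 0 := by
      rw [← integral_zero ℝ ℝ (μ := volume.restrict (Ioc t1 t))]
      refine integral_congr_ae ?_
      have hsub : Ioc t1 t ⊆ Ioi (0:ℝ) := fun x hx => lt_of_le_of_lt h1 hx.1
      have h5 := ae_mono (Measure.restrict_mono hsub le_rfl) hae
      filter_upwards [h5, ae_restrict_mem measurableSet_Ioc] with r hr hr2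
      exact hr ⟨hr2.1, hr2.2.trans ht.2⟩
    linarith
  · intro t ht
    rw [prim_indicator hA measurableSet_Ioc ht.le]
    rcases le_total t t1 with h | h
    · have hset : Ioc 0 t ∩ Ioc t1 t2 = ∅ := by
        ext x
        simp only [mem_inter_iff, mem_Ioc, mem_empty_iff_false, iff_false]
        rintro ⟨⟨_, h3⟩, h4, _⟩
        linarith
      rw [hset]
      simp
    · rcases le_total t t2 with h' | h'
      · have hset : Ioc 0 t ∩ Ioc t1 t2 = Ioc t1 t := by
          ext x
          simp only [mem_inter_iff, mem_Ioc]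
          constructor
          · rintro ⟨⟨_, h3⟩, h4, _⟩; exact ⟨h4, h3⟩
          · rintro ⟨h3, h4⟩; exact ⟨⟨lt_of_le_of_lt h1 h3, h4⟩, h3, h4.trans h'⟩
        rw [hset, int_Ioc_prim hA h1 h]
        have := hc t ⟨h, h'⟩
        simpa using this
      · have hset : Ioc 0 t ∩ Ioc t1 t2 = Ioc t1 t2 := by
          ext x
          simp only [mem_inter_iff, mem_Ioc]
          constructor
          · rintro ⟨_, h4⟩; exact h4
          · rintro ⟨h3, h4⟩; exact ⟨⟨lt_of_le_of_lt h1 h3, h4.trans h'⟩, h3, h4⟩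
        rw [hset, int_Ioc_prim hA h1 h12, he]
        simp

/-- cutting at a half line -/
theorem MinSol.cutInf (M : MinSol H q l w) (hl : 0 < l) (hH : Continuous H)
    (hB : ∀ v, |H v| ≤ B) {t1 : ℝ} (h1 : 0 ≤ t1)
    (hc : ∀ t, t1 ≤ t → H (prim w t) ≤ H (prim w t1)) :
    ∀ t, t1 ≤ t → prim w t = prim w t1 := by
  obtain ⟨A, hA⟩ := M.adm
  have hae := M.cut hl hH hB (S := Ioi t1) measurableSet_Ioi ?_
  · intro t ht
    have h3 : prim w t - prim w t1 = ∫ r in Ioc t1 t, w r := (int_Ioc_prim hA h1 ht).symm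
    have h4 : ∫ r in Ioc t1 t, w r = 0 := by
      rw [← integral_zero ℝ ℝ (μ := volume.restrict (Ioc t1 t))]
      refine integral_congr_ae ?_
      have hsub : Ioc t1 t ⊆ Ioi (0:ℝ) := fun x hx => lt_of_le_of_lt h1 hx.1
      have h5 := ae_mono (Measure.restrict_mono hsub le_rfl) hae
      filter_upwards [h5, ae_restrict_mem measurableSet_Ioc] with r hr hr2
      exact hr hr2.1
    linarith
  · intro t ht
    rw [prim_indicator hA measurableSet_Ioi ht.le]
    have hset : Ioc 0 t ∩ Ioi t1 = Ioc t1 t := by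
      ext x
      simp only [mem_inter_iff, mem_Ioc, mem_Ioi]
      constructor
      · rintro ⟨⟨_, h⟩, h'⟩; exact ⟨h', h⟩
      · rintro ⟨h', h⟩; exact ⟨⟨lt_of_le_of_lt h1 h', h⟩, h'⟩
    rw [hset]
    rcases le_total t t1 with h | h
    · rw [Ioc_eq_empty (not_lt.2 h)]
      simp
    · rw [int_Ioc_prim hA h1 h]
      have := hc t h
      simpa using this

/-- exponential decay of the slope -/
theorem MinSol.abs_le (M : MinSol H q l w) (hl : 0 < l) (hqB : ∀ v, |q v| ≤ B) {s : ℝ}
    (hs : 0 ≤ s) : |w s| ≤ l * B * exp (-s) := by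
  rw [M.eqn s hs, abs_mul, abs_of_pos hl, mul_assoc]
  refine mul_le_mul_of_nonneg_left ?_ hl.le
  have h1 : |∫ t in Ioi s, exp (-t) * q (prim w t)| ≤ ∫ t in Ioi s, B * exp (-t) := by
    rw [← Real.norm_eq_abs]
    refine norm_integral_le_of_norm_le (int_exp.const_mul B) ?_
    refine Eventually.of_forall fun t => ?_
    rw [norm_mul, Real.norm_eq_abs, Real.norm_eq_abs, abs_of_pos (exp_pos _), mul_comm]
    exact mul_le_mul_of_nonneg_right (hqB _) (exp_pos _).le
  rwa [integral_const_mul, integral_exp_neg_Ioi] at h1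

theorem MinSol.wlim (M : MinSol H q l w) (hl : 0 < l) (hqB : ∀ v, |q v| ≤ B) :
    Tendsto w atTop (𝓝 0) := by
  have h1 : Tendsto (fun s : ℝ => l * B * exp (-s)) atTop (𝓝 0) := by
    have := (Real.tendsto_exp_neg_atTop_nhds_zero).const_mul (l * B)
    simpa using this
  refine squeeze_zero_norm' ?_ h1
  filter_upwards [eventually_ge_atTop 0] with s hs
  exact M.abs_le hl hqB hs

theorem MinSol.integrable (M : MinSol H q l w) (hl : 0 < l) (hqB : ∀ v, |q v| ≤ B) :
    IntegrableOn w (Ioi 0) := by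
  obtain ⟨A, hA⟩ := M.adm
  refine Integrable.mono' (int_exp.const_mul (l * B)) hA.aesm ?_
  filter_upwards [ae_restrict_mem measurableSet_Ioi] with t ht
  exact M.abs_le hl hqB (le_of_lt ht)

theorem MinSol.lim (M : MinSol H q l w) (hl : 0 < l) (hqB : ∀ v, |q v| ≤ B) :
    Tendsto (prim w) atTop (𝓝 (∫ t in Ioi (0:ℝ), w t)) :=
  intervalIntegral_tendsto_integral_Ioi 0 (M.integrable hl hqB) tendsto_id

theorem MinSol.prim_der (M : MinSol H q l w) {t : ℝ} (ht : 0 < t) :
    HasDerivAt (prim w) (w t) t := by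
  obtain ⟨A, hA⟩ := M.adm
  have hc : ContinuousOn w (Ioi 0) := M.cont.mono Ioi_subset_Ici_self
  exact intervalIntegral.integral_hasDerivAt_right (hA.intervalIntegrable le_rfl ht.le)
    (hc.stronglyMeasurableAtFilter isOpen_Ioi t ht) (hc.continuousAt (Ioi_mem_nhds ht))

theorem MinSol.w_der (M : MinSol H q l w) (hq : Continuous q) (hqB : ∀ v, |q v| ≤ B) {t : ℝ}
    (ht : 0 < t) : HasDerivAt w (-(l * exp (-t) * q (prim w t))) t := by
  obtain ⟨A, hA⟩ := M.adm
  have hint : IntegrableOn (fun t => exp (-t) * q (prim w t)) (Ioi 0) := int_bdd hA hq hqB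
  have hcont : ContinuousOn (fun t => exp (-t) * q (prim w t)) (Ioi 0) := by
    have h1 : ContinuousOn (prim w) (Ioi 0) := hA.prim_cont.mono Ioi_subset_Ici_self
    exact (by fun_prop : Continuous fun t : ℝ => exp (-t)).continuousOn.mul (hq.comp_continuousOn h1)
  have hii : IntervalIntegrable (fun t => exp (-t) * q (prim w t)) volume 0 t := by
    rw [intervalIntegrable_iff_integrableOn_Ioc_of_le ht.le]
    exact hint.mono_set Ioc_subset_Ioi_self
  have h1 : HasDerivAt (fun s => ∫ r in (0:ℝ)..s, exp (-r) * q (prim w r))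
      (exp (-t) * q (prim w t)) t :=
    intervalIntegral.integral_hasDerivAt_right hii
      (hcont.stronglyMeasurableAtFilter isOpen_Ioi t ht) (hcont.continuousAt (Ioi_mem_nhds ht))
  have h2 : HasDerivAt (fun s => l * ((∫ r in Ioi (0:ℝ), exp (-r) * q (prim w r)) -
      ∫ r in (0:ℝ)..s, exp (-r) * q (prim w r))) (l * (-(exp (-t) * q (prim w t)))) t := by
    have := (h1.const_sub (∫ r in Ioi (0:ℝ), exp (-r) * q (prim w r))).const_mul l
    simpa using this
  have h3 : HasDerivAt w (l * (-(exp (-t) * q (prim w t)))) t := by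
    refine h2.congr_of_eventuallyEq ?_
    filter_upwards [Ioi_mem_nhds ht] with s hs
    have hs' : (0:ℝ) < s := hs
    rw [M.eqn s hs'.le]
    congr 1
    have h4 : (∫ r in Ioi (0:ℝ), exp (-r) * q (prim w r)) =
        (∫ r in Ioc 0 s, exp (-r) * q (prim w r)) + ∫ r in Ioi s, exp (-r) * q (prim w r) := by
      rw [← setIntegral_union (Ioc_disjoint_Ioi le_rfl) measurableSet_Ioi
        (hint.mono_set Ioc_subset_Ioi_self) (hint.mono_set (Ioi_subset_Ioi hs'.le)),
        Ioc_union_Ioi_eq_Ioi hs'.le]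
    rw [h4, intervalIntegral.integral_of_le hs'.le]
    ring
  refine h3.congr_deriv ?_
  ring

end

end MPee
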