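import Pool.Agent.Lib.EEQ.Data

/-! Bounds for `∫_{V0}^V f(s) e^{-sx} ds`. -/

open Real Set MeasureTheory Filter Topology

namespace MPee

variable {G f : ℝ → ℝ} {V0 θ V : ℝ}

theorem I_parts (h : GData G f) (a b x : ℝ) :
    ∫ s in a..b, f s * exp (-(s * x)) =
      G b * exp (-(b * x)) - G a * exp (-(a * x)) + x * ∫ s in a..b, G s * exp (-(s * x)) := by
  have hG : Continuous G := continuous_iff_continuousAt.2 fun v => (h.der v).continuousAt
  have hf := h.cont
  have he : Continuous fun s : ℝ => exp (-(s * x)) := by fun_prop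
  have i1 : IntervalIntegrable (fun s => f s * exp (-(s * x))) volume a b :=
    (hf.mul he).intervalIntegrable _ _
  have i2 : IntervalIntegrable (fun s => x * (G s * exp (-(s * x)))) volume a b :=
    ((hG.mul he).const_mul x).intervalIntegrable _ _
  have key : ∫ s in a..b, (f s * exp (-(s * x)) - x * (G s * exp (-(s * x)))) =
      G b * exp (-(b * x)) - G a * exp (-(a * x)) := by
    apply intervalIntegral.integral_eq_sub_of_hasDerivAt
      (f := fun s => G s * exp (-(s * x))) _ (i1.sub i2)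
    intro s _
    have h1 : HasDerivAt (fun s : ℝ => exp (-(s * x))) (exp (-(s * x)) * (-(1 * x))) s :=
      (((hasDerivAt_id s).mul_const x).neg).exp
    refine ((h.der s).mul h1).congr_deriv ?_
    ring
  rw [intervalIntegral.integral_sub i1 i2, intervalIntegral.integral_const_mul] at key
  linarith

theorem I_le (h : GData G f) {x : ℝ} (a b : ℝ) :
    ∫ s in a..b, f s * exp (-(s * x)) ≤
      G b * exp (-(b * x)) + x * ∫ s in a..b, G s * exp (-(s * x)) := by
  rw [I_parts h]
  have := mul_pos (h.pos a) (exp_pos (-(a * x)))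
  linarith

/-- `x = 1 / w 0` -/
theorem I_bound_far (h : GData G f) (hf : Far G f V0 θ) (hV : V0 ≤ V) (hV2 : 20 ≤ V) {x : ℝ}
    (hx : 3 / 2 * V ≤ x) : ∫ s in V0..V, f s * exp (-(s * x)) ≤ 1 / x ^ 3 := by
  have hV0 := hf.V0_ge
  have hx30 : 30 ≤ x := by linarith
  have hx0 : 0 < x := by linarith
  have hG : Continuous G := continuous_iff_continuousAt.2 fun v => (h.der v).continuousAt
  have he : Continuous fun s : ℝ => exp (-(s * x)) := by fun_prop
  have hpt : ∀ s ∈ Icc V0 V, G s * exp (-(s * x)) ≤ exp (-(4 * x / 3)) := by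
    intro s hs
    calc G s * exp (-(s * x)) ≤ exp (s ^ 2) * exp (-(s * x)) :=
          mul_le_mul_of_nonneg_right (hf.le_exp s hs.1) (exp_pos _).le
      _ = exp (s ^ 2 - s * x) := by rw [← exp_add]; congr 1
      _ ≤ exp (-(4 * x / 3)) := by
          apply exp_le_exp.2
          have h1 : 4 ≤ s := hV0.trans hs.1
          have h2 : x / 3 ≤ x - s := by linarith [hs.2]
          nlinarith [mul_nonneg (sub_nonneg.2 h1) (by linarith : 0 ≤ x / 3),
            mul_nonneg (by linarith : 0 ≤ s) (sub_nonneg.2 h2)]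
  have hint : ∫ s in V0..V, G s * exp (-(s * x)) ≤ (V - V0) * exp (-(4 * x / 3)) := by
    have := intervalIntegral.integral_mono_on (μ := volume) hV
      ((hG.mul he).intervalIntegrable V0 V)
      (intervalIntegrable_const (c := exp (-(4 * x / 3)))) hpt
    simpa using this
  refine (I_le h V0 V).trans ?_
  have h1 := hpt V ⟨hV, le_rfl⟩
  have h2 : x * ∫ s in V0..V, G s * exp (-(s * x)) ≤ x * ((V - V0) * exp (-(4 * x / 3))) :=
    mul_le_mul_of_nonneg_left hint hx0.le
  have h3 : x * ((V - V0) * exp (-(4 * x / 3))) ≤ x * (x * exp (-(4 * x / 3))) := by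
    apply mul_le_mul_of_nonneg_left _ hx0.le
    exact mul_le_mul_of_nonneg_right (by linarith) (exp_pos _).le
  have h4 : G V * exp (-(V * x)) + x * ∫ s in V0..V, G s * exp (-(s * x)) ≤
      (1 + x ^ 2) * exp (-(4 * x / 3)) := by
    calc _ ≤ exp (-(4 * x / 3)) + x * (x * exp (-(4 * x / 3))) := by linarith
      _ = _ := by ring
  refine h4.trans ?_
  have h5 : (4 * x / 3) ^ 8 / (Nat.factorial 8 : ℝ) ≤ exp (4 * x / 3) :=
    Real.pow_div_factorial_le_exp _ (by positivity) 8
  have h6 : (Nat.factorial 8 : ℝ) = 40320 := by norm_num [Nat.factorial]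
  rw [h6] at h5
  rw [exp_neg, ← div_eq_mul_inv, div_le_div_iff₀ (exp_pos _) (by positivity), one_mul]
  refine le_trans ?_ h5
  rw [le_div_iff₀ (by norm_num : (0:ℝ) < 40320)]
  have h7 : (4 * x / 3) ^ 8 = (65536 / 6561) * x ^ 8 := by ring
  rw [h7]
  have h8 : 27000 * x ^ 5 ≤ x ^ 8 := by
    have : (30:ℝ) ^ 3 ≤ x ^ 3 := pow_le_pow_left₀ (by norm_num) hx30 3
    have h9 : 0 ≤ x ^ 5 := by positivity
    nlinarith
  have h9 : x ^ 3 ≤ x ^ 5 := pow_le_pow_right₀ (by linarith) (by norm_num)
  have h10 : (1 + x ^ 2) * x ^ 3 = x ^ 3 + x ^ 5 := by ring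
  have h11 : 0 ≤ x ^ 5 := by positivity
  rw [h10]
  nlinarith

theorem I_bound_near (h : GData G f) (hf : Far G f V0 θ) (hV : V0 ≤ 3 / 4 * V) (hV2 : 20 ≤ V) {x : ℝ}
    (hx : V ≤ x) (hx2 : x ≤ 3 / 2 * V) :
    ∫ s in V0..V, f s * exp (-(s * x)) ≤ 16 * (G V * exp (-(V * x))) + 1 / V ^ 3 := by
  have hV0 := hf.V0_ge
  have hx0 : 0 < x := by linarith
  have hVV : V0 ≤ V := by linarith
  have hG : Continuous G := continuous_iff_continuousAt.2 fun v => (h.der v).continuousAt
  have he : Continuous fun s : ℝ => exp (-(s * x)) := by fun_prop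
  set a : ℝ := (2 * V - x) / 2 with ha
  have ha1 : V / 4 ≤ a := by rw [ha]; linarith
  have ha0 : 0 < a := by linarith
  have hpt : ∀ s ∈ Icc V0 V, G s * exp (-(s * x)) ≤
      exp (V ^ 2 - V * x) * exp (-((V - s) * a)) + exp (-V) := by
    intro s hs
    have hs4 : 4 ≤ s := hV0.trans hs.1
    have e1 : G s * exp (-(s * x)) ≤ exp (s ^ 2 - s * x) := by
      calc G s * exp (-(s * x)) ≤ exp (s ^ 2) * exp (-(s * x)) :=
            mul_le_mul_of_nonneg_right (hf.le_exp s hs.1) (exp_pos _).le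
        _ = exp (s ^ 2 - s * x) := by rw [← exp_add]; congr 1
    refine e1.trans ?_
    rcases le_total (x / 2) s with h1 | h1
    · have h2 : exp (s ^ 2 - s * x) ≤ exp (V ^ 2 - V * x) * exp (-((V - s) * a)) := by
        rw [← exp_add]
        apply exp_le_exp.2
        rw [ha]
        nlinarith [mul_nonneg (sub_nonneg.2 hs.2) (by linarith : 0 ≤ s - x / 2)]
      have := exp_pos (-V)
      linarith
    · have h2 : exp (s ^ 2 - s * x) ≤ exp (-V) := by
        apply exp_le_exp.2
        have h3 : V / 4 ≤ x - s := by linarith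
        nlinarith [mul_nonneg (sub_nonneg.2 hs4) (by linarith : 0 ≤ V / 4),
          mul_nonneg (by linarith : 0 ≤ s) (sub_nonneg.2 h3)]
      have := mul_pos (exp_pos (V ^ 2 - V * x)) (exp_pos (-((V - s) * a)))
      linarith
  have hEint : ∫ s in V0..V, exp (-((V - s) * a)) ≤ 1 / a := by
    have hd : ∀ s ∈ uIcc V0 V, HasDerivAt (fun s => exp (-((V - s) * a)) / a)
        (exp (-((V - s) * a))) s := by
      intro s _
      have h1 : HasDerivAt (fun s : ℝ => -((V - s) * a)) (-(-1 * a)) s :=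
        (((hasDerivAt_id s).const_sub V).mul_const a).neg
      refine (h1.exp.div_const a).congr_deriv ?_
      field_simp
    rw [intervalIntegral.integral_eq_sub_of_hasDerivAt hd
      ((by fun_prop : Continuous fun s : ℝ => exp (-((V - s) * a))).intervalIntegrable _ _)]
    have h2 : 0 < exp (-((V - V0) * a)) / a := div_pos (exp_pos _) ha0
    have h3 : exp (-((V - V) * a)) / a = 1 / a := by simp
    linarith
  have hc1 : Continuous fun s : ℝ => exp (V ^ 2 - V * x) * exp (-((V - s) * a)) := by fun_prop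
  have hint : ∫ s in V0..V, G s * exp (-(s * x)) ≤
      exp (V ^ 2 - V * x) * (1 / a) + (V - V0) * exp (-V) := by
    have h1 := intervalIntegral.integral_mono_on (μ := volume) hVV
      ((hG.mul he).intervalIntegrable V0 V)
      ((hc1.add continuous_const).intervalIntegrable V0 V) hpt
    refine h1.trans ?_
    have h2 : ∫ s in V0..V, (exp (V ^ 2 - V * x) * exp (-((V - s) * a)) + exp (-V)) =
        exp (V ^ 2 - V * x) * (∫ s in V0..V, exp (-((V - s) * a))) + (V - V0) * exp (-V) := by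
      rw [intervalIntegral.integral_add (hc1.intervalIntegrable _ _)
        (intervalIntegrable_const), intervalIntegral.integral_const_mul]
      simp
    have h3 := mul_le_mul_of_nonneg_left hEint (exp_pos (V ^ 2 - V * x)).le
    exact (h2.trans_le (by linarith))
  have hT : 9 / 20 * exp (V ^ 2 - V * x) ≤ G V * exp (-(V * x)) := by
    have h1 := mul_le_mul_of_nonneg_right (hf.ge_exp V hVV) (exp_pos (-(V * x))).le
    have h2 : 9 / 20 * exp (V ^ 2) * exp (-(V * x)) = 9 / 20 * exp (V ^ 2 - V * x) := by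
      rw [mul_assoc, ← exp_add]; congr 2
    linarith
  have hxa : x * (1 / a) ≤ 6 := by
    rw [mul_one_div, div_le_iff₀ ha0]
    linarith
  refine (I_le h V0 V).trans ?_
  have h1 : x * ∫ s in V0..V, G s * exp (-(s * x)) ≤
      x * (exp (V ^ 2 - V * x) * (1 / a) + (V - V0) * exp (-V)) :=
    mul_le_mul_of_nonneg_left hint hx0.le
  have h2 : x * (exp (V ^ 2 - V * x) * (1 / a) + (V - V0) * exp (-V)) ≤
      6 * exp (V ^ 2 - V * x) + 3 / 2 * V ^ 2 * exp (-V) := by
    have h3 : x * (1 / a) * exp (V ^ 2 - V * x) ≤ 6 * exp (V ^ 2 - V * x) :=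
      mul_le_mul_of_nonneg_right hxa (exp_pos _).le
    have h4 : x * (V - V0) ≤ 3 / 2 * V ^ 2 := by nlinarith
    have h5 : x * (V - V0) * exp (-V) ≤ 3 / 2 * V ^ 2 * exp (-V) :=
      mul_le_mul_of_nonneg_right h4 (exp_pos _).le
    calc _ = x * (1 / a) * exp (V ^ 2 - V * x) + x * (V - V0) * exp (-V) := by ring
      _ ≤ _ := add_le_add h3 h5
  have h6 : 3 / 2 * V ^ 2 * exp (-V) ≤ 1 / V ^ 3 := by
    have h7 : V ^ 12 / (Nat.factorial 12 : ℝ) ≤ exp V :=
      Real.pow_div_factorial_le_exp _ (by linarith) 12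
    have h8 : (Nat.factorial 12 : ℝ) = 479001600 := by norm_num [Nat.factorial]
    rw [h8] at h7
    have hV0' : 0 < V := by linarith
    rw [exp_neg, ← div_eq_mul_inv, div_le_div_iff₀ (exp_pos _) (by positivity), one_mul]
    refine le_trans ?_ h7
    rw [le_div_iff₀ (by norm_num)]
    have h9 : (20:ℝ) ^ 7 ≤ V ^ 7 := pow_le_pow_left₀ (by norm_num) hV2 7
    have h10 : 0 ≤ V ^ 5 := by positivity
    have h11 : V ^ 12 = V ^ 7 * V ^ 5 := by ring
    rw [h11]
    nlinarith
  have h12 : 0 < exp (V ^ 2 - V * x) := exp_pos _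
  have h13 := h.pos V
  have h14 := exp_pos (-(V * x))
  nlinarith

end MPee
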