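import Pool.Agent.Lib.EEQ.Basic

/-! The concrete nonlinearity satisfies `GData`; constants for large heights. -/

open Real Set MeasureTheory Filter Topology

namespace MPee

theorem deriv_zero_of_even {g : ℝ → ℝ} (hg : Admissible g) : deriv g 0 = 0 := by
  have h1 : HasDerivAt g (deriv g 0) 0 :=
    ((hg.smooth.differentiable one_ne_zero) 0).hasDerivAt
  have h2 : HasDerivAt (fun t => g (-t)) (-(deriv g 0)) 0 := by
    have h3 : HasDerivAt g (deriv g 0) (-0) := by simpa using h1
    have h4 : HasDerivAt (fun t => g (-t)) (deriv g 0 * -1) 0 :=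
      HasDerivAt.comp (h₂ := g) (h := fun t : ℝ => -t) (0:ℝ) h3 (hasDerivAt_neg (0:ℝ))
    simpa using h4
  have e : (fun t => g (-t)) = g := funext hg.even
  rw [e] at h2
  have := h1.unique h2
  linarith

theorem gdata {g : ℝ → ℝ} (hg : Admissible g) : GData (GG g) (ff g) where
  der := by
    intro v
    have h1 : HasDerivAt g (deriv g v) v := ((hg.smooth.differentiable one_ne_zero) v).hasDerivAt
    have h2 : HasDerivAt (fun v => (1 + g v) / 2) (deriv g v / 2) v :=
      (h1.const_add 1).div_const 2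
    have h3 : HasDerivAt (fun v : ℝ => exp (v ^ 2)) (exp (v ^ 2) * (2 * v)) v := by
      have := (hasDerivAt_pow 2 v).exp
      simpa using this
    have h4 := h2.mul h3
    refine h4.congr_deriv ?_
    unfold ff
    ring
  cont := by
    unfold ff
    have h1 : Continuous g := hg.smooth.continuous
    have h2 : Continuous (deriv g) := hg.smooth.continuous_deriv le_rfl
    fun_prop
  f0 := by
    unfold ff
    rw [deriv_zero_of_even hg]
    simp
  pos := by
    intro v
    obtain ⟨c, hc, hc2⟩ := hg.inf_gt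
    have : 0 < 1 + g v := by linarith [hc2 v]
    unfold GG
    positivity
  lim := by
    have h1 : Tendsto (fun v => (1 + g v) / 2) atTop (𝓝 ((1 + 0) / 2)) :=
      (hg.lim.const_add 1).div_const 2
    rw [add_zero] at h1
    refine h1.congr fun v => ?_
    unfold GG
    rw [mul_assoc, ← exp_add]
    simp

theorem ff_eq {g : ℝ → ℝ} {v : ℝ} (hv : v ≠ 0) : (1 + hOf g v) * v * exp (v ^ 2) = ff g v := by
  unfold hOf ff
  field_simp
  ring

theorem far_exists {G f : ℝ → ℝ} (h : GData G f) {V : ℝ} (hf : ∀ v, V ≤ v → 0 < f v) {θ : ℝ}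
    (hθ : 0 < θ) (hθ1 : θ ≤ 1 / 10) : ∃ V0, V ≤ V0 ∧ Far G f V0 θ := by
  have hlow : 1 / 2 * exp (-(θ / 2)) < 1 / 2 := by
    have : exp (-(θ / 2)) < 1 := by rw [Real.exp_lt_one_iff]; linarith
    linarith
  have hup : 1 / 2 < 1 / 2 * exp (θ / 2) := by
    have : 1 < exp (θ / 2) := by rw [Real.one_lt_exp_iff]; linarith
    linarith
  have h1 := h.lim.eventually (lt_mem_nhds hlow)
  have h2 := h.lim.eventually (gt_mem_nhds hup)
  obtain ⟨N, hN⟩ := eventually_atTop.1 (h1.and h2)
  set V0 := max (max V 4) N with hV0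
  have key : ∀ v, V0 ≤ v → 1 / 2 * exp (-(θ / 2)) * exp (v ^ 2) ≤ G v ∧
      G v ≤ 1 / 2 * exp (θ / 2) * exp (v ^ 2) := by
    intro v hv
    obtain ⟨h3, h4⟩ := hN v ((le_max_right _ _).trans hv)
    have e : G v = G v * exp (-v ^ 2) * exp (v ^ 2) := by
      rw [mul_assoc, ← exp_add]
      simp
    have hp := exp_pos (v ^ 2)
    constructor
    · rw [e]; exact mul_le_mul_of_nonneg_right h3.le hp.le
    · rw [e]; exact mul_le_mul_of_nonneg_right h4.le hp.le
  refine ⟨V0, (le_max_left _ _).trans (le_max_left _ _), ?_, hθ, hθ1, ?_, ?_, ?_, ?_, ?_⟩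
  · exact (le_max_right _ _).trans (le_max_left _ _)
  · intro v hv
    exact hf v (((le_max_left _ _).trans (le_max_left _ _)).trans hv)
  · intro v hv
    refine (key v hv).2.trans ?_
    have h5 : exp (θ / 2) ≤ 2 := by
      have : exp (θ / 2) ≤ exp (Real.log 2) := by
        apply exp_le_exp.2
        have := Real.log_two_gt_d9
        linarith
      rwa [Real.exp_log (by norm_num)] at this
    have hp := exp_pos (v ^ 2)
    nlinarith
  · intro v hv
    refine le_trans ?_ (key v hv).1
    have h5 : 1 - θ / 2 ≤ exp (-(θ / 2)) := by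
      have := Real.add_one_le_exp (-(θ / 2))
      linarith
    have hp := exp_pos (v ^ 2)
    have h6 : 9 / 20 ≤ 1 / 2 * exp (-(θ / 2)) := by linarith
    exact mul_le_mul_of_nonneg_right h6 hp.le
  · intro v w hv hvw
    have h5 := (key v hv).2
    have h6 := (key w (hv.trans hvw)).1
    calc exp (w ^ 2 - v ^ 2 - θ) * G v
        ≤ exp (w ^ 2 - v ^ 2 - θ) * (1 / 2 * exp (θ / 2) * exp (v ^ 2)) :=
          mul_le_mul_of_nonneg_left h5 (exp_pos _).le
      _ = 1 / 2 * exp (-(θ / 2)) * exp (w ^ 2) := by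
          have : exp (w ^ 2 - v ^ 2 - θ) * exp (θ / 2) * exp (v ^ 2) =
              exp (-(θ / 2)) * exp (w ^ 2) := by
            rw [← exp_add, ← exp_add, ← exp_add]; congr 1; ring
          linear_combination (1 / 2) * this
      _ ≤ G w := h6
  · intro v w hv hvw
    have h5 := (key v hv).1
    have h6 := (key w (hv.trans hvw)).2
    calc G w ≤ 1 / 2 * exp (θ / 2) * exp (w ^ 2) := h6
      _ = exp (w ^ 2 - v ^ 2 + θ) * (1 / 2 * exp (-(θ / 2)) * exp (v ^ 2)) := by
          have : exp (w ^ 2 - v ^ 2 + θ) * exp (-(θ / 2)) * exp (v ^ 2) =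
              exp (θ / 2) * exp (w ^ 2) := by
            rw [← exp_add, ← exp_add, ← exp_add]; congr 1; ring
          linear_combination (-1 / 2) * this
      _ ≤ exp (w ^ 2 - v ^ 2 + θ) * G v := mul_le_mul_of_nonneg_left h5 (exp_pos _).le

end MPee
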