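import Pool.Agent.Lib.MP_ee476b_an.Radial

/-! MP_ee476b_an, Q2. Basic objects: `G(v) = (1+g(v))/2 e^{v²}`, `f = G'`, primitives of
`L²(0,∞)` functions and the functional truncated below a height `V`. -/

open Real Set MeasureTheory Filter Topology

namespace MPee

/-- abstract form of the nonlinearity: `G' = f`, `f(0) = 0`, `G > 0`, `G(v) e^{-v²} → 1/2`. -/
structure GData (G f : ℝ → ℝ) : Prop where
  der : ∀ v, HasDerivAt G (f v) v
  cont : Continuous f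
  f0 : f 0 = 0
  pos : ∀ v, 0 < G v
  lim : Tendsto (fun v => G v * exp (-v ^ 2)) atTop (𝓝 (1 / 2))

/-- `G(v) = (1+g(v))/2 e^{v²}` -/
noncomputable def GG (g : ℝ → ℝ) (v : ℝ) : ℝ := (1 + g v) / 2 * exp (v ^ 2)

/-- `f = G'` -/
noncomputable def ff (g : ℝ → ℝ) (v : ℝ) : ℝ := ((1 + g v) * v + deriv g v / 2) * exp (v ^ 2)

/-- the primitive vanishing at `0` -/
noncomputable def prim (w : ℝ → ℝ) (t : ℝ) : ℝ := ∫ s in (0:ℝ)..t, w s

/-- `w ∈ L²(0,∞)` with `∫ w² ≤ A` -/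
structure Adm (A : ℝ) (w : ℝ → ℝ) : Prop where
  mem : MemLp w 2 (volume.restrict (Ioi (0:ℝ)))
  le : ∫ t in Ioi (0:ℝ), w t ^ 2 ≤ A

/-- `H(v) = G(max(v,V)) - G(V)` -/
noncomputable def HH (G : ℝ → ℝ) (V v : ℝ) : ℝ := G (max v V) - G V

/-- the functional truncated below the height `V` -/
noncomputable def NN2 (G : ℝ → ℝ) (V : ℝ) (w : ℝ → ℝ) : ℝ :=
  ∫ t in Ioi (0:ℝ), exp (-t) * HH G V (prim w t)

/-- behaviour of `G` above the height `V0` (oscillation of `log (2G e^{-v²})` at most `θ`) -/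
structure Far (G f : ℝ → ℝ) (V0 θ : ℝ) : Prop where
  V0_ge : 4 ≤ V0
  θ_pos : 0 < θ
  θ_le : θ ≤ 1 / 10
  fpos : ∀ v, V0 ≤ v → 0 < f v
  le_exp : ∀ v, V0 ≤ v → G v ≤ exp (v ^ 2)
  ge_exp : ∀ v, V0 ≤ v → 9 / 20 * exp (v ^ 2) ≤ G v
  ratio_ge : ∀ v w, V0 ≤ v → v ≤ w → exp (w ^ 2 - v ^ 2 - θ) * G v ≤ G w
  ratio_le : ∀ v w, V0 ≤ v → v ≤ w → G w ≤ exp (w ^ 2 - v ^ 2 + θ) * G v

/-- a maximiser of `NN2 G V` over `Adm A`, with its Euler-Lagrange equation and first integral.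
`w` is the slope, `prim w` the profile, `mu` the top, `tV` the time of the height `V`. -/
structure Maxi (G f : ℝ → ℝ) (V A l mu tV : ℝ) (w : ℝ → ℝ) : Prop where
  A_pos : 0 < A
  A_lt : A < 1
  l_pos : 0 < l
  adm : Adm A w
  energy : ∫ t in Ioi (0:ℝ), w t ^ 2 = A
  cont : Continuous w
  anti : Antitone w
  pos : ∀ t, 0 < w t
  tV_pos : 0 < tV
  const : ∀ t, t ≤ tV → w t = w 0
  prim_tV : prim w tV = V
  der : ∀ t, tV < t → HasDerivAt w (-(l * exp (-t) * f (prim w t))) t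
  intH : IntegrableOn (fun t => exp (-t) * HH G V (prim w t)) (Ioi 0)
  ident : ∀ t, 0 ≤ t → w t ^ 2 + 2 * l * (exp (-t) * HH G V (prim w t)) =
    2 * l * ∫ s in Ioi t, exp (-s) * HH G V (prim w s)
  tendsto : Tendsto (prim w) atTop (𝓝 mu)
  wlim : Tendsto w atTop (𝓝 0)
  lt_mu : ∀ t, prim w t < mu
  max : ∀ w', Adm A w' → NN2 G V w' ≤ NN2 G V w

/-- a genuine radial solution on the half line `t = 2 log (1/|x|)`: profile `ph`, slope `w`,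
top `mu`. -/
structure HalfSol (f : ℝ → ℝ) (l mu : ℝ) (ph w : ℝ → ℝ) : Prop where
  l_pos : 0 < l
  zero : ph 0 = 0
  cont : ContinuousOn ph (Ici 0)
  der : ∀ t, 0 < t → HasDerivAt ph (w t) t
  der2 : ∀ t, 0 < t → HasDerivAt w (-(l * exp (-t) * f (ph t))) t
  pos : ∀ t, 0 < t → 0 < ph t
  le : ∀ t, 0 < t → ph t ≤ mu
  lim : Tendsto ph atTop (𝓝 mu)
  wlim : Tendsto w atTop (𝓝 0)

end MPee
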