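import Pool.Agent.Lib.EEQ.ExtOde15

/-! The extension of a profile to lower heights: a priori bounds. -/

open Real Set MeasureTheory Filter Topology

namespace MPee

theorem integral_exp_neg_mul_le {x : ℝ} (hx : 0 < x) {v w : ℝ} :
    ∫ s in v..w, exp (-(s * x)) ≤ exp (-(v * x)) / x := by
  have h1 : ∫ s in v..w, exp (-(s * x)) = -(exp (-(w * x)) / x) - -(exp (-(v * x)) / x) := by
    apply intervalIntegral.integral_eq_sub_of_hasDerivAt (f := fun s => -(exp (-(s * x)) / x))
    · intro s _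
      have h2 : HasDerivAt (fun s => -(s * x)) (-(1 * x)) s := ((hasDerivAt_id s).mul_const x).neg
      have h3 := (h2.exp.div_const x).neg
      refine h3.congr_deriv ?_
      field_simp
    · exact (by fun_prop : Continuous fun s : ℝ => exp (-(s * x))).intervalIntegrable _ _
  rw [h1]
  have := exp_pos (-(w * x))
  have : 0 ≤ exp (-(w * x)) / x := by positivity
  linarith

/-- `(1 - y)^(-1/2) ≤ 1 + y` for `0 ≤ y ≤ 1/2`, in the form needed here. -/
theorem inv_sqrt_le {a0 x y P : ℝ} (ha : 0 < a0) (hax : a0 * x = 1) (hy : 0 ≤ y) (hy2 : y ≤ 1 / 2)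
    (hP : a0 ^ 2 * (1 - y) ≤ P) : (√P)⁻¹ ≤ x * (1 + y) := by
  have hx : 0 < x := by
    by_contra h
    have : a0 * x ≤ 0 := mul_nonpos_of_nonneg_of_nonpos ha.le (not_lt.1 h)
    linarith
  have hP0 : 0 < P := lt_of_lt_of_le (by have := pow_pos ha 2; nlinarith) hP
  have hs : 0 < √P := Real.sqrt_pos.2 hP0
  rw [inv_le_comm₀ hs (by positivity), mul_inv]
  have e : x⁻¹ = a0 := by
    field_simp
    linarith
  rw [e]
  apply Real.le_sqrt_of_sq_le
  refine le_trans ?_ hP
  rw [mul_pow]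
  apply mul_le_mul_of_nonneg_left _ (by positivity)
  rw [inv_pow, inv_le_comm₀ (by positivity) (by linarith), inv_le_iff_one_le_mul₀ (by linarith)]
  nlinarith [mul_nonneg hy hy, mul_nonneg (mul_nonneg hy hy) hy]

structure ExtSol (f : ℝ → ℝ) (l V0 V a0 x tV F0 : ℝ) (P T : ℝ → ℝ) : Prop where
  contP : Continuous P
  contT : Continuous T
  PV : P V = a0 ^ 2
  TV : T V = tV
  eqP : ∀ v ∈ Icc 0 V, P v = a0 ^ 2 + ∫ s in v..V, 2 * l * f s * exp (-T s)
  eqT : ∀ v ∈ Icc 0 V, T v = tV - ∫ s in v..V, (√(P s))⁻¹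
  P_high : ∀ v ∈ Icc V0 V, a0 ^ 2 ≤ P v
  T_high : ∀ v ∈ Icc V0 V, v * x ≤ T v
  P_low : ∀ v ∈ Icc 0 V0, a0 ^ 2 * (1 - 16 * F0 * a0 * exp (-(v * x))) ≤ P v
  T_low : ∀ v ∈ Icc 0 V0, v * x - 16 * F0 * a0 ≤ T v
  P_ge : ∀ v ∈ Icc 0 V, a0 ^ 2 / 2 ≤ P v

theorem exists_extSol {f : ℝ → ℝ} (hf : Continuous f) {l V0 V a0 x tV F0 : ℝ} (hV0 : 0 ≤ V0)
    (hV : V0 ≤ V) (hl : 0 < l) (hl2 : 2 * l ≤ 8 * a0 ^ 2) (ha : 0 < a0) (hx : 0 < x)
    (hax : a0 * x = 1) (htV : tV = V * x) (hpos : ∀ v ∈ Icc V0 V, 0 ≤ f v)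
    (hF : ∀ v ∈ Icc 0 V0, |f v| ≤ F0) (hxF : 32 * F0 * a0 ≤ 1) :
    ∃ P T, ExtSol f l V0 V a0 x tV F0 P T := by
  have hV1 : 0 ≤ V := hV0.trans hV
  have hF0 : 0 ≤ F0 := (abs_nonneg _).trans (hF 0 ⟨le_rfl, hV0⟩)
  have ha2 : 0 < a0 ^ 2 := by positivity
  obtain ⟨P, T, hPc, hTc, hPV, hTV, hP, hT⟩ := height_ode hf (V := V) (q := a0 ^ 2 / 4) (x := x) l tV
    (a0 ^ 2) hV1 (by positivity) hx.le
  set m : ℝ → ℝ := fun s => exp (-max (T s) (s * x - 1 / 2)) with hm
  have hmc : Continuous m := by simp only [hm]; fun_prop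
  have hm0 : ∀ s, 0 < m s := fun s => exp_pos _
  have hm2 : ∀ s, m s ≤ 2 * exp (-(s * x)) := by
    intro s
    have h1 : exp (1 / 2 : ℝ) ≤ 2 := by
      have : exp (1 / 2 : ℝ) ≤ exp (Real.log 2) := by
        apply exp_le_exp.2
        have := Real.log_two_gt_d9
        linarith
      rwa [Real.exp_log (by norm_num)] at this
    calc m s ≤ exp (-(s * x - 1 / 2)) := exp_le_exp.2 (neg_le_neg (le_max_right _ _))
      _ = exp (1 / 2) * exp (-(s * x)) := by rw [← exp_add]; congr 1; ring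
      _ ≤ _ := mul_le_mul_of_nonneg_right h1 (exp_pos _).le
  have hiP : ∀ a b, IntervalIntegrable (fun s => 2 * l * f s * m s) volume a b := fun a b =>
    (by fun_prop : Continuous fun s => 2 * l * f s * m s).intervalIntegrable a b
  -- the square of the slope above `V0`
  have hPhigh : ∀ v ∈ Icc V0 V, a0 ^ 2 ≤ P v := by
    intro v hv
    rw [hP v ⟨hV0.trans hv.1, hv.2⟩]
    have : 0 ≤ ∫ s in v..V, 2 * l * f s * exp (-max (T s) (s * x - 1 / 2)) := by
      apply intervalIntegral.integral_nonneg hv.2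
      intro s hs
      have := hpos s ⟨hv.1.trans hs.1, hs.2⟩
      positivity
    linarith
  set Q : ℝ → ℝ := fun s => (√(max (P s) (a0 ^ 2 / 4)))⁻¹ with hQ
  have hQc : Continuous Q := by
    simp only [hQ]
    refine Continuous.inv₀ (by fun_prop) fun s => ?_
    exact (Real.sqrt_pos.2 (lt_of_lt_of_le (by positivity) (le_max_right _ _))).ne'
  have hThigh : ∀ v ∈ Icc V0 V, v * x ≤ T v := by
    intro v hv
    rw [hT v ⟨hV0.trans hv.1, hv.2⟩]
    have h1 : ∫ s in v..V, Q s ≤ ∫ s in v..V, x := by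
      apply intervalIntegral.integral_mono_on hv.2 (hQc.intervalIntegrable _ _) (by simp)
      intro s hs
      have h2 : (√(P s))⁻¹ ≤ x * (1 + 0) := inv_sqrt_le ha hax le_rfl (by norm_num) (by
        have := hPhigh s ⟨hv.1.trans hs.1, hs.2⟩
        linarith)
      have h3 : max (P s) (a0 ^ 2 / 4) = P s := by
        apply max_eq_left
        have := hPhigh s ⟨hv.1.trans hs.1, hs.2⟩
        linarith
      simp only [hQ, h3]
      linarith
    rw [intervalIntegral.integral_const, smul_eq_mul] at h1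
    simp only [hQ] at h1
    rw [htV]
    linarith
  have hxF2 : 16 * F0 * a0 ≤ 1 / 2 := by linarith
  have hy : ∀ v, 0 ≤ v → 0 ≤ 16 * F0 * a0 * exp (-(v * x)) ∧ 16 * F0 * a0 * exp (-(v * x)) ≤ 1 / 2 ∧
      16 * F0 * a0 * exp (-(v * x)) ≤ 16 * F0 * a0 := by
    intro v hv
    have h1 : exp (-(v * x)) ≤ 1 := by
      rw [Real.exp_le_one_iff]
      have := mul_nonneg hv hx.le
      linarith
    have h2 : 0 ≤ 16 * F0 * a0 := by positivity
    have h3 : 16 * F0 * a0 * exp (-(v * x)) ≤ 16 * F0 * a0 := mul_le_of_le_one_right h2 h1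
    exact ⟨by positivity, h3.trans hxF2, h3⟩
  have hex : ∀ v, exp (-(v * x)) / x = a0 * exp (-(v * x)) := by
    intro v
    rw [div_eq_iff hx.ne']
    linear_combination (-exp (-(v * x))) * hax
  have hPlow : ∀ v ∈ Icc 0 V0, a0 ^ 2 * (1 - 16 * F0 * a0 * exp (-(v * x))) ≤ P v := by
    intro v hv
    have h1 := hP v ⟨hv.1, hv.2.trans hV⟩
    have h2 := hP V0 ⟨hV0, hV⟩
    have h3 := intervalIntegral.integral_add_adjacent_intervals (hiP v V0) (hiP V0 V)
    have h4 := hPhigh V0 ⟨le_rfl, hV⟩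
    have h5 : -(4 * l * F0 * (exp (-(v * x)) / x)) ≤ ∫ s in v..V0, 2 * l * f s * m s := by
      have h6 : ∫ s in v..V0, -(4 * l * F0 * exp (-(s * x))) ≤ ∫ s in v..V0, 2 * l * f s * m s := by
        apply intervalIntegral.integral_mono_on hv.2
          ((by fun_prop : Continuous fun s : ℝ => -(4 * l * F0 * exp (-(s * x)))).intervalIntegrable _ _)
          (hiP _ _)
        intro s hs
        have h7 := abs_le.1 (hF s ⟨hv.1.trans hs.1, hs.2⟩)
        have h8 := hm2 s
        have h9 := (hm0 s).le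
        calc -(4 * l * F0 * exp (-(s * x))) = 2 * l * (-(F0 * (2 * exp (-(s * x))))) := by ring
          _ ≤ 2 * l * (-(F0 * m s)) := by
              apply mul_le_mul_of_nonneg_left _ (by positivity)
              exact neg_le_neg (mul_le_mul_of_nonneg_left h8 hF0)
          _ = 2 * l * (-F0) * m s := by ring
          _ ≤ 2 * l * f s * m s := by
              apply mul_le_mul_of_nonneg_right _ h9
              exact mul_le_mul_of_nonneg_left h7.1 (by positivity)
      have h10 : ∫ s in v..V0, -(4 * l * F0 * exp (-(s * x))) =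
          -(4 * l * F0 * ∫ s in v..V0, exp (-(s * x))) := by
        rw [intervalIntegral.integral_neg, intervalIntegral.integral_const_mul]
      rw [h10] at h6
      refine le_trans ?_ h6
      apply neg_le_neg
      exact mul_le_mul_of_nonneg_left (integral_exp_neg_mul_le hx) (by positivity)
    rw [hex] at h5
    have h11 : 4 * l * F0 * (a0 * exp (-(v * x))) ≤ 16 * a0 ^ 2 * F0 * (a0 * exp (-(v * x))) := by
      apply mul_le_mul_of_nonneg_right _ (by positivity)
      apply mul_le_mul_of_nonneg_right _ hF0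
      linarith
    simp only [hm] at h3 h5
    nlinarith
  have hPlow2 : ∀ v ∈ Icc 0 V, a0 ^ 2 / 2 ≤ P v := by
    intro v hv
    rcases le_total v V0 with h | h
    · refine le_trans ?_ (hPlow v ⟨hv.1, h⟩)
      have := (hy v hv.1).2.1
      nlinarith
    · have := hPhigh v ⟨h, hv.2⟩
      linarith
  have hQeq : ∀ s ∈ Icc 0 V, Q s = (√(P s))⁻¹ := by
    intro s hs
    have h3 : max (P s) (a0 ^ 2 / 4) = P s := by
      apply max_eq_left
      have := hPlow2 s hs
      linarith
    simp only [hQ, h3]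
  have hTlow : ∀ v ∈ Icc 0 V0, v * x - 16 * F0 * a0 ≤ T v := by
    intro v hv
    have h1 := hT v ⟨hv.1, hv.2.trans hV⟩
    have h2 := hT V0 ⟨hV0, hV⟩
    have h3 := intervalIntegral.integral_add_adjacent_intervals
      (hQc.intervalIntegrable (μ := volume) v V0) (hQc.intervalIntegrable (μ := volume) V0 V)
    have h4 := hThigh V0 ⟨le_rfl, hV⟩
    have h5 : ∫ s in v..V0, Q s ≤ ∫ s in v..V0, (x + 16 * F0 * exp (-(s * x))) := by
      apply intervalIntegral.integral_mono_on hv.2 (hQc.intervalIntegrable _ _)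
        ((by fun_prop : Continuous fun s : ℝ => x + 16 * F0 * exp (-(s * x))).intervalIntegrable _ _)
      intro s hs
      have hs0 : 0 ≤ s := hv.1.trans hs.1
      have h6 := inv_sqrt_le ha hax (hy s hs0).1 (hy s hs0).2.1 (hPlow s ⟨hs0, hs.2⟩)
      rw [hQeq s ⟨hs0, hs.2.trans hV⟩]
      refine h6.trans (le_of_eq ?_)
      linear_combination (16 * F0 * exp (-(s * x))) * hax
    have h7 : ∫ s in v..V0, (x + 16 * F0 * exp (-(s * x))) =
        (V0 - v) * x + 16 * F0 * ∫ s in v..V0, exp (-(s * x)) := by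
      rw [intervalIntegral.integral_add (by simp)
        ((by fun_prop : Continuous fun s : ℝ => 16 * F0 * exp (-(s * x))).intervalIntegrable _ _),
        intervalIntegral.integral_const, smul_eq_mul, intervalIntegral.integral_const_mul]
    have h8 := integral_exp_neg_mul_le hx (v := v) (w := V0)
    rw [hex] at h8
    have h9 : 16 * F0 * ∫ s in v..V0, exp (-(s * x)) ≤ 16 * F0 * (a0 * exp (-(v * x))) :=
      mul_le_mul_of_nonneg_left h8 (by positivity)
    have h10 := (hy v hv.1).2.2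
    simp only [hQ] at h3 h5
    nlinarith
  have hmeq : ∀ s ∈ Icc 0 V, m s = exp (-T s) := by
    intro s hs
    have h3 : max (T s) (s * x - 1 / 2) = T s := by
      apply max_eq_left
      rcases le_total s V0 with h | h
      · have := hTlow s ⟨hs.1, h⟩
        linarith
      · have := hThigh s ⟨h, hs.2⟩
        linarith
    simp only [hm, h3]
  refine ⟨P, T, hPc, hTc, hPV, hTV, ?_, ?_, hPhigh, hThigh, hPlow, hTlow, hPlow2⟩
  · intro v hv
    rw [hP v hv]
    congr 1
    apply intervalIntegral.integral_congr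
    intro s hs
    rw [uIcc_of_le hv.2] at hs
    have := hmeq s ⟨hv.1.trans hs.1, hs.2⟩
    simp only [hm] at this
    beta_reduce
    rw [this]
  · intro v hv
    rw [hT v hv]
    congr 1
    apply intervalIntegral.integral_congr
    intro s hs
    rw [uIcc_of_le hv.2] at hs
    have := hQeq s ⟨hv.1.trans hs.1, hs.2⟩
    simp only [hQ] at this
    exact this

end MPee
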