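import Pool.Agent.Lib.EEQ.ExtBd15

/-! The extension of a profile to lower heights: the change of energy. -/

open Real Set MeasureTheory Filter Topology

namespace MPee

section
variable {f : ℝ → ℝ} {l V0 V a0 x tV F0 : ℝ} {P T : ℝ → ℝ}

theorem ExtSol.D_low (E : ExtSol f l V0 V a0 x tV F0 P T) (hV0 : 0 ≤ V0) (hV : V0 ≤ V)
    (ha : 0 < a0) (hx : 0 < x) (hax : a0 * x = 1) (hF0 : 0 ≤ F0) (hxF : 32 * F0 * a0 ≤ 1) :
    -(16 * F0 * a0 ^ 3) ≤ ∫ v in (0:ℝ)..V, (√(P v) - a0) := by
  have hV1 : 0 ≤ V := hV0.trans hV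
  have hc : Continuous fun v => √(P v) - a0 := by
    have := E.contP
    fun_prop
  have hex : ∀ v, exp (-(v * x)) / x = a0 * exp (-(v * x)) := by
    intro v
    rw [div_eq_iff hx.ne']
    linear_combination (-exp (-(v * x))) * hax
  have h1 : ∫ v in (0:ℝ)..V, -(16 * F0 * a0 ^ 2 * exp (-(v * x))) ≤
      ∫ v in (0:ℝ)..V, (√(P v) - a0) := by
    apply intervalIntegral.integral_mono_on hV1
      ((by fun_prop : Continuous fun v : ℝ => -(16 * F0 * a0 ^ 2 * exp (-(v * x)))).intervalIntegrable
        _ _) (hc.intervalIntegrable _ _)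
    intro v hv
    rcases le_total v V0 with h | h
    · have h2 := E.P_low v ⟨hv.1, h⟩
      set y := 16 * F0 * a0 * exp (-(v * x)) with hy
      have hy0 : 0 ≤ y := by positivity
      have hy1 : y ≤ 1 / 2 := by
        have h1 : exp (-(v * x)) ≤ 1 := by
          rw [Real.exp_le_one_iff]
          have := mul_nonneg hv.1 hx.le
          linarith
        have h2 : 0 ≤ 16 * F0 * a0 := by positivity
        have h3 : y ≤ 16 * F0 * a0 := mul_le_of_le_one_right h2 h1
        linarith
      have h3 : a0 * (1 - y) ≤ √(P v) := by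
        apply Real.le_sqrt_of_sq_le
        refine le_trans ?_ h2
        rw [mul_pow]
        apply mul_le_mul_of_nonneg_left _ (by positivity)
        nlinarith
      have h4 : 16 * F0 * a0 ^ 2 * exp (-(v * x)) = a0 * y := by rw [hy]; ring
      rw [h4]
      linarith
    · have h2 := E.P_high v ⟨h, hv.2⟩
      have h3 : a0 ≤ √(P v) := Real.le_sqrt_of_sq_le h2
      have h4 : 0 ≤ 16 * F0 * a0 ^ 2 * exp (-(v * x)) := by positivity
      linarith
  refine le_trans ?_ h1
  rw [intervalIntegral.integral_neg, intervalIntegral.integral_const_mul]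
  have h2 := integral_exp_neg_mul_le hx (v := 0) (w := V)
  rw [hex] at h2
  simp only [zero_mul, neg_zero, exp_zero, mul_one] at h2
  have h3 : 16 * F0 * a0 ^ 2 * ∫ v in (0:ℝ)..V, exp (-(v * x)) ≤ 16 * F0 * a0 ^ 2 * a0 :=
    mul_le_mul_of_nonneg_left h2 (by positivity)
  calc -(16 * F0 * a0 ^ 3) = -(16 * F0 * a0 ^ 2 * a0) := by ring
    _ ≤ _ := neg_le_neg h3

theorem ExtSol.D_up (E : ExtSol f l V0 V a0 x tV F0 P T) (hf : Continuous f) (hV0 : 0 ≤ V0)
    (hV : V0 ≤ V) (hl : 0 < l) (ha : 0 < a0) (hx : 0 < x) (hax : a0 * x = 1)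
    (hpos : ∀ v ∈ Icc V0 V, 0 ≤ f v) (hF : ∀ v ∈ Icc 0 V0, |f v| ≤ F0)
    (hxF : 32 * F0 * a0 ≤ 1) (haV : a0 * V ≤ 1) {N : ℝ} (hN : 1 / 8 ≤ N)
    (hlN : a0 ^ 2 = 2 * l * N) :
    ∫ v in (0:ℝ)..V, (√(P v) - a0) ≤
      (∫ s in V0..V, f s * exp (-(s * x))) / (2 * N) + 8 * F0 * a0 ^ 3 := by
  have hV1 : 0 ≤ V := hV0.trans hV
  have hF0 : 0 ≤ F0 := (abs_nonneg _).trans (hF 0 ⟨le_rfl, hV0⟩)
  have hc : Continuous fun v => √(P v) - a0 := by
    have := E.contP
    fun_prop
  have hTc := E.contT
  have hex : ∀ v, exp (-(v * x)) / x = a0 * exp (-(v * x)) := by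
    intro v
    rw [div_eq_iff hx.ne']
    linear_combination (-exp (-(v * x))) * hax
  set I := ∫ s in V0..V, f s * exp (-(s * x)) with hI
  have hI0 : 0 ≤ I := by
    apply intervalIntegral.integral_nonneg hV
    intro s hs
    have := hpos s hs
    positivity
  have hi1 : ∀ a b, IntervalIntegrable (fun s => f s * exp (-(s * x))) volume a b := fun a b =>
    (by fun_prop : Continuous fun s => f s * exp (-(s * x))).intervalIntegrable a b
  have hi2 : ∀ a b, IntervalIntegrable (fun s => 2 * l * f s * exp (-T s)) volume a b := fun a b =>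
    (by fun_prop : Continuous fun s => 2 * l * f s * exp (-T s)).intervalIntegrable a b
  -- above `V0`
  have hA : ∀ v ∈ Icc V0 V, ∫ s in v..V, 2 * l * f s * exp (-T s) ≤ 2 * l * I := by
    intro v hv
    have h1 : ∫ s in v..V, 2 * l * f s * exp (-T s) ≤ ∫ s in v..V, 2 * l * (f s * exp (-(s * x))) := by
      apply intervalIntegral.integral_mono_on hv.2 (hi2 _ _) ((hi1 _ _).const_mul _)
      intro s hs
      have h2 := hpos s ⟨hv.1.trans hs.1, hs.2⟩
      have h3 := E.T_high s ⟨hv.1.trans hs.1, hs.2⟩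
      have h4 : exp (-T s) ≤ exp (-(s * x)) := exp_le_exp.2 (by linarith)
      calc 2 * l * f s * exp (-T s) ≤ 2 * l * f s * exp (-(s * x)) :=
            mul_le_mul_of_nonneg_left h4 (by positivity)
        _ = _ := by ring
    rw [intervalIntegral.integral_const_mul] at h1
    refine h1.trans (mul_le_mul_of_nonneg_left ?_ (by positivity))
    have h5 := intervalIntegral.integral_add_adjacent_intervals (hi1 V0 v) (hi1 v V)
    have h6 : 0 ≤ ∫ s in V0..v, f s * exp (-(s * x)) := by
      apply intervalIntegral.integral_nonneg hv.1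
      intro s hs
      have := hpos s ⟨hs.1, hs.2.trans hv.2⟩
      positivity
    linarith
  have hB : ∀ v ∈ Icc 0 V, P v - a0 ^ 2 ≤ 2 * l * I + 4 * l * F0 * a0 * exp (-(v * x)) := by
    intro v hv
    have h1 := E.eqP v hv
    have h0 : 0 ≤ 4 * l * F0 * a0 * exp (-(v * x)) := by positivity
    rcases le_total v V0 with h | h
    · have h2 := intervalIntegral.integral_add_adjacent_intervals (hi2 v V0) (hi2 V0 V)
      have h3 := hA V0 ⟨le_rfl, hV⟩
      have h4 : ∫ s in v..V0, 2 * l * f s * exp (-T s) ≤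
          ∫ s in v..V0, 4 * l * F0 * exp (-(s * x)) := by
        apply intervalIntegral.integral_mono_on h (hi2 _ _)
          ((by fun_prop : Continuous fun s : ℝ => 4 * l * F0 * exp (-(s * x))).intervalIntegrable _ _)
        intro s hs
        have hs' : s ∈ Icc 0 V0 := ⟨hv.1.trans hs.1, hs.2⟩
        have h5 := E.T_low s hs'
        have h6 : exp (-T s) ≤ 2 * exp (-(s * x)) := by
          have h7 : exp (1 / 2 : ℝ) ≤ 2 := by
            have : exp (1 / 2 : ℝ) ≤ exp (Real.log 2) := by
              apply exp_le_exp.2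
              have := Real.log_two_gt_d9
              linarith
            rwa [Real.exp_log (by norm_num)] at this
          calc exp (-T s) ≤ exp (1 / 2 + -(s * x)) := exp_le_exp.2 (by linarith)
            _ = exp (1 / 2) * exp (-(s * x)) := exp_add _ _
            _ ≤ _ := mul_le_mul_of_nonneg_right h7 (exp_pos _).le
        have h8 : f s ≤ F0 := (le_abs_self _).trans (hF s hs')
        calc 2 * l * f s * exp (-T s) ≤ 2 * l * F0 * exp (-T s) := by
              apply mul_le_mul_of_nonneg_right _ (exp_pos _).le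
              exact mul_le_mul_of_nonneg_left h8 (by positivity)
          _ ≤ 2 * l * F0 * (2 * exp (-(s * x))) := mul_le_mul_of_nonneg_left h6 (by positivity)
          _ = _ := by ring
      rw [intervalIntegral.integral_const_mul] at h4
      have h5 := integral_exp_neg_mul_le hx (v := v) (w := V0)
      rw [hex] at h5
      have h6 : 4 * l * F0 * ∫ s in v..V0, exp (-(s * x)) ≤ 4 * l * F0 * (a0 * exp (-(v * x))) :=
        mul_le_mul_of_nonneg_left h5 (by positivity)
      linarith
    · have h3 := hA v ⟨h, hv.2⟩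
      linarith
  have h1 : ∫ v in (0:ℝ)..V, (√(P v) - a0) ≤
      ∫ v in (0:ℝ)..V, (l * I / a0 + 2 * l * F0 * exp (-(v * x))) := by
    apply intervalIntegral.integral_mono_on hV1 (hc.intervalIntegrable _ _)
      ((by fun_prop : Continuous fun v : ℝ => l * I / a0 + 2 * l * F0 *
        exp (-(v * x))).intervalIntegrable _ _)
    intro v hv
    have h2 := hB v hv
    have hP0 : 0 ≤ P v := le_trans (by positivity) (E.P_ge v hv)
    have h3 := Real.sq_sqrt hP0
    have h4 : 2 * a0 * (√(P v) - a0) ≤ P v - a0 ^ 2 := by nlinarith [sq_nonneg (√(P v) - a0)]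
    have h5 : 2 * a0 * (√(P v) - a0) ≤
        2 * a0 * (l * I / a0 + 2 * l * F0 * exp (-(v * x))) := by
      have e : 2 * a0 * (l * I / a0 + 2 * l * F0 * exp (-(v * x))) =
          2 * l * I + 4 * l * F0 * a0 * exp (-(v * x)) := by
        field_simp
        ring
      rw [e]
      linarith
    exact le_of_mul_le_mul_left h5 (by positivity)
  have h2 : ∫ v in (0:ℝ)..V, (l * I / a0 + 2 * l * F0 * exp (-(v * x))) =
      V * (l * I / a0) + 2 * l * F0 * ∫ v in (0:ℝ)..V, exp (-(v * x)) := by
    rw [intervalIntegral.integral_add (by simp)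
      ((by fun_prop : Continuous fun v : ℝ => 2 * l * F0 * exp (-(v * x))).intervalIntegrable _ _),
      intervalIntegral.integral_const, smul_eq_mul, intervalIntegral.integral_const_mul, sub_zero]
  have h3 := integral_exp_neg_mul_le hx (v := 0) (w := V)
  rw [hex] at h3
  simp only [zero_mul, neg_zero, exp_zero, mul_one] at h3
  have h4 : 2 * l * F0 * ∫ v in (0:ℝ)..V, exp (-(v * x)) ≤ 2 * l * F0 * a0 :=
    mul_le_mul_of_nonneg_left h3 (by positivity)
  have hN0 : 0 < N := by linarith
  have e1 : V * (l * I / a0) = (a0 * V) * (I / (2 * N)) := by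
    have : l = a0 ^ 2 / (2 * N) := by
      rw [eq_div_iff (by positivity)]
      linarith
    rw [this]
    field_simp
  have h5 : V * (l * I / a0) ≤ I / (2 * N) := by
    rw [e1]
    have : 0 ≤ I / (2 * N) := by positivity
    nlinarith
  have h6 : 2 * l * F0 * a0 ≤ 8 * F0 * a0 ^ 3 := by
    have h7 : 2 * l ≤ 8 * a0 ^ 2 := by
      rw [hlN]
      nlinarith
    calc 2 * l * F0 * a0 = 2 * l * (F0 * a0) := by ring
      _ ≤ 8 * a0 ^ 2 * (F0 * a0) := mul_le_mul_of_nonneg_right h7 (by positivity)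
      _ = _ := by ring
  linarith

end

end MPee
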