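import Pool.Agent.Lib.EEQ.Basic

/-! The height as a function of the time: inversion of `T(v) = tV + ∫_V^v 1/S`. -/

open Real Set MeasureTheory Filter Topology

namespace MPee

theorem exists_height {S : ℝ → ℝ} (hS : Continuous S) {C : ℝ} (hSc : ∀ v, 0 < S v)
    (hSC : ∀ v, S v ≤ C) (V tV : ℝ) :
    ∃ ψ : ℝ → ℝ, (∀ t, HasDerivAt ψ (S (ψ t)) t) ∧
      (∀ v, ψ (tV + ∫ s in V..v, (S s)⁻¹) = v) ∧ StrictMono ψ := by
  have hC : 0 < C := lt_of_lt_of_le (hSc 0) (hSC 0)
  have hi : Continuous fun s => (S s)⁻¹ := hS.inv₀ fun s => (hSc s).ne'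
  set Th : ℝ → ℝ := fun v => tV + ∫ s in V..v, (S s)⁻¹ with hTh
  have hd : ∀ v, HasDerivAt Th (S v)⁻¹ v := fun v =>
    ((hi.integral_hasStrictDerivAt V v).hasDerivAt).const_add tV
  have hm : StrictMono Th := by
    apply strictMono_of_deriv_pos
    intro v
    rw [(hd v).deriv]
    exact inv_pos.2 (hSc v)
  have hc : Continuous Th := continuous_iff_continuousAt.2 fun v => (hd v).continuousAt
  have hm2 : Monotone fun v => Th v - v / C := by
    have h1 : ∀ v, HasDerivAt (fun v => Th v - v / C) ((S v)⁻¹ - 1 / C) v := fun v =>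
      (hd v).sub ((hasDerivAt_id v).div_const C)
    apply monotone_of_deriv_nonneg (fun v => (h1 v).differentiableAt)
    intro v
    rw [(h1 v).deriv, one_div, sub_nonneg]
    exact inv_anti₀ (hSc v) (hSC v)
  have htop : Tendsto Th atTop atTop := by
    apply tendsto_atTop_mono' atTop (f₁ := fun v => v / C + (Th 0 - 0 / C))
    · filter_upwards [eventually_ge_atTop 0] with v hv
      have := hm2 hv
      simp only at this ⊢
      linarith
    · exact tendsto_atTop_add_const_right _ _ (tendsto_id.atTop_div_const hC)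
  have hbot : Tendsto Th atBot atBot := by
    apply tendsto_atBot_mono' atBot (f₁ := fun v => v / C + (Th 0 - 0 / C))
    · filter_upwards [eventually_le_atBot 0] with v hv
      have := hm2 hv
      simp only at this ⊢
      linarith
    · exact tendsto_atBot_add_const_right _ _ (tendsto_id.atBot_div_const hC)
  have hs : Function.Surjective Th := hc.surjective htop hbot
  set e := hm.orderIsoOfSurjective Th hs with he
  have he1 : ∀ t, Th (e.symm t) = t := fun t => e.apply_symm_apply t
  refine ⟨e.symm, ?_, ?_, e.symm.strictMono⟩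
  · intro t
    have h1 := HasDerivAt.of_local_left_inverse (f := Th) (g := e.symm) (a := t)
      e.symm.continuous.continuousAt (hd (e.symm t)) (inv_pos.2 (hSc _)).ne'
      (Eventually.of_forall he1)
    rwa [inv_inv] at h1
  · intro v
    exact e.symm_apply_apply v

end MPee
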