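import Pool.Agent.Lib.EEQ.Basic
import Mathlib.Analysis.ODE.ExistUnique

/-! The extension of a profile to lower heights: the equation with the height as variable.
`P` is the square of the slope, `T` the time. -/

open Real Set MeasureTheory Filter Topology

namespace MPee

theorem abs_exp_neg_sub_le {a b c : ℝ} (ha : c ≤ a) (hb : c ≤ b) :
    |exp (-a) - exp (-b)| ≤ exp (-c) * |a - b| := by
  wlog hab : a ≤ b generalizing a b
  · rw [abs_sub_comm, abs_sub_comm a b]
    exact this hb ha (le_of_not_ge hab)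
  have h1 : exp (-b) ≤ exp (-a) := exp_le_exp.2 (by linarith)
  rw [abs_of_nonneg (by linarith), abs_sub_comm, abs_of_nonneg (by linarith)]
  have h2 : exp (-b) = exp (-a) * exp (-(b - a)) := by rw [← exp_add]; congr 1; ring
  have h3 := Real.add_one_le_exp (-(b - a))
  have h4 : exp (-a) ≤ exp (-c) := exp_le_exp.2 (by linarith)
  have h5 := exp_pos (-a)
  calc exp (-a) - exp (-b) = exp (-a) * (1 - exp (-(b - a))) := by rw [h2]; ring
    _ ≤ exp (-a) * (b - a) := mul_le_mul_of_nonneg_left (by linarith) h5.le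
    _ ≤ exp (-c) * (b - a) := mul_le_mul_of_nonneg_right h4 (by linarith)

theorem abs_inv_sqrt_sub_le {a b q : ℝ} (hq : 0 < q) (ha : q ≤ a) (hb : q ≤ b) :
    |(√a)⁻¹ - (√b)⁻¹| ≤ (2 * √q ^ 3)⁻¹ * |a - b| := by
  have hsq : 0 < √q := Real.sqrt_pos.2 hq
  have h1 : √q ≤ √a := Real.sqrt_le_sqrt ha
  have h2 : √q ≤ √b := Real.sqrt_le_sqrt hb
  have hA : √a ^ 2 = a := Real.sq_sqrt (hq.le.trans ha)
  have hB : √b ^ 2 = b := Real.sq_sqrt (hq.le.trans hb)
  have hsa : 0 < √a := lt_of_lt_of_le hsq h1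
  have hsb : 0 < √b := lt_of_lt_of_le hsq h2
  have e1 : (√a)⁻¹ - (√b)⁻¹ = (√b - √a) / (√a * √b) := by field_simp
  have e2 : a - b = (√a - √b) * (√a + √b) := by linear_combination -hA + hB
  rw [e1, e2, abs_div, abs_of_pos (mul_pos hsa hsb), abs_mul, abs_of_pos (add_pos hsa hsb),
    abs_sub_comm (√b) (√a), div_le_iff₀ (mul_pos hsa hsb)]
  have h3 : 2 * √q ^ 3 ≤ (√a + √b) * (√a * √b) := by
    have h4 : √q * √q ≤ √a * √b := mul_le_mul h1 h2 hsq.le hsa.le
    have h5 : 2 * √q ≤ √a + √b := by linarith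
    calc 2 * √q ^ 3 = (2 * √q) * (√q * √q) := by ring
      _ ≤ _ := mul_le_mul h5 h4 (by positivity) (by positivity)
  have h6 : 1 ≤ (2 * √q ^ 3)⁻¹ * ((√a + √b) * (√a * √b)) := by
    rw [inv_mul_eq_div, one_le_div (by positivity)]
    exact h3
  calc |√a - √b| = |√a - √b| * 1 := by ring
    _ ≤ |√a - √b| * ((2 * √q ^ 3)⁻¹ * ((√a + √b) * (√a * √b))) :=
        mul_le_mul_of_nonneg_left h6 (abs_nonneg _)
    _ = _ := by ring

/-- The equation in the height variable, with a field modified far away. -/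
theorem height_ode {f : ℝ → ℝ} (hf : Continuous f) {V q x : ℝ} (l tV p0 : ℝ) (hV : 0 ≤ V)
    (hq : 0 < q) (hx : 0 ≤ x) :
    ∃ P T : ℝ → ℝ, Continuous P ∧ Continuous T ∧ P V = p0 ∧ T V = tV ∧
      (∀ v ∈ Icc 0 V, P v = p0 + ∫ s in v..V, 2 * l * f s * exp (-max (T s) (s * x - 1 / 2))) ∧
      (∀ v ∈ Icc 0 V, T v = tV - ∫ s in v..V, (√(max (P s) q))⁻¹) := by
  obtain ⟨F, hF⟩ := (isCompact_Icc (a := (0:ℝ)) (b := V)).exists_bound_of_continuousOn
    (f := f) hf.continuousOn
  have hF0 : 0 ≤ F := (norm_nonneg _).trans (hF 0 ⟨le_rfl, hV⟩)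
  have hsq : 0 < √q := Real.sqrt_pos.2 hq
  have he : ∀ v ∈ Icc 0 V, exp (-(v * x - 1 / 2)) ≤ 2 := by
    intro v hv
    have h1 : exp (-(v * x - 1 / 2)) ≤ exp (Real.log 2) := by
      apply exp_le_exp.2
      have := Real.log_two_gt_d9
      have := mul_nonneg hv.1 hx
      linarith
    rwa [Real.exp_log (by norm_num)] at h1
  set B : ℝ := 2 * |l| * F * 2 with hB
  have hB0 : 0 ≤ B := by positivity
  set Φ : ℝ → ℝ × ℝ → ℝ × ℝ := fun v p =>
    (-(2 * l * f v * exp (-max p.2 (v * x - 1 / 2))), (√(max p.1 q))⁻¹) with hΦ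
  set K : NNReal := ⟨B + (2 * √q ^ 3)⁻¹, by positivity⟩ with hK
  set L : NNReal := ⟨B + (√q)⁻¹, by positivity⟩ with hL
  set a : NNReal := ⟨(B + (√q)⁻¹) * V, by positivity⟩ with ha
  have hVm : V ∈ Icc 0 V := ⟨hV, le_rfl⟩
  have hPL : IsPicardLindelof Φ (⟨V, hVm⟩ : Icc (0:ℝ) V) ((p0, tV) : ℝ × ℝ) a 0 L K := by
    refine ⟨?_, ?_, ?_, ?_⟩
    · intro v hv
      apply LipschitzOnWith.of_dist_le_mul
      intro p _ p' _
      have h1 : |exp (-max p.2 (v * x - 1 / 2)) - exp (-max p'.2 (v * x - 1 / 2))| ≤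
          2 * |p.2 - p'.2| := by
        refine (abs_exp_neg_sub_le (le_max_right _ _) (le_max_right _ _)).trans ?_
        exact mul_le_mul (he v hv) (abs_max_sub_max_le_abs _ _ _) (abs_nonneg _) (by norm_num)
      have h2 : |(√(max p.1 q))⁻¹ - (√(max p'.1 q))⁻¹| ≤ (2 * √q ^ 3)⁻¹ * |p.1 - p'.1| := by
        refine (abs_inv_sqrt_sub_le hq (le_max_right _ _) (le_max_right _ _)).trans ?_
        exact mul_le_mul_of_nonneg_left (abs_max_sub_max_le_abs _ _ _) (by positivity)
      have h3 : |p.1 - p'.1| ≤ dist p p' := by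
        rw [Prod.dist_eq, ← Real.dist_eq]; exact le_max_left _ _
      have h4 : |p.2 - p'.2| ≤ dist p p' := by
        rw [Prod.dist_eq, ← Real.dist_eq (p.2)]; exact le_max_right _ _
      have hKe : ((K : NNReal) : ℝ) = B + (2 * √q ^ 3)⁻¹ := rfl
      have hd := dist_nonneg (x := p) (y := p')
      have hi : 0 ≤ (2 * √q ^ 3)⁻¹ := by positivity
      rw [hKe, Prod.dist_eq (x := Φ v p), max_le_iff]
      constructor
      · have e : dist (Φ v p).1 (Φ v p').1 = 2 * |l| * |f v| *
            |exp (-max p.2 (v * x - 1 / 2)) - exp (-max p'.2 (v * x - 1 / 2))| := by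
          rw [Real.dist_eq]
          have e2 : (Φ v p).1 - (Φ v p').1 = -(2 * l * f v *
            (exp (-max p.2 (v * x - 1 / 2)) - exp (-max p'.2 (v * x - 1 / 2)))) := by
            simp only [hΦ]; ring
          rw [e2, abs_neg, abs_mul, abs_mul, abs_mul, abs_of_pos (by norm_num : (0:ℝ) < 2)]
        rw [e]
        have h5 : |f v| ≤ F := hF v hv
        calc 2 * |l| * |f v| * |exp (-max p.2 (v * x - 1 / 2)) - exp (-max p'.2 (v * x - 1 / 2))|
            ≤ 2 * |l| * F * (2 * |p.2 - p'.2|) := by gcongr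
          _ = B * |p.2 - p'.2| := by rw [hB]; ring
          _ ≤ B * dist p p' := mul_le_mul_of_nonneg_left h4 hB0
          _ ≤ _ := mul_le_mul_of_nonneg_right (by linarith) hd
      · have e : dist (Φ v p).2 (Φ v p').2 = |(√(max p.1 q))⁻¹ - (√(max p'.1 q))⁻¹| := by
          rw [Real.dist_eq]
        rw [e]
        calc |(√(max p.1 q))⁻¹ - (√(max p'.1 q))⁻¹| ≤ (2 * √q ^ 3)⁻¹ * |p.1 - p'.1| := h2
          _ ≤ (2 * √q ^ 3)⁻¹ * dist p p' := mul_le_mul_of_nonneg_left h3 hi
          _ ≤ _ := mul_le_mul_of_nonneg_right (by linarith) hd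
    · intro p _
      have : Continuous fun v => Φ v p := by
        simp only [hΦ]
        fun_prop
      exact this.continuousOn
    · intro v hv p _
      have hLe : ((L : NNReal) : ℝ) = B + (√q)⁻¹ := rfl
      have hi : 0 ≤ (√q)⁻¹ := by positivity
      rw [hLe, Prod.norm_def, max_le_iff]
      constructor
      · have e : ‖(Φ v p).1‖ = 2 * |l| * |f v| * exp (-max p.2 (v * x - 1 / 2)) := by
          simp only [hΦ, Real.norm_eq_abs]
          rw [abs_neg, abs_mul, abs_mul, abs_mul, abs_of_pos (by norm_num : (0:ℝ) < 2),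
            abs_of_pos (exp_pos _)]
        have h6 : exp (-max p.2 (v * x - 1 / 2)) ≤ 2 :=
          (exp_le_exp.2 (neg_le_neg (le_max_right _ _))).trans (he v hv)
        rw [e]
        have h5 : |f v| ≤ F := hF v hv
        calc 2 * |l| * |f v| * exp (-max p.2 (v * x - 1 / 2)) ≤ 2 * |l| * F * 2 := by gcongr
          _ ≤ _ := by linarith
      · have h6 : (√(max p.1 q))⁻¹ ≤ (√q)⁻¹ :=
          inv_anti₀ hsq (Real.sqrt_le_sqrt (le_max_right _ _))
        have h7 : 0 ≤ (√(max p.1 q))⁻¹ := by positivity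
        simp only [hΦ, Real.norm_eq_abs, abs_of_nonneg h7]
        linarith
    · have e1 : ((L : NNReal) : ℝ) = B + (√q)⁻¹ := rfl
      have e2 : ((a : NNReal) : ℝ) = (B + (√q)⁻¹) * V := rfl
      rw [e1, e2]
      simp [hV]
  obtain ⟨α, hα0, hα⟩ := hPL.exists_eq_forall_mem_Icc_hasDerivWithinAt₀
  have hαc : ContinuousOn α (Icc 0 V) := fun t ht => (hα t ht).continuousWithinAt
  have hαc' : Continuous fun v => α (projIcc 0 V hV v) :=
    continuousOn_iff_continuous_domRestrict.1 hαc |>.comp continuous_projIcc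
  have hα0' : α V = (p0, tV) := hα0
  have hpr : ∀ v ∈ Icc 0 V, α (projIcc 0 V hV v) = α v := by
    intro v hv
    rw [projIcc_of_mem hV hv]
  refine ⟨fun v => (α (projIcc 0 V hV v)).1, fun v => (α (projIcc 0 V hV v)).2,
    continuous_fst.comp hαc', continuous_snd.comp hαc', ?_, ?_, ?_, ?_⟩
  · beta_reduce
    rw [hpr V hVm, hα0']
  · beta_reduce
    rw [hpr V hVm, hα0']
  · intro v hv
    have hc1 : Continuous fun s => 2 * l * f s *
        exp (-max (α (projIcc 0 V hV s)).2 (s * x - 1 / 2)) := by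
      have := continuous_snd.comp hαc'
      simp only [Function.comp_def] at this
      fun_prop
    have h1 := intervalIntegral.integral_eq_sub_of_hasDerivAt_of_le (a := v) (b := V)
      (f := fun s => -(α s).1) (f' := fun s => 2 * l * f s *
        exp (-max (α (projIcc 0 V hV s)).2 (s * x - 1 / 2))) hv.2
      ((continuous_fst.comp_continuousOn (hαc.mono (Icc_subset_Icc_left hv.1))).neg) ?_
      (hc1.intervalIntegrable _ _)
    · beta_reduce at h1 ⊢
      rw [h1, hα0', hpr v hv]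
      ring
    · intro s hs
      have hs' : s ∈ Icc 0 V := ⟨hv.1.trans hs.1.le, hs.2.le⟩
      have h2 := (hα s hs').hasDerivAt (Icc_mem_nhds (lt_of_le_of_lt hv.1 hs.1) hs.2)
      have h3 : HasDerivAt (fun s => (α s).1) (Φ s (α s)).1 s := h2.fst
      have h4 := h3.neg
      rw [hpr s hs']
      refine h4.congr_deriv ?_
      simp only [hΦ, neg_neg]
  · intro v hv
    have hc1 : Continuous fun s => (√(max (α (projIcc 0 V hV s)).1 q))⁻¹ := by
      have := continuous_fst.comp hαc'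
      simp only [Function.comp_def] at this
      refine Continuous.inv₀ (by fun_prop) fun s => ?_
      exact (Real.sqrt_pos.2 (lt_of_lt_of_le hq (le_max_right _ _))).ne'
    have h1 := intervalIntegral.integral_eq_sub_of_hasDerivAt_of_le (a := v) (b := V)
      (f := fun s => (α s).2) (f' := fun s => (√(max (α (projIcc 0 V hV s)).1 q))⁻¹) hv.2
      (continuous_snd.comp_continuousOn (hαc.mono (Icc_subset_Icc_left hv.1))) ?_
      (hc1.intervalIntegrable _ _)
    · beta_reduce at h1 ⊢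
      rw [h1, hα0', hpr v hv]
      ring
    · intro s hs
      have hs' : s ∈ Icc 0 V := ⟨hv.1.trans hs.1.le, hs.2.le⟩
      have h2 := (hα s hs').hasDerivAt (Icc_mem_nhds (lt_of_le_of_lt hv.1 hs.1) hs.2)
      have h3 : HasDerivAt (fun s => (α s).2) (Φ s (α s)).2 s := h2.snd
      rw [hpr s hs']
      exact h3

end MPee
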