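import Pool.Agent.Lib.EEQ.ExtD15
import Pool.Agent.Lib.EEQ.ExtInv15

/-! Module M7: a maximiser of the truncated functional extends to a genuine solution. -/

open Real Set MeasureTheory Filter Topology

namespace MPee

/-- gluing of two differentiable functions -/
theorem hasDerivAt_ite_of_within {a b : ℝ → ℝ} {c d : ℝ} (ha : HasDerivWithinAt a d (Iic c) c)
    (hb : HasDerivWithinAt b d (Ici c) c) (h : a c = b c) :
    HasDerivAt (fun t => if t ≤ c then a t else b t) d c := by
  have h1 : HasDerivWithinAt (fun t => if t ≤ c then a t else b t) d (Iic c) c := by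
    refine ha.congr (fun t ht => ?_) ?_
    · simp only [mem_Iic] at ht; simp [ht]
    · simp
  have h2 : HasDerivWithinAt (fun t => if t ≤ c then a t else b t) d (Ici c) c := by
    refine hb.congr (fun t ht => ?_) ?_
    · rcases eq_or_lt_of_le (mem_Ici.1 ht) with h0 | h0
      · rw [← h0]; simp [h]
      · simp [h0.not_ge]
    · simp [h]
  have h3 := h1.union h2
  rwa [Iic_union_Ici, hasDerivWithinAt_univ] at h3

theorem setIntegral_Ioi_comp_add (F : ℝ → ℝ) (c : ℝ) :
    ∫ t in Ioi (0:ℝ), F (t + c) = ∫ t in Ioi c, F t := by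
  have h := (measurePreserving_add_right (volume : Measure ℝ) c).setIntegral_preimage_emb
    (MeasurableEquiv.addRight c).measurableEmbedding F (Ioi c)
  have e : (fun x : ℝ => x + c) ⁻¹' Ioi c = Ioi 0 := by ext t; simp
  rw [e] at h
  exact h

section
variable {G f : ℝ → ℝ} {V0 V A l mu tV : ℝ} {w : ℝ → ℝ}

theorem Maxi.x_sq (M : Maxi G f V A l mu tV w) (hV : 0 < V) :
    w 0 ^ 2 = 2 * l * NN2 G V w := by
  have h1 := M.ident 0 le_rfl
  rw [prim_zero, HH_of_le hV.le] at h1
  simpa [NN2] using h1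

theorem Maxi.x_tV (M : Maxi G f V A l mu tV w) : tV * w 0 = V := by
  have h1 := M.prim_tV
  unfold prim at h1
  have h2 : ∫ s in (0:ℝ)..tV, w s = ∫ s in (0:ℝ)..tV, w 0 := by
    apply intervalIntegral.integral_congr
    intro s hs
    rw [uIcc_of_le M.tV_pos.le] at hs
    exact M.const s hs.2
  rw [h2, intervalIntegral.integral_const, smul_eq_mul, sub_zero] at h1
  exact h1

theorem Maxi.x_int (M : Maxi G f V A l mu tV w) : ∫ s in (0:ℝ)..tV, w s ^ 2 = V * w 0 := by
  have h2 : ∫ s in (0:ℝ)..tV, w s ^ 2 = ∫ s in (0:ℝ)..tV, w 0 ^ 2 := by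
    apply intervalIntegral.integral_congr
    intro s hs
    rw [uIcc_of_le M.tV_pos.le] at hs
    beta_reduce
    rw [M.const s hs.2]
  rw [h2, intervalIntegral.integral_const, smul_eq_mul, sub_zero, ← M.x_tV]
  ring

theorem Maxi.x_V (M : Maxi G f V A l mu tV w) : V * w 0 ≤ A := by
  rw [← M.x_int, intervalIntegral.integral_of_le M.tV_pos.le]
  exact M.adm.int_Ioc_le le_rfl

theorem Maxi.x_derPrim (M : Maxi G f V A l mu tV w) (t : ℝ) : HasDerivAt (prim w) (w t) t := by
  unfold prim
  exact (M.cont.integral_hasStrictDerivAt 0 t).hasDerivAt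

theorem Maxi.x_right (M : Maxi G f V A l mu tV w) (hf : Continuous f) :
    HasDerivWithinAt w (-(l * exp (-tV) * f V)) (Ici tV) tV := by
  apply hasDerivWithinAt_Ici_of_tendsto_deriv (s := Ioi tV)
  · intro t ht
    exact (M.der t ht).differentiableAt.differentiableWithinAt
  · exact M.cont.continuousWithinAt
  · exact self_mem_nhdsWithin
  · have h1 : Tendsto (fun t => -(l * exp (-t) * f (prim w t))) (𝓝[>] tV)
        (𝓝 (-(l * exp (-tV) * f V))) := by
      have h2 : Continuous fun t => -(l * exp (-t) * f (prim w t)) := by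
        have : Continuous (prim w) :=
          continuous_iff_continuousAt.2 fun t => (M.x_derPrim t).continuousAt
        fun_prop
      have h3 := (h2.tendsto tV).mono_left (nhdsWithin_le_nhds (s := Ioi tV))
      rwa [M.prim_tV] at h3
    refine h1.congr' ?_
    filter_upwards [self_mem_nhdsWithin] with t ht
    exact ((M.der t ht).deriv).symm

theorem Maxi.x_prim_ge (M : Maxi G f V A l mu tV w) {t : ℝ} (ht : tV ≤ t) : V ≤ prim w t := by
  have hm : StrictMono (prim w) := by
    apply strictMono_of_deriv_pos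
    intro v
    rw [(M.x_derPrim v).deriv]
    exact M.pos v
  have := hm.monotone ht
  rwa [M.prim_tV] at this

theorem maxi_glue (M : Maxi G f V A l mu tV w) (hf : Continuous f) (hV : 0 < V) {x F0 : ℝ}
    {P T : ℝ → ℝ} (E : ExtSol f l V0 V (w 0) x tV F0 P T) :
    ∃ l' ph w', HalfSol f l' mu ph w' ∧
      ∫ t in Ioi (0:ℝ), w' t ^ 2 = A + ∫ v in (0:ℝ)..V, (√(P v) - w 0) := by
  have ha : 0 < w 0 := M.pos 0
  have hPc := E.contP
  have hTc := E.contT
  set cl : ℝ → ℝ := fun v => max 0 (min V v) with hcl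
  have hclm : ∀ v, cl v ∈ Icc 0 V := fun v =>
    ⟨le_max_left _ _, max_le hV.le (min_le_left _ _)⟩
  have hcle : ∀ v ∈ Icc 0 V, cl v = v := by
    intro v hv
    simp only [hcl, min_eq_right hv.2, max_eq_right hv.1]
  have hclc : Continuous cl := by simp only [hcl]; fun_prop
  have hPpos : ∀ v ∈ Icc 0 V, 0 < P v := fun v hv => lt_of_lt_of_le (by positivity) (E.P_ge v hv)
  set S : ℝ → ℝ := fun v => √(P (cl v)) with hS
  have hSc : Continuous S := by simp only [hS]; fun_prop
  have hSp : ∀ v, 0 < S v := fun v => Real.sqrt_pos.2 (hPpos _ (hclm v))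
  have hSe : ∀ v ∈ Icc 0 V, S v = √(P v) := by
    intro v hv
    simp only [hS, hcle v hv]
  obtain ⟨B, hB⟩ := (isCompact_Icc (a := (0:ℝ)) (b := V)).exists_bound_of_continuousOn
    (f := P) hPc.continuousOn
  have hSB : ∀ v, S v ≤ √B := fun v =>
    Real.sqrt_le_sqrt ((le_abs_self _).trans (hB _ (hclm v)))
  obtain ⟨ψ, hψd, hψi, hψm⟩ := exists_height hSc hSp hSB V tV
  have hψT : ∀ v ∈ Icc 0 V, ψ (T v) = v := by
    intro v hv
    have h1 : T v = tV + ∫ s in V..v, (S s)⁻¹ := by
      rw [E.eqT v hv, intervalIntegral.integral_symm v V, ← sub_eq_add_neg]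
      congr 1
      apply intervalIntegral.integral_congr
      intro s hs
      rw [uIcc_of_le hv.2] at hs
      beta_reduce
      rw [hSe s ⟨hv.1.trans hs.1, hs.2⟩]
    rw [h1]
    exact hψi v
  have hV0' : (0:ℝ) ∈ Icc 0 V := ⟨le_rfl, hV.le⟩
  have hVV : V ∈ Icc 0 V := ⟨hV.le, le_rfl⟩
  have hψ0 : ψ (T 0) = 0 := hψT 0 hV0'
  have hψV : ψ tV = V := by
    have := hψT V hVV
    rwa [E.TV] at this
  set t0 := T 0 with ht0
  have ht0V : t0 < tV := by
    rw [← hψm.lt_iff_lt, hψ0, hψV]
    exact hV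
  have hψmem : ∀ t ∈ Icc t0 tV, ψ t ∈ Icc 0 V := by
    intro t ht
    have h1 := hψm.monotone ht.1
    have h2 := hψm.monotone ht.2
    rw [hψ0] at h1
    rw [hψV] at h2
    exact ⟨h1, h2⟩
  have hTψ : ∀ t ∈ Icc t0 tV, T (ψ t) = t := fun t ht => hψm.injective (hψT _ (hψmem t ht))
  set R : ℝ → ℝ := fun v => w 0 ^ 2 - ∫ s in V..v, 2 * l * f s * exp (-T s) with hR
  have hRd : ∀ v, HasDerivAt R (-(2 * l * f v * exp (-T v))) v := by
    intro v
    have h1 : Continuous fun s => 2 * l * f s * exp (-T s) := by fun_prop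
    exact ((h1.integral_hasStrictDerivAt V v).hasDerivAt).const_sub _
  have hRe : ∀ v ∈ Icc 0 V, R v = P v := by
    intro v hv
    simp only [hR]
    rw [E.eqP v hv, intervalIntegral.integral_symm v V]
    ring
  set ρ : ℝ → ℝ := fun t => √(R (ψ t)) with hρ
  have hρe : ∀ t ∈ Icc t0 tV, ρ t = S (ψ t) := by
    intro t ht
    simp only [hρ]
    rw [hRe _ (hψmem t ht), hSe _ (hψmem t ht)]
  have hρd : ∀ t ∈ Icc t0 tV, HasDerivAt ρ (-(l * exp (-t) * f (ψ t))) t := by
    intro t ht
    have h1 : HasDerivAt (fun t => R (ψ t)) (-(2 * l * f (ψ t) * exp (-T (ψ t))) * S (ψ t)) t :=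
      (hRd (ψ t)).comp t (hψd t)
    have h2 : R (ψ t) ≠ 0 := by
      rw [hRe _ (hψmem t ht)]
      exact (hPpos _ (hψmem t ht)).ne'
    refine (h1.sqrt h2).congr_deriv ?_
    have h3 : √(R (ψ t)) = S (ψ t) := hρe t ht
    rw [h3, hTψ t ht]
    have := (hSp (ψ t)).ne'
    field_simp
  have hw0 : w tV = w 0 := M.const tV le_rfl
  have hρV : ρ tV = w 0 := by
    rw [hρe tV ⟨ht0V.le, le_rfl⟩, hψV, hSe V hVV, E.PV, Real.sqrt_sq ha.le]
  set Ph : ℝ → ℝ := fun t => if t ≤ tV then ψ t else prim w t with hPh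
  set W : ℝ → ℝ := fun t => if t ≤ tV then ρ t else w t with hW
  have hPhd : ∀ t, t0 ≤ t → HasDerivAt Ph (W t) t := by
    intro t ht
    rcases lt_trichotomy t tV with h | h | h
    · have h1 : W t = S (ψ t) := by
        simp only [hW, if_pos h.le]
        exact hρe t ⟨ht, h.le⟩
      rw [h1]
      refine (hψd t).congr_of_eventuallyEq ?_
      filter_upwards [eventually_lt_nhds h] with y hy
      simp only [hPh, if_pos hy.le]
    · subst h
      have h1 : W t = w t := by
        simp only [hW, le_refl, if_true, hρV, hw0]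
      rw [h1]
      apply hasDerivAt_ite_of_within
      · have h2 := hψd t
        rw [hψV, hSe V hVV, E.PV, Real.sqrt_sq ha.le, ← hw0] at h2
        exact h2.hasDerivWithinAt
      · exact (M.x_derPrim t).hasDerivWithinAt
      · rw [hψV, M.prim_tV]
    · have h1 : W t = w t := by simp only [hW, if_neg h.not_ge]
      rw [h1]
      refine (M.x_derPrim t).congr_of_eventuallyEq ?_
      filter_upwards [eventually_gt_nhds h] with y hy
      simp only [hPh, if_neg (not_le.2 hy)]
  have hWd : ∀ t, t0 ≤ t → HasDerivAt W (-(l * exp (-t) * f (Ph t))) t := by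
    intro t ht
    rcases lt_trichotomy t tV with h | h | h
    · have h1 : Ph t = ψ t := by simp only [hPh, if_pos h.le]
      rw [h1]
      refine (hρd t ⟨ht, h.le⟩).congr_of_eventuallyEq ?_
      filter_upwards [eventually_lt_nhds h] with y hy
      simp only [hW, if_pos hy.le]
    · subst h
      have h1 : Ph t = V := by simp only [hPh, le_refl, if_true, hψV]
      rw [h1]
      apply hasDerivAt_ite_of_within
      · have h2 := hρd t ⟨ht, le_rfl⟩
        rw [hψV] at h2
        exact h2.hasDerivWithinAt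
      · exact M.x_right hf
      · rw [hρV, hw0]
    · have h1 : Ph t = prim w t := by simp only [hPh, if_neg h.not_ge]
      rw [h1]
      refine (M.der t h).congr_of_eventuallyEq ?_
      filter_upwards [eventually_gt_nhds h] with y hy
      simp only [hW, if_neg (not_le.2 hy)]
  refine ⟨l * exp (-t0), fun s => Ph (s + t0), fun s => W (s + t0), ⟨?_, ?_, ?_, ?_, ?_, ?_, ?_, ?_,
    ?_⟩, ?_⟩
  · exact mul_pos M.l_pos (exp_pos _)
  · simp only [zero_add, hPh, if_pos ht0V.le, hψ0]
  · intro s hs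
    have h1 := hPhd (s + t0) (by simpa using hs)
    exact (h1.comp_add_const s t0).continuousAt.continuousWithinAt
  · intro s hs
    exact (hPhd (s + t0) (by linarith)).comp_add_const s t0
  · intro s hs
    refine ((hWd (s + t0) (by linarith)).comp_add_const s t0).congr_deriv ?_
    rw [neg_add, exp_add]
    ring
  · intro s hs
    simp only [hPh]
    split_ifs with h
    · have h1 : ψ t0 < ψ (s + t0) := hψm (by linarith)
      rwa [hψ0] at h1
    · exact lt_of_lt_of_le hV (M.x_prim_ge (not_le.1 h).le)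
  · intro s hs
    simp only [hPh]
    split_ifs with h
    · have h1 := (hψmem (s + t0) ⟨by linarith, h⟩).2
      have h2 := M.lt_mu tV
      rw [M.prim_tV] at h2
      linarith
    · exact (M.lt_mu _).le
  · have h1 : Tendsto (fun s => prim w (s + t0)) atTop (𝓝 mu) :=
      M.tendsto.comp (tendsto_atTop_add_const_right _ _ tendsto_id)
    refine h1.congr' ?_
    filter_upwards [eventually_gt_atTop (tV - t0)] with s hs
    have : ¬ (s + t0 ≤ tV) := by linarith
    simp only [hPh, if_neg this]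
  · have h1 : Tendsto (fun s => w (s + t0)) atTop (𝓝 0) :=
      M.wlim.comp (tendsto_atTop_add_const_right _ _ tendsto_id)
    refine h1.congr' ?_
    filter_upwards [eventually_gt_atTop (tV - t0)] with s hs
    have : ¬ (s + t0 ≤ tV) := by linarith
    simp only [hW, if_neg this]
  · have e0 : ∫ t in Ioi (0:ℝ), W (t + t0) ^ 2 = ∫ t in Ioi t0, W t ^ 2 :=
      setIntegral_Ioi_comp_add (fun t => W t ^ 2) t0
    have hWc : ContinuousOn W (Ici t0) := fun t ht => (hWd t ht).continuousAt.continuousWithinAt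
    have hi1 : IntervalIntegrable (fun t => W t ^ 2) volume t0 tV := by
      apply ContinuousOn.intervalIntegrable
      rw [uIcc_of_le ht0V.le]
      exact (hWc.mono Icc_subset_Ici_self).pow 2
    have hsub : Ioi tV ⊆ Ioi 0 := Ioi_subset_Ioi M.tV_pos.le
    have hi2 : IntegrableOn (fun t => w t ^ 2) (Ioi tV) := M.adm.int_sq.mono_set hsub
    have hWw : EqOn (fun t => W t ^ 2) (fun t => w t ^ 2) (Ioi tV) := by
      intro t ht
      simp only [hW, if_neg (not_le.2 (mem_Ioi.1 ht))]
    have hi3 : IntegrableOn (fun t => W t ^ 2) (Ioi tV) :=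
      (integrableOn_congr_fun hWw measurableSet_Ioi).2 hi2
    have e1 := intervalIntegral.integral_interval_add_Ioi' hi1 hi3
    have e2 : ∫ t in Ioi tV, W t ^ 2 = ∫ t in Ioi tV, w t ^ 2 :=
      setIntegral_congr_fun measurableSet_Ioi hWw
    have hi4 : IntervalIntegrable (fun t => w t ^ 2) volume 0 tV :=
      (M.cont.pow 2).intervalIntegrable _ _
    have e3 := intervalIntegral.integral_interval_add_Ioi' hi4 hi2
    rw [M.x_int, M.energy] at e3
    have e4 : ∫ t in t0..tV, W t ^ 2 = ∫ t in t0..tV, (S ∘ ψ) t * S (ψ t) := by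
      apply intervalIntegral.integral_congr
      intro t ht
      rw [uIcc_of_le ht0V.le] at ht
      have h1 : W t = S (ψ t) := by
        simp only [hW, if_pos ht.2]
        exact hρe t ht
      beta_reduce
      rw [h1, Function.comp_apply]
      ring
    have hψc : Continuous ψ := continuous_iff_continuousAt.2 fun t => (hψd t).continuousAt
    have e5 : ∫ t in t0..tV, (S ∘ ψ) t * S (ψ t) = ∫ v in ψ t0..ψ tV, S v :=
      intervalIntegral.integral_comp_mul_deriv (fun t _ => hψd t)
        (hSc.comp hψc).continuousOn hSc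
    have e6 : ∫ v in (0:ℝ)..V, S v = ∫ v in (0:ℝ)..V, √(P v) := by
      apply intervalIntegral.integral_congr
      intro v hv
      rw [uIcc_of_le hV.le] at hv
      exact hSe v hv
    have e7 : ∫ v in (0:ℝ)..V, (√(P v) - w 0) = (∫ v in (0:ℝ)..V, √(P v)) - V * w 0 := by
      rw [intervalIntegral.integral_sub ((by fun_prop : Continuous fun v =>
        √(P v)).intervalIntegrable _ _) (by simp), intervalIntegral.integral_const, smul_eq_mul,
        sub_zero]
    rw [hψ0, hψV] at e5
    beta_reduce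
    rw [e0, ← e1, e2, e4, e5, e6, e7]
    linarith

end

theorem Maxi.extend {G f : ℝ → ℝ} {V0 θ V A l mu tV : ℝ} {w : ℝ → ℝ} (h : GData G f)
    (hf : Far G f V0 θ) (hV : V0 ≤ V)
    (M : Maxi G f V A l mu tV w) {F0 : ℝ} (hF0 : ∀ v ∈ Icc 0 V0, |f v| ≤ F0)
    (hx : 32 * F0 * w 0 ≤ 1) (hN : 1 / 8 ≤ NN2 G V w) :
    ∃ l' ph w' D, HalfSol f l' mu ph w' ∧ ∫ t in Ioi (0:ℝ), w' t ^ 2 = A + D ∧
      -(16 * F0 * w 0 ^ 3) ≤ D ∧
      D ≤ (∫ s in V0..V, f s * exp (-(s / w 0))) / (2 * NN2 G V w) + 8 * F0 * w 0 ^ 3 := by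
  have hV0 : 0 ≤ V0 := by linarith [hf.V0_ge]
  have hVp : 0 < V := by linarith [hf.V0_ge]
  have ha : 0 < w 0 := M.pos 0
  have hax : w 0 * (w 0)⁻¹ = 1 := mul_inv_cancel₀ ha.ne'
  have hxp : 0 < (w 0)⁻¹ := inv_pos.2 ha
  have hsq := M.x_sq hVp
  have hl2 : 2 * l ≤ 8 * w 0 ^ 2 := by
    rw [hsq]
    nlinarith [M.l_pos]
  have htV : tV = V * (w 0)⁻¹ := by
    rw [← M.x_tV]
    field_simp
  have hpos : ∀ v ∈ Icc V0 V, 0 ≤ f v := fun v hv => (hf.fpos v hv.1).le
  have hF0' : 0 ≤ F0 := (abs_nonneg _).trans (hF0 0 ⟨le_rfl, hV0⟩)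
  obtain ⟨P, T, E⟩ := exists_extSol h.cont hV0 hV M.l_pos hl2 ha hxp hax htV hpos hF0 hx
  obtain ⟨l', ph, w', hS, hE⟩ := maxi_glue M h.cont hVp E
  have haV : w 0 * V ≤ 1 := by
    have h1 := M.x_V
    have h2 := M.A_lt
    linarith
  refine ⟨l', ph, w', _, hS, hE, E.D_low hV0 hV ha hxp hax hF0' hx, ?_⟩
  have h1 := E.D_up h.cont hV0 hV M.l_pos ha hxp hax hpos hF0 hx haV hN hsq
  simpa only [div_eq_mul_inv] using h1

end MPee
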