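import Pool.Agent.Lib.EEQ.Basic

/-! One dimensional Moser bound for the truncated functional, and the test function. -/

open Real Set MeasureTheory Filter Topology

namespace MPee

/-- two points of the sublevel set `t - φ² ≤ L` above `4L` are at distance at most `8L`. -/
theorem moser_gap {A : ℝ} (hA1 : A < 1) {w : ℝ → ℝ} (hw : Adm A w) {L t0 t : ℝ}
    (ht0 : 0 < t0) (h0 : 4 * L ≤ t0) (h0t : t0 ≤ t) (hs0 : t0 - prim w t0 ^ 2 ≤ L)
    (hs : t - prim w t ^ 2 ≤ L) : t - t0 ≤ 8 * L := by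
  have h1 : prim w t0 ^ 2 ≤ (∫ r in Ioc 0 t0, w r ^ 2) * t0 := by
    have := hw.prim_sub_sq le_rfl ht0.le
    rwa [prim_zero, sub_zero, sub_zero] at this
  have h2 : (prim w t - prim w t0) ^ 2 ≤ (∫ r in Ioc t0 t, w r ^ 2) * (t - t0) :=
    hw.prim_sub_sq ht0.le h0t
  have h3 : (∫ r in Ioc 0 t0, w r ^ 2) + (∫ r in Ioc t0 t, w r ^ 2) ≤ A := by
    have h4 := hw.int_Ioc_le (s := 0) (t := t) le_rfl
    rw [← Ioc_union_Ioc_eq_Ioc ht0.le h0t, setIntegral_union (Ioc_disjoint_Ioc_of_le le_rfl)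
      measurableSet_Ioc ((hw.memLp_Ioc le_rfl).integrable_sq)
      ((hw.memLp_Ioc ht0.le).integrable_sq)] at h4
    exact h4
  have h5 : prim w t0 ^ 2 ≤ t0 := by
    have e1 := hw.prim_sq ht0.le
    nlinarith
  generalize (∫ r in Ioc 0 t0, w r ^ 2) = E0 at *
  generalize (∫ r in Ioc t0 t, w r ^ 2) = E1 at *
  obtain ⟨d, hd⟩ : ∃ d, d = prim w t - prim w t0 := ⟨_, rfl⟩
  have hφ : prim w t = prim w t0 + d := by rw [hd]; ring
  rw [← hd] at h2
  rw [hφ] at hs
  generalize prim w t0 = p at *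
  obtain ⟨τ, hτ⟩ : ∃ τ, τ = t - t0 := ⟨_, rfl⟩
  have ht : t = t0 + τ := by rw [hτ]; ring
  rw [← hτ] at h2 ⊢
  have hτ0 : 0 ≤ τ := by linarith
  have h4 : t0 * d ^ 2 ≤ τ * (t0 - p ^ 2) := by
    have e1 : t0 * d ^ 2 ≤ t0 * (E1 * τ) := mul_le_mul_of_nonneg_left h2 ht0.le
    have e2 : E1 * (t0 * τ) ≤ (1 - E0) * (t0 * τ) :=
      mul_le_mul_of_nonneg_right (by linarith) (by positivity)
    have e3 : p ^ 2 * τ ≤ E0 * t0 * τ := mul_le_mul_of_nonneg_right h1 hτ0
    linarith
  -- `d² ≤ τ/4`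
  have h6 : d ^ 2 ≤ τ / 4 := by
    have e1 : τ * (t0 - p ^ 2) ≤ τ * (t0 / 4) := mul_le_mul_of_nonneg_left (by linarith) hτ0
    have e2 : t0 * d ^ 2 ≤ t0 * (τ / 4) := by linarith
    exact le_of_mul_le_mul_left e2 ht0
  -- AM-GM
  have h7 : 2 * p * d ≤ 3 / 8 * τ + 8 / 3 * (t0 - p ^ 2) := by
    have hx : 0 ≤ 3 / 8 * τ + 8 / 3 * (t0 - p ^ 2) := by
      have : 0 ≤ t0 - p ^ 2 := by linarith
      positivity
    apply le_of_sq_le_sq _ hx
    have e1 : p ^ 2 * d ^ 2 ≤ t0 * d ^ 2 := mul_le_mul_of_nonneg_right h5 (sq_nonneg d)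
    nlinarith [sq_nonneg (3 / 8 * τ - 8 / 3 * (t0 - p ^ 2))]
  nlinarith

theorem moser_meas {A : ℝ} (hA1 : A < 1) {w : ℝ → ℝ} (hw : Adm A w) {s : ℝ} (hs0 : 0 < s)
    (hs1 : s ≤ 1) : (volume.restrict (Ioi (0:ℝ))).real {a | s ≤ exp (-(a - prim w a ^ 2))} ≤
      12 * (-log s) := by
  set L := -log s with hL
  have hL0 : 0 ≤ L := by
    have := log_nonpos hs0.le hs1
    linarith
  have hset : ∀ a, s ≤ exp (-(a - prim w a ^ 2)) → a - prim w a ^ 2 ≤ L := by
    intro a ha
    have := log_le_log hs0 ha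
    rw [log_exp] at this
    linarith
  apply ENNReal.toReal_le_of_le_ofReal (by linarith)
  rw [Measure.restrict_apply' measurableSet_Ioi]
  set S := {a | s ≤ exp (-(a - prim w a ^ 2))} ∩ Ioi (0:ℝ) with hS
  have h1 : S ⊆ Ioc 0 (4 * L) ∪ (S ∩ Ioi (4 * L)) := by
    intro a ha
    rcases le_or_gt a (4 * L) with h | h
    · exact Or.inl ⟨ha.2, h⟩
    · exact Or.inr ⟨ha, h⟩
  have h2 : volume (S ∩ Ioi (4 * L)) ≤ ENNReal.ofReal (8 * L) := by
    refine (Real.volume_le_diam _).trans (Metric.ediam_le ?_)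
    intro a ha b hb
    rw [edist_dist]
    apply ENNReal.ofReal_le_ofReal
    rw [Real.dist_eq]
    rcases le_total a b with hab | hab
    · rw [abs_sub_comm, abs_of_nonneg (by linarith)]
      exact moser_gap hA1 hw ha.1.2 ha.2.le hab (hset a ha.1.1) (hset b hb.1.1)
    · rw [abs_of_nonneg (by linarith)]
      exact moser_gap hA1 hw hb.1.2 hb.2.le hab (hset b hb.1.1) (hset a ha.1.1)
  calc volume S ≤ volume (Ioc 0 (4 * L) ∪ (S ∩ Ioi (4 * L))) := measure_mono h1
    _ ≤ volume (Ioc 0 (4 * L)) + volume (S ∩ Ioi (4 * L)) := measure_union_le _ _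
    _ ≤ ENNReal.ofReal (4 * L) + ENNReal.ofReal (8 * L) := by
        apply add_le_add _ h2
        rw [Real.volume_Ioc, sub_zero]
    _ = ENNReal.ofReal (12 * L) := by
        rw [← ENNReal.ofReal_add (by linarith) (by linarith)]
        congr 1
        ring

theorem moser_bound {G f : ℝ → ℝ} {V0 θ : ℝ} (h : GData G f) (hf : Far G f V0 θ) {V A : ℝ}
    (hV : V0 ≤ V) (hA1 : A < 1) {w : ℝ → ℝ} (hw : Adm A w) : NN2 G V w ≤ 12 := by
  have hcont : ContinuousOn (fun t => exp (-(t - prim w t ^ 2))) (Ioi 0) := by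
    have h1 : ContinuousOn (prim w) (Ioi 0) := hw.prim_cont.mono Ioi_subset_Ici_self
    fun_prop
  have hle : ∀ t, 0 < t → exp (-(t - prim w t ^ 2)) ≤ exp (-((1 - A) * t)) := by
    intro t ht
    apply exp_le_exp.2
    have := hw.prim_sq ht.le
    linarith
  have hint : IntegrableOn (fun t => exp (-(t - prim w t ^ 2))) (Ioi 0) := by
    refine Integrable.mono' (int_exp_neg (by linarith : 0 < 1 - A))
      (hcont.aestronglyMeasurable measurableSet_Ioi) ?_
    filter_upwards [ae_restrict_mem measurableSet_Ioi] with t ht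
    rw [Real.norm_eq_abs, abs_of_pos (exp_pos _)]
    exact hle t ht
  have h1 : NN2 G V w ≤ ∫ t in Ioi (0:ℝ), exp (-(t - prim w t ^ 2)) := by
    unfold NN2
    apply setIntegral_mono_on (int_HH h hf hV hA1 hw) hint measurableSet_Ioi
    intro t _
    have e1 := HH_le h hf hV (prim w t)
    calc exp (-t) * HH G V (prim w t) ≤ exp (-t) * exp (prim w t ^ 2) :=
          mul_le_mul_of_nonneg_left e1 (exp_pos _).le
      _ = _ := by rw [← exp_add]; congr 1; ring
  refine h1.trans ?_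
  rw [Integrable.integral_eq_integral_Ioc_meas_le (M := 1) hint
    (Eventually.of_forall fun t => (exp_pos _).le)]
  · have hlog : IntegrableOn (fun s => 12 * (-log s)) (Ioc 0 1) := by
      have h2 : IntervalIntegrable log volume 0 1 := intervalIntegral.intervalIntegrable_log'
      have h3 := h2.1
      exact (h3.neg).const_mul 12
    calc ∫ s in Ioc (0:ℝ) 1, (volume.restrict (Ioi (0:ℝ))).real {a | s ≤ exp (-(a - prim w a ^ 2))}
        ≤ ∫ s in Ioc (0:ℝ) 1, 12 * (-log s) := by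
          apply integral_mono_of_nonneg
          · exact Eventually.of_forall fun s => measureReal_nonneg
          · exact hlog
          · filter_upwards [ae_restrict_mem measurableSet_Ioc] with s hs
            exact moser_meas hA1 hw hs.1 hs.2
      _ = 12 := by
          rw [← intervalIntegral.integral_of_le zero_le_one, intervalIntegral.integral_const_mul,
            intervalIntegral.integral_neg, integral_log]
          norm_num
  · filter_upwards [ae_restrict_mem measurableSet_Ioi] with t ht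
    have e1 := hle t ht
    refine e1.trans ?_
    rw [exp_le_one_iff]
    have : 0 ≤ (1 - A) * t := mul_nonneg (by linarith) (le_of_lt ht)
    linarith

theorem test_fn {G f : ℝ → ℝ} {V0 θ : ℝ} (h : GData G f) (hf : Far G f V0 θ) {V : ℝ}
    (hV : V0 ≤ V) : ∃ A w, 0 < A ∧ A < 1 ∧ Adm A w ∧ 1 / 4 ≤ NN2 G V w := by
  have hV4 : 4 ≤ V := hf.V0_ge.trans hV
  obtain ⟨b, hb⟩ : ∃ b, b = V + 1 := ⟨_, rfl⟩
  have hb0 : 0 < b := by linarith
  obtain ⟨T, hT⟩ : ∃ T, T = b ^ 2 + 1 / 10 := ⟨_, rfl⟩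
  have hT0 : 0 < T := by rw [hT]; positivity
  set w : ℝ → ℝ := (Ioc 0 T).indicator (fun _ => b / T) with hw
  have hwsq : (fun t => w t ^ 2) = (Ioc 0 T).indicator (fun _ => (b / T) ^ 2) := by
    funext t
    by_cases ht : t ∈ Ioc 0 T
    · simp [hw, ht]
    · simp [hw, ht]
  have hE : ∫ t in Ioi (0:ℝ), w t ^ 2 = b ^ 2 / T := by
    rw [hwsq, setIntegral_indicator measurableSet_Ioc, inter_eq_right.2 Ioc_subset_Ioi_self,
      setIntegral_const]
    simp [hT0.le]
    field_simp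
  have hA1 : b ^ 2 / T < 1 := by rw [div_lt_one hT0, hT]; linarith
  have hadm : Adm (b ^ 2 / T) w := by
    refine ⟨?_, hE.le⟩
    have : MemLp (fun _ : ℝ => b / T) 2 ((volume.restrict (Ioi (0:ℝ))).restrict (Ioc 0 T)) := by
      rw [Measure.restrict_restrict measurableSet_Ioc]
      have : IsFiniteMeasure (volume.restrict (Ioc (0:ℝ) T ∩ Ioi 0)) := by
        rw [inter_eq_left.2 Ioc_subset_Ioi_self]
        infer_instance
      exact memLp_const _
    rw [hw]
    exact (memLp_indicator_iff_restrict measurableSet_Ioc).2 this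
  have hprim : ∀ t, T ≤ t → prim w t = b := by
    intro t ht
    unfold prim
    rw [intervalIntegral.integral_of_le (hT0.le.trans ht), hw,
      setIntegral_indicator measurableSet_Ioc, inter_eq_right.2 (Ioc_subset_Ioc_right ht),
      setIntegral_const]
    simp [hT0.le]
    field_simp
  refine ⟨b ^ 2 / T, w, by positivity, hA1, hadm, ?_⟩
  have h1 : ∫ t in Ioi T, exp (-t) * HH G V b ≤ NN2 G V w := by
    unfold NN2
    have e1 : ∫ t in Ioi T, exp (-t) * HH G V b = ∫ t in Ioi T, exp (-t) * HH G V (prim w t) := by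
      apply setIntegral_congr_fun measurableSet_Ioi
      intro t ht
      simp only
      rw [hprim t (le_of_lt ht)]
    rw [e1]
    apply setIntegral_mono_set (int_HH h hf hV hA1 hadm)
    · exact Eventually.of_forall fun t => exp_HH_nonneg h hf hV w t
    · exact (Ioi_subset_Ioi hT0.le).eventuallyLE
  refine le_trans ?_ h1
  rw [integral_mul_const, integral_exp_neg_Ioi, HH_of_ge (by linarith)]
  have h2 := hf.ge_exp b (by linarith)
  have h3 := hf.le_exp V hV
  have h4 : exp (V ^ 2) ≤ exp (b ^ 2) * (1 / 10) := by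
    have e1 : exp (V ^ 2) = exp (b ^ 2) * exp (-(2 * V + 1)) := by
      rw [← exp_add]; congr 1; rw [hb]; ring
    rw [e1]
    apply mul_le_mul_of_nonneg_left _ (exp_pos _).le
    have e2 : (2 * V + 1) + 1 ≤ exp (2 * V + 1) := Real.add_one_le_exp _
    rw [exp_neg, ← one_div, div_le_div_iff₀ (exp_pos _) (by norm_num)]
    linarith
  have h5 : exp (-T) * exp (b ^ 2) = exp (-(1 / 10)) := by
    rw [← exp_add]; congr 1; rw [hT]; ring
  have h6 : 9 / 10 ≤ exp (-(1 / 10 : ℝ)) := by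
    have := Real.add_one_le_exp (-(1 / 10 : ℝ))
    linarith
  have h7 : exp (-T) * (exp (b ^ 2) * (7 / 20)) ≤ exp (-T) * (G b - G V) :=
    mul_le_mul_of_nonneg_left (by linarith) (exp_pos _).le
  have h8 : exp (-T) * (exp (b ^ 2) * (7 / 20)) = exp (-(1 / 10)) * (7 / 20) := by
    rw [← mul_assoc, h5]
  linarith

end MPee
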