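import Pool.Agent.Lib.EEQ.Basic

/-! Estimates for the maximisers: slope at the origin, ratio of the top to `1/w(0)`, growth
under dilation, lowering of the truncation height. -/

open Real Set MeasureTheory Filter Topology

namespace MPee

section M6
variable {G f : ℝ → ℝ} {V0 θ V A l mu tV : ℝ} {w : ℝ → ℝ}

theorem Maxi.prim_der (M : Maxi G f V A l mu tV w) (t : ℝ) : HasDerivAt (prim w) (w t) t :=
  intervalIntegral.integral_hasDerivAt_right (M.cont.intervalIntegrable 0 t)
    (M.cont.stronglyMeasurableAtFilter _ _) M.cont.continuousAt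

theorem Maxi.prim_cont' (M : Maxi G f V A l mu tV w) : Continuous (prim w) :=
  continuous_iff_continuousAt.2 fun t => (M.prim_der t).continuousAt

theorem Maxi.prim_strictMono (M : Maxi G f V A l mu tV w) : StrictMono (prim w) :=
  strictMono_of_deriv_pos fun t => by rw [(M.prim_der t).deriv]; exact M.pos t

theorem Maxi.tV_mul (M : Maxi G f V A l mu tV w) : tV * w 0 = V := by
  have h1 : prim w tV = tV * w 0 := by
    unfold prim
    have e : ∫ s in (0:ℝ)..tV, w s = ∫ _s in (0:ℝ)..tV, w 0 := by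
      apply intervalIntegral.integral_congr
      intro s hs
      rw [uIcc_of_le M.tV_pos.le] at hs
      exact M.const s hs.2
    rw [e]
    simp
  rw [← h1, M.prim_tV]

theorem Maxi.V_pos (M : Maxi G f V A l mu tV w) : 0 < V := by
  rw [← M.tV_mul]
  exact mul_pos M.tV_pos (M.pos 0)

theorem Maxi.a0_sq (M : Maxi G f V A l mu tV w) : w 0 ^ 2 = 2 * l * NN2 G V w := by
  have h1 := M.ident 0 le_rfl
  rw [prim_zero, HH_of_le M.V_pos.le, mul_zero, mul_zero, add_zero] at h1
  exact h1

theorem Maxi.V_mul (M : Maxi G f V A l mu tV w) : V * w 0 ≤ A := by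
  have h1 := M.adm.int_Ioc_le (s := 0) (t := tV) le_rfl
  have h2 : ∫ r in Ioc 0 tV, w r ^ 2 = tV * w 0 ^ 2 := by
    have e : ∫ r in Ioc 0 tV, w r ^ 2 = ∫ _r in Ioc 0 tV, w 0 ^ 2 := by
      apply setIntegral_congr_fun measurableSet_Ioc
      intro s hs
      simp only
      rw [M.const s hs.2]
    rw [e]
    simp [M.tV_pos.le]
  rw [h2] at h1
  rw [← M.tV_mul]
  linarith

theorem Maxi.mu_mul (M : Maxi G f V A l mu tV w) : A ≤ mu * w 0 := by
  have h1 : Tendsto (fun T => ∫ t in (0:ℝ)..T, w t ^ 2) atTop (𝓝 (∫ t in Ioi (0:ℝ), w t ^ 2)) :=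
    intervalIntegral_tendsto_integral_Ioi 0 M.adm.int_sq tendsto_id
  rw [M.energy] at h1
  refine le_of_tendsto h1 ?_
  filter_upwards [eventually_ge_atTop 0] with T hT
  have hc := M.cont
  calc ∫ t in (0:ℝ)..T, w t ^ 2 ≤ ∫ t in (0:ℝ)..T, w 0 * w t := by
        apply intervalIntegral.integral_mono_on hT
        · exact (hc.pow 2).intervalIntegrable _ _
        · exact (hc.const_smul (w 0)).intervalIntegrable _ _
        · intro t ht
          have := M.anti ht.1
          nlinarith [M.pos t]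
    _ = w 0 * prim w T := intervalIntegral.integral_const_mul _ _
    _ ≤ mu * w 0 := by nlinarith [M.lt_mu T, M.pos 0]

theorem Maxi.exists_time (M : Maxi G f V A l mu tV w) {b : ℝ} (hb : 0 ≤ b) (hb1 : b < mu) :
    ∃ t, 0 ≤ t ∧ prim w t = b := by
  obtain ⟨T, hT⟩ := ((M.tendsto.eventually (lt_mem_nhds hb1)).and (eventually_ge_atTop 0)).exists
  have h1 := intermediate_value_Icc hT.2 M.prim_cont'.continuousOn
    (show b ∈ Icc (prim w 0) (prim w T) from ⟨by rw [prim_zero]; exact hb, hT.1.le⟩)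
  obtain ⟨t, ht, h⟩ := h1
  exact ⟨t, ht.1, h⟩

/-- `w(t) φ(t) ≤ A` -/
theorem Maxi.w_mul_prim (M : Maxi G f V A l mu tV w) {t : ℝ} (ht : 0 ≤ t) :
    w t * prim w t ≤ A := by
  have hc := M.cont
  have h1 : w t * prim w t ≤ ∫ s in (0:ℝ)..t, w s ^ 2 := by
    have e : w t * prim w t = ∫ s in (0:ℝ)..t, w t * w s :=
      (intervalIntegral.integral_const_mul _ _).symm
    rw [e]
    apply intervalIntegral.integral_mono_on ht
    · exact (hc.const_smul (w t)).intervalIntegrable _ _
    · exact (hc.pow 2).intervalIntegrable _ _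
    · intro s hs
      have := M.anti hs.2
      nlinarith [M.pos s]
  rw [intervalIntegral.integral_of_le ht] at h1
  exact h1.trans (M.adm.int_Ioc_le le_rfl)

theorem int_exp_neg' (t c : ℝ) : IntegrableOn (fun s : ℝ => exp (-s) * c) (Ioi t) :=
  (integrableOn_exp_neg_Ioi t).mul_const c

theorem Maxi.sq_eq (M : Maxi G f V A l mu tV w) {t : ℝ} (ht : 0 ≤ t) :
    w t ^ 2 = 2 * l * ∫ s in Ioi t, (exp (-s) * HH G V (prim w s) - exp (-s) * HH G V (prim w t)) := by
  have h1 := M.ident t ht
  have hI : IntegrableOn (fun s => exp (-s) * HH G V (prim w s)) (Ioi t) :=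
    M.intH.mono_set (Ioi_subset_Ioi ht)
  have hJ : IntegrableOn (fun s => exp (-s) * HH G V (prim w t)) (Ioi t) := int_exp_neg' _ _
  have e := integral_sub hI hJ
  rw [e, integral_mul_const, integral_exp_neg_Ioi]
  linarith

theorem Maxi.sq_le (h : GData G f) (hf : Far G f V0 θ) (hV : V0 ≤ V)
    (M : Maxi G f V A l mu tV w) {t2 t : ℝ} (ht2 : 0 ≤ t2) (hv2 : V ≤ prim w t2) (ht : t2 ≤ t) :
    w t ^ 2 ≤ 2 * l * (G mu - G (prim w t2)) * exp (-t) := by
  rw [M.sq_eq (ht2.trans ht)]
  have hm := M.prim_strictMono.monotone ht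
  have h1 : ∫ s in Ioi t, (exp (-s) * HH G V (prim w s) - exp (-s) * HH G V (prim w t)) ≤
      ∫ s in Ioi t, exp (-s) * (G mu - G (prim w t2)) := by
    apply setIntegral_mono_on
    · exact (M.intH.mono_set (Ioi_subset_Ioi (ht2.trans ht))).sub (int_exp_neg' _ _)
    · exact int_exp_neg' _ _
    · exact measurableSet_Ioi
    · intro s hs
      have e1 : HH G V (prim w s) ≤ G mu - G V := by
        have := HH_mono h hf hV (M.lt_mu s).le
        rwa [HH_of_ge (hv2.trans (M.lt_mu t2).le)] at this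
      have e2 : G (prim w t2) - G V ≤ HH G V (prim w t) := by
        have := HH_mono h hf hV hm
        rwa [HH_of_ge hv2] at this
      rw [← mul_sub]
      exact mul_le_mul_of_nonneg_left (by linarith) (exp_pos _).le
  rw [integral_mul_const, integral_exp_neg_Ioi] at h1
  have h2 := mul_le_mul_of_nonneg_left h1 (by have := M.l_pos; positivity : 0 ≤ 2 * l)
  linarith

theorem Maxi.gap_le (h : GData G f) (hf : Far G f V0 θ) (hV : V0 ≤ V)
    (M : Maxi G f V A l mu tV w) {t2 : ℝ} (ht2 : 0 ≤ t2) (hv2 : V ≤ prim w t2) :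
    (mu - prim w t2) ^ 2 ≤ 8 * l * (G mu - G (prim w t2)) * exp (-t2) := by
  obtain ⟨D, hD⟩ : ∃ D, D = 2 * l * (G mu - G (prim w t2)) := ⟨_, rfl⟩
  have hle : ∀ t, t2 ≤ t → w t ^ 2 ≤ D * exp (-t) := by
    intro t ht
    rw [hD]
    exact M.sq_le h hf hV ht2 hv2 ht
  have hD0 : 0 ≤ D := by
    have h1 := (sq_nonneg (w t2)).trans (hle t2 le_rfl)
    exact nonneg_of_mul_nonneg_left h1 (exp_pos _)
  have hexp : ∀ t : ℝ, exp (-(t / 2)) ^ 2 = exp (-t) := by
    intro t
    rw [← exp_nat_mul]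
    congr 1
    push_cast
    ring
  have hw : ∀ t, t2 ≤ t → w t ≤ √D * exp (-(t / 2)) := by
    intro t ht
    apply le_of_sq_le_sq _ (by positivity)
    rw [mul_pow, sq_sqrt hD0, hexp]
    exact hle t ht
  have hder : ∀ t, HasDerivAt (fun t => prim w t + 2 * √D * exp (-(t / 2)))
      (w t + 2 * √D * (exp (-(t / 2)) * (-(1 / 2)))) t := by
    intro t
    have h1 : HasDerivAt (fun t : ℝ => exp (-(t / 2))) (exp (-(t / 2)) * (-(1 / 2))) t :=
      ((hasDerivAt_id t).div_const 2).neg.exp
    exact (M.prim_der t).add (h1.const_mul _)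
  have hanti : AntitoneOn (fun t => prim w t + 2 * √D * exp (-(t / 2))) (Ici t2) := by
    apply antitoneOn_of_deriv_nonpos (convex_Ici t2)
    · exact (continuous_iff_continuousAt.2 fun t => (hder t).continuousAt).continuousOn
    · exact fun t _ => (hder t).differentiableAt.differentiableWithinAt
    · intro t ht
      rw [interior_Ici] at ht
      rw [(hder t).deriv]
      have := hw t (le_of_lt ht)
      linarith
  have h2 : mu ≤ prim w t2 + 2 * √D * exp (-(t2 / 2)) := by
    refine le_of_tendsto M.tendsto ?_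
    filter_upwards [eventually_ge_atTop t2] with t ht
    have h3 := hanti (self_mem_Ici) ht ht
    have h4 : 0 ≤ 2 * √D * exp (-(t / 2)) := by positivity
    simp only at h3
    linarith
  have h3 : 0 ≤ mu - prim w t2 := by have := M.lt_mu t2; linarith
  have h4 : (2 * √D * exp (-(t2 / 2))) ^ 2 = 4 * D * exp (-t2) := by
    rw [mul_pow, mul_pow, sq_sqrt hD0, hexp]
    ring
  have h5 : (mu - prim w t2) ^ 2 ≤ (2 * √D * exp (-(t2 / 2))) ^ 2 :=
    pow_le_pow_left₀ h3 (by linarith) 2
  rw [h4, hD] at h5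
  linarith

theorem Maxi.sq_ge (h : GData G f) (hf : Far G f V0 θ) (hV : V0 ≤ V)
    (M : Maxi G f V A l mu tV w) {t1 t2 : ℝ} (ht1 : 0 ≤ t1) (ht12 : t1 ≤ t2)
    (hv1 : V ≤ prim w t1) :
    2 * l * (G (prim w t2) - G (prim w t1)) * exp (-t2) ≤ w t1 ^ 2 := by
  rw [M.sq_eq ht1]
  have hmono := M.prim_strictMono.monotone
  have hi1 : IntegrableOn (fun s => exp (-s) * HH G V (prim w s) -
      exp (-s) * HH G V (prim w t1)) (Ioi t1) :=
    (M.intH.mono_set (Ioi_subset_Ioi ht1)).sub (int_exp_neg' _ _)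
  have h1 : ∫ s in Ioi t2, exp (-s) * (G (prim w t2) - G (prim w t1)) ≤
      ∫ s in Ioi t2, (exp (-s) * HH G V (prim w s) - exp (-s) * HH G V (prim w t1)) := by
    apply setIntegral_mono_on (int_exp_neg' _ _) (hi1.mono_set (Ioi_subset_Ioi ht12))
      measurableSet_Ioi
    intro s hs
    rw [← mul_sub]
    apply mul_le_mul_of_nonneg_left _ (exp_pos _).le
    rw [HH_of_ge hv1]
    have h2 := HH_mono h hf hV (hmono (le_of_lt hs))
    rw [HH_of_ge (hv1.trans (hmono ht12))] at h2
    linarith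
  have h2 : ∫ s in Ioi t2, (exp (-s) * HH G V (prim w s) - exp (-s) * HH G V (prim w t1)) ≤
      ∫ s in Ioi t1, (exp (-s) * HH G V (prim w s) - exp (-s) * HH G V (prim w t1)) := by
    apply setIntegral_mono_set hi1
    · filter_upwards [ae_restrict_mem measurableSet_Ioi] with s hs
      have h3 := HH_mono h hf hV (hmono (le_of_lt hs))
      have h4 := mul_le_mul_of_nonneg_left h3 (exp_pos (-s)).le
      simpa using h4
    · exact (Ioi_subset_Ioi ht12).eventuallyLE
  rw [integral_mul_const, integral_exp_neg_Ioi] at h1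
  have h3 := mul_le_mul_of_nonneg_left (h1.trans h2) (by have := M.l_pos; positivity : 0 ≤ 2 * l)
  linarith

theorem Maxi.L_bound (h : GData G f) (hf : Far G f V0 θ) (hV : V0 ≤ V)
    (M : Maxi G f V A l mu tV w) (hV2 : 20 ≤ V) {t1 : ℝ} (ht1 : 0 ≤ t1)
    (hp1 : prim w t1 = mu - 1 / mu) (hv1 : V ≤ mu - 1 / mu) : 1 / (9 * mu) ≤ w t1 := by
  have hmu : 20 < mu := by
    have := M.lt_mu tV
    rw [M.prim_tV] at this
    linarith
  have hmu0 : 0 < mu := by linarith
  have hi : 0 < 1 / mu := by positivity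
  have hi2 : 1 / mu ≤ 1 / 20 := one_div_le_one_div_of_le (by norm_num) hmu.le
  have hmi : mu * (1 / mu) = 1 := by field_simp
  obtain ⟨i, hidef⟩ : ∃ i, i = 1 / mu := ⟨_, rfl⟩
  rw [← hidef] at hi hi2 hmi hp1 hv1
  obtain ⟨t2, ht2, hp2⟩ := M.exists_time (b := mu - i / 2) (by linarith) (by linarith)
  have ht12 : t1 ≤ t2 := by
    by_contra hc
    rw [not_le] at hc
    have := M.prim_strictMono hc
    rw [hp1, hp2] at this
    linarith
  have hA := M.gap_le h hf hV ht2 (by rw [hp2]; linarith)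
  have hB := M.sq_ge h hf hV ht1 ht12 (by rw [hp1]; exact hv1)
  rw [hp2] at hA hB
  rw [hp1] at hB
  have hθ := hf.θ_le
  have hθ0 := hf.θ_pos
  -- `G mu ≤ 3.03 G v2`
  have h1 : G mu ≤ 303 / 100 * G (mu - i / 2) := by
    have e1 := hf.ratio_le (mu - i / 2) mu (by linarith) (by linarith)
    have e2 : exp (mu ^ 2 - (mu - i / 2) ^ 2 + θ) ≤ 303 / 100 := by
      have e3 : mu ^ 2 - (mu - i / 2) ^ 2 + θ ≤ 1 + 1 / 10 := by nlinarith [sq_nonneg i]
      refine (exp_le_exp.2 e3).trans ?_
      rw [exp_add]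
      have e4 := Real.exp_one_lt_d9
      have e5 : exp (1 / 10 : ℝ) ≤ 10 / 9 := by
        have e6 := Real.add_one_le_exp (-(1 / 10 : ℝ))
        have e7 : exp (1 / 10 : ℝ) * exp (-(1 / 10 : ℝ)) = 1 := by rw [← exp_add]; simp
        nlinarith [exp_pos (1 / 10 : ℝ)]
      nlinarith [exp_pos (1 / 10 : ℝ), exp_pos (1 : ℝ)]
    exact e1.trans (mul_le_mul_of_nonneg_right e2 (h.pos _).le)
  -- `2.2 G v1 ≤ G v2`
  have h2 : 22 / 10 * G (mu - i) ≤ G (mu - i / 2) := by
    have e1 := hf.ratio_ge (mu - i) (mu - i / 2) (by linarith) (by linarith)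
    have e2 : 22 / 10 ≤ exp ((mu - i / 2) ^ 2 - (mu - i) ^ 2 - θ) := by
      have e3 : 89 / 100 ≤ (mu - i / 2) ^ 2 - (mu - i) ^ 2 - θ := by nlinarith
      refine le_trans ?_ (exp_le_exp.2 e3)
      have e4 := Real.quadratic_le_exp_of_nonneg (show (0:ℝ) ≤ 89 / 100 by norm_num)
      linarith
    exact (mul_le_mul_of_nonneg_right e2 (h.pos _).le).trans e1
  have h3 : G mu - G (mu - i / 2) ≤ 5 * (G (mu - i / 2) - G (mu - i)) := by
    have := h.pos (mu - i)
    linarith
  have h4 : 2 * l * (G mu - G (mu - i / 2)) * exp (-t2) ≤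
      5 * (2 * l * (G (mu - i / 2) - G (mu - i)) * exp (-t2)) := by
    have e1 : 0 ≤ 2 * l * exp (-t2) := by have := M.l_pos; positivity
    have e2 := mul_le_mul_of_nonneg_left h3 e1
    linarith
  have h5 : i ^ 2 / 80 ≤ w t1 ^ 2 := by
    have e1 : (mu - (mu - i / 2)) ^ 2 = i ^ 2 / 4 := by ring
    rw [e1] at hA
    linarith
  have h6 : 1 / (9 * mu) = i / 9 := by rw [hidef]; field_simp
  rw [h6]
  apply le_of_sq_le_sq _ (M.pos t1).le
  nlinarith [sq_nonneg i]

theorem HH_scale (h : GData G f) {δ K v : ℝ} (hV0 : 0 ≤ V) (hδ : 0 ≤ δ) (hK : 1 ≤ K)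
    (hv : V ≤ v) (hG : K * G v ≤ G ((1 + δ) * v)) :
    K * HH G V v ≤ HH G V ((1 + δ) * v) := by
  have h1 : V ≤ (1 + δ) * v := by nlinarith
  rw [HH_of_ge hv, HH_of_ge h1]
  have := h.pos V
  nlinarith

theorem Maxi.ratio (h : GData G f) (hf : Far G f V0 θ) (hV : V0 ≤ V)
    (M : Maxi G f V A l mu tV w) (hV2 : 20 ≤ V) (hN : 1 / 8 ≤ NN2 G V w) : mu * w 0 ≤ 4 := by
  by_contra hc
  rw [not_le] at hc
  have hw0 := M.pos 0
  have hl := M.l_pos
  have hA1 := M.A_lt
  obtain ⟨x, hx⟩ : ∃ x, x = 1 / w 0 := ⟨_, rfl⟩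
  have hxw : x * w 0 = 1 := by rw [hx]; field_simp
  have hx0 : 0 < x := by rw [hx]; positivity
  have hxV : V ≤ x := by
    have h1 := M.V_mul
    by_contra hcc
    rw [not_le] at hcc
    nlinarith
  have hmux : 4 * x < mu := by
    by_contra hcc
    rw [not_lt] at hcc
    nlinarith
  have hmu0 : 0 < mu := by linarith
  have hi : 1 / mu ≤ 1 / 80 := one_div_le_one_div_of_le (by norm_num) (by linarith)
  have hi0 : 0 < 1 / mu := by positivity
  have hmi : mu * (1 / mu) = 1 := by field_simp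
  obtain ⟨tb, htb, hpb⟩ := M.exists_time (b := 2 * x) (by linarith) (by linarith)
  obtain ⟨t1, ht1, hp1⟩ := M.exists_time (b := mu - 1 / mu) (by linarith) (by linarith)
  have htb1 : tb ≤ t1 := by
    by_contra hcc
    rw [not_le] at hcc
    have := M.prim_strictMono hcc
    rw [hpb, hp1] at this
    linarith
  have hwt1 := M.L_bound h hf hV hV2 ht1 hp1 (by linarith)
  have hc' := M.cont
  -- energy after `tb`
  have hE1 : 1 / 20 ≤ ∫ s in Ioc tb t1, w s ^ 2 := by
    have e1 : w t1 * (prim w t1 - prim w tb) ≤ ∫ s in tb..t1, w s ^ 2 := by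
      rw [M.adm.prim_sub htb ht1, ← intervalIntegral.integral_const_mul]
      apply intervalIntegral.integral_mono_on htb1
      · exact (hc'.const_smul (w t1)).intervalIntegrable _ _
      · exact (hc'.pow 2).intervalIntegrable _ _
      · intro s hs
        have := M.anti hs.2
        nlinarith [M.pos s]
    rw [hpb, hp1, intervalIntegral.integral_of_le htb1] at e1
    have e2 : 1 / (9 * mu) * (mu - 1 / mu - 2 * x) ≤ w t1 * (mu - 1 / mu - 2 * x) :=
      mul_le_mul_of_nonneg_right hwt1 (by linarith)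
    have e3 : 1 / (9 * mu) * (mu / 2 - 1 / 80) ≤ 1 / (9 * mu) * (mu - 1 / mu - 2 * x) :=
      mul_le_mul_of_nonneg_left (by linarith) (by positivity)
    have e4 : 1 / 20 ≤ 1 / (9 * mu) * (mu / 2 - 1 / 80) := by
      rw [one_div_mul_eq_div, le_div_iff₀ (by positivity)]
      linarith
    linarith
  have hE2 : (∫ s in Ioc 0 tb, w s ^ 2) + (∫ s in Ioc tb t1, w s ^ 2) ≤ A := by
    have h4 := M.adm.int_Ioc_le (s := 0) (t := t1) le_rfl
    rw [← Ioc_union_Ioc_eq_Ioc htb htb1, setIntegral_union (Ioc_disjoint_Ioc_of_le le_rfl)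
      measurableSet_Ioc ((M.adm.memLp_Ioc le_rfl).integrable_sq)
      ((M.adm.memLp_Ioc htb).integrable_sq)] at h4
    exact h4
  -- slope at `tb`
  have hwb : w tb ^ 2 ≤ w 0 ^ 2 / 4 := by
    have e1 := M.w_mul_prim htb
    rw [hpb] at e1
    have e2 : w tb ≤ w 0 / 2 := by
      have e3 : 2 * x * w tb ≤ 2 * x * (w 0 / 2) := by nlinarith
      exact le_of_mul_le_mul_left e3 (by linarith)
    have e3 := pow_le_pow_left₀ (M.pos tb).le e2 2
    nlinarith
  -- the competitor
  set w' : ℝ → ℝ := (Ioc 0 tb).indicator (fun s => (51 / 50) * w s) with hw'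
  have hsq : (fun t => w' t ^ 2) = (Ioc 0 tb).indicator (fun s => (51 / 50) ^ 2 * w s ^ 2) := by
    funext t
    by_cases ht : t ∈ Ioc 0 tb
    · simp [hw', ht, mul_pow]
    · simp [hw', ht]
  have hadm : Adm A w' := by
    constructor
    · exact MemLp.indicator measurableSet_Ioc (M.adm.mem.const_mul _)
    · rw [hsq, setIntegral_indicator measurableSet_Ioc, inter_eq_right.2 Ioc_subset_Ioi_self,
        integral_const_mul]
      linarith
  have hmax := M.max w' hadm
  have hprim : ∀ t, 0 ≤ t → prim w' t = (51 / 50) * prim w (min t tb) := by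
    intro t ht
    unfold prim
    rw [intervalIntegral.integral_of_le ht, intervalIntegral.integral_of_le (le_min ht htb), hw',
      setIntegral_indicator measurableSet_Ioc, Ioc_inter_Ioc, max_self, integral_const_mul]
  -- the pointwise bound
  have hscale : ∀ v, 4 * HH G V v ≤ HH G V ((1 + 1 / 50) * v) := by
    intro v
    rcases le_total v V with h1 | h1
    · rw [HH_of_le h1, mul_zero]
      exact HH_nonneg h hf hV _
    · apply HH_scale h (by linarith) (by norm_num) (by norm_num) h1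
      have e1 := hf.ratio_ge v ((1 + 1 / 50) * v) (hV.trans h1) (by linarith)
      refine le_trans (mul_le_mul_of_nonneg_right ?_ (h.pos v).le) e1
      have e2 : (16:ℝ) ≤ ((1 + 1 / 50) * v) ^ 2 - v ^ 2 - θ := by
        have := hf.θ_le
        nlinarith
      have e3 := Real.add_one_le_exp (16:ℝ)
      have e4 := exp_le_exp.2 e2
      linarith
  set D : ℝ → ℝ := (Ioi tb).indicator
    (fun s => exp (-s) * HH G V (prim w s) - exp (-s) * HH G V (prim w tb)) with hD
  have hDi : IntegrableOn D (Ioi 0) :=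
    ((M.intH).sub (int_exp_neg' 0 _)).indicator measurableSet_Ioi
  have hDint : 2 * l * ∫ t in Ioi (0:ℝ), D t = w tb ^ 2 := by
    rw [hD, setIntegral_indicator measurableSet_Ioi, Ioi_inter_Ioi, max_eq_right htb]
    exact (M.sq_eq htb).symm
  have hpt : ∀ t ∈ Ioi (0:ℝ), 4 * (exp (-t) * HH G V (prim w t) - D t) ≤
      exp (-t) * HH G V (prim w' t) := by
    intro t ht
    have ht0 : 0 ≤ t := le_of_lt ht
    rw [hprim t ht0]
    have e0 : (51 / 50 : ℝ) = 1 + 1 / 50 := by norm_num
    rw [e0]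
    rcases le_or_gt t tb with h1 | h1
    · have hD0 : D t = 0 := by rw [hD]; exact indicator_of_notMem (by simpa using h1) _
      rw [hD0, min_eq_left h1]
      have := mul_le_mul_of_nonneg_left (hscale (prim w t)) (exp_pos (-t)).le
      linarith
    · have hD1 : D t = exp (-t) * HH G V (prim w t) - exp (-t) * HH G V (prim w tb) := by
        rw [hD]; exact indicator_of_mem (by simpa using h1) _
      rw [hD1, min_eq_right h1.le]
      have := mul_le_mul_of_nonneg_left (hscale (prim w tb)) (exp_pos (-t)).le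
      linarith
  have hfin : 4 * (NN2 G V w - ∫ t in Ioi (0:ℝ), D t) ≤ NN2 G V w' := by
    unfold NN2
    rw [← integral_sub M.intH hDi, ← integral_const_mul]
    exact setIntegral_mono_on ((M.intH.sub hDi).const_mul 4) (int_HH h hf hV hA1 hadm)
      measurableSet_Ioi hpt
  have ha0 := M.a0_sq
  have h9 : 2 * l * (∫ t in Ioi (0:ℝ), D t) ≤ 2 * l * (NN2 G V w / 4) := by
    rw [hDint]
    linarith
  have h10 := le_of_mul_le_mul_left h9 (by positivity)
  linarith

theorem Maxi.growth (h : GData G f) (hf : Far G f V0 θ) (hV : V0 ≤ V)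
    (M : Maxi G f V A l mu tV w) {δ K : ℝ} (hδ : 0 ≤ δ) (hδ1 : (1 + δ) ^ 2 * A < 1) (hK : 1 ≤ K)
    (hG : ∀ v, V ≤ v → 1 / (2 * w 0) ≤ v → K * G v ≤ G ((1 + δ) * v)) :
    K * (NN2 G V w - 2 * exp (-(V ^ 2 / 2))) ≤ NN2 G V (fun t => (1 + δ) * w t) := by
  have hw0 := M.pos 0
  have hV0 := M.V_pos
  have hA1 := M.A_lt
  have hVw := M.V_mul
  have htV := M.tV_pos
  have hadm : Adm ((1 + δ) ^ 2 * A) (fun t => (1 + δ) * w t) := by
    constructor
    · exact M.adm.mem.const_mul _
    · simp only [mul_pow]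
      rw [integral_const_mul]
      exact mul_le_mul_of_nonneg_left M.adm.le (by positivity)
  have hprim : ∀ t, prim (fun t => (1 + δ) * w t) t = (1 + δ) * prim w t := by
    intro t
    unfold prim
    exact intervalIntegral.integral_const_mul _ _
  set E : ℝ → ℝ := (Ioi tV).indicator (fun s => exp (-(1 / 2 * s))) with hE
  have hEi : IntegrableOn E (Ioi 0) := (int_exp_neg (by norm_num : (0:ℝ) < 1 / 2)).indicator
    measurableSet_Ioi
  have hE0 : ∀ t, 0 ≤ E t := by
    intro t
    rw [hE]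
    exact indicator_nonneg (fun _ _ => (exp_pos _).le) t
  have hEint : ∫ t in Ioi (0:ℝ), E t ≤ 2 * exp (-(V ^ 2 / 2)) := by
    rw [hE, setIntegral_indicator measurableSet_Ioi, Ioi_inter_Ioi, max_eq_right htV.le]
    have e1 := integral_exp_mul_Ioi (a := -(1 / 2 : ℝ)) (by norm_num) tV
    have e2 : ∫ x in Ioi tV, exp (-(1 / 2 * x)) = ∫ x in Ioi tV, exp (-(1 / 2 : ℝ) * x) := by
      congr 1; funext x; congr 1; ring
    rw [e2, e1]
    have e3 : exp (-(1 / 2 : ℝ) * tV) ≤ exp (-(V ^ 2 / 2)) := by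
      apply exp_le_exp.2
      have e4 : V ^ 2 ≤ tV := by
        have e5 := M.tV_mul
        have e6 : V * w 0 ≤ 1 := by linarith
        have e7 : V ^ 2 = tV * (V * w 0) := by rw [← e5]; ring
        rw [e7]
        nlinarith
      linarith
    have e4 : -exp (-(1 / 2 : ℝ) * tV) / -(1 / 2) = 2 * exp (-(1 / 2 : ℝ) * tV) := by ring
    rw [e4]
    linarith
  have hprim_le : ∀ t, 0 ≤ t → prim w t ≤ w 0 * t := by
    intro t ht
    have e1 : prim w t ≤ ∫ _s in (0:ℝ)..t, w 0 := by
      unfold prim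
      apply intervalIntegral.integral_mono_on ht (M.cont.intervalIntegrable _ _)
        (intervalIntegrable_const)
      intro s hs
      exact M.anti hs.1
    simp at e1
    linarith
  have hpt : ∀ t ∈ Ioi (0:ℝ), K * (exp (-t) * HH G V (prim w t) - E t) ≤
      exp (-t) * HH G V (prim (fun t => (1 + δ) * w t) t) := by
    intro t ht
    have ht0 : 0 < t := ht
    have hr : 0 ≤ exp (-t) * HH G V (prim (fun t => (1 + δ) * w t) t) :=
      exp_HH_nonneg h hf hV _ t
    rcases le_or_gt (prim w t) V with h1 | h1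
    · rw [HH_of_le h1]
      refine le_trans ?_ hr
      have := hE0 t
      nlinarith
    rcases le_or_gt (1 / (2 * w 0)) (prim w t) with h2 | h2
    · have h3 := HH_scale h hV0.le hδ hK h1.le (hG _ h1.le h2)
      rw [hprim]
      have h4 := mul_le_mul_of_nonneg_left h3 (exp_pos (-t)).le
      have h5 := hE0 t
      nlinarith
    · refine le_trans ?_ hr
      have htV1 : tV < t := by
        by_contra hc
        rw [not_lt] at hc
        have := M.prim_strictMono.monotone hc
        rw [M.prim_tV] at this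
        linarith
      have hEt : E t = exp (-(1 / 2 * t)) := by
        rw [hE]; exact indicator_of_mem (by simpa using htV1) _
      have h3 : exp (-t) * HH G V (prim w t) ≤ exp (-(1 / 2 * t)) := by
        have e1 := mul_le_mul_of_nonneg_left (HH_le h hf hV (prim w t)) (exp_pos (-t)).le
        refine e1.trans ?_
        rw [← exp_add]
        apply exp_le_exp.2
        have e2 := hprim_le t ht0.le
        have e3 : prim w t ^ 2 ≤ t / 2 := by
          have e4 : 0 ≤ prim w t := by linarith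
          have e5 : prim w t ^ 2 ≤ 1 / (2 * w 0) * (w 0 * t) := by
            rw [sq]
            exact mul_le_mul h2.le e2 e4 (by positivity)
          have e6 : 1 / (2 * w 0) * (w 0 * t) = t / 2 := by field_simp
          linarith
        linarith
      rw [hEt]
      nlinarith
  have hfin : K * (NN2 G V w - ∫ t in Ioi (0:ℝ), E t) ≤
      NN2 G V (fun t => (1 + δ) * w t) := by
    unfold NN2
    rw [← integral_sub M.intH hEi, ← integral_const_mul]
    exact setIntegral_mono_on ((M.intH.sub hEi).const_mul K) (int_HH h hf hV hδ1 hadm)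
      measurableSet_Ioi hpt
  have : K * (NN2 G V w - 2 * exp (-(V ^ 2 / 2))) ≤ K * (NN2 G V w - ∫ t in Ioi (0:ℝ), E t) :=
    mul_le_mul_of_nonneg_left (by linarith) (by linarith)
  linarith

theorem Maxi.lower (h : GData G f) (hf : Far G f V0 θ) (M : Maxi G f V A l mu tV w) {V' : ℝ}
    (hV' : V0 ≤ V') (hVV : V' ≤ V) :
    NN2 G V w + (G V - G V') * exp (-tV) ≤ NN2 G V' w := by
  have hi2 : IntegrableOn ((Ioi tV).indicator (fun t => exp (-t) * (G V - G V'))) (Ioi 0) :=
    (int_exp_neg' 0 _).indicator measurableSet_Ioi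
  have e1 : (G V - G V') * exp (-tV) =
      ∫ t in Ioi (0:ℝ), (Ioi tV).indicator (fun t => exp (-t) * (G V - G V')) t := by
    rw [setIntegral_indicator measurableSet_Ioi, Ioi_inter_Ioi, max_eq_right M.tV_pos.le,
      integral_mul_const, integral_exp_neg_Ioi]
    ring
  rw [e1]
  unfold NN2
  rw [← integral_add M.intH hi2]
  apply setIntegral_mono_on (M.intH.add hi2) (int_HH h hf hV' M.A_lt M.adm) measurableSet_Ioi
  intro t _
  show exp (-t) * HH G V (prim w t) + (Ioi tV).indicator (fun t => exp (-t) * (G V - G V')) t ≤ _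
  rcases le_or_gt t tV with h1 | h1
  · have h2 : prim w t ≤ V := by
      rw [← M.prim_tV]; exact M.prim_strictMono.monotone h1
    rw [indicator_of_notMem (by simpa using h1), HH_of_le h2, mul_zero, add_zero]
    exact exp_HH_nonneg h hf hV' w t
  · have h2 : V ≤ prim w t := by
      rw [← M.prim_tV]; exact M.prim_strictMono.monotone h1.le
    rw [indicator_of_mem (by simpa using h1), HH_of_ge h2, HH_of_ge (hVV.trans h2)]
    linarith

end M6

end MPee
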