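import Pool.Agent.Lib.EEQ.Max
import Pool.Agent.Lib.EEQ.Moser
import Pool.Agent.Lib.EEQ.Ratio
import Pool.Agent.Lib.EEQ.Extend
import Pool.Agent.Lib.EEQ.DBound

open Real Set MeasureTheory Filter Topology

namespace MPee

theorem Maxi.w0_pos {G f : ℝ → ℝ} {V A l mu tV : ℝ} {w : ℝ → ℝ} (M : Maxi G f V A l mu tV w) :
    0 < w 0 := M.pos 0

theorem Maxi.V_lt_mu {G f : ℝ → ℝ} {V A l mu tV : ℝ} {w : ℝ → ℝ} (M : Maxi G f V A l mu tV w) :
    V < mu := by
  have := M.lt_mu tV
  rwa [M.prim_tV] at this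

theorem exists_F0 {G f : ℝ → ℝ} (h : GData G f) (V0 : ℝ) :
    ∃ F0 : ℝ, 0 ≤ F0 ∧ ∀ v ∈ Icc 0 V0, |f v| ≤ F0 := by
  obtain ⟨C, hC⟩ := (isCompact_Icc (a := (0:ℝ)) (b := V0)).exists_bound_of_continuousOn
    h.cont.continuousOn
  exact ⟨max C 0, le_max_right _ _, fun v hv => (hC v hv).trans (le_max_left _ _)⟩

/-- Not all solutions with large top have energy at most `4π(1 - c/μ²)`. -/
theorem not_all_small {G f : ℝ → ℝ} (h : GData G f) {Vf : ℝ} (hf : ∀ v, Vf ≤ v → 0 < f v)
    {c M0 : ℝ} (hc : 0 < c)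
    (hall : ∀ l mu ph w, HalfSol f l mu ph w → M0 ≤ mu →
      ∫ t in Ioi (0:ℝ), w t ^ 2 ≤ 1 - c / mu ^ 2) : False := by
  wlog hc1 : c ≤ 1 generalizing c
  · refine this (c := 1) one_pos ?_ le_rfl
    intro l mu ph w S hm
    have h1 := hall l mu ph w S hm
    have h2 : 1 / mu ^ 2 ≤ c / mu ^ 2 := by
      apply div_le_div_of_nonneg_right _ (by positivity)
      linarith
    linarith
  set k := c / 12 with hk
  have hk0 : 0 < k := by positivity
  have hk1 : k ≤ 1 / 12 := by rw [hk]; linarith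
  set θ := k / 128 with hθ
  have hθ0 : 0 < θ := by positivity
  obtain ⟨V0, hV0f, hfar⟩ := far_exists h hf hθ0 (by rw [hθ]; linarith)
  obtain ⟨F0, hF00, hF0⟩ := exists_F0 h V0
  -- choice of V
  have hexp : Tendsto (fun V : ℝ => 8 * exp (-(V ^ 2 / 2))) atTop (𝓝 0) := by
    have h1 : Tendsto (fun V : ℝ => V ^ 2 / 2) atTop atTop :=
      (tendsto_pow_atTop (by norm_num)).atTop_div_const (by norm_num)
    have h2 := (Real.tendsto_exp_neg_atTop_nhds_zero.comp h1).const_mul 8
    simpa [Function.comp_def] using h2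
  obtain ⟨V, hV0, hV20, hVM, hVF, hVc, hVe⟩ := ((eventually_ge_atTop V0).and
    ((eventually_ge_atTop 20).and ((eventually_ge_atTop M0).and
    ((eventually_ge_atTop (32 * F0)).and ((eventually_ge_atTop (2048 * F0 / c)).and
    (hexp.eventually_le_const (by positivity : 0 < k / 256))))))).exists
  have hVpos : 0 < V := by linarith
  have key : ∀ n : ℕ, ∃ A w, 0 < A ∧ A < 1 ∧ Adm A w ∧
      1 / 4 * exp (n * (k / 64)) ≤ NN2 G V w := by
    intro n
    induction n with
    | zero =>
      obtain ⟨A, w, h1, h2, h3, h4⟩ := test_fn h hfar hV0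
      exact ⟨A, w, h1, h2, h3, by simpa using h4⟩
    | succ n ih =>
      obtain ⟨A, w0, hA0, hA1, hw0, hN0⟩ := ih
      have hr : 1 / 4 ≤ 1 / 4 * exp (n * (k / 64)) := by
        have : 1 ≤ exp (n * (k / 64)) := Real.one_le_exp (by positivity)
        linarith
      have hN0' : 0 < NN2 G V w0 := by linarith
      obtain ⟨l, mu, tV, w, M⟩ := exists_maxi h hfar hV0 hA0 hA1 hw0 hN0'
      have hNm := M.max w0 hw0
      set N := NN2 G V w with hN
      have hN4 : 1 / 4 ≤ N := by linarith
      have hw := M.w0_pos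
      have hmuV := M.V_lt_mu
      have hmu : 0 < mu := by linarith
      have hrat := M.ratio h hfar hV0 hV20 (by rw [← hN]; linarith)
      have hVw := M.V_mul
      have hx : 32 * F0 * w 0 ≤ 1 := by
        have : 32 * F0 * w 0 ≤ V * w 0 := mul_le_mul_of_nonneg_right hVF hw.le
        linarith
      obtain ⟨l', ph, w', D, S, hE, hD1, -⟩ := M.extend h hfar hV0 hF0 hx (by rw [← hN]; linarith)
      have hE2 := hall l' mu ph w' S (by linarith)
      rw [hE] at hE2
      -- lower bound for 1 - A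
      have hw4 : w 0 ≤ 4 / mu := by rw [le_div_iff₀ hmu]; linarith
      have hD2 : 16 * F0 * w 0 ^ 3 ≤ c / 2 / mu ^ 2 := by
        have h1 : w 0 ^ 3 ≤ (4 / mu) ^ 3 := pow_le_pow_left₀ hw.le hw4 3
        have h2 : 16 * F0 * w 0 ^ 3 ≤ 16 * F0 * (4 / mu) ^ 3 :=
          mul_le_mul_of_nonneg_left h1 (by positivity)
        refine h2.trans ?_
        have h3 : 2048 * F0 ≤ c * mu := by
          have : 2048 * F0 / c ≤ mu := by linarith
          rw [div_le_iff₀ hc] at this
          linarith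
        have e : 16 * F0 * (4 / mu) ^ 3 = 1024 * F0 / mu / mu ^ 2 := by
          field_simp; ring
        rw [e]
        apply div_le_div_of_nonneg_right _ (by positivity)
        rw [div_le_iff₀ hmu]
        linarith
      have hcc : c / mu ^ 2 = c / 2 / mu ^ 2 + c / 2 / mu ^ 2 := by ring
      have h1A : c / 2 / mu ^ 2 ≤ 1 - A := by linarith
      set δ := k / mu ^ 2 with hδ
      have hδ0 : 0 < δ := by positivity
      have hmu2 : 1 ≤ mu ^ 2 := by nlinarith
      have hδ1 : δ ≤ 1 := by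
        rw [hδ, div_le_one (by positivity)]
        linarith only [hmu2, hk1]
      have hδA : (1 + δ) ^ 2 * A ≤ (1 + A) / 2 := by
        have h1 : (1 + δ) ^ 2 * A ≤ A + 3 * δ := by
          have e1 : (1 + δ) ^ 2 * A = A + A * δ * (2 + δ) := by ring
          have e2 : A * δ * (2 + δ) ≤ 1 * δ * 3 := by gcongr; linarith
          linarith
        have h2 : 3 * δ = c / 2 / mu ^ 2 / 2 := by rw [hδ, hk]; ring
        linarith
      have hA2 : (1 + A) / 2 < 1 := by linarith
      set K := exp (k / 32 - θ) with hK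
      have hK1 : 1 ≤ K := Real.one_le_exp (by rw [hθ]; linarith)
      have hmw : mu ^ 2 * w 0 ^ 2 ≤ 16 := by
        have h1 : 0 ≤ mu * w 0 := by positivity
        nlinarith
      have hgr := M.growth h hfar hV0 hδ0.le (by linarith) hK1 (by
        intro v hv1 hv2
        have hv0 : 0 < v := by linarith only [hv1, hVpos]
        have h1 := hfar.ratio_ge v ((1 + δ) * v) (by linarith only [hv1, hV0])
          (by have := mul_nonneg hδ0.le hv0.le; linarith only [this])
        refine le_trans ?_ h1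
        apply mul_le_mul_of_nonneg_right _ (h.pos v).le
        rw [hK]
        apply exp_le_exp.2
        have h2 : 1 / (2 * w 0) * (1 / (2 * w 0)) ≤ v * v :=
          mul_self_le_mul_self (by positivity) hv2
        have h3 : k / 32 ≤ 2 * δ * v ^ 2 := by
          have h4 : k / 32 ≤ 2 * δ * (1 / (2 * w 0) * (1 / (2 * w 0))) := by
            have e : 2 * δ * (1 / (2 * w 0) * (1 / (2 * w 0))) = k / (2 * (mu ^ 2 * w 0 ^ 2)) := by
              rw [hδ]; field_simp
            rw [e]
            apply div_le_div_of_nonneg_left hk0.le (by positivity)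
            linarith
          have h5 : 2 * δ * (1 / (2 * w 0) * (1 / (2 * w 0))) ≤ 2 * δ * (v * v) :=
            mul_le_mul_of_nonneg_left h2 (by positivity)
          linarith only [h4, h5]
        have h6 : 0 ≤ δ * (δ * v ^ 2) := by positivity
        have h7 : ((1 + δ) * v) ^ 2 - v ^ 2 = 2 * δ * v ^ 2 + δ * (δ * v ^ 2) := by ring
        linarith only [h3, h6, h7])
      rw [← hN] at hgr
      refine ⟨(1 + A) / 2, fun t => (1 + δ) * w t, by linarith, hA2, ⟨?_, ?_⟩, ?_⟩
      · exact M.adm.mem.const_mul _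
      · have : ∫ t in Ioi (0:ℝ), ((1 + δ) * w t) ^ 2 = (1 + δ) ^ 2 * A := by
          rw [← M.energy, ← integral_const_mul]
          congr 1
          funext t
          ring
        rw [this]
        exact hδA
      · refine le_trans ?_ hgr
        have h1 : 2 * exp (-(V ^ 2 / 2)) ≤ k / 256 * N := by
          have : 2 * exp (-(V ^ 2 / 2)) ≤ k / 256 * (1 / 4) := by linarith
          refine this.trans (mul_le_mul_of_nonneg_left hN4 (by positivity))
        have h2 : (1 - k / 256) * N ≤ N - 2 * exp (-(V ^ 2 / 2)) := by linarith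
        have h3 : exp (-(k / 128)) ≤ 1 - k / 256 := by
          -- e^{-2y} ≤ 1 - y for 0 ≤ y ≤ 1/2
          have h4 : 1 + k / 128 ≤ exp (k / 128) := by
            have := Real.add_one_le_exp (k / 128)
            linarith
          rw [Real.exp_neg]
          have h5 : (exp (k / 128))⁻¹ ≤ (1 + k / 128)⁻¹ := inv_anti₀ (by positivity) h4
          refine h5.trans ?_
          rw [inv_le_iff_one_le_mul₀ (by positivity)]
          nlinarith
        have hNpos : 0 < N := by linarith
        have h6 : exp (k / 64) * N ≤ K * (N - 2 * exp (-(V ^ 2 / 2))) := by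
          have h7 : exp (k / 64) ≤ K * (1 - k / 256) := by
            have e : exp (k / 64) = K * exp (-(k / 128)) := by
              rw [hK, ← exp_add, hθ]; congr 1; ring
            rw [e]
            exact mul_le_mul_of_nonneg_left h3 (by positivity)
          calc exp (k / 64) * N ≤ K * (1 - k / 256) * N := mul_le_mul_of_nonneg_right h7 hNpos.le
            _ = K * ((1 - k / 256) * N) := by ring
            _ ≤ _ := mul_le_mul_of_nonneg_left h2 (by positivity)
        refine le_trans ?_ h6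
        have e : 1 / 4 * exp ((n + 1 : ℕ) * (k / 64)) = exp (k / 64) * (1 / 4 * exp (n * (k / 64))) := by
          push_cast
          rw [add_mul, one_mul, exp_add]
          ring
        rw [e]
        exact mul_le_mul_of_nonneg_left (by linarith) (exp_pos _).le
  -- contradiction with the Moser bound
  obtain ⟨n, hn⟩ := exists_nat_gt (48 / (k / 64))
  obtain ⟨A, w, hA0, hA1, hw, hN⟩ := key n
  have h1 := moser_bound h hfar hV0 hA1 hw
  have h2 : 48 < n * (k / 64) := by rwa [div_lt_iff₀ (by positivity)] at hn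
  have h3 := Real.add_one_le_exp (n * (k / 64))
  linarith

/-- One step of the downward iteration in the height of truncation. -/
theorem step_large {G f : ℝ → ℝ} (h : GData G f) {V0 : ℝ} (hfar : Far G f V0 (1 / 10))
    {c M0 F0 : ℝ} (hc : 0 < c) (hF00 : 0 ≤ F0) (hF0 : ∀ v ∈ Icc 0 V0, |f v| ≤ F0)
    (hall : ∀ l mu ph w, HalfSol f l mu ph w → M0 ≤ mu →
      1 + c / mu ^ 2 ≤ ∫ t in Ioi (0:ℝ), w t ^ 2)
    {V V' : ℝ} (hV0 : V0 ≤ 3 / 4 * V) (hV20 : 20 ≤ V) (hVM : M0 ≤ V) (hVF : 32 * F0 ≤ V)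
    (hVc : 72 * (4 + 8 * F0) / c ≤ V) (hV' : V0 ≤ V') (hVV : V' ≤ V)
    (hG : 2 * G V' ≤ G V)
    {A r : ℝ} (hA0 : 0 < A) (hA1 : A < 1) {w0 : ℝ → ℝ} (hw0 : Adm A w0) (hr : 1 / 4 ≤ r)
    (hN0 : r ≤ NN2 G V w0) :
    ∃ w, Adm A w ∧ r + c / 4608 / V ^ 2 ≤ NN2 G V' w := by
  have hVpos : 0 < V := by linarith
  have hVV0 : V0 ≤ V := by linarith
  obtain ⟨l, mu, tV, w, M⟩ := exists_maxi h hfar hVV0 hA0 hA1 hw0 (by linarith)
  have hNm := M.max w0 hw0
  have hlow := M.lower h hfar hV' hVV
  refine ⟨w, M.adm, le_trans ?_ hlow⟩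
  set N := NN2 G V w with hN
  have hNr : r ≤ N := hN0.trans hNm
  have hN4 : 1 / 4 ≤ N := hr.trans hNr
  have hw := M.w0_pos
  have hmuV := M.V_lt_mu
  have hmu : 0 < mu := by linarith
  have hrat := M.ratio h hfar hVV0 hV20 (by rw [← hN]; linarith)
  have hVw := M.V_mul
  have hx : 32 * F0 * w 0 ≤ 1 := by
    have : 32 * F0 * w 0 ≤ V * w 0 := mul_le_mul_of_nonneg_right hVF hw.le
    linarith
  obtain ⟨l', ph, w', D, S, hE, -, hD2⟩ := M.extend h hfar hVV0 hF0 hx (by rw [← hN]; linarith)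
  have hE2 := hall l' mu ph w' S (by linarith)
  rw [hE] at hE2
  have hDc : c / mu ^ 2 ≤ D := by linarith
  rw [← hN] at hD2
  -- x = 1 / w 0
  set x := 1 / w 0 with hxdef
  have hx0 : 0 < x := by positivity
  have hxw : x * w 0 = 1 := by rw [hxdef]; field_simp
  have hVx : V ≤ x := by
    rw [hxdef, le_div_iff₀ hw]; linarith
  have hmux : mu ≤ 4 * x := by
    rw [hxdef, mul_one_div, le_div_iff₀ hw]; linarith
  have hw3 : w 0 ^ 3 = 1 / x ^ 3 := by rw [hxdef]; field_simp
  have hI : ∫ s in V0..V, f s * exp (-(s / w 0)) = ∫ s in V0..V, f s * exp (-(s * x)) := by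
    congr 1
    funext s
    rw [hxdef, mul_one_div]
  rw [hI, hw3] at hD2
  have hcx : c / (16 * x ^ 2) ≤ D := by
    refine le_trans ?_ hDc
    apply div_le_div_of_nonneg_left hc.le (by positivity)
    nlinarith
  have hcV : 72 * (4 + 8 * F0) ≤ c * V := by
    rw [div_le_iff₀ hc] at hVc; linarith
  have h2N : 1 / (2 * N) ≤ 2 := by
    rw [div_le_iff₀ (by linarith)]; linarith
  rcases le_total (3 / 2 * V) x with hc1 | hc1
  · -- far case: impossible
    exfalso
    have hIb := I_bound_far h hfar hVV0 hV20 hc1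
    have h1 : (∫ s in V0..V, f s * exp (-(s * x))) / (2 * N) ≤ 4 / x ^ 3 := by
      rw [div_le_iff₀ (by linarith)]
      refine hIb.trans ?_
      rw [div_mul_eq_mul_div]
      apply div_le_div_of_nonneg_right _ (by positivity)
      linarith
    have h2 : c / (16 * x ^ 2) ≤ (4 + 8 * F0) / x ^ 3 := by
      have e : (4 + 8 * F0) / x ^ 3 = 4 / x ^ 3 + 8 * F0 * (1 / x ^ 3) := by ring
      rw [e]; linarith
    rw [div_le_div_iff₀ (by positivity) (by positivity)] at h2
    have h3 : c * x ≤ 16 * (4 + 8 * F0) := by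
      have h4 : c * x * x ^ 2 ≤ 16 * (4 + 8 * F0) * x ^ 2 := by
        calc c * x * x ^ 2 = c * x ^ 3 := by ring
          _ ≤ (4 + 8 * F0) * (16 * x ^ 2) := h2
          _ = _ := by ring
      exact le_of_mul_le_mul_right h4 (by positivity)
    have h5 : c * V ≤ c * x := mul_le_mul_of_nonneg_left hVx hc.le
    linarith
  · have hIb := I_bound_near h hfar hV0 hV20 hVx hc1
    have htV : tV = V * x := by
      have := M.tV_mul
      calc tV = tV * (x * w 0) := by rw [hxw, mul_one]
        _ = (tV * w 0) * x := by ring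
        _ = V * x := by rw [this]
    set T := G V * exp (-(V * x)) with hT
    have hTpos : 0 < T := mul_pos (h.pos V) (exp_pos _)
    have h1 : (∫ s in V0..V, f s * exp (-(s * x))) / (2 * N) ≤ 8 * T / N + 2 / V ^ 3 := by
      have hNpos : 0 < N := by linarith
      have h2 : (∫ s in V0..V, f s * exp (-(s * x))) / (2 * N) ≤ (16 * T + 1 / V ^ 3) / (2 * N) :=
        div_le_div_of_nonneg_right hIb (by linarith)
      refine h2.trans ?_
      have e : (16 * T + 1 / V ^ 3) / (2 * N) = 8 * T / N + 1 / (2 * N) * (1 / V ^ 3) := by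
        field_simp
        ring
      rw [e]
      have h3 : 1 / (2 * N) * (1 / V ^ 3) ≤ 2 * (1 / V ^ 3) :=
        mul_le_mul_of_nonneg_right h2N (by positivity)
      have e2 : 2 / V ^ 3 = 2 * (1 / V ^ 3) := by ring
      rw [e2]
      linarith
    have h2 : 1 / x ^ 3 ≤ 1 / V ^ 3 := by
      apply div_le_div_of_nonneg_left (by norm_num) (by positivity)
      exact pow_le_pow_left₀ hVpos.le hVx 3
    have h3 : 8 * F0 * (1 / x ^ 3) ≤ 8 * F0 * (1 / V ^ 3) :=
      mul_le_mul_of_nonneg_left h2 (by positivity)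
    have h4 : c / (36 * V ^ 2) ≤ c / (16 * x ^ 2) := by
      apply div_le_div_of_nonneg_left hc.le (by positivity)
      nlinarith
    have h5 : (4 + 8 * F0) / V ^ 3 ≤ c / (72 * V ^ 2) := by
      rw [div_le_div_iff₀ (by positivity) (by positivity)]
      calc (4 + 8 * F0) * (72 * V ^ 2) = 72 * (4 + 8 * F0) * V ^ 2 := by ring
        _ ≤ c * V * V ^ 2 := mul_le_mul_of_nonneg_right hcV (by positivity)
        _ = _ := by ring
    have h6 : c / (36 * V ^ 2) = c / (72 * V ^ 2) + c / (72 * V ^ 2) := by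
      field_simp; norm_num
    have h7 : (4 + 8 * F0) / V ^ 3 = 2 / V ^ 3 + 2 / V ^ 3 + 8 * F0 * (1 / V ^ 3) := by ring
    have h8 : 0 < 2 / V ^ 3 := by positivity
    have h9 : c / (72 * V ^ 2) ≤ 8 * T / N := by linarith
    have h10 : c / 576 / V ^ 2 * N ≤ T := by
      rw [le_div_iff₀ (by linarith)] at h9
      have e : c / (72 * V ^ 2) * N = 8 * (c / 576 / V ^ 2 * N) := by
        field_simp; norm_num
      linarith
    have h11 : c / 576 / V ^ 2 * (1 / 4) ≤ T := by
      refine le_trans ?_ h10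
      exact mul_le_mul_of_nonneg_left hN4 (by positivity)
    have h12 : T / 2 ≤ (G V - G V') * exp (-tV) := by
      rw [htV, hT]
      have : G V / 2 ≤ G V - G V' := by linarith
      calc G V * exp (-(V * x)) / 2 = G V / 2 * exp (-(V * x)) := by ring
        _ ≤ _ := mul_le_mul_of_nonneg_right this (exp_pos _).le
    have h13 : c / 576 / V ^ 2 * (1 / 4) = 2 * (c / 4608 / V ^ 2) := by ring
    linarith

/-- Not all solutions with large top have energy at least `4π(1 + c/μ²)`. -/
theorem not_all_large {G f : ℝ → ℝ} (h : GData G f) {Vf : ℝ} (hf : ∀ v, Vf ≤ v → 0 < f v)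
    {c M0 : ℝ} (hc : 0 < c)
    (hall : ∀ l mu ph w, HalfSol f l mu ph w → M0 ≤ mu →
      1 + c / mu ^ 2 ≤ ∫ t in Ioi (0:ℝ), w t ^ 2) : False := by
  obtain ⟨V0, hV0f, hfar⟩ := far_exists h hf (by norm_num : (0:ℝ) < 1 / 10) le_rfl
  obtain ⟨F0, hF00, hF0⟩ := exists_F0 h V0
  obtain ⟨Vs, hV0, hV20, hVM, hVF, hVc⟩ := ((eventually_ge_atTop (4 / 3 * V0)).and
    ((eventually_ge_atTop 20).and ((eventually_ge_atTop M0).and
    ((eventually_ge_atTop (32 * F0)).and (eventually_ge_atTop (72 * (4 + 8 * F0) / c)))))).exists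
  have hV04 := hfar.V0_ge
  have hVs0 : V0 ≤ Vs := by linarith
  have hVspos : 0 < Vs := by linarith
  have hG0 := h.pos Vs
  -- the heights V_j
  have hex : ∀ j : ℕ, ∃ v, Vs ≤ v ∧ G v = exp j * G Vs := by
    intro j
    have h1 : Tendsto G atTop atTop := by
      refine tendsto_atTop_mono' atTop (f₁ := fun v : ℝ => 9 / 20 * exp (v ^ 2)) ?_ ?_
      · filter_upwards [eventually_ge_atTop V0] with v hv
        exact hfar.ge_exp v hv
      · apply Tendsto.const_mul_atTop (by norm_num)
        exact Real.tendsto_exp_atTop.comp (tendsto_pow_atTop (by norm_num))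
    obtain ⟨b, hb1, hb2⟩ := ((eventually_ge_atTop Vs).and
      (h1.eventually_ge_atTop (exp j * G Vs))).exists
    have h2 : exp j * G Vs ∈ Icc (G Vs) (G b) := by
      refine ⟨?_, hb2⟩
      have : 1 ≤ exp (j:ℝ) := Real.one_le_exp (by positivity)
      nlinarith
    obtain ⟨v, hv, hv2⟩ := intermediate_value_Icc hb1 h.contG.continuousOn h2
    exact ⟨v, hv.1, hv2⟩
  choose V hVs hVG using hex
  have hVmono : ∀ j, V j ≤ V (j + 1) := by
    intro j
    by_contra hcon
    push Not at hcon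
    have h1 := (hfar.strictMonoOn h) (show V (j + 1) ∈ Ici V0 from hVs0.trans (hVs _))
      (show V j ∈ Ici V0 from hVs0.trans (hVs _)) hcon
    rw [hVG, hVG] at h1
    have h2 : exp (j:ℝ) ≤ exp ((j + 1 : ℕ):ℝ) := by
      apply exp_le_exp.2; push_cast; linarith
    nlinarith
  have hVsq : ∀ j : ℕ, V j ^ 2 ≤ Vs ^ 2 + 1 + j := by
    intro j
    have h1 := hfar.ratio_ge Vs (V j) hVs0 (hVs j)
    rw [hVG j] at h1
    have h2 := le_of_mul_le_mul_right h1 hG0
    rw [exp_le_exp] at h2
    linarith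
  have hGtwo : ∀ j, 2 * G (V j) ≤ G (V (j + 1)) := by
    intro j
    rw [hVG, hVG]
    have h1 : (2:ℝ) ≤ exp 1 := by
      have := Real.add_one_le_exp (1:ℝ); linarith
    have h2 : exp ((j + 1 : ℕ):ℝ) = exp j * exp 1 := by
      push_cast; rw [exp_add]
    rw [h2]
    have h3 := exp_pos (j:ℝ)
    have h4 : 0 < exp (j:ℝ) * G Vs := by positivity
    nlinarith
  -- downward iteration
  have key : ∀ (J : ℕ) (A : ℝ), 0 < A → A < 1 → ∀ w0, Adm A w0 → 1 / 4 ≤ NN2 G (V J) w0 →
      ∀ j, j ≤ J → ∃ w, Adm A w ∧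
        1 / 4 + c / 4608 * ∑ i ∈ Finset.range j, 1 / (V (J - i)) ^ 2 ≤ NN2 G (V (J - j)) w := by
    intro J A hA0 hA1 w0 hw0 hN0 j
    induction j with
    | zero => intro _; exact ⟨w0, hw0, by simpa using hN0⟩
    | succ j ih =>
      intro hj
      obtain ⟨w, hw, hN⟩ := ih (by omega)
      have e1 : J - j = (J - (j + 1)) + 1 := by omega
      have hVpos : ∀ i, 0 < V i := fun i => hVspos.trans_le (hVs i)
      obtain ⟨w', hw', hN'⟩ := step_large h hfar hc hF00 hF0 hall (V := V (J - j))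
        (V' := V (J - (j + 1))) (by linarith [hVs (J - j)]) (by linarith [hVs (J - j)])
        (by linarith [hVs (J - j)]) (by linarith [hVs (J - j)]) (by linarith [hVs (J - j)])
        (by linarith [hVs (J - (j + 1))]) (by rw [e1]; exact hVmono _) (by rw [e1]; exact hGtwo _)
        hA0 hA1 hw (r := 1 / 4 + c / 4608 * ∑ i ∈ Finset.range j, 1 / (V (J - i)) ^ 2)
        (by
          have : 0 ≤ ∑ i ∈ Finset.range j, 1 / (V (J - i)) ^ 2 :=
            Finset.sum_nonneg fun i _ => by positivity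
          have : 0 ≤ c / 4608 * ∑ i ∈ Finset.range j, 1 / (V (J - i)) ^ 2 := by positivity
          linarith) hN
      refine ⟨w', hw', le_trans (le_of_eq ?_) hN'⟩
      rw [Finset.sum_range_succ]
      ring
  -- divergence of the harmonic series
  have hdiv : Tendsto (fun n : ℕ => ∑ i ∈ Finset.range n, 1 / ((i:ℝ) + 1)) atTop atTop := by
    have := Real.tendsto_sum_range_one_div_nat_succ_atTop
    simpa using this
  set m := Vs ^ 2 + 2 with hm
  have hm0 : 0 < m := by positivity
  obtain ⟨n, hn⟩ := (hdiv.eventually_ge_atTop (m * (4608 / c) * 12)).exists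
  obtain ⟨A, w0, hA0, hA1, hw0, hN0⟩ := test_fn h hfar (hVs0.trans (hVs n))
  obtain ⟨w, hw, hN⟩ := key n A hA0 hA1 w0 hw0 hN0 n le_rfl
  have hmos := moser_bound h hfar (hVs0.trans (hVs (n - n))) hA1 hw
  have hsum : ∑ i ∈ Finset.range n, 1 / (V (n - i)) ^ 2 ≥
      1 / m * ∑ i ∈ Finset.range n, 1 / ((i:ℝ) + 1) := by
    rw [← Finset.sum_range_reflect (fun i => 1 / ((i:ℝ) + 1)) n, Finset.mul_sum]
    apply Finset.sum_le_sum
    intro i hi
    rw [Finset.mem_range] at hi
    have h1 := hVsq (n - i)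
    have hVpos : 0 < V (n - i) := hVspos.trans_le (hVs _)
    have e : ((n - 1 - i : ℕ) : ℝ) + 1 = ((n - i : ℕ) : ℝ) := by
      have : n - i = (n - 1 - i) + 1 := by omega
      rw [this]; push_cast; ring
    rw [e, one_div_mul_one_div]
    apply div_le_div_of_nonneg_left (by norm_num) (by positivity)
    have h2 : (1:ℝ) ≤ ((n - i : ℕ) : ℝ) := by
      have : 1 ≤ n - i := by omega
      exact_mod_cast this
    refine h1.trans ?_
    rw [hm]
    nlinarith [sq_nonneg Vs]
  have h1 : 12 ≤ c / 4608 * ∑ i ∈ Finset.range n, 1 / (V (n - i)) ^ 2 := by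
    have h2 : 12 * (4608 / c) ≤ ∑ i ∈ Finset.range n, 1 / (V (n - i)) ^ 2 := by
      refine le_trans ?_ hsum
      have : 12 * (4608 / c) = 1 / m * (m * (4608 / c) * 12) := by field_simp
      rw [this]
      exact mul_le_mul_of_nonneg_left hn (by positivity)
    have h3 : c / 4608 * (12 * (4608 / c)) = 12 := by field_simp
    rw [← h3]
    exact mul_le_mul_of_nonneg_left h2 (by positivity)
  linarith

end MPee
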