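import Pool.Agent.Lib.EEQ.Data

/-! Lagrange multiplier rule for compactly supported mean zero directions. -/

open Real Set MeasureTheory Filter Topology

namespace MPee

/-- admissible directions: `L²`, supported in `(0,T]`, mean zero -/
structure Dir (T : ℝ) (v : ℝ → ℝ) : Prop where
  mem : MemLp v 2 (volume.restrict (Ioi (0:ℝ)))
  supp : ∀ t, T < t → v t = 0
  mean : prim v T = 0

namespace Dir
variable {T : ℝ} {v : ℝ → ℝ}

theorem adm (h : Dir T v) : Adm (∫ t in Ioi (0:ℝ), v t ^ 2) v := ⟨h.mem, le_rfl⟩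

theorem prim_ge (h : Dir T v) (hT : 0 ≤ T) {t : ℝ} (ht : T ≤ t) : prim v t = 0 := by
  have h1 := h.adm.prim_sub hT (hT.trans ht)
  rw [h.mean, sub_zero] at h1
  rw [h1, intervalIntegral.integral_of_le ht]
  apply setIntegral_eq_zero_of_forall_eq_zero
  intro x hx
  exact h.supp x hx.1

theorem mono (h : Dir T v) (hT : 0 ≤ T) {T' : ℝ} (hTT : T ≤ T') : Dir T' v :=
  ⟨h.mem, fun t ht => h.supp t (lt_of_le_of_lt hTT ht), h.prim_ge hT hTT⟩

theorem integrable (h : Dir T v) : Integrable v (volume.restrict (Ioi (0:ℝ))) := by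
  have h1 : Integrable v (volume.restrict (Ioc 0 T)) :=
    (h.adm.memLp_Ioc le_rfl).integrable (by norm_num)
  have h2 : IntegrableOn v (Ioi T) := by
    apply (integrableOn_zero (μ := volume) (s := Ioi T)).congr_fun _ measurableSet_Ioi
    intro x hx
    simp [h.supp x hx]
  rcases le_total 0 T with hT | hT
  · have : IntegrableOn v (Ioc 0 T ∪ Ioi T) := IntegrableOn.union h1 h2
    rwa [Ioc_union_Ioi_eq_Ioi hT] at this
  · exact h2.mono_set (Ioi_subset_Ioi hT)

theorem integral_eq (h : Dir T v) (hT : 0 ≤ T) (F : ℝ → ℝ) :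
    ∫ t in Ioi (0:ℝ), F t * v t = ∫ t in Ioc 0 T, F t * v t := by
  have : (fun t => F t * v t) = (Iic T).indicator (fun t => F t * v t) := by
    funext t
    by_cases ht : t ≤ T
    · rw [indicator_of_mem (by exact ht)]
    · rw [indicator_of_notMem (by exact ht), h.supp t (not_le.1 ht), mul_zero]
  rw [this, setIntegral_indicator measurableSet_Iic, Ioi_inter_Iic]
  apply setIntegral_congr_fun measurableSet_Ioc
  intro t ht
  simp only
  rw [indicator_of_mem (by exact ht.2)]

theorem integral_zero (h : Dir T v) (hT : 0 ≤ T) : ∫ t in Ioi (0:ℝ), v t = 0 := by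
  have h1 := h.integral_eq hT (fun _ => 1)
  simp only [one_mul] at h1
  rw [h1, ← intervalIntegral.integral_of_le hT]
  exact h.mean

theorem int_mul (h : Dir T v) {w : ℝ → ℝ} (hw : MemLp w 2 (volume.restrict (Ioi (0:ℝ)))) :
    Integrable (fun t => w t * v t) (volume.restrict (Ioi (0:ℝ))) := by
  exact hw.integrable_mul h.mem

theorem int_cont_mul (h : Dir T v) {P : ℝ → ℝ} (hP : Continuous P) :
    Integrable (fun t => P t * v t) (volume.restrict (Ioi (0:ℝ))) := by
  obtain ⟨C, hC⟩ := (isCompact_Icc (a := (0:ℝ)) (b := T)).exists_bound_of_continuousOn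
    hP.continuousOn
  refine Integrable.mono' (h.integrable.norm.const_mul C)
    (hP.aestronglyMeasurable.mul h.mem.1) ?_
  filter_upwards [ae_restrict_mem measurableSet_Ioi] with t ht
  rw [norm_mul]
  rcases le_or_gt t T with h1 | h1
  · exact mul_le_mul_of_nonneg_right (hC t ⟨le_of_lt ht, h1⟩) (norm_nonneg _)
  · rw [h.supp t h1]; simp

theorem add {w : ℝ → ℝ} (h : Dir T v) (h' : Dir T w) (hT : 0 ≤ T) :
    Dir T (fun t => v t + w t) := by
  refine ⟨h.mem.add h'.mem, fun t ht => by rw [h.supp t ht, h'.supp t ht, add_zero], ?_⟩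
  unfold prim
  rw [intervalIntegral.integral_add (h.adm.intervalIntegrable le_rfl hT)
    (h'.adm.intervalIntegrable le_rfl hT)]
  have h1 := h.mean
  have h2 := h'.mean
  unfold prim at h1 h2
  rw [h1, h2, add_zero]

theorem smul (h : Dir T v) (a : ℝ) : Dir T (fun t => a * v t) := by
  refine ⟨h.mem.const_mul a, fun t ht => by rw [h.supp t ht, mul_zero], ?_⟩
  unfold prim
  rw [intervalIntegral.integral_const_mul]
  have h1 := h.mean
  unfold prim at h1
  rw [h1, mul_zero]

end Dir

/-- the centred restriction of a function to `(0,T]` -/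
theorem dir_center {u : ℝ → ℝ} (hu : MemLp u 2 (volume.restrict (Ioi (0:ℝ)))) {T : ℝ} (hT : 0 < T) :
    Dir T ((Ioc 0 T).indicator (fun t => u t - (∫ s in Ioc 0 T, u s) / T)) := by
  have hu' : MemLp u 2 (volume.restrict (Ioc 0 T)) :=
    hu.mono_measure (Measure.restrict_mono (fun _ hx => hx.1) le_rfl)
  have hi : Integrable u (volume.restrict (Ioc 0 T)) := hu'.integrable (by norm_num)
  refine ⟨?_, ?_, ?_⟩
  · rw [memLp_indicator_iff_restrict measurableSet_Ioc, Measure.restrict_restrict measurableSet_Ioc]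
    have e : Ioc 0 T ∩ Ioi 0 = Ioc 0 T := inter_eq_left.2 fun x hx => hx.1
    rw [e]
    exact hu'.sub (memLp_const _)
  · intro t ht
    rw [indicator_of_notMem]
    exact fun h => absurd h.2 (not_le.2 ht)
  · unfold prim
    rw [intervalIntegral.integral_of_le hT.le, setIntegral_indicator measurableSet_Ioc, inter_self,
      integral_sub hi (integrable_const _)]
    simp [hT.le]
    field_simp
    ring

/-- `∫ u v = ∫ (u - c) v` for the centred direction `v`, so it is `∫ v²`. -/
theorem dir_center_int {u : ℝ → ℝ} (hu : MemLp u 2 (volume.restrict (Ioi (0:ℝ)))) {T : ℝ}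
    (hT : 0 < T) :
    ∫ t in Ioi (0:ℝ), u t * (Ioc 0 T).indicator (fun t => u t - (∫ s in Ioc 0 T, u s) / T) t =
      ∫ t in Ioc 0 T, (u t - (∫ s in Ioc 0 T, u s) / T) ^ 2 := by
  set c := (∫ s in Ioc 0 T, u s) / T with hc
  set v := (Ioc 0 T).indicator (fun t => u t - c) with hv
  have hd : Dir T v := dir_center hu hT
  have h0 := hd.integral_zero hT.le
  have h1 : ∫ t in Ioi (0:ℝ), u t * v t = ∫ t in Ioi (0:ℝ), (u t - c) * v t := by
    have e : (fun t => (u t - c) * v t) = fun t => u t * v t - c * v t := by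
      funext t; ring
    have i1 : Integrable (fun t => u t * v t) (volume.restrict (Ioi (0:ℝ))) := hd.int_mul hu
    have i2 : Integrable (fun t => c * v t) (volume.restrict (Ioi (0:ℝ))) :=
      hd.integrable.const_mul c
    rw [e, integral_sub i1 i2, integral_const_mul, h0, mul_zero, sub_zero]
  rw [h1, hd.integral_eq hT.le]
  apply setIntegral_congr_fun measurableSet_Ioc
  intro t ht
  simp only [hv]
  rw [indicator_of_mem ht]
  ring

theorem lagrange {w P : ℝ → ℝ} {T0 : ℝ} (hT0 : 0 < T0)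
    (hw : MemLp w 2 (volume.restrict (Ioi (0:ℝ)))) (hP : Continuous P)
    (hPm : ∀ T, MemLp ((Ioc 0 T).indicator P) 2 (volume.restrict (Ioi (0:ℝ))))
    (hstar : ∀ T v, T0 ≤ T → Dir T v → ∫ t in Ioi (0:ℝ), w t * v t < 0 →
      0 ≤ ∫ t in Ioi (0:ℝ), P t * v t)
    (hnc : ∃ T v, T0 ≤ T ∧ Dir T v ∧ ∫ t in Ioi (0:ℝ), w t * v t < 0) :
    ∃ c k : ℝ, 0 ≤ c ∧ ∀ᵐ t ∂(volume.restrict (Ioi (0:ℝ))), c * w t + P t = k := by
  obtain ⟨T1, u1, hT1, hu1, hneg⟩ := hnc
  have hT1pos : 0 < T1 := hT0.trans_le hT1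
  set β := ∫ t in Ioi (0:ℝ), w t * u1 t with hβ
  -- normalise
  set u0 : ℝ → ℝ := fun t => (-1 / β) * u1 t with hu0
  have hd0 : Dir T1 u0 := hu1.smul _
  have hB0 : ∫ t in Ioi (0:ℝ), w t * u0 t = -1 := by
    have e : (fun t => w t * u0 t) = fun t => (-1 / β) * (w t * u1 t) := by
      funext t; simp only [hu0]; ring
    rw [e, integral_const_mul, ← hβ]
    have := hneg.ne
    field_simp
  set c := ∫ t in Ioi (0:ℝ), P t * u0 t with hc
  have hc0 : 0 ≤ c := hstar T1 u0 hT1 hd0 (by rw [hB0]; norm_num)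
  -- linear combination
  have hlin : ∀ T v, T1 ≤ T → Dir T v →
      0 ≤ (∫ t in Ioi (0:ℝ), P t * v t) + c * ∫ t in Ioi (0:ℝ), w t * v t := by
    intro T v hT hv
    set B := ∫ t in Ioi (0:ℝ), w t * v t with hB
    have hd0' : Dir T u0 := hd0.mono hT1pos.le hT
    have hTpos : 0 < T := hT1pos.trans_le hT
    have key : ∀ δ : ℝ, 0 < δ → 0 ≤ (∫ t in Ioi (0:ℝ), P t * v t) + (B + δ) * c := by
      intro δ hδ
      have hd : Dir T (fun t => v t + (B + δ) * u0 t) := hv.add (hd0'.smul _) hTpos.le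
      have e1 : ∫ t in Ioi (0:ℝ), w t * (v t + (B + δ) * u0 t) = -δ := by
        have e : (fun t => w t * (v t + (B + δ) * u0 t)) =
            fun t => w t * v t + (B + δ) * (w t * u0 t) := by funext t; ring
        have i2 : Integrable (fun t => (B + δ) * (w t * u0 t)) (volume.restrict (Ioi (0:ℝ))) :=
          (hd0.int_mul hw).const_mul _
        rw [e, integral_add (hv.int_mul hw) i2, integral_const_mul, hB0, ← hB]
        ring
      have e2 : ∫ t in Ioi (0:ℝ), P t * (v t + (B + δ) * u0 t) =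
          (∫ t in Ioi (0:ℝ), P t * v t) + (B + δ) * c := by
        have e : (fun t => P t * (v t + (B + δ) * u0 t)) =
            fun t => P t * v t + (B + δ) * (P t * u0 t) := by funext t; ring
        have i2 : Integrable (fun t => (B + δ) * (P t * u0 t)) (volume.restrict (Ioi (0:ℝ))) :=
          (hd0.int_cont_mul hP).const_mul _
        rw [e, integral_add (hv.int_cont_mul hP) i2, integral_const_mul, ← hc]
      have := hstar T _ (hT1.trans hT) hd (by rw [e1]; linarith)
      rwa [e2] at this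
    have hlim : Tendsto (fun δ : ℝ => (∫ t in Ioi (0:ℝ), P t * v t) + (B + δ) * c) (𝓝[>] 0)
        (𝓝 ((∫ t in Ioi (0:ℝ), P t * v t) + (B + 0) * c)) := by
      apply Tendsto.mono_left _ nhdsWithin_le_nhds
      apply Continuous.tendsto
      fun_prop
    have h1 := ge_of_tendsto hlim (by
      filter_upwards [self_mem_nhdsWithin] with δ hδ
      exact key δ hδ)
    rw [add_zero] at h1
    linarith
  have heq : ∀ T v, T1 ≤ T → Dir T v →
      (∫ t in Ioi (0:ℝ), P t * v t) + c * (∫ t in Ioi (0:ℝ), w t * v t) = 0 := by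
    intro T v hT hv
    have h1 := hlin T v hT hv
    have h2 := hlin T _ hT (hv.smul (-1))
    have e1 : ∫ t in Ioi (0:ℝ), P t * (-1 * v t) = -∫ t in Ioi (0:ℝ), P t * v t := by
      rw [← integral_neg]; congr 1; funext t; ring
    have e2 : ∫ t in Ioi (0:ℝ), w t * (-1 * v t) = -∫ t in Ioi (0:ℝ), w t * v t := by
      rw [← integral_neg]; congr 1; funext t; ring
    rw [e1, e2] at h2
    linarith
  -- constancy on (0,T]
  have hconst : ∀ T, T1 ≤ T → ∃ k, ∀ᵐ t ∂(volume.restrict (Ioc 0 T)), c * w t + P t = k := by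
    intro T hT
    have hTpos : 0 < T := hT1pos.trans_le hT
    set u : ℝ → ℝ := fun t => c * w t + (Ioc 0 T).indicator P t with hu
    have hum : MemLp u 2 (volume.restrict (Ioi (0:ℝ))) := (hw.const_mul c).add (hPm T)
    set k := (∫ s in Ioc 0 T, u s) / T with hk
    set v := (Ioc 0 T).indicator (fun t => u t - k) with hv
    have hd : Dir T v := dir_center hum hTpos
    have h1 := dir_center_int hum hTpos
    rw [← hk, ← hv] at h1
    have h2 : ∫ t in Ioi (0:ℝ), u t * v t = 0 := by
      have h0 := heq T v hT hd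
      rw [hd.integral_eq hTpos.le P, hd.integral_eq hTpos.le w] at h0
      rw [hd.integral_eq hTpos.le u]
      refine Eq.trans ?_ h0
      rw [← integral_const_mul, ← integral_add]
      · apply setIntegral_congr_fun measurableSet_Ioc
        intro t ht
        simp only [hu]
        rw [indicator_of_mem ht]
        ring
      · exact (hd.int_cont_mul hP).mono_measure (Measure.restrict_mono (fun _ hx => hx.1) le_rfl)
      · exact ((hd.int_mul hw).const_mul c).mono_measure
          (Measure.restrict_mono (fun _ hx => hx.1) le_rfl)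
    rw [h2] at h1
    have h3 : Integrable (fun t => (u t - k) ^ 2) (volume.restrict (Ioc 0 T)) := by
      have : MemLp (fun t => u t - k) 2 (volume.restrict (Ioc 0 T)) :=
        (hum.mono_measure (Measure.restrict_mono (fun _ hx => hx.1) le_rfl)).sub (memLp_const _)
      exact this.integrable_sq
    have h4 := (integral_eq_zero_iff_of_nonneg (fun t => sq_nonneg (u t - k)) h3).1 h1.symm
    refine ⟨k, ?_⟩
    filter_upwards [h4, ae_restrict_mem measurableSet_Ioc] with t ht htm
    have h5 : u t - k = 0 := by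
      have : (u t - k) ^ 2 = 0 := ht
      exact pow_eq_zero_iff (two_ne_zero) |>.1 this
    simp only [hu] at h5
    rw [indicator_of_mem htm] at h5
    linarith
  -- the constants agree
  choose! kk hkk using hconst
  have hsame : ∀ T, T1 ≤ T → kk T = kk T1 := by
    intro T hT
    have h1 : ∀ᵐ t ∂(volume.restrict (Ioc 0 T1)), c * w t + P t = kk T :=
      (hkk T hT).filter_mono (ae_mono (Measure.restrict_mono (Ioc_subset_Ioc_right hT) le_rfl))
    have h2 := hkk T1 le_rfl
    have h3 : (volume.restrict (Ioc 0 T1)) ≠ 0 := by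
      rw [Ne, Measure.restrict_eq_zero, Real.volume_Ioc]
      simpa using hT1pos
    have h4 : ∃ t, c * w t + P t = kk T ∧ c * w t + P t = kk T1 := by
      have : NeZero (volume.restrict (Ioc 0 T1)) := ⟨h3⟩
      exact (h1.and h2).exists
    obtain ⟨t, a, b⟩ := h4
    rw [← a, b]
  refine ⟨c, kk T1, hc0, ?_⟩
  rw [ae_restrict_iff' measurableSet_Ioi]
  have h5 : ∀ n : ℕ, ∀ᵐ t : ℝ, t ∈ Ioc 0 (T1 + n) → c * w t + P t = kk T1 := by
    intro n
    have h6 : T1 ≤ T1 + n := by linarith [(Nat.cast_nonneg n : (0:ℝ) ≤ n)]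
    have h7 := hkk _ h6
    rw [hsame _ h6, ae_restrict_iff' measurableSet_Ioc] at h7
    exact h7
  filter_upwards [ae_all_iff.2 h5] with t ht htpos
  obtain ⟨n, hn⟩ := exists_nat_ge (t - T1)
  exact ht n ⟨htpos, by linarith⟩

end MPee
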