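import Pool.Agent.Lib.EEQ.Defs

/-! Transfer: a solution on the half line `t = 2 log (1/|x|)` gives a classical radial solution on
the disc. -/

open Real Set MeasureTheory Filter Topology

namespace MPee

section Transfer

variable {f : ℝ → ℝ} {l mu : ℝ} {ph w : ℝ → ℝ}

/-- the profile in the variable `ρ = |x|²` -/
noncomputable def trV (mu : ℝ) (ph : ℝ → ℝ) (r : ℝ) : ℝ := if r = 0 then mu else ph (-log r)

/-- its derivative -/
noncomputable def trM (f : ℝ → ℝ) (l mu : ℝ) (w : ℝ → ℝ) (r : ℝ) : ℝ :=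
  if r = 0 then -(l * f mu) else -(w (-log r) / r)

/-- its second derivative for `ρ > 0` -/
noncomputable def trN (f : ℝ → ℝ) (l mu : ℝ) (ph w : ℝ → ℝ) (r : ℝ) : ℝ :=
  (-(l * f (trV mu ph r)) - trM f l mu w r) / r

theorem trV_zero : trV mu ph 0 = mu := by simp [trV]

theorem trM_zero : trM f l mu w 0 = -(l * f mu) := by simp [trM]

theorem trV_of_ne {r : ℝ} (hr : r ≠ 0) : trV mu ph r = ph (-log r) := by simp [trV, hr]

theorem trM_of_ne {r : ℝ} (hr : r ≠ 0) : trM f l mu w r = -(w (-log r) / r) := by simp [trM, hr]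

theorem neg_log_pos {r : ℝ} (h0 : 0 < r) (h1 : r < 1) : 0 < -log r := by
  have := Real.log_neg h0 h1
  linarith

theorem tendsto_neg_log : Tendsto (fun r : ℝ => -log r) (𝓝[>] 0) atTop :=
  tendsto_neg_atBot_atTop.comp Real.tendsto_log_nhdsGT_zero

variable (S : HalfSol f l mu ph w)
include S

theorem HalfSol.mu_pos : 0 < mu := lt_of_lt_of_le (S.pos 1 one_pos) (S.le 1 one_pos)

theorem HalfSol.trV_lim : Tendsto (trV mu ph) (𝓝[>] 0) (𝓝 mu) := by
  refine (S.lim.comp tendsto_neg_log).congr' ?_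
  filter_upwards [self_mem_nhdsWithin] with r hr
  rw [trV_of_ne (ne_of_gt hr)]; rfl

theorem HalfSol.w_exp_lim (hf : Continuous f) :
    Tendsto (fun t => w t / exp (-t)) atTop (𝓝 (l * f mu)) := by
  have h1 : Tendsto (fun t => exp (-t)) atTop (𝓝 0) :=
    Real.tendsto_exp_neg_atTop_nhds_zero
  refine HasDerivAt.lhopital_zero_atTop (f' := fun t => -(l * exp (-t) * f (ph t)))
    (g' := fun t => -exp (-t)) ?_ ?_ ?_ S.wlim h1 ?_
  · filter_upwards [eventually_gt_atTop 0] with t ht using S.der2 t ht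
  · refine Eventually.of_forall fun t => ?_
    simpa using ((hasDerivAt_id t).neg).exp
  · refine Eventually.of_forall fun t => ?_
    have := exp_pos (-t)
    exact neg_ne_zero.2 this.ne'
  · have h2 : Tendsto (fun t => l * f (ph t)) atTop (𝓝 (l * f mu)) :=
      ((hf.tendsto mu).comp S.lim).const_mul l
    refine h2.congr fun t => ?_
    have := (exp_pos (-t)).ne'
    field_simp

theorem HalfSol.trM_lim (hf : Continuous f) :
    Tendsto (trM f l mu w) (𝓝[>] 0) (𝓝 (-(l * f mu))) := by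
  refine ((S.w_exp_lim hf).comp tendsto_neg_log).neg.congr' ?_
  filter_upwards [self_mem_nhdsWithin] with r hr
  have hr' : (0:ℝ) < r := hr
  rw [trM_of_ne hr'.ne']
  simp only [Function.comp, neg_neg]
  rw [exp_log hr']

theorem HalfSol.trV_der' {r : ℝ} (h0 : 0 < r) (h1 : r < 1) :
    HasDerivAt (trV mu ph) (trM f l mu w r) r := by
  have ha : HasDerivAt (fun r : ℝ => -log r) (-(r⁻¹)) r := (Real.hasDerivAt_log h0.ne').neg
  have hb : HasDerivAt (fun r : ℝ => ph (-log r)) (w (-log r) * (-(r⁻¹))) r :=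
    HasDerivAt.comp r (S.der _ (neg_log_pos h0 h1)) ha
  have hev : trV mu ph =ᶠ[𝓝 r] fun r => ph (-log r) := by
    filter_upwards [lt_mem_nhds h0] with s hs
    exact trV_of_ne (ne_of_gt hs)
  refine (hb.congr_of_eventuallyEq hev).congr_deriv ?_
  rw [trM_of_ne h0.ne']
  field_simp

theorem HalfSol.trM_der {r : ℝ} (h0 : 0 < r) (h1 : r < 1) :
    HasDerivAt (trM f l mu w) (trN f l mu ph w r) r := by
  have ha : HasDerivAt (fun r : ℝ => -log r) (-(r⁻¹)) r := (Real.hasDerivAt_log h0.ne').neg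
  have hb : HasDerivAt (fun r : ℝ => w (-log r))
      (-(l * exp (-(-log r)) * f (ph (-log r))) * (-(r⁻¹))) r :=
    HasDerivAt.comp r (S.der2 _ (neg_log_pos h0 h1)) ha
  have hc := (hb.div (hasDerivAt_id r) h0.ne').neg
  have hev : trM f l mu w =ᶠ[𝓝 r] fun r => -(w (-log r) / r) := by
    filter_upwards [lt_mem_nhds h0] with s hs
    exact trM_of_ne (ne_of_gt hs)
  refine (hc.congr_of_eventuallyEq hev).congr_deriv ?_
  unfold trN
  rw [trM_of_ne h0.ne', trV_of_ne h0.ne', neg_neg, exp_log h0]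
  simp only [id]
  field_simp
  ring

theorem HalfSol.trV_der (hf : Continuous f) {r : ℝ} (h0 : 0 ≤ r) (h1 : r < 1) :
    HasDerivWithinAt (trV mu ph) (trM f l mu w r) (Ici 0) r := by
  rcases eq_or_lt_of_le h0 with h | h
  · subst h
    rw [trM_zero]
    refine hasDerivWithinAt_Ici_of_tendsto_deriv (s := Ioo 0 1) ?_ ?_ ?_ ?_
    · intro s hs
      exact (S.trV_der' hs.1 hs.2).differentiableAt.differentiableWithinAt
    · have h2 := S.trV_lim
      unfold ContinuousWithinAt
      rw [trV_zero]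
      exact h2.mono_left (nhdsWithin_mono _ fun s hs => hs.1)
    · exact Ioo_mem_nhdsGT one_pos
    · refine (S.trM_lim hf).congr' ?_
      filter_upwards [Ioo_mem_nhdsGT (one_pos : (0:ℝ) < 1)] with s hs
      exact (S.trV_der' hs.1 hs.2).deriv.symm
  · exact (S.trV_der' h h1).hasDerivWithinAt

theorem HalfSol.trM_cont (hf : Continuous f) {r : ℝ} (h0 : 0 ≤ r) (h1 : r < 1) :
    ContinuousWithinAt (trM f l mu w) (Ici 0) r := by
  rcases eq_or_lt_of_le h0 with h | h
  · subst h
    have h2 := S.trM_lim hf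
    rw [← trM_zero (f := f) (l := l) (mu := mu) (w := w)] at h2
    exact continuousWithinAt_Ioi_iff_Ici.1 h2
  · exact (S.trM_der h h1).continuousAt.continuousWithinAt

theorem HalfSol.trN_cont (hf : Continuous f) {r : ℝ} (h0 : 0 < r) (h1 : r < 1) :
    ContinuousAt (trN f l mu ph w) r := by
  unfold trN
  have h2 := (S.trV_der' h0 h1).continuousAt
  have h3 := (S.trM_der h0 h1).continuousAt
  have h4 : ContinuousAt (fun r => f (trV mu ph r)) r := ContinuousAt.comp (hf.continuousAt) h2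
  exact ((h4.const_mul l).neg.sub h3).div continuousAt_id h0.ne'

theorem HalfSol.trN_lim (hf : Continuous f) :
    Tendsto (fun r => r * trN f l mu ph w r) (𝓝[>] 0) (𝓝 0) := by
  have h1 := S.trV_lim
  have h2 := S.trM_lim hf
  have h3 : Tendsto (fun r => -(l * f (trV mu ph r)) - trM f l mu w r) (𝓝[>] 0)
      (𝓝 (-(l * f mu) - -(l * f mu))) :=
    (((hf.tendsto mu).comp h1).const_mul l).neg.sub h2
  rw [sub_self] at h3
  refine h3.congr' ?_
  filter_upwards [self_mem_nhdsWithin] with r hr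
  have hr' : (0:ℝ) < r := hr
  unfold trN
  field_simp

/-- the inner product as a bilinear map -/
noncomputable def ipL : E2 →L[ℝ] (E2 →L[ℝ] ℝ) := innerSL ℝ

omit S in
theorem ipL_apply (x y : E2) : ipL x y = inner ℝ x y := rfl

omit S in
theorem norm_ipL (x : E2) : ‖ipL x‖ = ‖x‖ := innerSL_apply_norm ℝ x

/-- the solution on the disc -/
noncomputable def trU (mu : ℝ) (ph : ℝ → ℝ) (x : E2) : ℝ := trV mu ph (‖x‖ ^ 2)

omit S in
theorem sq_lt {x : E2} (hx : ‖x‖ < 1) : ‖x‖ ^ 2 < 1 := by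
  have := norm_nonneg x
  nlinarith

theorem HalfSol.hasF {x : E2} (hf : Continuous f) (hx : ‖x‖ < 1) :
    HasFDerivAt (trU mu ph) ((2 * trM f l mu w (‖x‖ ^ 2)) • ipL x) x := by
  have h1 := (S.trV_der hf (sq_nonneg ‖x‖) (sq_lt hx))
  have h2 : HasFDerivAt (fun x : E2 => ‖x‖ ^ 2) (2 • (innerSL ℝ x)) x :=
    (hasStrictFDerivAt_norm_sq x).hasFDerivAt
  have h3 := HasDerivWithinAt.comp_hasFDerivAt (f := fun x : E2 => ‖x‖ ^ 2) x h1 h2
    (Eventually.of_forall fun y => sq_nonneg ‖y‖)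
  refine h3.congr_fderiv ?_
  ext v
  simp [ipL_apply]
  ring

theorem HalfSol.trM_cont2 {x : E2} (hf : Continuous f) (hx : ‖x‖ < 1) :
    ContinuousAt (fun x : E2 => trM f l mu w (‖x‖ ^ 2)) x := by
  have h1 := S.trM_cont hf (sq_nonneg ‖x‖) (sq_lt hx)
  have h2 : Tendsto (fun x : E2 => ‖x‖ ^ 2) (𝓝 x) (𝓝[Ici 0] (‖x‖ ^ 2)) :=
    tendsto_nhdsWithin_iff.2 ⟨(continuous_norm.pow 2).continuousAt,
      Eventually.of_forall fun y => sq_nonneg ‖y‖⟩
  exact h1.tendsto.comp h2

/-- derivative of `x ↦ u'(x) y` -/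
noncomputable def trB (f : ℝ → ℝ) (l mu : ℝ) (ph w : ℝ → ℝ) (y x : E2) : E2 →L[ℝ] ℝ :=
  (2 * trM f l mu w (‖x‖ ^ 2)) • ipL y +
    (4 * trN f l mu ph w (‖x‖ ^ 2) * ipL x y) • ipL x

omit S in
theorem ipL_comm (x y : E2) : ipL x y = ipL y x := by
  rw [ipL_apply, ipL_apply, real_inner_comm]

theorem HalfSol.hasF2 {x : E2} (hf : Continuous f) (hx : ‖x‖ < 1) (y : E2) :
    HasFDerivAt (fun x : E2 => 2 * trM f l mu w (‖x‖ ^ 2) * ipL x y) (trB f l mu ph w y x) x := by
  by_cases h0 : x = 0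
  · subst h0
    have hc := (S.trM_cont2 hf hx)
    have hB : trB f l mu ph w y 0 = (2 * trM f l mu w 0) • ipL y := by
      unfold trB
      ext v
      simp
    rw [hB]
    rw [hasFDerivAt_iff_isLittleO_nhds_zero]
    have e : (fun h : E2 => 2 * trM f l mu w (‖(0:E2) + h‖ ^ 2) * ipL (0 + h) y -
        2 * trM f l mu w (‖(0:E2)‖ ^ 2) * ipL (0:E2) y -
        ((2 * trM f l mu w 0) • ipL y) h) = fun h : E2 =>
        (2 * (trM f l mu w (‖h‖ ^ 2) - trM f l mu w (‖(0:E2)‖ ^ 2))) * ipL y h := by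
      funext h
      rw [zero_add, ipL_comm h y]
      simp
      ring
    rw [e]
    have h1 : Tendsto (fun h : E2 => 2 * (trM f l mu w (‖h‖ ^ 2) - trM f l mu w (‖(0:E2)‖ ^ 2)))
        (𝓝 0) (𝓝 0) := by
      have := ((hc.tendsto).sub_const (trM f l mu w (‖(0:E2)‖ ^ 2))).const_mul 2
      simpa using this
    have h2 : (fun h : E2 => 2 * (trM f l mu w (‖h‖ ^ 2) - trM f l mu w (‖(0:E2)‖ ^ 2)))
        =o[𝓝 0] (fun _ => (1:ℝ)) := (Asymptotics.isLittleO_one_iff ℝ).2 h1
    have h3 : (fun h : E2 => ipL y h) =O[𝓝 0] (fun h : E2 => h) := (ipL y).isBigO_id _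
    have h4 := h2.mul_isBigO h3.norm_right
    simp only [one_mul] at h4
    exact h4.of_norm_right
  · have hn : 0 < ‖x‖ := norm_pos_iff.2 h0
    have h1 := S.trM_der (by positivity : 0 < ‖x‖ ^ 2) (sq_lt hx)
    have h2 : HasFDerivAt (fun x : E2 => ‖x‖ ^ 2) (2 • (innerSL ℝ x)) x :=
      (hasStrictFDerivAt_norm_sq x).hasFDerivAt
    have h3 := (HasDerivAt.comp_hasFDerivAt (f := fun x : E2 => ‖x‖ ^ 2) x h1 h2).const_mul 2
    have h4 : HasFDerivAt (fun x : E2 => ipL x y) (ipL y) x := by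
      have : (fun x : E2 => ipL x y) = fun x => ipL y x := by
        funext x; exact ipL_comm x y
      rw [this]
      exact (ipL y).hasFDerivAt
    refine (h3.mul h4).congr_fderiv ?_
    unfold trB
    ext v
    simp [ipL_apply]
    ring

theorem HalfSol.trB_cont {x : E2} (hf : Continuous f) (hx : ‖x‖ < 1) (y : E2) :
    ContinuousAt (trB f l mu ph w y) x := by
  have hi : Continuous (fun x : E2 => ipL x) := ipL.continuous
  have hiy : Continuous (fun x : E2 => ipL x y) := by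
    have : (fun x : E2 => ipL x y) = fun x => ipL y x := by
      funext x; exact ipL_comm x y
    rw [this]
    exact (ipL y).continuous
  unfold trB
  apply ContinuousAt.fun_add
  · exact (((S.trM_cont2 hf hx).const_mul 2).smul continuousAt_const)
  · by_cases h0 : x = 0
    · subst h0
      have hz : (4 * trN f l mu ph w (‖(0:E2)‖ ^ 2) * ipL (0:E2) y) • ipL (0:E2) = 0 := by
        simp
      unfold ContinuousAt
      beta_reduce
      rw [hz]
      have h1 : Tendsto (fun x : E2 => ‖x‖ ^ 2) (𝓝[≠] 0) (𝓝[>] 0) := by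
        rw [tendsto_nhdsWithin_iff]
        constructor
        · have : ContinuousAt (fun x : E2 => ‖x‖ ^ 2) 0 := (continuous_norm.pow 2).continuousAt
          have h := this.tendsto
          simp only [norm_zero, ne_eq, OfNat.ofNat_ne_zero, not_false_eq_true, zero_pow] at h
          exact h.mono_left nhdsWithin_le_nhds
        · filter_upwards [self_mem_nhdsWithin] with y hy
          have : 0 < ‖y‖ := norm_pos_iff.2 hy
          exact (by positivity : 0 < ‖y‖ ^ 2)
      have h2 := (S.trN_lim hf).comp h1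
      have h3 : Tendsto (fun x : E2 => 4 * |‖x‖ ^ 2 * trN f l mu ph w (‖x‖ ^ 2)| * ‖y‖) (𝓝[≠] 0)
          (𝓝 0) := by
        have := ((h2.abs).const_mul 4).mul_const ‖y‖
        simpa using this
      have h4 : Tendsto (fun x : E2 => 4 * |‖x‖ ^ 2 * trN f l mu ph w (‖x‖ ^ 2)| * ‖y‖) (𝓝 0)
          (𝓝 0) := by
        rw [← nhdsNE_sup_pure, tendsto_sup]
        refine ⟨h3, ?_⟩
        rw [tendsto_pure_left]
        intro s hs
        have : (0:ℝ) ∈ s := mem_of_mem_nhds hs
        simpa using this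
      have h5 : ∀ x : E2, ‖(4 * trN f l mu ph w (‖x‖ ^ 2) * ipL x y) • ipL x‖ ≤
          4 * |‖x‖ ^ 2 * trN f l mu ph w (‖x‖ ^ 2)| * ‖y‖ := by
        intro x
        have h6 : |ipL x y| ≤ ‖x‖ * ‖y‖ := by
          rw [ipL_apply]; exact abs_real_inner_le_norm x y
        rw [norm_smul, norm_ipL, Real.norm_eq_abs, abs_mul, abs_mul, abs_mul,
          abs_of_pos (by norm_num : (0:ℝ) < 4), abs_of_nonneg (sq_nonneg ‖x‖)]
        calc 4 * |trN f l mu ph w (‖x‖ ^ 2)| * |ipL x y| * ‖x‖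
            ≤ 4 * |trN f l mu ph w (‖x‖ ^ 2)| * (‖x‖ * ‖y‖) * ‖x‖ := by gcongr
          _ = _ := by ring
      exact squeeze_zero_norm h5 h4
    · have hn : 0 < ‖x‖ := norm_pos_iff.2 h0
      have h1 := S.trN_cont hf (by positivity : 0 < ‖x‖ ^ 2) (sq_lt hx)
      have h2 : ContinuousAt (fun x : E2 => trN f l mu ph w (‖x‖ ^ 2)) x :=
        ContinuousAt.comp (f := fun x : E2 => ‖x‖ ^ 2) h1 (continuous_norm.pow 2).continuousAt
      exact ((h2.const_mul 4).mul hiy.continuousAt).smul hi.continuousAt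

theorem HalfSol.contDiff (hf : Continuous f) :
    ContDiffOn ℝ 2 (trU mu ph) (Metric.ball 0 1) := by
  have hm : ∀ {x : E2}, x ∈ Metric.ball (0:E2) 1 → ‖x‖ < 1 := fun hx => by
    rwa [mem_ball_zero_iff] at hx
  rw [show (2 : WithTop ℕ∞) = 1 + 1 by norm_num,
    contDiffOn_succ_iff_fderiv_of_isOpen Metric.isOpen_ball]
  refine ⟨fun x hx => (S.hasF hf (hm hx)).differentiableAt.differentiableWithinAt, by simp, ?_⟩
  rw [contDiffOn_clm_apply]
  intro y
  have h1 : ContDiffOn ℝ 1 (fun x : E2 => 2 * trM f l mu w (‖x‖ ^ 2) * ipL x y)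
      (Metric.ball 0 1) := by
    rw [show (1 : WithTop ℕ∞) = 0 + 1 by norm_num,
      contDiffOn_succ_iff_fderiv_of_isOpen Metric.isOpen_ball]
    refine ⟨fun x hx => (S.hasF2 hf (hm hx) y).differentiableAt.differentiableWithinAt, by simp, ?_⟩
    rw [contDiffOn_zero]
    have h2 : ContinuousOn (trB f l mu ph w y) (Metric.ball 0 1) := fun x hx =>
      (S.trB_cont hf (hm hx) y).continuousWithinAt
    exact h2.congr fun x hx => (S.hasF2 hf (hm hx) y).fderiv
  refine h1.congr fun x hx => ?_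
  rw [(S.hasF hf (hm hx)).fderiv]
  rfl

theorem HalfSol.second {x : E2} (hf : Continuous f) (hx : ‖x‖ < 1) (v y : E2) :
    fderiv ℝ (fderiv ℝ (trU mu ph)) x v y = trB f l mu ph w y x v := by
  have hxb : x ∈ Metric.ball (0:E2) 1 := by rwa [mem_ball_zero_iff]
  have h1 : ContDiffAt ℝ 1 (fderiv ℝ (trU mu ph)) x :=
    ((S.contDiff hf).contDiffAt (Metric.isOpen_ball.mem_nhds hxb)).fderiv_right (by norm_num)
  have h2 := (h1.differentiableAt (by norm_num)).hasFDerivAt
  have h3 := h2.clm_apply (hasFDerivAt_const y x)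
  have hev : (fun x => fderiv ℝ (trU mu ph) x y) =ᶠ[𝓝 x]
      fun x : E2 => 2 * trM f l mu w (‖x‖ ^ 2) * ipL x y := by
    filter_upwards [Metric.isOpen_ball.mem_nhds hxb] with z hz
    rw [(S.hasF hf (by rwa [mem_ball_zero_iff] at hz)).fderiv]
    rfl
  have h4 := h3.unique ((S.hasF2 hf hx y).congr_of_eventuallyEq hev)
  rw [← h4]
  simp

theorem HalfSol.lap {x : E2} (hf : Continuous f) (hx : ‖x‖ < 1) :
    -(Laplacian.laplacian (trU mu ph) x) = 4 * l * f (trU mu ph x) := by
  rw [laplacian_eq, S.second hf hx, S.second hf hx]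
  have hx2 : ‖x‖ ^ 2 = x 0 ^ 2 + x 1 ^ 2 := by
    rw [EuclideanSpace.norm_sq_eq]
    simp [Fin.sum_univ_two]
  unfold trB
  have i0 : ipL x e0 = x 0 := by
    rw [ipL_apply]; simp [e0, PiLp.inner_apply]
  have i1 : ipL x e1 = x 1 := by
    rw [ipL_apply]; simp [e1, PiLp.inner_apply]
  have j0 : ipL e0 e0 = (1:ℝ) := by
    rw [ipL_apply]; simp [e0]
  have j1 : ipL e1 e1 = (1:ℝ) := by
    rw [ipL_apply]; simp [e1]
  simp only [add_apply, smul_apply, i0, i1, j0, j1, smul_eq_mul, mul_one]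
  have e : 4 * trM f l mu w (‖x‖ ^ 2) + 4 * (‖x‖ ^ 2 * trN f l mu ph w (‖x‖ ^ 2)) =
      -(4 * l * f (trU mu ph x)) := by
    unfold trU
    by_cases h0 : ‖x‖ ^ 2 = 0
    · rw [h0, trM_zero, trV_zero]
      ring
    · unfold trN
      have hc : ∀ r a : ℝ, r ≠ 0 → r * (a / r) = a := fun r a h => by field_simp
      rw [hc _ _ h0]
      ring
  unfold trU at e ⊢
  rw [hx2] at e ⊢
  linarith

theorem HalfSol.contU (hf : Continuous f) : ContinuousOn (trU mu ph) (Metric.closedBall 0 1) := by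
  intro x hx
  rw [mem_closedBall_zero_iff] at hx
  by_cases h0 : x = 0
  · subst h0
    exact (S.hasF hf (by simp)).continuousAt.continuousWithinAt
  · have hn : 0 < ‖x‖ := norm_pos_iff.2 h0
    have hn2 : 0 < ‖x‖ ^ 2 := by positivity
    have h1 : ContinuousWithinAt (fun x : E2 => ph (-log (‖x‖ ^ 2))) (Metric.closedBall 0 1) x := by
      have ha : ContinuousWithinAt (fun x : E2 => -log (‖x‖ ^ 2)) (Metric.closedBall 0 1) x :=
        (((continuous_norm.pow 2).continuousAt).log hn2.ne').neg.continuousWithinAt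
      have hb : MapsTo (fun x : E2 => -log (‖x‖ ^ 2)) (Metric.closedBall 0 1) (Ici 0) := by
        intro y hy
        rw [mem_closedBall_zero_iff] at hy
        have : log (‖y‖ ^ 2) ≤ 0 := Real.log_nonpos (sq_nonneg _) (by
          have := norm_nonneg y
          nlinarith)
        simpa using this
      have hc : ContinuousWithinAt ph (Ici 0) (-log (‖x‖ ^ 2)) :=
        S.cont _ (hb (by rwa [mem_closedBall_zero_iff]))
      exact ContinuousWithinAt.comp (f := fun x : E2 => -log (‖x‖ ^ 2)) hc ha hb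
    refine h1.congr_of_eventuallyEq ?_ ?_
    · have hc : ContinuousAt (fun y : E2 => ‖y‖) x := continuous_norm.continuousAt
      filter_upwards [nhdsWithin_le_nhds (hc.eventually_lt (g := fun _ => ‖x‖ * 2)
        continuousAt_const (by linarith)), nhdsWithin_le_nhds
        (continuousAt_const.eventually_lt (f := fun _ => (0:ℝ)) hc hn)] with y _ hy
      unfold trU
      rw [trV_of_ne]
      positivity
    · unfold trU
      rw [trV_of_ne hn2.ne']

omit S in
theorem HalfSol.isSol {g : ℝ → ℝ} {l mu : ℝ} {ph w : ℝ → ℝ}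
    (S : HalfSol (ff g) l mu ph w) (hf : Continuous (ff g)) : IsSol g (4 * l) (trU mu ph) where
  lam_pos := by have := S.l_pos; positivity
  cont := S.contU hf
  smooth := S.contDiff hf
  bdry := by
    intro x hx
    unfold trU
    rw [hx, one_pow, trV_of_ne one_ne_zero, Real.log_one, neg_zero, S.zero]
  pos := by
    intro x hx
    unfold trU
    by_cases h0 : ‖x‖ ^ 2 = 0
    · rw [h0, trV_zero]; exact S.mu_pos
    · rw [trV_of_ne h0]
      exact S.pos _ (neg_log_pos (lt_of_le_of_ne (sq_nonneg _) (Ne.symm h0)) (sq_lt hx))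
  radial := by
    intro x y hxy _
    unfold trU
    rw [hxy]
  eqn := by
    intro x hx
    rw [S.lap hf hx]
    have hpos : 0 < trU mu ph x := by
      unfold trU
      by_cases h0 : ‖x‖ ^ 2 = 0
      · rw [h0, trV_zero]; exact S.mu_pos
      · rw [trV_of_ne h0]
        exact S.pos _ (neg_log_pos (lt_of_le_of_ne (sq_nonneg _) (Ne.symm h0)) (sq_lt hx))
    unfold ff hOf
    field_simp
    ring

theorem HalfSol.le_mu {x : E2} (hx : ‖x‖ < 1) : trU mu ph x ≤ trU mu ph 0 := by
  unfold trU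
  rw [norm_zero, zero_pow two_ne_zero, trV_zero]
  by_cases h0 : ‖x‖ ^ 2 = 0
  · rw [h0, trV_zero]
  · rw [trV_of_ne h0]
    exact S.le _ (neg_log_pos (lt_of_le_of_ne (sq_nonneg _) (Ne.symm h0)) (sq_lt hx))

theorem HalfSol.grad {x : E2} (hf : Continuous f) (hx0 : x ≠ 0) (hx : ‖x‖ < 1) :
    ‖gradient (trU mu ph) x‖ ^ 2 = 4 * w (-log (‖x‖ ^ 2)) ^ 2 / ‖x‖ ^ 2 := by
  have hn : 0 < ‖x‖ := norm_pos_iff.2 hx0
  have h1 : ‖gradient (trU mu ph) x‖ = ‖fderiv ℝ (trU mu ph) x‖ := by
    simp [gradient]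
  rw [h1, (S.hasF hf hx).fderiv, norm_smul, norm_ipL, trM_of_ne (by positivity), mul_pow,
    Real.norm_eq_abs, sq_abs]
  field_simp
  ring

theorem HalfSol.energyU (hf : Continuous f) :
    energy (trU mu ph) = 4 * π * ∫ t in Ioi (0:ℝ), w t ^ 2 := by
  unfold energy
  set F : ℝ → ℝ := fun r => if r < 1 then 4 * w (-log (r ^ 2)) ^ 2 / r ^ 2 else 0 with hF
  have h1 : ∫ x in Metric.ball (0 : E2) 1, ‖gradient (trU mu ph) x‖ ^ 2 = ∫ x : E2, F ‖x‖ := by
    rw [← integral_indicator measurableSet_ball]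
    apply integral_congr_ae
    have h0 : ∀ᵐ x : E2, x ≠ 0 := by
      rw [ae_iff]
      simp
    filter_upwards [h0] with x hx0
    by_cases hx : ‖x‖ < 1
    · rw [indicator_of_mem (by rwa [mem_ball_zero_iff])]
      simp only [hF, hx, if_true]
      exact S.grad hf hx0 hx
    · rw [indicator_of_notMem (by rwa [mem_ball_zero_iff])]
      simp only [hF, hx, if_false]
  rw [h1, integral_fun_norm_addHaar]
  have hdim : Module.finrank ℝ E2 = 2 := by simp
  have hvol : (volume : Measure E2).real (Metric.ball 0 1) = π := by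
    unfold Measure.real
    rw [EuclideanSpace.volume_ball]
    simp only [Real.sq_sqrt Real.pi_nonneg, Fintype.card_fin, ENNReal.ofReal_one, one_pow, one_mul]
    have hG : Real.Gamma (((2:ℕ):ℝ) / 2 + 1) = 1 := by
      have : ((2:ℕ):ℝ) / 2 + 1 = 2 := by norm_num
      rw [this]; exact Real.Gamma_two
    rw [hG, div_one, ENNReal.toReal_ofReal Real.pi_nonneg]
  rw [hdim, hvol]
  have h2 : ∫ y in Ioi (0:ℝ), y ^ (2 - 1) • F y =
      ∫ y in Ioo (0:ℝ) 1, 4 * w (-log (y ^ 2)) ^ 2 / y := by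
    rw [show Ioo (0:ℝ) 1 = Ioi 0 ∩ Iio 1 by rw [Ioi_inter_Iio],
      ← setIntegral_indicator measurableSet_Iio]
    apply setIntegral_congr_fun measurableSet_Ioi
    intro y hy
    have hy' : (0:ℝ) < y := hy
    by_cases hy1 : y < 1
    · simp only [hF, hy1, if_true]
      rw [indicator_of_mem (by exact hy1)]
      simp
      field_simp
    · simp only [hF, hy1, if_false]
      rw [indicator_of_notMem (by exact hy1)]
      simp
  have himg : (fun t : ℝ => exp (-t / 2)) '' Ioi 0 = Ioo 0 1 := by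
    ext y
    constructor
    · rintro ⟨t, ht, rfl⟩
      have ht' : (0:ℝ) < t := ht
      exact ⟨exp_pos _, by rw [Real.exp_lt_one_iff]; linarith⟩
    · rintro ⟨hy0, hy1⟩
      refine ⟨-(2 * log y), ?_, ?_⟩
      · have := Real.log_neg hy0 hy1
        show (0:ℝ) < _
        linarith
      · show exp (-(-(2 * log y)) / 2) = y
        rw [show -(-(2 * log y)) / 2 = log y by ring, exp_log hy0]
  have h3 : ∫ y in Ioo (0:ℝ) 1, 4 * w (-log (y ^ 2)) ^ 2 / y = 2 * ∫ t in Ioi (0:ℝ), w t ^ 2 := by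
    rw [← himg, integral_image_eq_integral_abs_deriv_smul (f' := fun t => exp (-t / 2) * (-1 / 2))
      measurableSet_Ioi ?_ ?_, ← integral_const_mul]
    · apply setIntegral_congr_fun measurableSet_Ioi
      intro t _
      have h4 : -log (exp (-t / 2) ^ 2) = t := by
        rw [Real.log_pow, Real.log_exp]
        push_cast
        ring
      show |exp (-t / 2) * (-1 / 2)| • (4 * w (-log (exp (-t / 2) ^ 2)) ^ 2 / exp (-t / 2)) = _
      rw [h4, abs_mul, abs_of_pos (exp_pos _), smul_eq_mul]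
      have := (exp_pos (-t / 2)).ne'
      rw [show |(-1:ℝ) / 2| = 1 / 2 by norm_num]
      field_simp
      ring
    · intro t _
      have : HasDerivAt (fun t : ℝ => -t / 2) (-1 / 2) t := by
        simpa using ((hasDerivAt_id t).neg).div_const 2
      exact this.exp.hasDerivWithinAt
    · intro a _ b _ hab
      have := Real.exp_injective hab
      linarith
  rw [h2, h3]
  simp
  ring

omit S in
/-- a solution on the half line gives a classical radial solution on the disc -/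
theorem HalfSol.transfer {g : ℝ → ℝ} (hg : Admissible g) {l mu : ℝ} {ph w : ℝ → ℝ}
    (S : HalfSol (ff g) l mu ph w) :
    ∃ u : E2 → ℝ, IsSol g (4 * l) u ∧ u 0 = mu ∧ (∀ x : E2, ‖x‖ < 1 → u x ≤ u 0) ∧
      energy u = 4 * π * ∫ t in Ioi (0:ℝ), w t ^ 2 := by
  have hf : Continuous (ff g) := by
    have h1 : Continuous (deriv g) := hg.smooth.continuous_deriv (le_refl 1)
    have h2 : Continuous g := hg.smooth.continuous
    unfold ff
    fun_prop
  refine ⟨trU mu ph, S.isSol hf, ?_, fun x hx => S.le_mu hx, S.energyU hf⟩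
  unfold trU
  rw [norm_zero, zero_pow two_ne_zero, trV_zero]

end Transfer

end MPee
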