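import Pool.Agent.Lib.EEQ.Final
import Pool.Agent.Lib.EEQ.Transfer
import Pool.Agent.Lib.EEQ.CaseOne2

/-! Assembly: every admissible `g`, every `A ≠ 0`, every `p ≤ 2`. -/

open Real Set MeasureTheory Filter Topology

namespace MPee

/-- the expansion `4π + A/μ^p + o(μ^{-p})` along a sequence -/
def Expands (A p : ℝ) (u : ℕ → E2 → ℝ) : Prop :=
  Tendsto (fun k => (energy (u k) - 4 * π - A / (u k 0) ^ p) * (u k 0) ^ p) atTop (𝓝 0)

/-- first maximum point -/
theorem first_max {G f : ℝ → ℝ} (h : GData G f) {v1 : ℝ} (hv1 : 0 ≤ v1) (hf : f v1 ≤ 0)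
    (hG : G 0 < G v1) : ∃ b, 0 < b ∧ b ≤ v1 ∧ f b = 0 ∧ G v1 ≤ G b ∧ ∀ v ∈ Ico 0 b, G v < G b := by
  obtain ⟨m, hm, hmax⟩ := isCompact_Icc.exists_isMaxOn (nonempty_Icc.2 hv1)
    h.contG.continuousOn (s := Icc 0 v1)
  set S : Set ℝ := {v | v ∈ Icc 0 v1 ∧ G m ≤ G v} with hS
  have hcl : IsClosed S := isClosed_Icc.inter (isClosed_le continuous_const h.contG)
  have hbd : BddBelow S := ⟨0, fun v hv => hv.1.1⟩
  have hne : S.Nonempty := ⟨m, hm, le_rfl⟩
  have hb := hcl.csInf_mem hne hbd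
  set b := sInf S with hbdef
  have hbm : ∀ v ∈ Icc 0 v1, G v ≤ G b := fun v hv => (hmax hv).trans hb.2
  have hb1 : G v1 ≤ G b := hbm v1 ⟨hv1, le_rfl⟩
  have hb0 : 0 < b := by
    rcases eq_or_lt_of_le hb.1.1 with h0 | h0
    · rw [← h0] at hb1; linarith
    · exact h0
  refine ⟨b, hb0, hb.1.2, ?_, hb1, ?_⟩
  · rcases eq_or_lt_of_le hb.1.2 with h1 | h1
    · apply le_antisymm
      · rw [h1]; exact hf
      · -- left derivative at a maximum
        by_contra hneg
        push Not at hneg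
        have h2 := (h.der b).tendsto_slope
        have h3 : ∀ᶠ y in 𝓝[<] b, slope G b y < 0 :=
          (h2.mono_left (nhdsWithin_mono _ fun y (hy : y < b) => hy.ne)).eventually
            (gt_mem_nhds hneg)
        have h4 : ∀ᶠ y in 𝓝[<] b, y ∈ Ioo 0 b := Ioo_mem_nhdsLT hb0
        obtain ⟨y, hy1, hy2⟩ := (h3.and h4).exists
        have h5 := hbm y ⟨hy2.1.le, hy2.2.le.trans hb.1.2⟩
        rw [slope_def_field, div_neg_iff] at hy1
        rcases hy1 with ⟨h6, -⟩ | ⟨-, h6⟩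
        · linarith
        · linarith [hy2.2]
    · have h2 : IsLocalMax G b := by
        filter_upwards [Icc_mem_nhds hb0 h1] with y hy
        exact hbm y hy
      exact h2.hasDerivAt_eq_zero (h.der b)
  · intro v hv
    by_contra hcon
    push Not at hcon
    have : v ∈ S := ⟨⟨hv.1, hv.2.le.trans hb.1.2⟩, hb.2.trans hcon⟩
    exact absurd (csInf_le hbd this) (not_le.2 hv.2)

/-- Case I: high energy solutions. -/
theorem caseI_sol {g : ℝ → ℝ} (hg : Admissible g) (hI : ∀ V : ℝ, ∃ v, V ≤ v ∧ ff g v ≤ 0) (n : ℕ) :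
    ∃ lam u, IsSol g lam u ∧ (∀ x : E2, ‖x‖ < 1 → u x ≤ u 0) ∧ (n:ℝ) ≤ u 0 ∧
      exp (u 0) ≤ energy u := by
  have h := gdata hg
  set G := GG g with hG
  obtain ⟨C1, hC1⟩ := (isCompact_Icc (a := (0:ℝ)) (b := 1)).exists_bound_of_continuousOn
    h.contG.continuousOn
  obtain ⟨Bn, hBn⟩ := (isCompact_Icc (a := (0:ℝ)) (b := n)).exists_bound_of_continuousOn
    h.contG.continuousOn
  have hC1' : ∀ v ∈ Icc (0:ℝ) 1, G v ≤ C1 := fun v hv => (le_abs_self _).trans (hC1 v hv)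
  have hBn' : ∀ v ∈ Icc (0:ℝ) n, G v ≤ Bn := fun v hv => (le_abs_self _).trans (hBn v hv)
  have hquart : ∀ᶠ v in atTop, 1 / 4 * exp (v ^ 2) ≤ G v := by
    filter_upwards [h.lim.eventually (lt_mem_nhds (by norm_num : (1:ℝ) / 4 < 1 / 2))] with v hv
    have e : G v = G v * exp (-v ^ 2) * exp (v ^ 2) := by
      rw [mul_assoc, ← exp_add]; simp
    rw [e]
    exact mul_le_mul_of_nonneg_right hv.le (exp_pos _).le
  have hGtop : Tendsto G atTop atTop := by
    refine tendsto_atTop_mono' atTop hquart ?_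
    apply Tendsto.const_mul_atTop (by norm_num)
    exact Real.tendsto_exp_atTop.comp (tendsto_pow_atTop (by norm_num))
  -- for large b: G b / 2 - C1 ≥ exp b
  have hexpb : ∀ᶠ v in atTop, exp v ≤ G v / 2 - C1 := by
    have h1 : ∀ᶠ v : ℝ in atTop, C1 ≤ exp v := Real.tendsto_exp_atTop.eventually_ge_atTop C1
    filter_upwards [hquart, h1, eventually_ge_atTop (4:ℝ)] with v h2 h3 h4
    have h5 : exp (v ^ 2) = exp v * exp (v ^ 2 - v) := by rw [← exp_add]; congr 1; ring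
    have h6 : 16 ≤ exp (v ^ 2 - v) := by
      have h7 : exp 3 ≤ exp (v ^ 2 - v) := exp_le_exp.2 (by nlinarith)
      have h8 : (2:ℝ) ≤ exp 1 := by
        have := Real.add_one_le_exp (1:ℝ); linarith
      have h9 : exp 3 = exp 1 ^ 3 := by rw [← exp_nat_mul]; norm_num
      have h10 : (2.7:ℝ) ≤ exp 1 := by
        have := Real.exp_one_gt_d9; linarith
      have h11 : (2.7:ℝ) ^ 3 ≤ exp 1 ^ 3 := pow_le_pow_left₀ (by norm_num) h10 3
      rw [← h9] at h11
      norm_num at h11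
      linarith
    have h7 : exp v * 16 ≤ exp (v ^ 2) := by
      rw [h5]; exact mul_le_mul_of_nonneg_left h6 (exp_pos _).le
    linarith
  obtain ⟨b0, hb0⟩ := eventually_atTop.1 hexpb
  obtain ⟨Bb, hBb⟩ := (isCompact_Icc (a := (0:ℝ)) (b := b0)).exists_bound_of_continuousOn
    h.contG.continuousOn
  have hBb' : ∀ v ∈ Icc (0:ℝ) b0, G v ≤ Bb := fun v hv => (le_abs_self _).trans (hBb v hv)
  obtain ⟨V, hV⟩ := eventually_atTop.1 ((hGtop.eventually_gt_atTop (Bn + 1)).and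
    ((hGtop.eventually_gt_atTop (2 * C1 + 2)).and ((hGtop.eventually_gt_atTop Bb).and
    ((hGtop.eventually_gt_atTop (G 0)).and (eventually_ge_atTop 0)))))
  obtain ⟨v1, hv1, hfv1⟩ := hI V
  obtain ⟨q1, q2, q3, q4, q5⟩ := hV v1 hv1
  obtain ⟨b, hb, hbv, hfb, hGb, hrec⟩ := first_max h q5 hfv1 q4
  obtain ⟨l, mu, ph, w, S, hmub, hGmu, hE⟩ := caseI h hC1' hb hfb hrec (by linarith)
  obtain ⟨u, hu, hu0, humax, hen⟩ := S.transfer hg
  have hmu : 0 < mu := lt_of_lt_of_le (S.pos 1 one_pos) (S.le 1 one_pos)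
  refine ⟨4 * l, u, hu, humax, ?_, ?_⟩
  · rw [hu0]
    by_contra hcon
    push Not at hcon
    have := hBn' mu ⟨hmu.le, hcon.le⟩
    linarith
  · rw [hu0, hen]
    have hbb0 : b0 ≤ b := by
      by_contra hcon
      push Not at hcon
      have := hBb' b ⟨hb.le, hcon.le⟩
      linarith
    have h1 := hb0 b hbb0
    have h2 : exp mu ≤ exp b := exp_le_exp.2 hmub
    have h3 : exp mu ≤ ∫ t in Ioi (0:ℝ), w t ^ 2 := by linarith
    have h4 : 1 ≤ 4 * π := by
      have := Real.pi_gt_three; linarith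
    have h5 := exp_pos mu
    nlinarith

theorem not_expands_of_exp {u : ℕ → E2 → ℝ} (hlim : Tendsto (fun k => u k 0) atTop atTop)
    (hE : ∀ k, exp (u k 0) ≤ energy (u k)) (A p : ℝ) : ¬ Expands A p u := by
  intro hexp
  unfold Expands at hexp
  have h1 : Tendsto (fun x : ℝ => exp (1 * x) / x ^ (-p)) atTop atTop :=
    tendsto_exp_mul_div_rpow_atTop (-p) 1 one_pos
  have h2 := h1.comp hlim
  have h3 := hexp.eventually (gt_mem_nhds (by norm_num : (0:ℝ) < 1))
  have h4 := h2.eventually_ge_atTop (2 * (1 + A))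
  have h5 : ∀ᶠ k in atTop, 8 * π ≤ exp (u k 0) :=
    (Real.tendsto_exp_atTop.comp hlim).eventually_ge_atTop (8 * π)
  obtain ⟨k, k3, k4, k5, k0⟩ := (h3.and (h4.and (h5.and (hlim.eventually_gt_atTop 0)))).exists
  have hp : 0 < (u k 0) ^ p := Real.rpow_pos_of_pos k0 p
  simp only [Function.comp_apply, one_mul] at k4
  rw [Real.rpow_neg k0.le, div_inv_eq_mul] at k4
  have e : (energy (u k) - 4 * π - A / (u k 0) ^ p) * (u k 0) ^ p =
      (energy (u k) - 4 * π) * (u k 0) ^ p - A := by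
    field_simp
  rw [e] at k3
  have h6 : exp (u k 0) / 2 * (u k 0) ^ p ≤ (energy (u k) - 4 * π) * (u k 0) ^ p := by
    apply mul_le_mul_of_nonneg_right _ hp.le
    linarith [hE k]
  linarith

/-- From a violating solution at every height to a violating blow-up sequence. -/
theorem exists_bound_of_expands {g : ℝ → ℝ} {A p : ℝ}
    (hall : ∀ lam u, IsBlowUp g lam u → Expands A p u) {ε : ℝ} (hε : 0 < ε) :
    ∃ M0 : ℝ, 1 ≤ M0 ∧ ∀ lam u, IsSol g lam u → (∀ x : E2, ‖x‖ < 1 → u x ≤ u 0) → M0 ≤ u 0 →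
      |(energy u - 4 * π - A / (u 0) ^ p) * (u 0) ^ p| < ε := by
  by_contra hcon
  push Not at hcon
  have h1 : ∀ n : ℕ, ∃ lam u, IsSol g lam u ∧ (∀ x : E2, ‖x‖ < 1 → u x ≤ u 0) ∧ (n:ℝ) + 1 ≤ u 0 ∧
      ε ≤ |(energy u - 4 * π - A / (u 0) ^ p) * (u 0) ^ p| := fun n => by
    obtain ⟨lam, u, a, b, c, d⟩ := hcon (n + 1) (by linarith [(Nat.cast_nonneg n : (0:ℝ) ≤ n)])
    exact ⟨lam, u, a, b, c, d⟩
  choose lam u hs hm hn hv using h1
  have hb : IsBlowUp g lam u :=
    ⟨hs, hm, tendsto_atTop_mono (fun n => by linarith [hn n]) tendsto_natCast_atTop_atTop⟩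
  have h2 := (hall lam u hb).abs
  rw [abs_zero] at h2
  obtain ⟨k, hk⟩ := (h2.eventually (gt_mem_nhds hε)).exists
  linarith [hv k]

/-- For every admissible `g`, `A ≠ 0`, `p ≤ 2` some blow-up sequence violates the expansion. -/
theorem main {g : ℝ → ℝ} (hg : Admissible g) {A : ℝ} (hA : A ≠ 0) {p : ℝ} (hp : p ≤ 2) :
    ∃ lam u, IsBlowUp g lam u ∧ ¬ Expands A p u := by
  by_cases hI : ∀ V : ℝ, ∃ v, V ≤ v ∧ ff g v ≤ 0
  · choose lam u h1 h2 h3 h4 using caseI_sol hg hI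
    have hlim : Tendsto (fun k => u k 0) atTop atTop :=
      tendsto_atTop_mono h3 tendsto_natCast_atTop_atTop
    exact ⟨lam, u, ⟨h1, h2, hlim⟩, not_expands_of_exp hlim h4 A p⟩
  · push Not at hI
    obtain ⟨Vf, hVf⟩ := hI
    by_contra hcon
    push Not at hcon
    have h := gdata hg
    obtain ⟨M0, hM1, hM0⟩ := exists_bound_of_expands (g := g) (A := A) (p := p) hcon
      (half_pos (abs_pos.2 hA))
    have hpi := Real.pi_pos
    -- the bound for half-line solutions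
    have key : ∀ l mu ph w, HalfSol (ff g) l mu ph w → M0 ≤ mu →
        0 < mu ∧ mu ^ p ≤ mu ^ 2 ∧ 0 < mu ^ p ∧
        |(4 * π * (∫ t in Ioi (0:ℝ), w t ^ 2) - 4 * π) * mu ^ p - A| < |A| / 2 := by
      intro l mu ph w S hmu
      obtain ⟨u, hu, hu0, humax, hen⟩ := S.transfer hg
      have h1 := hM0 _ u hu humax (by rw [hu0]; exact hmu)
      have hmu1 : 1 ≤ mu := hM1.trans hmu
      have hmp : 0 < mu := by linarith
      have hp0 : 0 < mu ^ p := Real.rpow_pos_of_pos hmp p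
      refine ⟨hmp, ?_, hp0, ?_⟩
      · calc mu ^ p ≤ mu ^ (2:ℝ) := Real.rpow_le_rpow_of_exponent_le hmu1 hp
          _ = mu ^ 2 := by norm_cast
      · rw [hu0, hen] at h1
        have e : (4 * π * (∫ t in Ioi (0:ℝ), w t ^ 2) - 4 * π - A / mu ^ p) * mu ^ p =
            (4 * π * (∫ t in Ioi (0:ℝ), w t ^ 2) - 4 * π) * mu ^ p - A := by
          field_simp
        rwa [e] at h1
    rcases lt_or_gt_of_ne hA with hneg | hpos
    · -- A < 0
      refine not_all_small h hVf (c := -A / (8 * π)) (M0 := M0) (by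
        apply div_pos (by linarith) (by positivity)) ?_
      intro l mu ph w S hmu
      obtain ⟨k1, k2, k3, k4⟩ := key l mu ph w S hmu
      set E := ∫ t in Ioi (0:ℝ), w t ^ 2 with hE
      rw [abs_of_neg hneg, abs_lt] at k4
      have h1 : (4 * π * E - 4 * π) * mu ^ p ≤ A / 2 := by linarith [k4.2]
      -- (E-1) μ^p ≤ A/(8π)
      have h2 : -A / (8 * π) / mu ^ 2 ≤ 1 - E := by
        have h3 : -A / (8 * π) / mu ^ 2 ≤ -A / (8 * π) / mu ^ p := by
          apply div_le_div_of_nonneg_left _ k3 k2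
          exact (div_pos (by linarith) (by positivity)).le
        refine h3.trans ?_
        rw [div_le_iff₀ k3, div_le_iff₀ (by positivity)]
        nlinarith
      linarith
    · refine not_all_large h hVf (c := A / (8 * π)) (M0 := M0) (by positivity) ?_
      intro l mu ph w S hmu
      obtain ⟨k1, k2, k3, k4⟩ := key l mu ph w S hmu
      set E := ∫ t in Ioi (0:ℝ), w t ^ 2 with hE
      rw [abs_of_pos hpos, abs_lt] at k4
      have h1 : A / 2 ≤ (4 * π * E - 4 * π) * mu ^ p := by linarith [k4.1]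
      have h2 : A / (8 * π) / mu ^ 2 ≤ E - 1 := by
        have h3 : A / (8 * π) / mu ^ 2 ≤ A / (8 * π) / mu ^ p := by
          apply div_le_div_of_nonneg_left _ k3 k2
          positivity
        refine h3.trans ?_
        rw [div_le_iff₀ k3, div_le_iff₀ (by positivity)]
        nlinarith
      linarith

end MPee
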