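import Pool.Agent.Lib.EEQ.Max2

/-! MP_ee476b_an, Q2, module M4 (second half): from the integrated Euler-Lagrange equation of a
maximiser to the full structure `Maxi`. -/

open Real Set MeasureTheory Filter Topology

namespace MPee

/-- a continuous antitone function which is square integrable on the half line is nonnegative and
tends to zero. -/
theorem anti_sq_int {w : ℝ → ℝ} (ha : Antitone w)
    (hi : IntegrableOn (fun t => w t ^ 2) (Ioi 0)) : (∀ t, 0 ≤ w t) ∧ Tendsto w atTop (𝓝 0) := by
  have key : ∀ (c t0 : ℝ), 0 < c → 0 ≤ t0 → ¬ ∀ t, t0 < t → c ≤ w t ^ 2 := by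
    intro c t0 hc ht0 hcon
    have h1 : IntegrableOn (fun t => w t ^ 2) (Ioi t0) := hi.mono_set (Ioi_subset_Ioi ht0)
    have h2 : IntegrableOn (fun _ : ℝ => c) (Ioi t0) := by
      refine Integrable.mono' h1 aestronglyMeasurable_const ?_
      filter_upwards [ae_restrict_mem measurableSet_Ioi] with t ht
      rw [Real.norm_eq_abs, abs_of_pos hc]
      exact hcon t ht
    rw [integrableOn_const_iff] at h2
    rcases h2 with h2 | h2
    · rw [enorm_eq_zero] at h2
      exact hc.ne' h2
    · rw [Real.volume_Ioi] at h2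
      exact lt_irrefl _ h2
  have hnn : ∀ t, 0 ≤ w t := by
    intro t
    by_contra hneg
    push Not at hneg
    refine key (w t ^ 2) (max t 0) (by nlinarith) (le_max_right _ _) fun s hs => ?_
    have h1 : w s ≤ w t := ha ((le_max_left _ _).trans hs.le)
    nlinarith
  refine ⟨hnn, ?_⟩
  have hb : BddBelow (range w) := ⟨0, by rintro _ ⟨t, rfl⟩; exact hnn t⟩
  have h1 := tendsto_atTop_ciInf ha hb
  have h2 : 0 ≤ ⨅ t, w t := le_ciInf hnn
  rcases eq_or_lt_of_le h2 with h3 | h3
  · rwa [← h3] at h1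
  · exfalso
    refine key ((⨅ t, w t) ^ 2) 0 (by positivity) le_rfl fun t _ => ?_
    have h4 : (⨅ t, w t) ≤ w t := ciInf_le hb t
    exact pow_le_pow_left₀ h2 h4 2

section
variable {G f : ℝ → ℝ} {V0 θ V A l k tV : ℝ} {w : ℝ → ℝ}

theorem EL.cont (h : GData G f) (E : EL G f V A l k tV w) : Continuous w := by
  have h1 : w = fun t => l * (k - Phi f w tV t) := funext E.eqn
  rw [h1]
  have h2 := Phi_cont h E.adm tV
  fun_prop

theorem EL.qq2_pos (hf : Far G f V0 θ) (hV : V0 ≤ V) (E : EL G f V A l k tV w) {t : ℝ}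
    (ht : tV < t) : 0 < qq2 f w t := by
  unfold qq2
  rw [max_eq_left (E.tV_pos.le.trans ht.le)]
  exact mul_pos (exp_pos _) (hf.fpos _ (hV.trans (E.gt t ht).le))

theorem EL.Phi_sub (h : GData G f) (E : EL G f V A l k tV w) (s t : ℝ) :
    Phi f w tV t - Phi f w tV s = ∫ r in (Max.max s tV)..(Max.max t tV), qq2 f w r := by
  unfold Phi
  have h1 := qq2_cont h E.adm
  have h2 := intervalIntegral.integral_add_adjacent_intervals
    (h1.intervalIntegrable (μ := volume) tV (Max.max s tV))
    (h1.intervalIntegrable (μ := volume) (Max.max s tV) (Max.max t tV))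
  linarith

theorem EL.Phi_lt (h : GData G f) (hf : Far G f V0 θ) (hV : V0 ≤ V) (E : EL G f V A l k tV w)
    {s t : ℝ} (hs : tV ≤ s) (hst : s < t) : Phi f w tV s < Phi f w tV t := by
  have h1 := E.Phi_sub h s t
  rw [max_eq_left hs, max_eq_left (hs.trans hst.le)] at h1
  have h2 : 0 < ∫ r in s..t, qq2 f w r := by
    apply intervalIntegral.intervalIntegral_pos_of_pos_on
      ((qq2_cont h E.adm).intervalIntegrable s t) _ hst
    intro x hx
    exact E.qq2_pos hf hV (hs.trans_lt hx.1)
  linarith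

theorem EL.eq_of_le (E : EL G f V A l k tV w) {t : ℝ} (ht : t ≤ tV) : w t = l * k := by
  rw [E.eqn t]
  unfold Phi
  rw [max_eq_right ht, intervalIntegral.integral_same, sub_zero]

theorem EL.anti (h : GData G f) (hf : Far G f V0 θ) (hV : V0 ≤ V) (E : EL G f V A l k tV w) :
    Antitone w := by
  intro s t hst
  rw [E.eqn t, E.eqn s]
  have h1 : Phi f w tV s ≤ Phi f w tV t := by
    have h2 := E.Phi_sub h s t
    have h3 : 0 ≤ ∫ r in (Max.max s tV)..(Max.max t tV), qq2 f w r := by
      rcases eq_or_lt_of_le (max_le_max_right tV hst) with h4 | h4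
      · rw [h4, intervalIntegral.integral_same]
      · apply le_of_lt
        apply intervalIntegral.intervalIntegral_pos_of_pos_on
          ((qq2_cont h E.adm).intervalIntegrable _ _) _ h4
        intro x hx
        exact E.qq2_pos hf hV ((le_max_right _ _).trans_lt hx.1)
    linarith
  exact mul_le_mul_of_nonneg_left (by linarith) E.l_pos.le

theorem EL.lt (h : GData G f) (hf : Far G f V0 θ) (hV : V0 ≤ V) (E : EL G f V A l k tV w)
    {s t : ℝ} (hs : tV ≤ s) (hst : s < t) : w t < w s := by
  rw [E.eqn t, E.eqn s]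
  have h1 := E.Phi_lt h hf hV hs hst
  exact mul_lt_mul_of_pos_left (by linarith) E.l_pos

theorem EL.nonneg (h : GData G f) (hf : Far G f V0 θ) (hV : V0 ≤ V) (E : EL G f V A l k tV w)
    (t : ℝ) : 0 ≤ w t :=
  (anti_sq_int (E.anti h hf hV) E.adm.int_sq).1 t

theorem EL.pos (h : GData G f) (hf : Far G f V0 θ) (hV : V0 ≤ V) (E : EL G f V A l k tV w)
    (t : ℝ) : 0 < w t := by
  have h1 : w (Max.max t tV) ≤ w t := E.anti h hf hV (le_max_left _ _)
  have h2 := E.lt h hf hV (le_max_right t tV) (lt_add_one (Max.max t tV))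
  have h3 := E.nonneg h hf hV (Max.max t tV + 1)
  linarith

theorem EL.wlim (h : GData G f) (hf : Far G f V0 θ) (hV : V0 ≤ V) (E : EL G f V A l k tV w) :
    Tendsto w atTop (𝓝 0) :=
  (anti_sq_int (E.anti h hf hV) E.adm.int_sq).2

theorem EL.der (h : GData G f) (E : EL G f V A l k tV w) {t : ℝ} (ht : tV < t) :
    HasDerivAt w (-(l * exp (-t) * f (prim w t))) t := by
  have h1 : HasDerivAt (fun s => ∫ r in tV..s, qq2 f w r) (qq2 f w t) t :=
    ((qq2_cont h E.adm).integral_hasStrictDerivAt tV t).hasDerivAt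
  have h2 : HasDerivAt (Phi f w tV) (qq2 f w t) t := by
    refine h1.congr_of_eventuallyEq ?_
    filter_upwards [eventually_gt_nhds ht] with s hs
    unfold Phi
    rw [max_eq_left hs.le]
  have h3 : HasDerivAt (fun s => l * (k - Phi f w tV s)) (l * (-qq2 f w t)) t :=
    (h2.const_sub k).const_mul l
  have h4 : w = fun s => l * (k - Phi f w tV s) := funext E.eqn
  have h5 : HasDerivAt w (l * (-qq2 f w t)) t := by
    have := h3
    rwa [← h4] at this
  refine h5.congr_deriv ?_
  unfold qq2
  rw [max_eq_left (E.tV_pos.le.trans ht.le)]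
  ring

theorem prim_der (hw : Continuous w) (t : ℝ) : HasDerivAt (prim w) (w t) t :=
  (hw.integral_hasStrictDerivAt 0 t).hasDerivAt

theorem EL.prim_strictMono (h : GData G f) (hf : Far G f V0 θ) (hV : V0 ≤ V)
    (E : EL G f V A l k tV w) : StrictMono (prim w) := by
  apply strictMono_of_deriv_pos
  intro x
  rw [(prim_der (E.cont h) x).deriv]
  exact E.pos h hf hV x

/-- the first integral -/
noncomputable def Psi (G : ℝ → ℝ) (V l : ℝ) (w : ℝ → ℝ) (t : ℝ) : ℝ :=
  w t ^ 2 + 2 * l * (exp (-t) * HH G V (prim w t))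

theorem EL.Psi_der (h : GData G f) (E : EL G f V A l k tV w) {t : ℝ} (ht : tV < t) :
    HasDerivAt (Psi G V l w) (-(2 * l) * (exp (-t) * HH G V (prim w t))) t := by
  have h1 := E.der h ht
  have h2 := (HH_der h (E.gt t ht)).comp t (prim_der (E.cont h) t)
  have h3 : HasDerivAt (fun t : ℝ => exp (-t)) (-exp (-t)) t := by
    have := (hasDerivAt_neg t).exp
    simpa using this
  have h4 := (h1.pow 2).add ((h3.mul h2).const_mul (2 * l))
  refine (HasDerivAt.congr_of_eventuallyEq h4 (Eventually.of_forall fun s => ?_)).congr_deriv ?_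
  · rfl
  · simp only [Function.comp_apply]
    push_cast
    ring

theorem EL.exp_tendsto (h : GData G f) (hf : Far G f V0 θ) (hV : V0 ≤ V) (hA1 : A < 1)
    (E : EL G f V A l k tV w) :
    Tendsto (fun t => exp (-t) * HH G V (prim w t)) atTop (𝓝 0) := by
  have h1 : Tendsto (fun t : ℝ => exp (-((1 - A) * t))) atTop (𝓝 0) := by
    have : Tendsto (fun t : ℝ => (1 - A) * t) atTop atTop :=
      tendsto_id.const_mul_atTop (by linarith)
    exact (tendsto_exp_neg_atTop_nhds_zero).comp this
  refine squeeze_zero' (Eventually.of_forall fun t => exp_HH_nonneg h hf hV w t) ?_ h1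
  filter_upwards [eventually_ge_atTop (0:ℝ)] with t ht
  exact exp_HH_le h hf hV E.adm ht

theorem EL.Psi_tendsto (h : GData G f) (hf : Far G f V0 θ) (hV : V0 ≤ V) (hA1 : A < 1)
    (E : EL G f V A l k tV w) : Tendsto (Psi G V l w) atTop (𝓝 0) := by
  have h1 := ((E.wlim h hf hV).pow 2).add ((E.exp_tendsto h hf hV hA1).const_mul (2 * l))
  have h2 : (0:ℝ) ^ 2 + 2 * l * 0 = 0 := by ring
  rw [h2] at h1
  exact h1

theorem EL.ident (h : GData G f) (hf : Far G f V0 θ) (hV : V0 ≤ V) (hA1 : A < 1)
    (E : EL G f V A l k tV w) {t : ℝ} (ht : 0 ≤ t) :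
    w t ^ 2 + 2 * l * (exp (-t) * HH G V (prim w t)) =
      2 * l * ∫ s in Ioi t, exp (-s) * HH G V (prim w s) := by
  have hint := int_HH h hf hV hA1 E.adm
  have hcontPsi : Continuous (Psi G V l w) := by
    have h1 : Continuous (prim w) := continuous_iff_continuousAt.2 fun x =>
      (prim_der (E.cont h) x).continuousAt
    have h2 := HH_cont h V
    have h3 := E.cont h
    unfold Psi
    fun_prop
  have key : ∀ t, tV ≤ t → Psi G V l w t = 2 * l * ∫ s in Ioi t, exp (-s) * HH G V (prim w s) := by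
    intro t ht
    have h1 : IntegrableOn (fun s => -(2 * l) * (exp (-s) * HH G V (prim w s))) (Ioi t) :=
      (hint.mono_set (Ioi_subset_Ioi (E.tV_pos.le.trans ht))).const_mul _
    have h2 := integral_Ioi_of_hasDerivAt_of_tendsto (f := Psi G V l w) (a := t)
      hcontPsi.continuousWithinAt (fun x hx => E.Psi_der h (lt_of_le_of_lt ht hx)) h1
      (E.Psi_tendsto h hf hV hA1)
    rw [integral_const_mul] at h2
    linarith
  rcases le_total tV t with h0 | h0
  · exact key t h0
  · have hle : ∀ s, s ≤ tV → HH G V (prim w s) = 0 := by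
      intro s hs
      apply HH_of_le
      rw [← E.prim_tV]
      exact (E.prim_strictMono h hf hV).monotone hs
    have h1 : ∫ s in Ioi t, exp (-s) * HH G V (prim w s) =
        ∫ s in Ioi tV, exp (-s) * HH G V (prim w s) := by
      rw [← Ioc_union_Ioi_eq_Ioi h0, setIntegral_union (Ioc_disjoint_Ioi le_rfl)
        measurableSet_Ioi (hint.mono_set fun x hx => lt_of_le_of_lt ht hx.1)
        (hint.mono_set (Ioi_subset_Ioi E.tV_pos.le))]
      have h2 : ∫ s in Ioc t tV, exp (-s) * HH G V (prim w s) = 0 := by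
        apply setIntegral_eq_zero_of_forall_eq_zero
        intro s hs
        rw [hle s hs.2, mul_zero]
      rw [h2, zero_add]
    have h3 := key tV le_rfl
    rw [h1, ← h3]
    unfold Psi
    rw [hle t h0, hle tV le_rfl, E.eq_of_le h0, E.eq_of_le le_rfl]
    simp

theorem EL.int_w (h : GData G f) (hf : Far G f V0 θ) (hV : V0 ≤ V) (hA1 : A < 1)
    (E : EL G f V A l k tV w) : IntegrableOn w (Ioi 0) := by
  have ha : 0 < 1 - A := by linarith
  have hbound : ∀ t, 0 ≤ t → w t ≤ √(2 * l / (1 - A)) * exp (-((1 - A) / 2 * t)) := by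
    intro t ht
    have h1 := E.ident h hf hV hA1 ht
    have h2 : ∫ s in Ioi t, exp (-s) * HH G V (prim w s) ≤ exp (-((1 - A) * t)) / (1 - A) := by
      have h3 : ∫ s in Ioi t, exp (-s) * HH G V (prim w s) ≤ ∫ s in Ioi t, exp (-((1 - A) * s)) := by
        apply setIntegral_mono_on ((int_HH h hf hV hA1 E.adm).mono_set (Ioi_subset_Ioi ht))
          ((int_exp_neg ha).mono_set (Ioi_subset_Ioi ht)) measurableSet_Ioi
        intro s hs
        exact exp_HH_le h hf hV E.adm (ht.trans (le_of_lt hs))
      refine h3.trans (le_of_eq ?_)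
      have h4 := integral_exp_mul_Ioi (a := -(1 - A)) (by linarith) t
      have e : (fun s : ℝ => exp (-((1 - A) * s))) = fun s => exp (-(1 - A) * s) := by
        funext s; congr 1; ring
      rw [e, h4]
      have e2 : -((1 - A) * t) = -(1 - A) * t := by ring
      rw [e2]
      field_simp
    have h5 : 0 ≤ 2 * l * (exp (-t) * HH G V (prim w t)) :=
      mul_nonneg (by linarith [E.l_pos]) (exp_HH_nonneg h hf hV w t)
    have h6 : w t ^ 2 ≤ 2 * l / (1 - A) * exp (-((1 - A) * t)) := by
      have h7 : 2 * l * ∫ s in Ioi t, exp (-s) * HH G V (prim w s) ≤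
          2 * l * (exp (-((1 - A) * t)) / (1 - A)) :=
        mul_le_mul_of_nonneg_left h2 (by linarith [E.l_pos])
      calc w t ^ 2 ≤ 2 * l * (exp (-((1 - A) * t)) / (1 - A)) := by linarith
        _ = _ := by ring
    have h8 : exp (-((1 - A) * t)) = exp (-((1 - A) / 2 * t)) ^ 2 := by
      rw [← exp_nat_mul]; congr 1; push_cast; ring
    have h9 : 0 ≤ 2 * l / (1 - A) := div_nonneg (by linarith [E.l_pos]) ha.le
    have h10 : w t ^ 2 ≤ (√(2 * l / (1 - A)) * exp (-((1 - A) / 2 * t))) ^ 2 := by
      rw [mul_pow, Real.sq_sqrt h9, ← h8]; exact h6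
    exact le_of_sq_le_sq h10 (by positivity)
  have h1 : IntegrableOn (fun t => √(2 * l / (1 - A)) * exp (-((1 - A) / 2 * t))) (Ioi 0) :=
    (int_exp_neg (by linarith : 0 < (1 - A) / 2)).const_mul _
  refine Integrable.mono' h1 E.adm.aesm ?_
  filter_upwards [ae_restrict_mem measurableSet_Ioi] with t ht
  rw [Real.norm_eq_abs, abs_of_nonneg (E.nonneg h hf hV t)]
  exact hbound t (le_of_lt ht)

/-- second half of M4: the Euler-Lagrange equation gives the full structure of a maximiser. -/
theorem EL.maxi (h : GData G f) (hf : Far G f V0 θ) (hV : V0 ≤ V) (hA : 0 < A) (hA1 : A < 1)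
    (E : EL G f V A l k tV w) : ∃ mu, Maxi G f V A l mu tV w := by
  have hint := E.int_w h hf hV hA1
  refine ⟨∫ t in Ioi (0:ℝ), w t, ?_⟩
  have htend : Tendsto (prim w) atTop (𝓝 (∫ t in Ioi (0:ℝ), w t)) :=
    intervalIntegral_tendsto_integral_Ioi 0 hint tendsto_id
  exact {
    A_pos := hA
    A_lt := hA1
    l_pos := E.l_pos
    adm := E.adm
    energy := E.energy
    cont := E.cont h
    anti := E.anti h hf hV
    pos := E.pos h hf hV
    tV_pos := E.tV_pos
    const := by
      intro t ht
      rw [E.eq_of_le ht, E.eq_of_le E.tV_pos.le]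
    prim_tV := E.prim_tV
    der := fun t ht => E.der h ht
    intH := int_HH h hf hV hA1 E.adm
    ident := fun t ht => E.ident h hf hV hA1 ht
    tendsto := htend
    wlim := E.wlim h hf hV
    lt_mu := by
      intro t
      have h1 : prim w t < prim w (t + 1) := E.prim_strictMono h hf hV (lt_add_one t)
      have h2 : prim w (t + 1) ≤ ∫ t in Ioi (0:ℝ), w t :=
        ge_of_tendsto htend (by
          filter_upwards [eventually_ge_atTop (t + 1)] with s hs
          exact (E.prim_strictMono h hf hV).monotone hs)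
      exact h1.trans_le h2
    max := E.max }

end

end MPee
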