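import Pool.Agent.Lib.EEQ.MaxEL
import Pool.Agent.Lib.EEQ.Max3

/-! Existence of maximisers with all their properties. -/

open Real Set MeasureTheory Filter Topology

namespace MPee

theorem exists_maxi {G f : ℝ → ℝ} {V0 θ : ℝ} (h : GData G f) (hf : Far G f V0 θ) {V A : ℝ}
    (hV : V0 ≤ V) (hA : 0 < A) (hA1 : A < 1) {w0 : ℝ → ℝ} (hw0 : Adm A w0)
    (hN : 0 < NN2 G V w0) : ∃ l mu tV w, Maxi G f V A l mu tV w := by
  obtain ⟨l, k, tV, w, E⟩ := exists_EL h hf hV hA1 hw0 hN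
  obtain ⟨mu, M⟩ := E.maxi h hf hV hA hA1
  exact ⟨l, mu, tV, w, M⟩

end MPee
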