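import Pool.Agent.Lib.EEQ.Weak
import Pool.Agent.Lib.EEQ.Data

/-! Existence of a maximiser of the truncated functional with nonnegative slope. -/

open Real Set MeasureTheory Filter Topology

namespace MPee

theorem Adm.abs {A : ℝ} {w : ℝ → ℝ} (h : Adm A w) : Adm A (fun t => |w t|) :=
  ⟨h.mem.norm, by simpa only [sq_abs] using h.le⟩

theorem prim_le_abs {A : ℝ} {w : ℝ → ℝ} (h : Adm A w) {t : ℝ} (ht : 0 ≤ t) :
    prim w t ≤ prim (fun t => |w t|) t := by
  unfold prim
  apply intervalIntegral.integral_mono_on ht (h.intervalIntegrable le_rfl ht)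
    (h.abs.intervalIntegrable le_rfl ht)
  intro x _
  exact le_abs_self _

section
variable {G f : ℝ → ℝ} {V0 θ V A : ℝ}

theorem NN2_le_abs (h : GData G f) (hf : Far G f V0 θ) (hV : V0 ≤ V) (hA1 : A < 1) {w : ℝ → ℝ}
    (hw : Adm A w) : NN2 G V w ≤ NN2 G V (fun t => |w t|) := by
  unfold NN2
  apply setIntegral_mono_on (int_HH h hf hV hA1 hw) (int_HH h hf hV hA1 hw.abs) measurableSet_Ioi
  intro t ht
  exact mul_le_mul_of_nonneg_left (HH_mono h hf hV (prim_le_abs hw (le_of_lt ht))) (exp_pos _).le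

theorem NN2_le (h : GData G f) (hf : Far G f V0 θ) (hV : V0 ≤ V) (hA1 : A < 1) {w : ℝ → ℝ}
    (hw : Adm A w) : NN2 G V w ≤ ∫ t in Ioi (0:ℝ), exp (-((1 - A) * t)) := by
  unfold NN2
  apply setIntegral_mono_on (int_HH h hf hV hA1 hw) (int_exp_neg (by linarith)) measurableSet_Ioi
  intro t ht
  exact exp_HH_le h hf hV hw (le_of_lt ht)

/-- existence of a maximiser -/
theorem exists_max (h : GData G f) (hf : Far G f V0 θ) (hV : V0 ≤ V) (hA1 : A < 1)
    {w0 : ℝ → ℝ} (hw0 : Adm A w0) :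
    ∃ w, Adm A w ∧ (∀ t, 0 ≤ w t) ∧ ∀ w', Adm A w' → NN2 G V w' ≤ NN2 G V w := by
  set S : Set ℝ := {y | ∃ w, Adm A w ∧ NN2 G V w = y} with hS
  have hne : S.Nonempty := ⟨_, w0, hw0, rfl⟩
  have hbd : BddAbove S := ⟨∫ t in Ioi (0:ℝ), exp (-((1 - A) * t)), by
    rintro y ⟨w, hw, rfl⟩
    exact NN2_le h hf hV hA1 hw⟩
  obtain ⟨y, -, hy, hmem⟩ := exists_seq_tendsto_sSup hne hbd
  choose w hw hwy using hmem
  obtain ⟨σ, v, hσ, hv, hpt, -⟩ := weak_compact w hw
  have hlim : Tendsto (fun k => NN2 G V (w (σ k))) atTop (𝓝 (NN2 G V v)) := by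
    unfold NN2
    apply tendsto_integral_of_dominated_convergence (fun t => exp (-((1 - A) * t)))
    · intro k
      exact aesm_comp_prim (hw (σ k)) (HH_cont h V)
    · exact int_exp_neg (by linarith)
    · intro k
      filter_upwards [ae_restrict_mem measurableSet_Ioi] with t ht
      rw [Real.norm_eq_abs, abs_of_nonneg (exp_HH_nonneg h hf hV _ t)]
      exact exp_HH_le h hf hV (hw (σ k)) (le_of_lt ht)
    · filter_upwards [ae_restrict_mem measurableSet_Ioi] with t ht
      exact (((HH_cont h V).tendsto _).comp (hpt t (le_of_lt ht))).const_mul _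
  have hlim2 : Tendsto (fun k => NN2 G V (w (σ k))) atTop (𝓝 (sSup S)) := by
    have h1 := hy.comp hσ.tendsto_atTop
    refine h1.congr fun k => ?_
    simp only [Function.comp_apply]
    exact (hwy (σ k)).symm
  have heq := tendsto_nhds_unique hlim hlim2
  refine ⟨fun t => |v t|, hv.abs, fun t => abs_nonneg _, fun w' hw' => ?_⟩
  calc NN2 G V w' ≤ sSup S := le_csSup hbd ⟨w', hw', rfl⟩
    _ = NN2 G V v := heq.symm
    _ ≤ _ := NN2_le_abs h hf hV hA1 hv

end

end MPee
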