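import Pool.Agent.Lib.EEQ.Lagrange
import Pool.Agent.Lib.EEQ.Max1

/-! First order condition for a maximiser of the truncated functional. -/

open Real Set MeasureTheory Filter Topology

namespace MPee

/-- a maximiser with nonnegative slope -/
structure PreMax (G : ℝ → ℝ) (V A : ℝ) (w : ℝ → ℝ) : Prop where
  adm : Adm A w
  nn : ∀ t, 0 ≤ w t
  max : ∀ w', Adm A w' → NN2 G V w' ≤ NN2 G V w
  pos : 0 < NN2 G V w

section
variable {G f : ℝ → ℝ} {V0 θ V A : ℝ} {w : ℝ → ℝ}

theorem PreMax.mono (M : PreMax G V A w) {s t : ℝ} (hs : 0 ≤ s) (hst : s ≤ t) :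
    prim w s ≤ prim w t := by
  have h1 := M.adm.prim_sub hs (hs.trans hst)
  have h2 : 0 ≤ ∫ r in s..t, w r := intervalIntegral.integral_nonneg hst fun r _ => M.nn r
  linarith

/-- the time of the height `V` -/
theorem PreMax.exists_tV (hf : Far G f V0 θ) (hV : V0 ≤ V)
    (M : PreMax G V A w) : ∃ tV, 0 < tV ∧ prim w tV = V ∧ (∀ t, tV < t → V < prim w t) ∧
      ∀ t, 0 ≤ t → t ≤ tV → prim w t ≤ V := by
  have hV0 : 0 < V := by linarith [hf.V0_ge]
  set S : Set ℝ := {t | 0 ≤ t ∧ V < prim w t} with hS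
  have hne : S.Nonempty := by
    by_contra hcon
    rw [not_nonempty_iff_eq_empty] at hcon
    have h1 : NN2 G V w = 0 := by
      unfold NN2
      apply setIntegral_eq_zero_of_forall_eq_zero
      intro t ht
      have h2 : prim w t ≤ V := by
        by_contra h3
        push Not at h3
        have : t ∈ S := ⟨le_of_lt ht, h3⟩
        rw [hcon] at this
        exact this
      rw [HH_of_le h2, mul_zero]
    linarith [M.pos]
  have hbd : BddBelow S := ⟨0, fun t ht => ht.1⟩
  set tV := sInf S with htV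
  have htV0 : 0 ≤ tV := le_csInf hne fun t ht => ht.1
  have hgt : ∀ t, tV < t → V < prim w t := by
    intro t ht
    obtain ⟨s, hs, hst⟩ := exists_lt_of_csInf_lt hne ht
    exact hs.2.trans_le (M.mono hs.1 hst.le)
  have hlt : ∀ t, 0 ≤ t → t < tV → prim w t ≤ V := by
    intro t ht0 ht
    by_contra h3
    push Not at h3
    exact absurd (csInf_le hbd (show t ∈ S from ⟨ht0, h3⟩)) (not_le.2 ht)
  have hcont : ContinuousWithinAt (prim w) (Ici 0) tV := M.adm.prim_cont tV htV0
  have h1 : V ≤ prim w tV := by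
    have h2 : Tendsto (prim w) (𝓝[>] tV) (𝓝 (prim w tV)) :=
      hcont.tendsto.mono_left (nhdsWithin_mono _ fun x hx => htV0.trans (le_of_lt hx))
    exact ge_of_tendsto h2 (by
      filter_upwards [self_mem_nhdsWithin] with t ht
      exact (hgt t ht).le)
  have htVpos : 0 < tV := by
    rcases eq_or_lt_of_le htV0 with h0 | h0
    · rw [← h0, prim_zero] at h1; linarith
    · exact h0
  have h2 : prim w tV ≤ V := by
    have h3 : Tendsto (prim w) (𝓝[Ioo 0 tV] tV) (𝓝 (prim w tV)) :=
      hcont.tendsto.mono_left (nhdsWithin_mono _ fun x hx => hx.1.le)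
    have : (𝓝[Ioo 0 tV] tV).NeBot := by
      rw [nhdsWithin_Ioo_eq_nhdsLT htVpos]; infer_instance
    exact le_of_tendsto h3 (by
      filter_upwards [self_mem_nhdsWithin] with t ht
      exact hlt t ht.1.le ht.2)
  refine ⟨tV, htVpos, le_antisymm h2 h1, hgt, fun t ht0 ht => ?_⟩
  rcases eq_or_lt_of_le ht with h3 | h3
  · rw [h3]; exact h2
  · exact hlt t ht0 h3

/-- continuous extension of `e^{-t} f(φ(t))` -/
noncomputable def qq2 (f w : ℝ → ℝ) (t : ℝ) : ℝ := exp (-t) * f (prim w (max t 0))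

/-- `Φ(s) = ∫_{tV}^s e^{-t} f(φ(t)) dt` for `s ≥ tV`, zero before -/
noncomputable def Phi (f w : ℝ → ℝ) (tV s : ℝ) : ℝ := ∫ t in tV..(max s tV), qq2 f w t

theorem qq2_cont (h : GData G f) (hw : Adm A w) : Continuous (qq2 f w) := by
  unfold qq2
  have h1 : Continuous fun t : ℝ => prim w (max t 0) := by
    apply hw.prim_cont.comp_continuous (by fun_prop)
    intro t
    show (0:ℝ) ≤ max t 0
    exact le_max_right _ _
  have := h.cont
  fun_prop

theorem Phi_cont (h : GData G f) (hw : Adm A w) (tV : ℝ) : Continuous (Phi f w tV) := by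
  unfold Phi
  have h1 := qq2_cont h hw
  have h2 : Continuous fun s => ∫ t in tV..s, qq2 f w t :=
    intervalIntegral.continuous_primitive (fun a b => h1.intervalIntegrable a b) tV
  exact h2.comp (by fun_prop : Continuous fun s : ℝ => max s tV)

/-- Lipschitz bound for `H` on bounded sets -/
theorem HH_lip (h : GData G f) (V R : ℝ) : ∃ C, 0 ≤ C ∧ ∀ a b, |a| ≤ R → |b| ≤ R →
    |HH G V a - HH G V b| ≤ C * |a - b| := by
  obtain ⟨C, hC⟩ := (isCompact_Icc (a := -(max R |V|)) (b := max R |V|)).exists_bound_of_continuousOn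
    h.cont.continuousOn
  refine ⟨|C|, abs_nonneg _, ?_⟩
  intro a b ha hb
  have hmem : ∀ x, |x| ≤ R → max x V ∈ Icc (-(max R |V|)) (max R |V|) := by
    intro x hx
    have h1 := abs_le.1 hx
    have h2 := neg_abs_le V
    have h3 := le_abs_self V
    constructor
    · calc -(max R |V|) ≤ -|V| := neg_le_neg (le_max_right _ _)
        _ ≤ V := h2
        _ ≤ max x V := le_max_right _ _
    · exact max_le_max h1.2 h3
  unfold HH
  have h4 := (convex_Icc (-(max R |V|)) (max R |V|)).norm_image_sub_le_of_norm_hasDerivWithin_le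
    (f := G) (f' := f) (C := |C|) (fun x _ => (h.der x).hasDerivWithinAt)
    (fun x hx => (hC x hx).trans (le_abs_self C)) (hmem b hb) (hmem a ha)
  rw [Real.norm_eq_abs, Real.norm_eq_abs] at h4
  have h5 : |max a V - max b V| ≤ |a - b| := abs_max_sub_max_le_abs a b V
  calc |G (max a V) - G V - (G (max b V) - G V)| = |G (max a V) - G (max b V)| := by
        congr 1; ring
    _ ≤ |C| * |max a V - max b V| := h4
    _ ≤ |C| * |a - b| := mul_le_mul_of_nonneg_left h5 (abs_nonneg _)

/-- integration by parts against a primitive -/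
theorem parts {q v : ℝ → ℝ} (hq : Continuous q) {T0 T : ℝ} (hT0 : 0 ≤ T0) (hT : T0 ≤ T)
    (hv : IntervalIntegrable v volume 0 T) (hv0 : prim v T = 0) :
    ∫ t in T0..T, q t * prim v t = -∫ t in T0..T, (∫ s in T0..t, q s) * v t := by
  have hP : AbsolutelyContinuousOnInterval (prim v) 0 T :=
    hv.absolutelyContinuousOnInterval_intervalIntegral (c := 0) (by simp)
  have hP' : AbsolutelyContinuousOnInterval (prim v) T0 T := by
    apply hP.mono
    rw [uIcc_of_le hT, uIcc_of_le (hT0.trans hT)]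
    exact Icc_subset_Icc_left hT0
  have hQ : AbsolutelyContinuousOnInterval (fun t => ∫ s in T0..t, q s) T0 T :=
    (hq.intervalIntegrable T0 T).absolutelyContinuousOnInterval_intervalIntegral
      (c := T0) (by simp)
  have h1 := hP'.integral_mul_deriv_eq_deriv_mul hQ
  have e1 : ∀ t, deriv (fun t => ∫ s in T0..t, q s) t = q t := fun t =>
    ((hq.integral_hasStrictDerivAt T0 t).hasDerivAt).deriv
  simp only [e1, intervalIntegral.integral_same, hv0, zero_mul, mul_zero, sub_zero, zero_sub] at h1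
  have e2 : ∫ t in T0..T, deriv (prim v) t * (∫ s in T0..t, q s) =
      ∫ t in T0..T, (∫ s in T0..t, q s) * v t := by
    apply intervalIntegral.integral_congr_ae
    filter_upwards [hv.ae_hasDerivAt_integral] with t ht htm
    have h2 : t ∈ uIcc 0 T := by
      rw [uIoc_of_le hT] at htm
      rw [uIcc_of_le (hT0.trans hT)]
      exact ⟨hT0.trans htm.1.le, htm.2⟩
    have h3 := (ht h2 0 (by simp)).deriv
    have h4 : deriv (prim v) t = v t := h3
    rw [h4, mul_comm]
  rw [e2] at h1
  rw [← h1]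
  congr 1
  funext t
  ring

end

/-- the Euler-Lagrange equation of a maximiser, in integrated form (`k = Φ(∞)`) -/
structure EL (G f : ℝ → ℝ) (V A l k tV : ℝ) (w : ℝ → ℝ) : Prop where
  adm : Adm A w
  energy : ∫ t in Ioi (0:ℝ), w t ^ 2 = A
  l_pos : 0 < l
  tV_pos : 0 < tV
  eqn : ∀ t, w t = l * (k - Phi f w tV t)
  prim_tV : prim w tV = V
  gt : ∀ t, tV < t → V < prim w t
  max : ∀ w', Adm A w' → NN2 G V w' ≤ NN2 G V w

end MPee
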