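import Pool.Agent.Lib.EEQ.Max2

/-! Euler-Lagrange equation of the maximiser. -/

open Real Set MeasureTheory Filter Topology

namespace MPee

section
variable {G f : ℝ → ℝ} {V0 θ V A : ℝ} {w : ℝ → ℝ}

theorem prim_add_smul {A B : ℝ} {w v : ℝ → ℝ} (hw : Adm A w) (hv : Adm B v) (ε : ℝ) {t : ℝ}
    (ht : 0 ≤ t) : prim (fun t => w t + ε * v t) t = prim w t + ε * prim v t := by
  unfold prim
  rw [intervalIntegral.integral_add (hw.intervalIntegrable le_rfl ht)
    ((hv.intervalIntegrable le_rfl ht).const_mul ε), intervalIntegral.integral_const_mul]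

theorem first_order (h : GData G f) (hf : Far G f V0 θ) (hV : V0 ≤ V) (hA1 : A < 1)
    (M : PreMax G V A w) {tV : ℝ} (htV : 0 < tV) (hgt : ∀ t, tV < t → V < prim w t)
    (hle : ∀ t, 0 ≤ t → t ≤ tV → prim w t ≤ V) {T : ℝ} {v : ℝ → ℝ} (hT : tV ≤ T)
    (hv : Dir T v) {ε0 : ℝ} (hε0 : 0 < ε0)
    (hadm : ∀ ε, 0 < ε → ε < ε0 → Adm A (fun t => w t + ε * v t)) :
    ∫ t in tV..T, qq2 f w t * prim v t ≤ 0 := by
  have hT0 : 0 ≤ T := htV.le.trans hT
  have hcw : ContinuousOn (prim w) (Icc 0 T) := M.adm.prim_cont.mono Icc_subset_Ici_self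
  have hcv : ContinuousOn (prim v) (Icc 0 T) := hv.adm.prim_cont.mono Icc_subset_Ici_self
  obtain ⟨Rw, hRw⟩ := isCompact_Icc.exists_bound_of_continuousOn hcw
  obtain ⟨Rv, hRv⟩ := isCompact_Icc.exists_bound_of_continuousOn hcv
  have hRv0 : 0 ≤ Rv := (norm_nonneg _).trans (hRv 0 ⟨le_rfl, hT0⟩)
  obtain ⟨C, hC0, hC⟩ := HH_lip h V (Rw + Rv)
  set D : ℝ → ℝ := fun ε => ∫ t in Ioc tV T, exp (-t) * HH G V (prim w t + ε * prim v t) with hD
  have hsub : Ioc tV T ⊆ Icc 0 T := fun x hx => ⟨htV.le.trans hx.1.le, hx.2⟩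
  have hHc := HH_cont h V
  have hexpc : Continuous fun t : ℝ => exp (-t) := by fun_prop
  have hcontF : ∀ ε : ℝ, ContinuousOn (fun t => exp (-t) * HH G V (prim w t + ε * prim v t))
      (Icc 0 T) := by
    intro ε
    apply hexpc.continuousOn.mul
    apply hHc.comp_continuousOn
    exact hcw.add (continuousOn_const.mul hcv)
  have hder : HasDerivAt D (∫ t in Ioc tV T, exp (-t) * (f (prim w t) * prim v t)) 0 := by
    have key := hasDerivAt_integral_of_dominated_loc_of_lip (μ := volume.restrict (Ioc tV T))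
      (F := fun ε t => exp (-t) * HH G V (prim w t + ε * prim v t))
      (F' := fun t => exp (-t) * (f (prim w t) * prim v t)) (x₀ := (0:ℝ))
      (s := Metric.ball 0 1) (bound := fun _ => C * Rv) (Metric.ball_mem_nhds 0 one_pos)
      (Eventually.of_forall fun ε =>
        ((hcontF ε).mono hsub).aestronglyMeasurable measurableSet_Ioc)
      (((hcontF 0).mono (Icc_subset_Icc_left htV.le)).integrableOn_Icc.mono_set
        Ioc_subset_Icc_self) ?_ ?_ ?_ ?_
    · exact key.2
    · apply ContinuousOn.aestronglyMeasurable _ measurableSet_Ioc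
      apply hexpc.continuousOn.mul
      exact (h.cont.comp_continuousOn (hcw.mono hsub)).mul (hcv.mono hsub)
    · filter_upwards [ae_restrict_mem measurableSet_Ioc] with t ht
      have htm := hsub ht
      apply LipschitzOnWith.of_dist_le_mul
      intro a ha b hb
      rw [Metric.mem_ball, Real.dist_eq, sub_zero] at ha hb
      have hbd : ∀ x : ℝ, |x| < 1 → |prim w t + x * prim v t| ≤ Rw + Rv := by
        intro x hx
        refine (abs_add_le _ _).trans ?_
        rw [abs_mul]
        have h1 := hRw t htm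
        have h2 := hRv t htm
        rw [Real.norm_eq_abs] at h1 h2
        have h3 : |x| * |prim v t| ≤ 1 * Rv := mul_le_mul hx.le h2 (abs_nonneg _) zero_le_one
        linarith
      have h1 := hC _ _ (hbd a ha) (hbd b hb)
      rw [Real.dist_eq, Real.dist_eq, ← mul_sub, abs_mul, abs_of_pos (exp_pos _)]
      have h2 : |prim w t + a * prim v t - (prim w t + b * prim v t)| = |a - b| * |prim v t| := by
        rw [← abs_mul]; congr 1; ring
      rw [h2] at h1
      have h3 : exp (-t) ≤ 1 := by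
        rw [Real.exp_le_one_iff]; linarith [htm.1]
      have h4 : |a - b| * |prim v t| ≤ |a - b| * Rv := by
        have := hRv t htm
        rw [Real.norm_eq_abs] at this
        exact mul_le_mul_of_nonneg_left this (abs_nonneg _)
      have h5 : (Real.nnabs (C * Rv) : ℝ) = C * Rv := by
        rw [Real.coe_nnabs, abs_of_nonneg (by positivity)]
      rw [h5]
      calc exp (-t) * |HH G V (prim w t + a * prim v t) - HH G V (prim w t + b * prim v t)|
          ≤ 1 * (C * (|a - b| * |prim v t|)) :=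
            mul_le_mul h3 h1 (abs_nonneg _) zero_le_one
        _ ≤ 1 * (C * (|a - b| * Rv)) := by gcongr
        _ = C * Rv * |a - b| := by ring
    · exact integrable_const _
    · filter_upwards [ae_restrict_mem measurableSet_Ioc] with t ht
      have h1 : HasDerivAt (HH G V) (f (prim w t)) (prim w t + 0 * prim v t) := by
        rw [zero_mul, add_zero]
        exact HH_der h (hgt t ht.1)
      have h2 : HasDerivAt (fun ε : ℝ => prim w t + ε * prim v t) (prim v t) 0 := by
        simpa using ((hasDerivAt_id (0:ℝ)).mul_const (prim v t)).const_add (prim w t)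
      have h3 : HasDerivAt (fun ε : ℝ => HH G V (prim w t + ε * prim v t))
          (f (prim w t) * prim v t) 0 :=
        HasDerivAt.comp (h₂ := HH G V) (h := fun ε : ℝ => prim w t + ε * prim v t) 0 h1 h2
      exact h3.const_mul _
  have hD0 : ∀ ε, 0 < ε → ε < ε0 → D ε ≤ D 0 := by
    intro ε h1 h2
    have hadε := hadm ε h1 h2
    have hmx := M.max _ hadε
    have hprim : ∀ t, 0 ≤ t → prim (fun t => w t + ε * v t) t = prim w t + ε * prim v t :=
      fun t ht => prim_add_smul M.adm hv.adm ε ht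
    -- split
    have hsplit : ∀ u, Adm A u → NN2 G V u =
        (∫ t in Ioc 0 tV, exp (-t) * HH G V (prim u t)) +
        (∫ t in Ioc tV T, exp (-t) * HH G V (prim u t)) +
        ∫ t in Ioi T, exp (-t) * HH G V (prim u t) := by
      intro u hu
      have hi := int_HH h hf hV hA1 hu
      unfold NN2
      rw [← Ioc_union_Ioi_eq_Ioi hT0, setIntegral_union
        (Ioc_disjoint_Ioi le_rfl) measurableSet_Ioi
        (hi.mono_set fun x hx => hx.1) (hi.mono_set (Ioi_subset_Ioi hT0)),
        ← Ioc_union_Ioc_eq_Ioc htV.le hT, setIntegral_union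
        (Ioc_disjoint_Ioc_of_le le_rfl) measurableSet_Ioc
        (hi.mono_set fun x hx => hx.1) (hi.mono_set fun x hx => htV.trans hx.1)]
    rw [hsplit _ hadε, hsplit _ M.adm] at hmx
    have e1 : ∫ t in Ioi T, exp (-t) * HH G V (prim (fun t => w t + ε * v t) t) =
        ∫ t in Ioi T, exp (-t) * HH G V (prim w t) := by
      apply setIntegral_congr_fun measurableSet_Ioi
      intro t ht
      simp only
      rw [hprim t (hT0.trans (le_of_lt ht)), hv.prim_ge hT0 (le_of_lt ht), mul_zero, add_zero]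
    have e2 : 0 ≤ ∫ t in Ioc 0 tV, exp (-t) * HH G V (prim (fun t => w t + ε * v t) t) :=
      setIntegral_nonneg measurableSet_Ioc fun t _ => exp_HH_nonneg h hf hV _ t
    have e3 : ∫ t in Ioc 0 tV, exp (-t) * HH G V (prim w t) = 0 := by
      apply setIntegral_eq_zero_of_forall_eq_zero
      intro t ht
      rw [HH_of_le (hle t ht.1.le ht.2), mul_zero]
    have e4 : ∫ t in Ioc tV T, exp (-t) * HH G V (prim (fun t => w t + ε * v t) t) = D ε := by
      apply setIntegral_congr_fun measurableSet_Ioc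
      intro t ht
      simp only
      rw [hprim t (htV.le.trans ht.1.le)]
    have e5 : ∫ t in Ioc tV T, exp (-t) * HH G V (prim w t) = D 0 := by
      simp only [hD, zero_mul, add_zero]
    rw [e1, e3, e4, e5] at hmx
    linarith
  -- conclusion
  have hlim := hder.tendsto_slope
  have h1 : Tendsto (slope D 0) (𝓝[>] 0)
      (𝓝 (∫ t in Ioc tV T, exp (-t) * (f (prim w t) * prim v t))) :=
    hlim.mono_left (nhdsWithin_mono _ fun x (hx : 0 < x) => hx.ne')
  have h2 : ∫ t in Ioc tV T, exp (-t) * (f (prim w t) * prim v t) ≤ 0 := by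
    refine le_of_tendsto h1 ?_
    filter_upwards [Ioo_mem_nhdsGT hε0] with x hx
    rw [slope_def_field, sub_zero]
    apply div_nonpos_of_nonpos_of_nonneg _ hx.1.le
    linarith [hD0 x hx.1 hx.2]
  rw [intervalIntegral.integral_of_le hT]
  refine le_trans (le_of_eq ?_) h2
  apply setIntegral_congr_fun measurableSet_Ioc
  intro t ht
  simp only [qq2]
  rw [max_eq_left (htV.le.trans ht.1.le)]
  ring

theorem Phi_of_le {tV t : ℝ} (ht : t ≤ tV) : Phi f w tV t = 0 := by
  unfold Phi
  rw [max_eq_right ht, intervalIntegral.integral_same]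

theorem Phi_of_ge {tV t : ℝ} (ht : tV ≤ t) : Phi f w tV t = ∫ s in tV..t, qq2 f w s := by
  unfold Phi
  rw [max_eq_left ht]

theorem Phi_pos (h : GData G f) (hf : Far G f V0 θ) (hV : V0 ≤ V) (hw : Adm A w) {tV : ℝ}
    (htV : 0 < tV) (hgt : ∀ t, tV < t → V < prim w t) {t : ℝ} (ht : tV < t) :
    0 < Phi f w tV t := by
  rw [Phi_of_ge ht.le]
  apply intervalIntegral.intervalIntegral_pos_of_pos_on ((qq2_cont h hw).intervalIntegrable _ _) _ ht
  intro x hx
  unfold qq2
  rw [max_eq_left (htV.le.trans hx.1.le)]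
  exact mul_pos (exp_pos _) (hf.fpos _ (hV.trans (hgt x hx.1).le))

theorem Phi_not_const (h : GData G f) (hf : Far G f V0 θ) (hV : V0 ≤ V) (hw : Adm A w) {tV : ℝ}
    (htV : 0 < tV) (hgt : ∀ t, tV < t → V < prim w t) {T : ℝ} (hT : tV < T) (k : ℝ)
    (hae : ∀ᵐ t ∂(volume.restrict (Ioc 0 T)), Phi f w tV t = k) : False := by
  have h1 : ∀ a b : ℝ, a < b → 0 ≤ a → b ≤ T → ∃ t ∈ Ioc a b, Phi f w tV t = k := by
    intro a b hab ha hb
    have h2 : ∀ᵐ t ∂(volume.restrict (Ioc a b)), Phi f w tV t = k :=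
      hae.filter_mono (ae_mono (Measure.restrict_mono (Ioc_subset_Ioc ha hb) le_rfl))
    have h3 : (volume.restrict (Ioc a b)) ≠ 0 := by
      rw [Ne, Measure.restrict_eq_zero, Real.volume_Ioc]
      simpa using hab
    have : NeZero (volume.restrict (Ioc a b)) := ⟨h3⟩
    obtain ⟨t, ht1, ht2⟩ := (h2.and (ae_restrict_mem measurableSet_Ioc)).exists
    exact ⟨t, ht2, ht1⟩
  obtain ⟨t1, ht1, e1⟩ := h1 0 tV htV le_rfl hT.le
  obtain ⟨t2, ht2, e2⟩ := h1 tV T hT htV.le le_rfl
  rw [Phi_of_le ht1.2] at e1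
  have := Phi_pos h hf hV hw htV hgt ht2.1
  rw [e2, ← e1] at this
  exact lt_irrefl _ this

theorem Phi_ind_memLp (h : GData G f) (hw : Adm A w) (tV T : ℝ) :
    MemLp ((Ioc 0 T).indicator (Phi f w tV)) 2 (volume.restrict (Ioi (0:ℝ))) := by
  have hc := Phi_cont h hw tV
  obtain ⟨C, hC⟩ := (isCompact_Icc (a := (0:ℝ)) (b := T)).exists_bound_of_continuousOn
    hc.continuousOn
  rw [memLp_indicator_iff_restrict measurableSet_Ioc, Measure.restrict_restrict measurableSet_Ioc]
  have e : Ioc 0 T ∩ Ioi 0 = Ioc 0 T := inter_eq_left.2 fun x hx => hx.1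
  rw [e]
  apply MemLp.of_bound hc.aestronglyMeasurable C
  filter_upwards [ae_restrict_mem measurableSet_Ioc] with t ht
  exact hC t ⟨ht.1.le, ht.2⟩

/-- the sign condition for `Φ` -/
theorem Phi_sign (h : GData G f) (hf : Far G f V0 θ) (hV : V0 ≤ V) (hA1 : A < 1)
    (M : PreMax G V A w) {tV : ℝ} (htV : 0 < tV) (hgt : ∀ t, tV < t → V < prim w t)
    (hle : ∀ t, 0 ≤ t → t ≤ tV → prim w t ≤ V) {T : ℝ} {v : ℝ → ℝ} (hT : tV ≤ T)
    (hv : Dir T v) {ε0 : ℝ} (hε0 : 0 < ε0)
    (hadm : ∀ ε, 0 < ε → ε < ε0 → Adm A (fun t => w t + ε * v t)) :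
    0 ≤ ∫ t in Ioi (0:ℝ), Phi f w tV t * v t := by
  have h1 := first_order h hf hV hA1 M htV hgt hle hT hv hε0 hadm
  have hT0 : 0 ≤ T := htV.le.trans hT
  rw [parts (qq2_cont h M.adm) htV.le hT (hv.adm.intervalIntegrable le_rfl hT0) hv.mean] at h1
  have h2 : ∫ t in Ioi (0:ℝ), Phi f w tV t * v t =
      ∫ t in tV..T, (∫ s in tV..t, qq2 f w s) * v t := by
    have hi := hv.int_cont_mul (Phi_cont h M.adm tV)
    rw [hv.integral_eq hT0, ← Ioc_union_Ioc_eq_Ioc htV.le hT, setIntegral_union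
        (Ioc_disjoint_Ioc_of_le le_rfl) measurableSet_Ioc
        (hi.mono_measure (Measure.restrict_mono (fun _ hx => hx.1) le_rfl))
        (hi.mono_measure (Measure.restrict_mono (fun _ hx => htV.trans hx.1) le_rfl)),
        intervalIntegral.integral_of_le hT]
    have e1 : ∫ t in Ioc 0 tV, Phi f w tV t * v t = 0 := by
      apply setIntegral_eq_zero_of_forall_eq_zero
      intro t ht
      rw [Phi_of_le ht.2, zero_mul]
    rw [e1, zero_add]
    apply setIntegral_congr_fun measurableSet_Ioc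
    intro t ht
    simp only
    rw [Phi_of_ge ht.1.le]
  rw [h2]
  linarith

theorem int_sq_add {B : ℝ} {v : ℝ → ℝ} (hw : Adm A w) (hv : Adm B v) (ε : ℝ) :
    ∫ t in Ioi (0:ℝ), (w t + ε * v t) ^ 2 = (∫ t in Ioi (0:ℝ), w t ^ 2) +
      2 * ε * (∫ t in Ioi (0:ℝ), w t * v t) + ε ^ 2 * ∫ t in Ioi (0:ℝ), v t ^ 2 := by
  have i1 : Integrable (fun t => w t ^ 2) (volume.restrict (Ioi (0:ℝ))) := hw.mem.integrable_sq
  have i2 : Integrable (fun t => w t * v t) (volume.restrict (Ioi (0:ℝ))) :=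
    hw.mem.integrable_mul hv.mem
  have i3 : Integrable (fun t => v t ^ 2) (volume.restrict (Ioi (0:ℝ))) := hv.mem.integrable_sq
  have e : (fun t => (w t + ε * v t) ^ 2) =
      fun t => w t ^ 2 + 2 * ε * (w t * v t) + ε ^ 2 * v t ^ 2 := by
    funext t; ring
  have i4 : Integrable (fun t => 2 * ε * (w t * v t)) (volume.restrict (Ioi (0:ℝ))) :=
    i2.const_mul _
  have i5 : Integrable (fun t => ε ^ 2 * v t ^ 2) (volume.restrict (Ioi (0:ℝ))) := i3.const_mul _
  have i6 : Integrable (fun t => w t ^ 2 + 2 * ε * (w t * v t)) (volume.restrict (Ioi (0:ℝ))) :=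
    i1.add i4
  rw [e, integral_add i6 i5, integral_add i1 i4, integral_const_mul, integral_const_mul]

theorem adm_add {B : ℝ} {v : ℝ → ℝ} (hw : Adm A w) (hv : Adm B v) (ε : ℝ)
    (hle : (∫ t in Ioi (0:ℝ), w t ^ 2) +
      2 * ε * (∫ t in Ioi (0:ℝ), w t * v t) + ε ^ 2 * (∫ t in Ioi (0:ℝ), v t ^ 2) ≤ A) :
    Adm A (fun t => w t + ε * v t) :=
  ⟨hw.mem.add (hv.mem.const_mul ε), by rw [int_sq_add hw hv ε]; exact hle⟩

/-- sign condition, direction decreasing the energy -/
theorem star (h : GData G f) (hf : Far G f V0 θ) (hV : V0 ≤ V) (hA1 : A < 1)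
    (M : PreMax G V A w) {tV : ℝ} (htV : 0 < tV) (hgt : ∀ t, tV < t → V < prim w t)
    (hle : ∀ t, 0 ≤ t → t ≤ tV → prim w t ≤ V) {T : ℝ} {v : ℝ → ℝ} (hT : tV ≤ T)
    (hv : Dir T v) (hB : ∫ t in Ioi (0:ℝ), w t * v t < 0) :
    0 ≤ ∫ t in Ioi (0:ℝ), Phi f w tV t * v t := by
  set B := ∫ t in Ioi (0:ℝ), w t * v t with hBdef
  set Q := ∫ t in Ioi (0:ℝ), v t ^ 2 with hQ
  have hQ0 : 0 ≤ Q := integral_nonneg fun t => sq_nonneg _
  refine Phi_sign h hf hV hA1 M htV hgt hle hT hv (ε0 := -2 * B / (Q + 1))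
    (div_pos (by linarith) (by linarith)) ?_
  intro ε h1 h2
  apply adm_add M.adm hv.adm
  rw [← hBdef, ← hQ]
  have h3 : ε * (Q + 1) < -2 * B := by rwa [lt_div_iff₀ (by linarith)] at h2
  have h4 := M.adm.le
  have h5 : ε ^ 2 * Q ≤ ε * (ε * (Q + 1)) := by nlinarith
  have h6 : ε * (ε * (Q + 1)) ≤ ε * (-2 * B) := mul_le_mul_of_nonneg_left h3.le h1.le
  linarith

/-- the energy of a maximiser is exactly `A` -/
theorem energy_eq_A (h : GData G f) (hf : Far G f V0 θ) (hV : V0 ≤ V) (hA1 : A < 1)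
    (M : PreMax G V A w) {tV : ℝ} (htV : 0 < tV) (hgt : ∀ t, tV < t → V < prim w t)
    (hle : ∀ t, 0 ≤ t → t ≤ tV → prim w t ≤ V) : ∫ t in Ioi (0:ℝ), w t ^ 2 = A := by
  by_contra hne
  have hlt : ∫ t in Ioi (0:ℝ), w t ^ 2 < A := lt_of_le_of_ne M.adm.le hne
  set E := ∫ t in Ioi (0:ℝ), w t ^ 2 with hE
  have hall : ∀ T v, tV ≤ T → Dir T v → 0 ≤ ∫ t in Ioi (0:ℝ), Phi f w tV t * v t := by
    intro T v hT hv
    set B := ∫ t in Ioi (0:ℝ), w t * v t with hBdef
    set Q := ∫ t in Ioi (0:ℝ), v t ^ 2 with hQ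
    have hQ0 : 0 ≤ Q := integral_nonneg fun t => sq_nonneg _
    set m := min 1 ((A - E) / (2 * |B| + Q + 1)) with hm
    have hden : 0 < 2 * |B| + Q + 1 := by positivity
    have hm0 : 0 < m := lt_min one_pos (div_pos (by linarith) hden)
    refine Phi_sign h hf hV hA1 M htV hgt hle hT hv hm0 ?_
    intro ε h1 h2
    apply adm_add M.adm hv.adm
    rw [← hBdef, ← hQ, ← hE]
    have h3 : ε < 1 := h2.trans_le (min_le_left _ _)
    have h4 : ε * (2 * |B| + Q + 1) < A - E := by
      have := h2.trans_le (min_le_right _ _)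
      rwa [lt_div_iff₀ hden] at this
    have h5 : 2 * ε * B ≤ 2 * ε * |B| := by
      apply mul_le_mul_of_nonneg_left (le_abs_self B); linarith
    have h6 : ε ^ 2 * Q ≤ ε * Q := by
      apply mul_le_mul_of_nonneg_right _ hQ0
      nlinarith
    nlinarith
  have hT : tV < tV + 1 := by linarith
  have hTpos : 0 < tV + 1 := by linarith
  set u : ℝ → ℝ := (Ioc 0 (tV + 1)).indicator (Phi f w tV) with hu
  have hum : MemLp u 2 (volume.restrict (Ioi (0:ℝ))) := Phi_ind_memLp h M.adm tV _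
  have hd := dir_center hum hTpos
  have h1 := dir_center_int hum hTpos
  set k := (∫ s in Ioc 0 (tV + 1), u s) / (tV + 1) with hk
  set v := (Ioc 0 (tV + 1)).indicator (fun t => u t - k) with hv
  have h2 := hall _ _ hT.le (hd.smul (-1))
  have e1 : ∫ t in Ioi (0:ℝ), Phi f w tV t * (-1 * v t) = -∫ t in Ioi (0:ℝ), u t * v t := by
    rw [← integral_neg, (hd.smul (-1)).integral_eq hTpos.le (Phi f w tV)]
    have e2 : ∫ t in Ioi (0:ℝ), -(u t * v t) = ∫ t in Ioc 0 (tV + 1), -(u t * v t) := by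
      have := (hd.smul (-1)).integral_eq hTpos.le u
      have e3 : (fun t => u t * (-1 * v t)) = fun t => -(u t * v t) := by funext t; ring
      rwa [e3] at this
    rw [e2]
    apply setIntegral_congr_fun measurableSet_Ioc
    intro t ht
    simp only [hu]
    rw [indicator_of_mem ht]
    ring
  rw [e1, h1] at h2
  have h3 : Integrable (fun t => (u t - k) ^ 2) (volume.restrict (Ioc 0 (tV + 1))) := by
    have : MemLp (fun t => u t - k) 2 (volume.restrict (Ioc 0 (tV + 1))) :=
      (hum.mono_measure (Measure.restrict_mono (fun _ hx => hx.1) le_rfl)).sub (memLp_const _)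
    exact this.integrable_sq
  have h4 : ∫ t in Ioc 0 (tV + 1), (u t - k) ^ 2 = 0 :=
    le_antisymm (by linarith) (integral_nonneg fun t => sq_nonneg _)
  have h5 := (integral_eq_zero_iff_of_nonneg (fun t => sq_nonneg (u t - k)) h3).1 h4
  refine Phi_not_const h hf hV M.adm htV hgt hT k ?_
  filter_upwards [h5, ae_restrict_mem measurableSet_Ioc] with t ht htm
  have h6 : u t - k = 0 := by
    have : (u t - k) ^ 2 = 0 := ht
    exact pow_eq_zero_iff (two_ne_zero) |>.1 this
  simp only [hu] at h6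
  rw [indicator_of_mem htm] at h6
  linarith

/-- the slope is not constant -/
theorem exists_neg_dir (hf : Far G f V0 θ) (hV : V0 ≤ V)
    (M : PreMax G V A w) {tV : ℝ} (htV : 0 < tV) (hpV : prim w tV = V) :
    ∃ T v, tV ≤ T ∧ Dir T v ∧ ∫ t in Ioi (0:ℝ), w t * v t < 0 := by
  have hV0 : 0 < V := by linarith [hf.V0_ge]
  have hA0 := M.adm.nonneg
  set T := max tV (A * tV ^ 2 / V ^ 2) + 1 with hT
  have hTV : tV < T := by rw [hT]; linarith [le_max_left tV (A * tV ^ 2 / V ^ 2)]
  have hTA : A * tV ^ 2 / V ^ 2 < T := by rw [hT]; linarith [le_max_right tV (A * tV ^ 2 / V ^ 2)]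
  have hTpos : 0 < T := htV.trans hTV
  have hd := dir_center M.adm.mem hTpos
  have h1 := dir_center_int M.adm.mem hTpos
  set k := (∫ s in Ioc 0 T, w s) / T with hk
  set v := (Ioc 0 T).indicator (fun t => w t - k) with hv
  refine ⟨T, _, hTV.le, hd.smul (-1), ?_⟩
  have e1 : ∫ t in Ioi (0:ℝ), w t * (-1 * v t) = -∫ t in Ioi (0:ℝ), w t * v t := by
    rw [← integral_neg]; congr 1; funext t; ring
  rw [e1, h1]
  have h0 : 0 ≤ ∫ t in Ioc 0 T, (w t - k) ^ 2 := integral_nonneg fun t => sq_nonneg _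
  rcases eq_or_lt_of_le h0 with h2 | h2
  · exfalso
    have h3 : Integrable (fun t => (w t - k) ^ 2) (volume.restrict (Ioc 0 T)) := by
      have : MemLp (fun t => w t - k) 2 (volume.restrict (Ioc 0 T)) :=
        (M.adm.memLp_Ioc le_rfl).sub (memLp_const _)
      exact this.integrable_sq
    have h5 := (integral_eq_zero_iff_of_nonneg (fun t => sq_nonneg (w t - k)) h3).1 h2.symm
    have hprim : ∀ t, 0 ≤ t → t ≤ T → prim w t = k * t := by
      intro t ht0 htT
      unfold prim
      rw [intervalIntegral.integral_of_le ht0]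
      have h6 : ∀ᵐ s ∂(volume.restrict (Ioc 0 t)), w s = k := by
        have h7 : ∀ᵐ s ∂(volume.restrict (Ioc 0 T)), w s = k := by
          filter_upwards [h5] with s hs
          have : (w s - k) ^ 2 = 0 := hs
          have := pow_eq_zero_iff (two_ne_zero) |>.1 this
          linarith
        exact h7.filter_mono (ae_mono (Measure.restrict_mono (Ioc_subset_Ioc_right htT) le_rfl))
      rw [integral_congr_ae h6]
      simp [ht0]
      ring
    have h8 := hprim tV htV.le hTV.le
    have h9 := hprim T hTpos.le le_rfl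
    have h10 := M.adm.prim_sq hTpos.le
    rw [hpV] at h8
    rw [h9] at h10
    rw [div_lt_iff₀ (by positivity)] at hTA
    -- V = k tV, (kT)² ≤ A T
    have h11 : k ^ 2 * T ≤ A := by
      have : k ^ 2 * T * T ≤ A * T := by nlinarith
      exact le_of_mul_le_mul_right this hTpos
    have h12 : V ^ 2 * T ≤ A * tV ^ 2 := by
      rw [h8]
      have : k ^ 2 * T * tV ^ 2 ≤ A * tV ^ 2 := mul_le_mul_of_nonneg_right h11 (sq_nonneg _)
      nlinarith
    linarith
  · linarith

/-- Euler-Lagrange equation in integrated form. -/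
theorem exists_EL (h : GData G f) (hf : Far G f V0 θ) (hV : V0 ≤ V) (hA1 : A < 1)
    {w0 : ℝ → ℝ} (hw0 : Adm A w0) (hN : 0 < NN2 G V w0) :
    ∃ l k tV w, EL G f V A l k tV w := by
  obtain ⟨w, hw, hnn, hmax⟩ := exists_max h hf hV hA1 hw0
  have M : PreMax G V A w := ⟨hw, hnn, hmax, hN.trans_le (hmax w0 hw0)⟩
  obtain ⟨tV, htV, hpV, hgt, hle⟩ := M.exists_tV hf hV
  have hen := energy_eq_A h hf hV hA1 M htV hgt hle
  obtain ⟨c, k, hc0, hae⟩ := lagrange htV hw.mem (Phi_cont h hw tV) (Phi_ind_memLp h hw tV)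
    (fun T v hT hv hB => star h hf hV hA1 M htV hgt hle hT hv hB)
    (exists_neg_dir hf hV M htV hpV)
  have hcpos : 0 < c := by
    rcases eq_or_lt_of_le hc0 with h1 | h1
    · exfalso
      rw [← h1] at hae
      refine Phi_not_const h hf hV hw htV hgt (T := tV + 1) (by linarith) k ?_
      have h2 := hae.filter_mono (ae_mono (Measure.restrict_mono
        (fun x (hx : x ∈ Ioc 0 (tV + 1)) => (hx.1 : x ∈ Ioi 0)) le_rfl))
      filter_upwards [h2] with t ht
      linarith
    · exact h1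
  set wb : ℝ → ℝ := fun t => 1 / c * (k - Phi f w tV t) with hwb
  have haeq : ∀ᵐ t ∂(volume.restrict (Ioi (0:ℝ))), w t = wb t := by
    filter_upwards [hae] with t ht
    simp only [hwb]
    field_simp
    linarith
  have hprim : ∀ t, 0 ≤ t → prim wb t = prim w t := by
    intro t ht
    unfold prim
    rw [intervalIntegral.integral_of_le ht, intervalIntegral.integral_of_le ht]
    apply integral_congr_ae
    have h2 := haeq.filter_mono (ae_mono (Measure.restrict_mono
        (fun x (hx : x ∈ Ioc 0 t) => (hx.1 : x ∈ Ioi 0)) le_rfl))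
    filter_upwards [h2] with s hs
    exact hs.symm
  have hPhi : Phi f wb tV = Phi f w tV := by
    funext s
    unfold Phi qq2
    congr 1
    funext t
    rw [hprim _ (le_max_right _ _)]
  have hint : ∫ t in Ioi (0:ℝ), wb t ^ 2 = ∫ t in Ioi (0:ℝ), w t ^ 2 := by
    apply integral_congr_ae
    filter_upwards [haeq] with t ht
    rw [ht]
  have hNN : NN2 G V wb = NN2 G V w := by
    unfold NN2
    apply setIntegral_congr_fun measurableSet_Ioi
    intro t ht
    simp only
    rw [hprim t (le_of_lt ht)]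
  refine ⟨1 / c, k, tV, wb, ⟨⟨(memLp_congr_ae haeq).1 hw.mem, by rw [hint]; exact hw.le⟩,
    by rw [hint, hen], by positivity, htV, ?_, ?_, ?_, ?_⟩⟩
  · intro t
    rw [hPhi]
  · rw [hprim tV htV.le, hpV]
  · intro t ht
    rw [hprim t (htV.le.trans ht.le)]
    exact hgt t ht
  · intro w' hw'
    rw [hNN]
    exact hmax w' hw'

end

end MPee
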