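import Pool.Agent.Lib.EEQ.Basic

/-! Weak compactness of balls of `L²(0,∞)`, in terms of the primitives. -/

open Real Set MeasureTheory Filter Topology

namespace MPee

/-- the Lebesgue measure on the half line -/
noncomputable abbrev mh : Measure ℝ := volume.restrict (Ioi (0:ℝ))

theorem sep_lp : TopologicalSpace.SeparableSpace (Lp ℝ 2 mh) := by
  haveI : Fact ((2 : ENNReal) ≠ ⊤) := ⟨by norm_num⟩
  haveI : SecondCountableTopology (Lp ℝ 2 mh) := inferInstance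
  infer_instance

theorem norm_sq_lp (V : Lp ℝ 2 mh) : ‖V‖ ^ 2 = ∫ t in Ioi (0:ℝ), V t ^ 2 := by
  rw [← real_inner_self_eq_norm_sq, L2.inner_def]
  refine integral_congr_ae (Eventually.of_forall fun t => ?_)
  simp only [real_inner_self_eq_norm_sq, Real.norm_eq_abs, sq_abs]

theorem Adm.norm_toLp {A : ℝ} {w : ℝ → ℝ} (h : Adm A w) :
    ‖h.mem.toLp w‖ ^ 2 = ∫ t in Ioi (0:ℝ), w t ^ 2 := by
  rw [norm_sq_lp]
  refine integral_congr_ae ?_
  filter_upwards [h.mem.coeFn_toLp] with t ht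
  rw [ht]

theorem prim_eq_inner {w : ℝ → ℝ} {V : Lp ℝ 2 mh} (hV : w =ᵐ[mh] V) {t : ℝ} (ht : 0 ≤ t) :
    prim w t = inner ℝ (indicatorConstLp 2 (measurableSet_Ioc (a := (0:ℝ)) (b := t))
      (by
        refine ne_of_lt (lt_of_le_of_lt (Measure.restrict_apply_le _ _) ?_)
        exact measure_Ioc_lt_top) (1:ℝ)) V := by
  rw [L2.inner_indicatorConstLp_one]
  have h1 : ∫ x in Ioc 0 t, V x ∂mh = ∫ x in Ioc 0 t, V x := by
    unfold mh
    rw [Measure.restrict_restrict measurableSet_Ioc]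
    congr 2
    ext x
    simp only [mem_inter_iff, mem_Ioc, mem_Ioi]
    constructor
    · exact fun h => h.1
    · exact fun h => ⟨h, h.1⟩
  rw [h1]
  unfold prim
  rw [intervalIntegral.integral_of_le ht]
  refine integral_congr_ae ?_
  exact ae_restrict_of_ae_restrict_of_subset (fun x hx => hx.1) hV

theorem weak_compact {R : ℝ} (w : ℕ → ℝ → ℝ) (hw : ∀ n, Adm R (w n)) :
    ∃ (σ : ℕ → ℕ) (v : ℝ → ℝ), StrictMono σ ∧ Adm R v ∧
      (∀ t, 0 ≤ t → Tendsto (fun k => prim (w (σ k)) t) atTop (𝓝 (prim v t))) ∧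
      (∀ C, (∃ᶠ k in atTop, ∫ t in Ioi (0:ℝ), w (σ k) t ^ 2 ≤ C) →
        ∫ t in Ioi (0:ℝ), v t ^ 2 ≤ C) := by
  haveI := sep_lp
  have hR : 0 ≤ R := (hw 0).nonneg
  set W : ℕ → Lp ℝ 2 mh := fun n => (hw n).mem.toLp (w n) with hW
  have hWn : ∀ n, ‖W n‖ ≤ √R := by
    intro n
    apply Real.le_sqrt_of_sq_le
    rw [hW, (hw n).norm_toLp]
    exact (hw n).le
  set f : ℕ → WeakDual ℝ (Lp ℝ 2 mh) := fun n =>
    StrongDual.toWeakDual (InnerProductSpace.toDual ℝ (Lp ℝ 2 mh) (W n)) with hf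
  have hfball : ∀ n, f n ∈ WeakDual.toStrongDual ⁻¹' Metric.closedBall (0 : StrongDual ℝ (Lp ℝ 2 mh)) (√R) := by
    intro n
    show InnerProductSpace.toDual ℝ (Lp ℝ 2 mh) (W n) ∈ Metric.closedBall 0 (√R)
    rw [mem_closedBall_zero_iff, LinearIsometryEquiv.norm_map]
    exact hWn n
  obtain ⟨a, -, σ, hσ, hlim⟩ := WeakDual.isSeqCompact_closedBall ℝ (Lp ℝ 2 mh) 0 (√R) hfball
  set V : Lp ℝ 2 mh := (InnerProductSpace.toDual ℝ (Lp ℝ 2 mh)).symm (WeakDual.toStrongDual a)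
    with hV
  have hinner : ∀ g : Lp ℝ 2 mh, Tendsto (fun k => inner ℝ (W (σ k)) g) atTop (𝓝 (inner ℝ V g)) := by
    intro g
    have h1 := ((WeakDual.eval_continuous g).tendsto a).comp hlim
    have h2 : a g = inner ℝ V g := by
      rw [hV, InnerProductSpace.toDual_symm_apply]
      rfl
    rw [h2] at h1
    exact h1
  have hle : ∀ C, (∃ᶠ k in atTop, ∫ t in Ioi (0:ℝ), w (σ k) t ^ 2 ≤ C) →
      ∫ t in Ioi (0:ℝ), V t ^ 2 ≤ C := by
    intro C hC
    rw [← norm_sq_lp]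
    have hC0 : 0 ≤ C := by
      obtain ⟨k, hk⟩ := hC.exists
      exact (integral_nonneg fun t => sq_nonneg (w (σ k) t)).trans hk
    have h1 : inner ℝ V V ≤ √C * ‖V‖ := by
      refine le_of_tendsto_of_frequently (hinner V) (hC.mono fun k hk => ?_)
      have h2 : ‖W (σ k)‖ ≤ √C := by
        apply Real.le_sqrt_of_sq_le
        rw [hW, (hw (σ k)).norm_toLp]
        exact hk
      exact (real_inner_le_norm _ _).trans (mul_le_mul_of_nonneg_right h2 (norm_nonneg _))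
    rw [real_inner_self_eq_norm_sq] at h1
    rcases eq_or_lt_of_le (norm_nonneg V) with h0 | h0
    · rw [← h0]; simpa using hC0
    · have h3 : ‖V‖ ≤ √C := by nlinarith
      calc ‖V‖ ^ 2 ≤ √C ^ 2 := by gcongr
        _ = C := Real.sq_sqrt hC0
  refine ⟨σ, V, hσ, ⟨Lp.memLp V, hle R (Frequently.of_forall fun k => (hw (σ k)).le)⟩, ?_, hle⟩
  intro t ht
  rw [prim_eq_inner (ae_eq_refl _) ht, real_inner_comm]
  refine (hinner _).congr fun k => ?_
  rw [prim_eq_inner (w := w (σ k)) (V := W (σ k)) (hw (σ k)).mem.coeFn_toLp.symm ht,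
    real_inner_comm]

end MPee
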